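import Mathlib
import Pool.Agent.N753.LS.Bound
import Pool.Agent.N753.LS.Cell

/-!
# The larger sieve, with a gain for every pair of points
-/

set_option autoImplicit false

namespace Pool.Agent.N753.SF

open NumberField IsDedekindDomain Finset Pool.Agent.H691R3 Pool.Agent.TH876.Loc
open Pool.Agent.N753.LS

section Abs

variable {K : Type} [Field K] [NumberField K]

open Classical in
/-- **the larger sieve** -/
theorem larger_sieve2 (S : Finset K) (Λ : ℝ) (P : Finset (HeightOneSpectrum (𝓞 K)))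
    (key : ∀ x ∈ S, ∀ y ∈ S, x ≠ y →
      ∑ v ∈ P, (if cls v y = cls v x then Real.log (Nv v) else 0) ≤ Λ)
    (ν : HeightOneSpectrum (𝓞 K) → ℝ)
    (hν : ∀ v ∈ P, 0 < ν v ∧ ((S.image (cls v)).card : ℝ) ≤ ν v) (h2 : 2 ≤ S.card) :
    (S.card : ℝ) * (∑ v ∈ P, Real.log (Nv v) / ν v - Λ) ≤ ∑ v ∈ P, Real.log (Nv v) := by
  have hlog : ∀ v : HeightOneSpectrum (𝓞 K), 0 < Real.log (Nv v) := log_Nv_pos
  have hΛ0 : 0 ≤ Λ := by
    obtain ⟨x, hx, y, hy, hxy⟩ := Finset.one_lt_card.1 (show 1 < S.card by omega)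
    refine le_trans (Finset.sum_nonneg fun v _ => ?_) (key x hx y hy hxy)
    split_ifs
    · exact (hlog v).le
    · exact le_rfl
  -- the double sum
  have h3 : ∑ v ∈ P, Real.log (Nv v) * (∑ x ∈ S, ((S.filter fun y => cls v y = cls v x).card : ℝ)) ≤
      (S.card : ℝ) * (∑ v ∈ P, Real.log (Nv v)) + (S.card : ℝ) * (((S.card : ℝ) - 1) * Λ) := by
    have h4 : ∑ v ∈ P, Real.log (Nv v) *
        (∑ x ∈ S, ((S.filter fun y => cls v y = cls v x).card : ℝ)) =
        ∑ x ∈ S, ∑ y ∈ S, ∑ v ∈ P, (if cls v y = cls v x then Real.log (Nv v) else 0) := by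
      have h5 : ∀ v ∈ P, Real.log (Nv v) *
          (∑ x ∈ S, ((S.filter fun y => cls v y = cls v x).card : ℝ)) =
          ∑ x ∈ S, ∑ y ∈ S, (if cls v y = cls v x then Real.log (Nv v) else 0) := by
        intro v _
        rw [Finset.mul_sum]
        refine Finset.sum_congr rfl fun x _ => ?_
        rw [← Finset.sum_filter, Finset.sum_const, nsmul_eq_mul, mul_comm]
      rw [Finset.sum_congr rfl h5, Finset.sum_comm]
      refine Finset.sum_congr rfl fun x _ => ?_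
      rw [Finset.sum_comm]
    rw [h4]
    calc ∑ x ∈ S, ∑ y ∈ S, ∑ v ∈ P, (if cls v y = cls v x then Real.log (Nv v) else 0)
        ≤ ∑ x ∈ S, (∑ v ∈ P, Real.log (Nv v) + ((S.card : ℝ) - 1) * Λ) := by
          refine Finset.sum_le_sum fun x hx => ?_
          rw [← Finset.add_sum_erase _ _ hx]
          refine add_le_add ?_ ?_
          · refine Finset.sum_le_sum fun v _ => ?_
            rw [if_pos rfl]
          · calc ∑ y ∈ S.erase x, ∑ v ∈ P, (if cls v y = cls v x then Real.log (Nv v) else 0)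
                ≤ ∑ y ∈ S.erase x, Λ := by
                  refine Finset.sum_le_sum fun y hy => ?_
                  obtain ⟨hy1, hy2⟩ := Finset.mem_erase.1 hy
                  exact key x hx y hy2 (Ne.symm hy1)
              _ = ((S.card : ℝ) - 1) * Λ := by
                  rw [Finset.sum_const, nsmul_eq_mul, Finset.card_erase_of_mem hx,
                    Nat.cast_sub (by omega), Nat.cast_one]
      _ = _ := by
          rw [Finset.sum_const, nsmul_eq_mul]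
          ring
  have h4 : (S.card : ℝ) ^ 2 * ∑ v ∈ P, Real.log (Nv v) / ν v ≤
      ∑ v ∈ P, Real.log (Nv v) * (∑ x ∈ S, ((S.filter fun y => cls v y = cls v x).card : ℝ)) := by
    rw [Finset.mul_sum]
    refine Finset.sum_le_sum fun v hv => ?_
    obtain ⟨hν0, hν1⟩ := hν v hv
    have h5 := pairs_ge S (cls v) hν1
    rw [mul_div_assoc', div_le_iff₀ hν0]
    calc (S.card : ℝ) ^ 2 * Real.log (Nv v) ≤
        (ν v * ∑ x ∈ S, ((S.filter fun y => cls v y = cls v x).card : ℝ)) * Real.log (Nv v) :=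
          mul_le_mul_of_nonneg_right h5 (hlog v).le
      _ = _ := by ring
  have hS0 : (0 : ℝ) < S.card := by
    have : 0 < S.card := by omega
    exact_mod_cast this
  have h5 := h4.trans h3
  have h6 : (S.card : ℝ) * ((S.card : ℝ) * (∑ v ∈ P, Real.log (Nv v) / ν v - Λ)) ≤
      (S.card : ℝ) * ∑ v ∈ P, Real.log (Nv v) := by
    nlinarith
  exact le_of_mul_le_mul_left h6 hS0

end Abs

variable (K : Type) [Field K] [NumberField K]

open Classical in
/-- a set of points every two of which are close outside `G` with the total gain `γ`, and which meet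
at most `N(v) / κ + O(√N(v))` classes modulo the primes not in `G` -/
theorem ls_bound2 {κ : ℝ} (hκ : 1 ≤ κ) {K' : ℝ} (hK' : 0 ≤ K') (Bad : Finset (Pr K)) {δ : ℝ}
    (hδ : 0 < δ) : ∃ C : ℝ, 0 < C ∧ ∀ H : ℝ, 0 ≤ H → ∀ S : Finset K,
      ∀ (G : Finset (Pr K)) (g : ℝ), ∑ v ∈ G, Real.log (Nv v) ≤ g →
        (∀ x ∈ S, ∀ y ∈ S, x ≠ y → ∀ Q : Finset (Pr K), Disjoint Q G →
          (∀ v ∈ Q, cls v x = cls v y) → g + ∑ v ∈ Q, Real.log (Nv v) ≤ 2 * H + lossK K) →
        (∀ v, v ∉ G → v ∉ Bad →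
          ((S.image (cls v)).card : ℝ) ≤ Nv v / κ + K' * Real.sqrt (Nv v)) →
        (S.card : ℝ) ≤ 1 + C * Real.exp (δ * H + (2 * H - g) / κ) := by
  have hκ0 : 0 < κ := by linarith
  obtain ⟨η, hη⟩ : ∃ η : ℝ, η = min (1 / 2) (δ / 8) := ⟨_, rfl⟩
  have hη0 : 0 < η := by rw [hη]; exact lt_min (by norm_num) (by positivity)
  have hη1 : η ≤ 1 / 2 := by rw [hη]; exact min_le_left _ _
  have hη2 : 8 * η ≤ δ := by
    have := min_le_right (1 / 2) (δ / 8)
    rw [hη]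
    linarith
  obtain ⟨C1, hC1, hmert⟩ := mertens_lower K hη0
  obtain ⟨C2, hC2, htheta⟩ := theta_le K
  obtain ⟨C3, hC3, h32⟩ := sum_log_le K
  obtain ⟨C4, hC4, hset⟩ := sum_set_le K hη0
  obtain ⟨Cb, hCb⟩ : ∃ Cb : ℝ, Cb = ∑ v ∈ Bad, Real.log (Nv v) / Nv v := ⟨_, rfl⟩
  have hterm : ∀ v : Pr K, 0 ≤ Real.log (Nv v) / Nv v := fun v => by
    have h2 := log_Nv_pos v
    have h3 := Nv_pos v
    positivity
  have hCb0 : 0 ≤ Cb := by
    rw [hCb]
    exact Finset.sum_nonneg fun v _ => hterm v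
  obtain ⟨ℓ, hℓ⟩ : ∃ ℓ : ℝ, ℓ = lossK K := ⟨_, rfl⟩
  have hℓ0 : 0 ≤ ℓ := by rw [hℓ]; exact lossK_nonneg K
  obtain ⟨C5, hC5⟩ : ∃ C5 : ℝ, C5 = κ * (C1 + C4 + Cb) + κ ^ 2 * K' * C3 := ⟨_, rfl⟩
  have hC50 : 0 ≤ C5 := by rw [hC5]; positivity
  refine ⟨(C2 + 1) * Real.exp (ℓ + 4 * η * ℓ + 2 * (C5 + 1)), by positivity, ?_⟩
  intro H hH S G g hGg hpair hcls
  by_cases h2 : 2 ≤ S.card
  swap
  · have h3 : (S.card : ℝ) ≤ 1 := by
      have : S.card ≤ 1 := by omega
      exact_mod_cast this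
    have : 0 ≤ (C2 + 1) * Real.exp (ℓ + 4 * η * ℓ + 2 * (C5 + 1)) *
      Real.exp (δ * H + (2 * H - g) / κ) := by positivity
    linarith
  have hg0 : 0 ≤ g := by
    refine le_trans ?_ hGg
    exact Finset.sum_nonneg fun v _ => (log_Nv_pos v).le
  have hgle : g ≤ 2 * H + ℓ := by
    obtain ⟨x, hx, y, hy, hxy⟩ := Finset.one_lt_card.1 (show 1 < S.card by omega)
    have := hpair x hx y hy hxy ∅ (Finset.disjoint_empty_left _) (by simp)
    rw [Finset.sum_empty] at this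
    rw [hℓ]
    linarith
  -- the parameter
  obtain ⟨Λ, hΛ⟩ : ∃ Λ : ℝ, Λ = 2 * H + ℓ - g := ⟨_, rfl⟩
  have hΛ0 : 0 ≤ Λ := by linarith
  have hden : 0 < κ * (1 - η) := mul_pos hκ0 (by linarith)
  obtain ⟨t, ht⟩ : ∃ t : ℝ, t = (Λ + κ * η * (2 * H + ℓ) + C5 + 1) / (κ * (1 - η)) := ⟨_, rfl⟩
  have ht' : κ * (1 - η) * t = Λ + κ * η * (2 * H + ℓ) + C5 + 1 := by
    rw [ht, mul_div_cancel₀ _ hden.ne']
  obtain ⟨P, hP⟩ : ∃ P : Finset (Pr K), P = PP K (Real.exp t) \ (G ∪ Bad) := ⟨_, rfl⟩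
  have hPG : Disjoint P G := by
    rw [hP, Finset.disjoint_left]
    intro v hv hv'
    exact (Finset.mem_sdiff.1 hv).2 (Finset.mem_union_left _ hv')
  have hν : ∀ v ∈ P, 0 < Nv v / κ + K' * Real.sqrt (Nv v) ∧
      ((S.image (cls v)).card : ℝ) ≤ Nv v / κ + K' * Real.sqrt (Nv v) := by
    intro v hv
    rw [hP, Finset.mem_sdiff, Finset.mem_union, not_or] at hv
    refine ⟨?_, hcls v hv.2.1 hv.2.2⟩
    have := Nv_pos v
    positivity
  have hsieve := larger_sieve2 S Λ P (by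
    intro x hx y hy hxy
    have h1 := hpair x hx y hy hxy (P.filter fun v => cls v y = cls v x)
      (hPG.mono_left (Finset.filter_subset _ _)) (fun v hv => (Finset.mem_filter.1 hv).2.symm)
    rw [← Finset.sum_filter, hΛ, hℓ]
    linarith) (fun v => Nv v / κ + K' * Real.sqrt (Nv v)) hν h2
  have ht0 : 0 ≤ t := by
    rw [ht]
    positivity
  -- the lower bound for the sum
  have hW : κ * (1 - η) * t - κ * η * (2 * H + ℓ) - C5 ≤
      ∑ v ∈ P, Real.log (Nv v) / (Nv v / κ + K' * Real.sqrt (Nv v)) := by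
    have h3 : ∑ v ∈ P, (κ * (Real.log (Nv v) / Nv v) -
        κ ^ 2 * K' * (Real.log (Nv v) / Nv v ^ (3 / 2 : ℝ))) ≤
        ∑ v ∈ P, Real.log (Nv v) / (Nv v / κ + K' * Real.sqrt (Nv v)) :=
      Finset.sum_le_sum fun v _ => inv_nu hκ0 hK' (two_le_Nv v) (log_Nv_pos v).le
    rw [Finset.sum_sub_distrib, ← Finset.mul_sum, ← Finset.mul_sum] at h3
    have h4 := h32 P
    have h5 : ∑ v ∈ PP K (Real.exp t), Real.log (Nv v) / Nv v ≤
        ∑ v ∈ P, Real.log (Nv v) / Nv v + (∑ v ∈ G, Real.log (Nv v) / Nv v + Cb) := by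
      have h6 : ∑ v ∈ PP K (Real.exp t), Real.log (Nv v) / Nv v ≤
          ∑ v ∈ P ∪ (G ∪ Bad), Real.log (Nv v) / Nv v := by
        refine Finset.sum_le_sum_of_subset_of_nonneg ?_ fun v _ _ => hterm v
        intro v hv
        rw [Finset.mem_union]
        by_cases h : v ∈ G ∪ Bad
        · exact Or.inr h
        · left
          rw [hP, Finset.mem_sdiff]
          exact ⟨hv, h⟩
      have h7 : ∀ A B : Finset (Pr K), ∑ v ∈ A ∪ B, Real.log (Nv v) / Nv v ≤
          ∑ v ∈ A, Real.log (Nv v) / Nv v + ∑ v ∈ B, Real.log (Nv v) / Nv v := by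
        intro A B
        rw [← Finset.sum_union_inter]
        have : 0 ≤ ∑ v ∈ A ∩ B, Real.log (Nv v) / Nv v := Finset.sum_nonneg fun v _ => hterm v
        linarith
      have h8 := h7 P (G ∪ Bad)
      have h9 := h7 G Bad
      rw [hCb]
      linarith
    have h6 := hmert (Real.exp t) (Real.one_le_exp ht0)
    rw [Real.log_exp] at h6
    have h7 := hset G
    have h8 : (1 - η) * t - C1 - (η * (2 * H + ℓ) + C4 + Cb) ≤ ∑ v ∈ P, Real.log (Nv v) / Nv v := by
      have : η * ∑ v ∈ G, Real.log (Nv v) ≤ η * (2 * H + ℓ) :=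
        mul_le_mul_of_nonneg_left (hGg.trans hgle) hη0.le
      linarith
    have h9 := mul_le_mul_of_nonneg_left h8 hκ0.le
    have h10 : κ ^ 2 * K' * ∑ v ∈ P, Real.log (Nv v) / Nv v ^ (3 / 2 : ℝ) ≤ κ ^ 2 * K' * C3 :=
      mul_le_mul_of_nonneg_left h4 (by positivity)
    rw [hC5]
    nlinarith
  have hW1 : 1 ≤ ∑ v ∈ P, Real.log (Nv v) / (Nv v / κ + K' * Real.sqrt (Nv v)) - Λ := by
    linarith
  have hΘ : ∑ v ∈ P, Real.log (Nv v) ≤ C2 * Real.exp t := by
    refine le_trans (Finset.sum_le_sum_of_subset_of_nonneg ?_ fun v _ _ => (log_Nv_pos v).le)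
      (htheta (Real.exp t) (Real.exp_pos t).le)
    rw [hP]
    exact Finset.sdiff_subset
  have hS1 : (S.card : ℝ) ≤ C2 * Real.exp t := by
    have h3 : (S.card : ℝ) * 1 ≤ (S.card : ℝ) *
        (∑ v ∈ P, Real.log (Nv v) / (Nv v / κ + K' * Real.sqrt (Nv v)) - Λ) :=
      mul_le_mul_of_nonneg_left hW1 (Nat.cast_nonneg _)
    linarith
  have ht1 : t ≤ ℓ + 4 * η * ℓ + 2 * (C5 + 1) + (δ * H + (2 * H - g) / κ) := by
    rw [ht, div_le_iff₀ hden]
    -- it suffices to multiply out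
    obtain ⟨u, hu⟩ : ∃ u : ℝ, u = (2 * H - g) / κ := ⟨_, rfl⟩
    have hu' : 2 * H - g = κ * u := by rw [hu]; field_simp
    rw [← hu]
    have hΛu : Λ = κ * u + ℓ := by linarith
    rw [hΛu] at hΛ0 ⊢
    obtain ⟨A, hA⟩ : ∃ A : ℝ, A = κ * (η * H) := ⟨_, rfl⟩
    obtain ⟨D, hD⟩ : ∃ D : ℝ, D = κ * (η * ℓ) := ⟨_, rfl⟩
    have hηH : 0 ≤ η * H := by positivity
    have hηℓ : 0 ≤ η * ℓ := by positivity
    have hηH' : η * H ≤ A := by rw [hA]; nlinarith
    have hu1 : κ * u ≤ 2 * H := by linarith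
    have e1 : κ * u - 2 * A ≤ κ * (1 - η) * u := by
      have h1 : η * (κ * u) ≤ η * (2 * H) := mul_le_mul_of_nonneg_left hu1 hη0.le
      have h2 : κ * (1 - η) * u = κ * u - η * (κ * u) := by ring
      linarith
    have e2 : 4 * A ≤ κ * (1 - η) * (δ * H) := by
      have h0 : 8 * (η * H) ≤ δ * H := by
        have := mul_le_mul_of_nonneg_right hη2 hH
        linarith
      have h1 : (1 / 2) * (δ * H) ≤ (1 - η) * (δ * H) :=
        mul_le_mul_of_nonneg_right (by linarith) (by positivity)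
      have h2 : κ * (4 * (η * H)) ≤ κ * ((1 - η) * (δ * H)) :=
        mul_le_mul_of_nonneg_left (by linarith) hκ0.le
      rw [hA]
      linarith
    have e3 : 2 * D ≤ κ * (1 - η) * (4 * η * ℓ) := by
      have h1 : (1 / 2) * (4 * (η * ℓ)) ≤ (1 - η) * (4 * (η * ℓ)) :=
        mul_le_mul_of_nonneg_right (by linarith) (by positivity)
      have h2 : κ * (2 * (η * ℓ)) ≤ κ * ((1 - η) * (4 * (η * ℓ))) :=
        mul_le_mul_of_nonneg_left (by linarith) hκ0.le
      rw [hD]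
      linarith
    have e4 : ℓ - D ≤ κ * (1 - η) * ℓ := by
      have h1 : κ * (1 - η) * ℓ = κ * ℓ - D := by rw [hD]; ring
      have h2 : 1 * ℓ ≤ κ * ℓ := mul_le_mul_of_nonneg_right hκ hℓ0
      linarith
    have e5 : C5 + 1 ≤ κ * (1 - η) * (2 * (C5 + 1)) := by
      have h1 : 1 * (1 / 2) ≤ κ * (1 - η) :=
        mul_le_mul hκ (by linarith) (by norm_num) hκ0.le
      have h2 : (1 / 2) * (2 * (C5 + 1)) ≤ κ * (1 - η) * (2 * (C5 + 1)) :=
        mul_le_mul_of_nonneg_right (by linarith) (by positivity)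
      linarith
    have e6 : κ * η * (2 * H + ℓ) = 2 * A + D := by rw [hA, hD]; ring
    have e7 : (ℓ + 4 * η * ℓ + 2 * (C5 + 1) + (δ * H + u)) * (κ * (1 - η)) =
        κ * (1 - η) * u + κ * (1 - η) * (δ * H) + κ * (1 - η) * (4 * η * ℓ) +
          κ * (1 - η) * ℓ + κ * (1 - η) * (2 * (C5 + 1)) := by ring
    rw [e6, e7]
    linarith
  calc (S.card : ℝ) ≤ C2 * Real.exp t := hS1
    _ ≤ (C2 + 1) * Real.exp (ℓ + 4 * η * ℓ + 2 * (C5 + 1) + (δ * H + (2 * H - g) / κ)) := by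
        refine mul_le_mul (by linarith) (Real.exp_le_exp.2 ht1) (Real.exp_pos _).le (by linarith)
    _ = (C2 + 1) * Real.exp (ℓ + 4 * η * ℓ + 2 * (C5 + 1)) *
        Real.exp (δ * H + (2 * H - g) / κ) := by
        rw [Real.exp_add (ℓ + 4 * η * ℓ + 2 * (C5 + 1)), ← mul_assoc]
    _ ≤ _ := by linarith

/-- there are at most `N(v) + 1` classes modulo `v` -/
theorem card_cls (v : Pr K) (S : Finset K) [DecidableEq (Option (kk v))] :
    ((S.image (cls v)).card : ℝ) ≤ Nv v / 1 + 1 * Real.sqrt (Nv v) := by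
  have h1 : (S.image (cls v)).card ≤ Fintype.card (Option (kk v)) := Finset.card_le_univ _
  have hs1 : 1 ≤ Real.sqrt (Nv v) := by
    rw [Real.one_le_sqrt]
    linarith [two_le_Nv v]
  rw [Fintype.card_option] at h1
  have h2 : ((S.image (cls v)).card : ℝ) ≤ (Fintype.card (kk v) : ℝ) + 1 := by exact_mod_cast h1
  rw [card_kk] at h2
  linarith

end Pool.Agent.N753.SF
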