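import Mathlib
import Pool.Agent.N753.SF.Sieve2

/-!
# Points at which a polynomial is small at one place
-/

set_option autoImplicit false

namespace Pool.Agent.N753.SF

open NumberField IsDedekindDomain Finset Pool.Agent.H691R3 Pool.Agent.TH876.Loc
open Pool.Agent.N753.LS Polynomial

section Abs

variable {K : Type} [Field K]

theorem abs_sum_le (g : AbsoluteValue K ℝ) {ι : Type} (s : Finset ι) (h : ι → K) :
    g (∑ i ∈ s, h i) ≤ ∑ i ∈ s, g (h i) := by
  classical
  induction s using Finset.induction_on with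
  | empty => simp
  | insert a s ha ih =>
    rw [Finset.sum_insert ha, Finset.sum_insert ha]
    exact (g.add_le _ _).trans (add_le_add le_rfl ih)

/-- the values of a polynomial at large elements are large -/
theorem large (g : AbsoluteValue K ℝ) (f : K[X]) (hk : 1 ≤ f.natDegree) :
    ∃ R l : ℝ, 1 ≤ R ∧ 0 < l ∧ l = g f.leadingCoeff ∧
      ∀ x : K, R < g x → l / 2 * g x ^ f.natDegree ≤ g (f.eval x) := by
  have hf0 : f ≠ 0 := by
    rintro rfl
    simp at hk
  have hl : 0 < g f.leadingCoeff := g.pos (leadingCoeff_ne_zero.2 hf0)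
  obtain ⟨A, hA⟩ : ∃ A : ℝ, A = ∑ i ∈ Finset.range f.natDegree, g (f.coeff i) := ⟨_, rfl⟩
  have hA0 : 0 ≤ A := by
    rw [hA]
    exact Finset.sum_nonneg fun i _ => g.nonneg _
  refine ⟨max 1 (2 * A / g f.leadingCoeff), g f.leadingCoeff, le_max_left _ _, hl, rfl, ?_⟩
  intro x hx
  have hx1 : 1 < g x := (le_max_left _ _).trans_lt hx
  have hx2 : 2 * A / g f.leadingCoeff < g x := (le_max_right _ _).trans_lt hx
  rw [div_lt_iff₀ hl] at hx2
  have e : f.eval x = f.leadingCoeff * x ^ f.natDegree +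
      ∑ i ∈ Finset.range f.natDegree, f.coeff i * x ^ i := by
    rw [eval_eq_sum_range, Finset.sum_range_succ, add_comm]
    rfl
  have h1 : g (∑ i ∈ Finset.range f.natDegree, f.coeff i * x ^ i) ≤
      A * g x ^ (f.natDegree - 1) := by
    refine (abs_sum_le g _ _).trans ?_
    rw [hA, Finset.sum_mul]
    refine Finset.sum_le_sum fun i hi => ?_
    rw [g.map_mul, g.map_pow]
    refine mul_le_mul_of_nonneg_left ?_ (g.nonneg _)
    refine pow_le_pow_right₀ hx1.le ?_
    have := Finset.mem_range.1 hi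
    omega
  have h2 : g (f.leadingCoeff * x ^ f.natDegree) = g f.leadingCoeff * g x ^ f.natDegree := by
    rw [g.map_mul, g.map_pow]
  have h3 : g (f.leadingCoeff * x ^ f.natDegree) ≤ g (f.eval x) +
      g (∑ i ∈ Finset.range f.natDegree, f.coeff i * x ^ i) := by
    have e2 : f.leadingCoeff * x ^ f.natDegree = f.eval x +
        -(∑ i ∈ Finset.range f.natDegree, f.coeff i * x ^ i) := by
      rw [e]
      ring
    rw [e2]
    refine (g.add_le _ _).trans ?_
    rw [g.map_neg]
  have h4 : g x ^ f.natDegree = g x * g x ^ (f.natDegree - 1) := by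
    rw [← pow_succ']
    congr 1
    omega
  have h5 : 0 < g x ^ (f.natDegree - 1) := by positivity
  rw [h2] at h3
  have h6 : A * g x ^ (f.natDegree - 1) ≤ g f.leadingCoeff / 2 * g x ^ f.natDegree := by
    rw [h4]
    have : A ≤ g f.leadingCoeff / 2 * g x := by linarith
    calc A * g x ^ (f.natDegree - 1) ≤ (g f.leadingCoeff / 2 * g x) * g x ^ (f.natDegree - 1) :=
          mul_le_mul_of_nonneg_right this h5.le
      _ = _ := by ring
  linarith

/-- **clusters** -/
theorem cluster (g : AbsoluteValue K ℝ) (f : K[X]) (hk : 1 ≤ f.natDegree) :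
    ∃ C M : ℝ, 0 ≤ C ∧ 1 ≤ M ∧ ∀ t : ℝ, C < t → ∀ S : Finset K,
      (∀ x ∈ S, g (f.eval x) ≤ Real.exp (-t) * max (g x) 1 ^ f.natDegree) →
        ∃ T : Finset K, T ⊆ S ∧ T.card ≤ f.natDegree ∧
          ∀ x ∈ S, ∃ c ∈ T, g (x - c) ≤ Real.exp (-(t / f.natDegree)) * M := by
  classical
  obtain ⟨R, l, hR, hl, hll, hlarge⟩ := large g f hk
  obtain ⟨k, hkk⟩ : ∃ k, k = f.natDegree := ⟨_, rfl⟩
  rw [← hkk] at hk hlarge ⊢
  have hkR : (1 : ℝ) ≤ k := by exact_mod_cast hk
  obtain ⟨M, hM⟩ : ∃ M : ℝ, M = max 1 ((k + 1) * R ^ k * 2 / l) := ⟨_, rfl⟩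
  have hM1 : 1 ≤ M := by rw [hM]; exact le_max_left _ _
  have hM2 : (k + 1) * R ^ k * 2 / l ≤ M ^ k := by
    refine le_trans ?_ (le_self_pow₀ hM1 (by omega))
    rw [hM]
    exact le_max_right _ _
  refine ⟨max 0 (Real.log (2 / l)), M, le_max_left _ _, hM1, ?_⟩
  intro t ht S hS
  have ht1 : Real.log (2 / l) < t := (le_max_right _ _).trans_lt ht
  have hSR : ∀ x ∈ S, g x ≤ R := by
    intro x hx
    by_contra hcon
    rw [not_le] at hcon
    have h1 := hlarge x hcon
    have h2 := hS x hx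
    rw [max_eq_left (hR.trans hcon.le)] at h2
    have h3 : 0 < g x ^ k := by
      have : 0 < g x := by linarith
      positivity
    have h4 : l / 2 ≤ Real.exp (-t) := le_of_mul_le_mul_right (h1.trans h2) h3
    have h5 : Real.exp (-t) < l / 2 := by
      have h6 : Real.exp (-t) < Real.exp (-Real.log (2 / l)) := Real.exp_lt_exp.2 (by linarith)
      rw [Real.exp_neg (Real.log (2 / l)), Real.exp_log (by positivity)] at h6
      rwa [inv_div] at h6
    linarith
  obtain ⟨ρ, hρ⟩ : ∃ ρ : ℝ, ρ = Real.exp (-(t / k)) * M := ⟨_, rfl⟩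
  have hρ0 : 0 < ρ := by rw [hρ]; positivity
  have hρk : Real.exp (-t) * ((k + 1) * R ^ k * 2 / l) ≤ ρ ^ k := by
    rw [hρ, mul_pow, ← Real.exp_nat_mul]
    have : (k : ℝ) * -(t / k) = -t := by
      field_simp
    rw [this]
    exact mul_le_mul_of_nonneg_left hM2 (Real.exp_pos _).le
  rw [← hρ]
  -- a maximal separated subset
  let 𝒯 : Finset (Finset K) := S.powerset.filter fun T => ∀ x ∈ T, ∀ y ∈ T, x ≠ y → ρ < g (x - y)
  have hne : 𝒯.Nonempty := ⟨∅, by simp [𝒯]⟩
  obtain ⟨T, hT, hTmax⟩ := Finset.exists_max_image 𝒯 Finset.card hne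
  obtain ⟨hT1, hT2⟩ := Finset.mem_filter.1 hT
  rw [Finset.mem_powerset] at hT1
  refine ⟨T, hT1, ?_, ?_⟩
  · by_contra hcon
    rw [not_le] at hcon
    obtain ⟨U, hU, hUc⟩ := Finset.exists_subset_card_eq (show k + 1 ≤ T.card by omega)
    have hf0 : f ≠ 0 := by
      rintro rfl
      simp at hkk
      omega
    have h1 := Lagrange.leadingCoeff_eq_sum (F := K) (s := U) (v := id) (Set.injOn_id _) (P := f)
      (by rw [degree_eq_natDegree hf0, hUc, ← hkk]; rfl)
    have h2 : l ≤ ∑ x ∈ U, g (f.eval x) / ∏ y ∈ U.erase x, g (x - y) := by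
      rw [hll, h1]
      refine (abs_sum_le g _ _).trans (le_of_eq (Finset.sum_congr rfl fun x _ => ?_))
      rw [map_div₀, map_prod]
      rfl
    have h3 : ∀ x ∈ U, g (f.eval x) / ∏ y ∈ U.erase x, g (x - y) ≤
        Real.exp (-t) * R ^ k / ρ ^ k := by
      intro x hx
      have hxS := hT1 (hU hx)
      have h4 : ρ ^ k ≤ ∏ y ∈ U.erase x, g (x - y) := by
        have h5 : ρ ^ k = ∏ _y ∈ U.erase x, ρ := by
          rw [Finset.prod_const, Finset.card_erase_of_mem hx, hUc]
          rfl
        rw [h5]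
        refine Finset.prod_le_prod (fun _ _ => hρ0.le) fun y hy => ?_
        obtain ⟨hy1, hy2⟩ := Finset.mem_erase.1 hy
        exact (hT2 x (hU hx) y (hU hy2) (Ne.symm hy1)).le
      have h5 : g (f.eval x) ≤ Real.exp (-t) * R ^ k := by
        refine (hS x hxS).trans ?_
        refine mul_le_mul_of_nonneg_left ?_ (Real.exp_pos _).le
        exact pow_le_pow_left₀ (by positivity) (max_le (hSR x hxS) hR) k
      exact div_le_div₀ (by positivity) h5 (by positivity) h4
    have h4 : l ≤ (k + 1) * (Real.exp (-t) * R ^ k / ρ ^ k) := by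
      refine h2.trans ((Finset.sum_le_sum h3).trans (le_of_eq ?_))
      rw [Finset.sum_const, hUc, nsmul_eq_mul]
      push_cast
      ring
    have h5 : (k + 1) * (Real.exp (-t) * R ^ k / ρ ^ k) ≤ l / 2 := by
      rw [mul_div_assoc', div_le_iff₀ (by positivity)]
      have h6 := mul_le_mul_of_nonneg_left hρk (show (0 : ℝ) ≤ l / 2 by positivity)
      refine le_trans (le_of_eq ?_) h6
      field_simp
    linarith
  · intro x hx
    by_contra hcon
    push Not at hcon
    have hxT : x ∉ T := by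
      intro h
      have := hcon x h
      rw [sub_self, g.map_zero] at this
      linarith
    have h1 : insert x T ∈ 𝒯 := by
      rw [Finset.mem_filter, Finset.mem_powerset]
      refine ⟨Finset.insert_subset hx hT1, ?_⟩
      intro a ha b hb hab
      rcases Finset.mem_insert.1 ha with rfl | ha'
      · rcases Finset.mem_insert.1 hb with rfl | hb'
        · exact absurd rfl hab
        · exact hcon b hb'
      · rcases Finset.mem_insert.1 hb with rfl | hb'
        · rw [← g.map_neg, neg_sub]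
          exact hcon a ha'
        · exact hT2 a ha' b hb' hab
    have h2 := hTmax _ h1
    rw [Finset.card_insert_of_notMem hxT] at h2
    omega

end Abs

end Pool.Agent.N753.SF
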