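import Mathlib
import Pool.Agent.N753.SF.Clu
import Pool.Agent.N753.LS.Odd

/-!
# Local heights of a point with respect to the zeros of a polynomial
-/

set_option autoImplicit false

namespace Pool.Agent.N753.SF

open NumberField IsDedekindDomain Finset Pool.Agent.H691R3 Pool.Agent.TH876.Loc
open Pool.Agent.N753.LS Polynomial

variable {K : Type} [Field K] [NumberField K]

/-- the local height of a point -/
noncomputable def mx (p : Pl K) (x : K) : ℝ :=
  Sum.elim (fun w : InfinitePlace K => (w.mult : ℝ) * Real.log (max (w x) 1))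
    (fun v : HeightOneSpectrum (𝓞 K) => Real.log (max (fv v x) 1)) p

/-- the logarithm of the absolute value -/
noncomputable def nm (p : Pl K) (z : K) : ℝ :=
  Sum.elim (fun w : InfinitePlace K => (w.mult : ℝ) * Real.log (w z))
    (fun v : HeightOneSpectrum (𝓞 K) => Real.log (fv v z)) p

/-- the local height with respect to the zeros of `f` -/
noncomputable def mu (p : Pl K) (f : (𝓞 K)[X]) (x : K) : ℝ :=
  f.natDegree * mx p x - nm p (aeval x f)

theorem mx_nonneg (p : Pl K) (x : K) : 0 ≤ mx p x := by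
  rcases p with w | v
  · exact mul_nonneg (Nat.cast_nonneg _) (Real.log_nonneg (le_max_right _ _))
  · exact Real.log_nonneg (le_max_right _ _)

theorem mx_fin (x : K) : {v : Pr K | mx (Sum.inr v) x ≠ 0}.Finite := by
  refine (log_max_support_finite (aff_ne_zero x)).subset ?_
  intro v hv
  rw [Function.mem_support]
  have h1 : max (fv v (aff x).1) (fv v (aff x).2) = max (fv v x) 1 := by
    show max (fv v x) (fv v 1) = _
    rw [map_one]
  rw [h1]
  exact hv

theorem hr_eq (x : K) : hr (aff x) = ∑ w : InfinitePlace K, mx (Sum.inl w) x +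
    ∑ᶠ v : Pr K, mx (Sum.inr v) x := by
  unfold hr
  congr 1
  · refine Finset.sum_congr rfl fun w _ => ?_
    show (w.mult : ℝ) * Real.log (max (w x) (w 1)) = _
    rw [map_one]
    rfl
  · refine finsum_congr fun v => ?_
    show Real.log (max (fv v x) (fv v 1)) = _
    rw [map_one]
    rfl

/-- the sum of all the local heights with respect to the zeros of `f` -/
theorem sum_mu (f : (𝓞 K)[X]) {x : K} (hx : aeval x f ≠ 0) (F : Finset (Pr K))
    (hF : ∀ v ∉ F, mu (Sum.inr v) f x = 0) :
    ∑ w : InfinitePlace K, mu (Sum.inl w) f x + ∑ v ∈ F, mu (Sum.inr v) f x =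
      f.natDegree * hr (aff x) := by
  classical
  have h1 := log_product_formula hx
  have h2 : ∑ᶠ v : Pr K, mu (Sum.inr v) f x = ∑ v ∈ F, mu (Sum.inr v) f x := by
    refine finsum_eq_sum_of_support_subset _ ?_
    intro v hv
    by_contra hcon
    exact hv (hF v hcon)
  have hfin1 : (Function.support fun v : Pr K => (f.natDegree : ℝ) * mx (Sum.inr v) x).Finite := by
    refine (mx_fin x).subset ?_
    intro v hv
    have hv' : (f.natDegree : ℝ) * mx (Sum.inr v) x ≠ 0 := hv
    exact right_ne_zero_of_mul hv'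
  have hfin2 : (Function.support fun v : Pr K => nm (Sum.inr v) (aeval x f)).Finite :=
    log_fv_support_finite hx
  have h3 : ∑ᶠ v : Pr K, mu (Sum.inr v) f x =
      (f.natDegree : ℝ) * ∑ᶠ v : Pr K, mx (Sum.inr v) x -
        ∑ᶠ v : Pr K, nm (Sum.inr v) (aeval x f) := by
    unfold mu
    rw [finsum_sub_distrib hfin1 hfin2]
    congr 1
    exact (mul_finsum' _ _ (mx_fin x)).symm
  rw [← h2, h3, hr_eq]
  unfold mu
  rw [Finset.sum_sub_distrib, ← Finset.mul_sum]
  have h4 : ∑ w : InfinitePlace K, nm (Sum.inl w) (aeval x f) +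
    ∑ᶠ v : Pr K, nm (Sum.inr v) (aeval x f) = 0 := h1
  linarith

/-- a lower bound for the local heights -/
theorem mu_ge (p : Pl K) (f : (𝓞 K)[X]) (hf : f ≠ 0) : ∃ c : ℝ, 0 ≤ c ∧ ∀ x : K,
    aeval x f ≠ 0 → -c ≤ mu p f x := by
  have key : ∀ g : AbsoluteValue K ℝ, ∃ A : ℝ, 1 ≤ A ∧ ∀ x : K,
      g (aeval x f) ≤ A * max (g x) 1 ^ f.natDegree := by
    intro g
    refine ⟨max 1 (∑ i ∈ Finset.range (f.natDegree + 1), g (algebraMap (𝓞 K) K (f.coeff i))),
      le_max_left _ _, fun x => ?_⟩
    rw [aeval_eq_sum_range]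
    refine (abs_sum_le g _ _).trans ?_
    refine le_trans ?_ (mul_le_mul_of_nonneg_right (le_max_right _ _) (by positivity))
    rw [Finset.sum_mul]
    refine Finset.sum_le_sum fun i hi => ?_
    rw [Algebra.smul_def, g.map_mul, g.map_pow]
    refine mul_le_mul_of_nonneg_left ?_ (g.nonneg _)
    refine (pow_le_pow_left₀ (g.nonneg _) (le_max_left _ 1) i).trans ?_
    refine pow_le_pow_right₀ (le_max_right _ _) ?_
    have := Finset.mem_range.1 hi
    omega
  have key2 : ∀ g : AbsoluteValue K ℝ, ∃ c : ℝ, 0 ≤ c ∧ ∀ x : K, aeval x f ≠ 0 →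
      -c ≤ f.natDegree * Real.log (max (g x) 1) - Real.log (g (aeval x f)) := by
    intro g
    obtain ⟨A, hA, h⟩ := key g
    refine ⟨Real.log A, Real.log_nonneg hA, fun x hx => ?_⟩
    have h1 := Real.log_le_log (g.pos hx) (h x)
    have h2 : 0 < max (g x) 1 := lt_of_lt_of_le one_pos (le_max_right _ _)
    rw [Real.log_mul (by linarith) (by positivity), Real.log_pow] at h1
    linarith
  rcases p with w | v
  · obtain ⟨c, hc, h⟩ := key2 w.1
    refine ⟨w.mult * c, by positivity, fun x hx => ?_⟩
    have h1 := mul_le_mul_of_nonneg_left (h x hx) (show (0 : ℝ) ≤ w.mult from Nat.cast_nonneg _)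
    have e : mu (Sum.inl w) f x = w.mult * (f.natDegree * Real.log (max (w.1 x) 1) -
        Real.log (w.1 (aeval x f))) := by
      show (f.natDegree : ℝ) * (w.mult * Real.log (max (w x) 1)) -
        w.mult * Real.log (w (aeval x f)) = _
      simp only [InfinitePlace.coe_apply]
      ring
    rw [e]
    linarith
  · obtain ⟨c, hc, h⟩ := key2 (fv v)
    exact ⟨c, hc, fun x hx => h x hx⟩

/-- **clusters at a place** -/
theorem clu_place (p : Pl K) (f : (𝓞 K)[X]) (hk : 1 ≤ f.natDegree) :
    ∃ C : ℝ, 0 ≤ C ∧ ∀ (τ : ℝ) (S : Finset K),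
      (∀ x ∈ S, aeval x f ≠ 0 ∧ τ ≤ mu p f x) → S.Nonempty →
        ∃ (T : Finset K) (φ : K → K), T.card ≤ f.natDegree ∧ (∀ x ∈ S, φ x ∈ T) ∧
          ∀ x ∈ S, ∀ y ∈ S, x ≠ y → φ x = φ y →
            τ / f.natDegree - C ≤ lam p (aff x) (aff y) := by
  classical
  have hk0 : (0 : ℝ) < f.natDegree := by exact_mod_cast hk
  obtain ⟨F, hF⟩ : ∃ F : K[X], F = f.map (algebraMap (𝓞 K) K) := ⟨_, rfl⟩
  have hFd : F.natDegree = f.natDegree := by
    rw [hF]
    exact natDegree_map_eq_of_injective (FaithfulSMul.algebraMap_injective _ _) f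
  have hFe : ∀ x : K, F.eval x = aeval x f := fun x => by rw [hF, eval_map_algebraMap]
  have key : ∀ g : AbsoluteValue K ℝ, ∃ C : ℝ, 0 ≤ C ∧ ∀ (t : ℝ) (S : Finset K),
      (∀ x ∈ S, aeval x f ≠ 0 ∧
        t ≤ f.natDegree * Real.log (max (g x) 1) - Real.log (g (aeval x f))) → S.Nonempty →
        ∃ (T : Finset K) (φ : K → K), T.card ≤ f.natDegree ∧ (∀ x ∈ S, φ x ∈ T) ∧
          ∀ x ∈ S, ∀ y ∈ S, x ≠ y → φ x = φ y →
            t / f.natDegree - C ≤ lamA g (aff x) (aff y) := by
    intro g
    obtain ⟨C, M, hC, hM, h⟩ := cluster g F (by rw [hFd]; exact hk)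
    rw [hFd] at h
    refine ⟨C + Real.log 2 + Real.log M, by
      have := Real.log_nonneg hM
      positivity, ?_⟩
    intro t S hS hne
    by_cases ht : C < t
    · obtain ⟨T, hTS, hTc, hT⟩ := h t ht S (by
        intro x hx
        obtain ⟨h1, h2⟩ := hS x hx
        rw [hFe]
        have h3 : 0 < max (g x) 1 := lt_of_lt_of_le one_pos (le_max_right _ _)
        have h4 : Real.log (g (aeval x f)) ≤ -t + f.natDegree * Real.log (max (g x) 1) := by
          linarith
        rw [← Real.log_pow, ← Real.log_exp (-t), ← Real.log_mul (Real.exp_pos _).ne'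
          (by positivity)] at h4
        exact (Real.log_le_log_iff (g.pos h1) (by positivity)).1 h4)
      choose! φ hφ1 hφ2 using hT
      refine ⟨T, φ, hTc, hφ1, ?_⟩
      intro x hx y hy hxy hφ
      have h1 := hφ2 x hx
      have h2 := hφ2 y hy
      rw [← hφ] at h2
      have h3 : g (x - y) ≤ 2 * (Real.exp (-(t / f.natDegree)) * M) := by
        have e : x - y = (x - φ x) + -(y - φ x) := by ring
        rw [e]
        refine (g.add_le _ _).trans ?_
        rw [g.map_neg]
        linarith
      rw [le_lamA_iff g (aff_ne_zero x) (aff_ne_zero y) (aff_wedge hxy)]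
      have e1 : (aff x).1 * (aff y).2 - (aff x).2 * (aff y).1 = x - y := by
        simp only [aff, mul_one, one_mul]
      rw [e1]
      have e2 : (1 : ℝ) ≤ max (g (aff x).1) (g (aff x).2) * max (g (aff y).1) (g (aff y).2) := by
        have h5 : (1 : ℝ) ≤ max (g (aff x).1) (g (aff x).2) := by
          refine le_trans ?_ (le_max_right _ _)
          show 1 ≤ g 1
          rw [map_one]
        have h6 : (1 : ℝ) ≤ max (g (aff y).1) (g (aff y).2) := by
          refine le_trans ?_ (le_max_right _ _)
          show 1 ≤ g 1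
          rw [map_one]
        nlinarith
      have e3 : Real.exp (-(t / f.natDegree - (C + Real.log 2 + Real.log M))) =
          2 * (Real.exp (-(t / f.natDegree)) * M) * Real.exp C := by
        have : -(t / f.natDegree - (C + Real.log 2 + Real.log M)) =
          Real.log 2 + (-(t / f.natDegree) + Real.log M) + C := by ring
        rw [this, Real.exp_add, Real.exp_add, Real.exp_add, Real.exp_log (by norm_num),
          Real.exp_log (by linarith)]
      rw [e3]
      have e4 : 1 ≤ Real.exp C := Real.one_le_exp hC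
      have e5 : 0 ≤ 2 * (Real.exp (-(t / f.natDegree)) * M) := by positivity
      calc g (x - y) ≤ 2 * (Real.exp (-(t / f.natDegree)) * M) := h3
        _ ≤ 2 * (Real.exp (-(t / f.natDegree)) * M) * (Real.exp C *
          (max (g (aff x).1) (g (aff x).2) * max (g (aff y).1) (g (aff y).2))) := by
            refine le_mul_of_one_le_right e5 ?_
            nlinarith
        _ = _ := by ring
    · rw [not_lt] at ht
      obtain ⟨x0, hx0⟩ := hne
      refine ⟨{x0}, fun _ => x0, by rw [Finset.card_singleton]; exact hk,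
        fun x _ => Finset.mem_singleton_self _, ?_⟩
      intro x hx y hy hxy _
      have h1 := lamA_ge_neg_log_two g (aff_ne_zero x) (aff_ne_zero y) (aff_wedge hxy)
      have h2 : t / f.natDegree ≤ C := by
        rw [div_le_iff₀ hk0]
        have : (1 : ℝ) ≤ f.natDegree := by exact_mod_cast hk
        nlinarith
      have h3 := Real.log_nonneg hM
      linarith
  rcases p with w | v
  · obtain ⟨C, hC, h⟩ := key w.1
    have hw : (0 : ℝ) < w.mult := by exact_mod_cast InfinitePlace.mult_pos
    refine ⟨w.mult * C, by positivity, ?_⟩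
    intro τ S hS hne
    have e : ∀ x, mu (Sum.inl w) f x = w.mult * (f.natDegree * Real.log (max (w.1 x) 1) -
        Real.log (w.1 (aeval x f))) := by
      intro x
      show (f.natDegree : ℝ) * (w.mult * Real.log (max (w x) 1)) -
        w.mult * Real.log (w (aeval x f)) = _
      simp only [InfinitePlace.coe_apply]
      ring
    obtain ⟨T, φ, h1, h2, h3⟩ := h (τ / w.mult) S (by
      intro x hx
      obtain ⟨h4, h5⟩ := hS x hx
      refine ⟨h4, ?_⟩
      rw [e x] at h5
      rw [div_le_iff₀ hw, mul_comm]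
      exact h5) hne
    refine ⟨T, φ, h1, h2, ?_⟩
    intro x hx y hy hxy hφ
    have h4 := mul_le_mul_of_nonneg_left (h3 x hx y hy hxy hφ) hw.le
    have e2 : lam (Sum.inl w) (aff x) (aff y) = w.mult * lamA w.1 (aff x) (aff y) := rfl
    rw [e2]
    refine le_trans (le_of_eq ?_) h4
    field_simp
  · exact key (fv v)

end Pool.Agent.N753.SF
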