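import Mathlib
import Pool.Agent.N753.SF.Mu

/-!
# Separation of the zeros of a polynomial modulo the powers of a good prime
-/

set_option autoImplicit false

namespace Pool.Agent.N753.SF

open NumberField IsDedekindDomain Finset Pool.Agent.H691R3 Pool.Agent.TH876.Loc
open Pool.Agent.N753.LS Polynomial

variable {K : Type} [Field K] [NumberField K]

/-- the polynomial `f` has separable reduction of the same degree modulo `v` -/
def GoodS (f : (𝓞 K)[X]) (v : Pr K) : Prop :=
  (∃ (a b : (𝓞 K)[X]) (n : 𝓞 K), a * f + b * derivative f = C n ∧ n ∉ v.asIdeal) ∧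
    f.leadingCoeff ∉ v.asIdeal

theorem exists_badS (f : (𝓞 K)[X]) (hsq : Squarefree (f.map (algebraMap (𝓞 K) K)))
    (hd : 1 ≤ f.natDegree) : ∃ Bad : Finset (Pr K), ∀ v ∉ Bad, Good f v ∧ GoodS f v := by
  classical
  obtain ⟨B1, hB1⟩ := exists_bad f hsq hd
  obtain ⟨a, b, n, hn, hab⟩ := bezout_int f hsq
  have hlc : f.leadingCoeff ≠ 0 := by
    rw [Ne, leadingCoeff_eq_zero]
    rintro rfl
    simp at hd
  have hr : n * f.leadingCoeff ≠ 0 := mul_ne_zero hn hlc
  refine ⟨B1 ∪ (fin_dvd hr).toFinset, fun v hv => ?_⟩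
  rw [Finset.mem_union, not_or, Set.Finite.mem_toFinset] at hv
  obtain ⟨hv1, hv2⟩ := hv
  have hv' : n * f.leadingCoeff ∉ v.asIdeal := hv2
  exact ⟨hB1 v hv1, ⟨a, b, n, hab, fun h => hv' (Ideal.mul_mem_right _ _ h)⟩,
    fun h => hv' (Ideal.mul_mem_left _ _ h)⟩

theorem fv_one_of_notMem {v : Pr K} {n : 𝓞 K} (h : n ∉ v.asIdeal) :
    fv v (algebraMap (𝓞 K) K n) = 1 := by
  have h1 : v.valuation K (algebraMap (𝓞 K) K n) ≤ 1 := v.valuation_le_one n
  have h2 : ¬ v.valuation K (algebraMap (𝓞 K) K n) < 1 := by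
    rw [HeightOneSpectrum.valuation_lt_one_iff_mem]
    exact h
  rw [← fv_le_one] at h1
  rw [← fv_lt_one] at h2
  exact le_antisymm h1 (not_lt.1 h2)

theorem fv_int (v : Pr K) (f : (𝓞 K)[X]) {x : K} (hx : fv v x ≤ 1) : fv v (aeval x f) ≤ 1 := by
  rw [fv_le_one] at hx ⊢
  exact (rd_eval v hx f).1

/-- Taylor's formula with an integral remainder -/
theorem taylor (v : Pr K) (f : (𝓞 K)[X]) {x y : K} (hx : fv v x ≤ 1) (hy : fv v y ≤ 1) :
    ∃ r : K, fv v r ≤ 1 ∧ aeval y f = aeval x f + aeval x (derivative f) * (y - x) +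
      r * (y - x) ^ 2 := by
  have hx' : v.valuation K x ≤ 1 := (fv_le_one v x).1 hx
  have hy' : v.valuation K y ≤ 1 := (fv_le_one v y).1 hy
  have hyx : v.valuation K (y - x) ≤ 1 :=
    (Valuation.map_sub _ _ _).trans (max_le hy' hx')
  let R := (v.valuation K).integer
  let φ : 𝓞 K →+* R := (algebraMap (𝓞 K) K).codRestrict R fun r => v.valuation_le_one r
  let X0 : R := ⟨x, hx'⟩
  let Y0 : R := ⟨y - x, hyx⟩
  obtain ⟨r, hr⟩ := binomExpansion (f.map φ) X0 Y0
  have he : ∀ (g : (𝓞 K)[X]) (z : R), (((g.map φ).eval z : R) : K) = aeval (z : K) g := by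
    intro g z
    have h1 : (((g.map φ).eval z : R) : K) = R.subtype ((g.map φ).eval z) := rfl
    rw [h1, eval_map, hom_eval₂, aeval_def]
    rfl
  refine ⟨r, (fv_le_one v _).2 r.2, ?_⟩
  have h1 := congrArg (fun z : R => (z : K)) hr
  simp only [Subring.coe_add, Subring.coe_mul, Subring.coe_pow] at h1
  rw [he, he, derivative_map, he] at h1
  have e1 : ((X0 + Y0 : R) : K) = y := by
    show x + (y - x) = y
    ring
  rw [e1] at h1
  exact h1

theorem fv_mul_lt {v : Pr K} {a b : K} (ha : fv v a ≤ 1) (hb : fv v b < 1) : fv v (a * b) < 1 := by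
  rw [map_mul]
  have := (fv v).nonneg a
  have := (fv v).nonneg b
  nlinarith

theorem fv_eq_one_add {v : Pr K} {a b : K} (ha : fv v a < 1) (h : fv v (a + b) = 1) :
    1 ≤ fv v b := by
  by_contra hcon
  rw [not_le] at hcon
  have := (fv_na v a b).trans_lt (max_lt ha hcon)
  linarith

/-- **separation** -/
theorem sep {f : (𝓞 K)[X]} {v : Pr K} (hv : GoodS f v) {x y : K} (hx : fv v x ≤ 1)
    (hy : fv v y ≤ 1) (hxy : fv v (y - x) < 1) {q : ℝ} (hq : q < 1) (hfx : fv v (aeval x f) ≤ q)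
    (hfy : fv v (aeval y f) ≤ q) : fv v (y - x) ≤ q := by
  obtain ⟨⟨a, b, n, hab, hn⟩, -⟩ := hv
  obtain ⟨r, hr, hT⟩ := taylor v f hx hy
  have h1 : aeval x a * aeval x f + aeval x b * aeval x (derivative f) =
      algebraMap (𝓞 K) K n := by
    have := congrArg (fun g => aeval x g) hab
    simpa using this
  have h2 : 1 ≤ fv v (aeval x b * aeval x (derivative f)) := by
    refine fv_eq_one_add (fv_mul_lt (fv_int v a hx) (hfx.trans_lt hq)) ?_
    rw [h1]
    exact fv_one_of_notMem hn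
  have h3 : 1 ≤ fv v (aeval x (derivative f)) := by
    rw [map_mul] at h2
    have h4 := fv_int v b hx
    have h5 := (fv v).nonneg (aeval x (derivative f))
    nlinarith
  have h4 : 1 ≤ fv v (aeval x (derivative f) + r * (y - x)) := by
    by_contra hcon
    rw [not_le] at hcon
    have h5 := fv_mul_lt hr hxy
    have h6 : fv v (aeval x (derivative f)) < 1 := by
      have e : aeval x (derivative f) = (aeval x (derivative f) + r * (y - x)) +
        -(r * (y - x)) := by ring
      rw [e]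
      refine (fv_na v _ _).trans_lt (max_lt hcon ?_)
      rw [(fv v).map_neg]
      exact h5
    linarith
  have h5 : aeval y f - aeval x f = (y - x) * (aeval x (derivative f) + r * (y - x)) := by
    rw [hT]
    ring
  have h6 : fv v (aeval y f - aeval x f) ≤ q := by
    rw [sub_eq_add_neg]
    refine (fv_na v _ _).trans (max_le hfy ?_)
    rw [(fv v).map_neg]
    exact hfx
  rw [h5, map_mul] at h6
  have h7 := (fv v).nonneg (y - x)
  nlinarith

/-- the polynomial has no zero at infinity modulo a good prime -/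
theorem fv_large {f : (𝓞 K)[X]} {v : Pr K} (hv : f.leadingCoeff ∉ v.asIdeal) {x : K}
    (hx : 1 < fv v x) : fv v (aeval x f) = fv v x ^ f.natDegree := by
  have hx0 : x ≠ 0 := by
    rintro rfl
    rw [map_zero] at hx
    linarith
  have hxi : fv v x⁻¹ < 1 := by
    rw [map_inv₀]
    exact inv_lt_one_of_one_lt₀ hx
  letI : Invertible x := invertibleOfNonzero hx0
  have h1 : aeval x⁻¹ f.reverse * x ^ f.natDegree = aeval x f := by
    have := eval₂_reverse_mul_pow (algebraMap (𝓞 K) K) x f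
    rw [invOf_eq_inv] at this
    exact this
  rw [← h1, map_mul, map_pow]
  have h2 : fv v (aeval x⁻¹ f.reverse) = 1 := by
    have e : f.reverse = divX f.reverse * X + C f.leadingCoeff := by
      rw [← coeff_zero_reverse, divX_mul_X_add]
    have e2 : aeval x⁻¹ f.reverse = aeval x⁻¹ (divX f.reverse) * x⁻¹ +
        algebraMap (𝓞 K) K f.leadingCoeff := by
      conv_lhs => rw [e]
      simp
    have h3 := fv_mul_lt (fv_int v (divX f.reverse) hxi.le) hxi
    have h4 := fv_one_of_notMem hv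
    refine le_antisymm (fv_int v _ hxi.le) ?_
    by_contra hcon
    rw [not_le] at hcon
    have h5 : fv v (algebraMap (𝓞 K) K f.leadingCoeff) < 1 := by
      have e3 : algebraMap (𝓞 K) K f.leadingCoeff = aeval x⁻¹ f.reverse +
          -(aeval x⁻¹ (divX f.reverse) * x⁻¹) := by
        rw [e2]
        ring
      rw [e3]
      refine (fv_na v _ _).trans_lt (max_lt hcon ?_)
      rw [(fv v).map_neg]
      exact h3
    linarith
  rw [h2, one_mul]

theorem mu_large {f : (𝓞 K)[X]} {v : Pr K} (hv : f.leadingCoeff ∉ v.asIdeal) {x : K}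
    (hx : 1 < fv v x) : mu (Sum.inr v) f x = 0 := by
  show (f.natDegree : ℝ) * Real.log (max (fv v x) 1) - Real.log (fv v (aeval x f)) = 0
  rw [fv_large hv hx, max_eq_left hx.le, Real.log_pow, sub_self]

theorem mu_small (f : (𝓞 K)[X]) {v : Pr K} {x : K} (hx : fv v x ≤ 1) :
    mu (Sum.inr v) f x = - Real.log (fv v (aeval x f)) := by
  show (f.natDegree : ℝ) * Real.log (max (fv v x) 1) - Real.log (fv v (aeval x f)) = _
  rw [max_eq_right hx, Real.log_one, mul_zero, zero_sub]

/-- the multiplicity of the zero of `f` at the reduction of `x` modulo `v` -/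
noncomputable def nu (f : (𝓞 K)[X]) (v : Pr K) (x : K) : ℕ :=
  ⌊mu (Sum.inr v) f x / Real.log (Nv v)⌋₊

theorem mu_eq_nu {f : (𝓞 K)[X]} {v : Pr K} (hv : f.leadingCoeff ∉ v.asIdeal) {x : K}
    (hx : aeval x f ≠ 0) : mu (Sum.inr v) f x = nu f v x * Real.log (Nv v) := by
  have hN := log_Nv_pos v
  rcases le_or_gt (fv v x) 1 with h | h
  · have h1 := mu_small f h
    obtain ⟨n, hn⟩ := log_fv v hx
    have h2 : 0 ≤ mu (Sum.inr v) f x := by
      rw [h1, neg_nonneg]
      exact Real.log_nonpos ((fv v).nonneg _) (fv_int v f h)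
    have h3 : mu (Sum.inr v) f x = ((-n : ℤ) : ℝ) * Real.log (Nv v) := by
      rw [h1, hn]
      push_cast
      ring
    rw [h3] at h2
    have h4 : (0 : ℝ) ≤ ((-n : ℤ) : ℝ) := nonneg_of_mul_nonneg_left h2 hN
    have h5 : (0 : ℤ) ≤ -n := by exact_mod_cast h4
    obtain ⟨m, hm⟩ := Int.eq_ofNat_of_zero_le h5
    have h6 : nu f v x = m := by
      unfold nu
      rw [h3, mul_div_cancel_right₀ _ hN.ne', hm]
      exact Nat.floor_natCast m
    rw [h6, h3, hm]
    rfl
  · rw [mu_large hv h]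
    have : nu f v x = 0 := by
      unfold nu
      rw [mu_large hv h, zero_div, Nat.floor_zero]
    rw [this, Nat.cast_zero, zero_mul]

/-- a positive multiplicity -/
theorem nu_pos_iff {f : (𝓞 K)[X]} {v : Pr K} (hv : f.leadingCoeff ∉ v.asIdeal) {x : K}
    (hx : aeval x f ≠ 0) : 1 ≤ nu f v x ↔ fv v x ≤ 1 ∧ fv v (aeval x f) < 1 := by
  have hN := log_Nv_pos v
  have h0 := mu_eq_nu hv hx
  constructor
  · intro h
    have h1 : fv v x ≤ 1 := by
      by_contra hcon
      rw [not_le] at hcon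
      rw [mu_large hv hcon] at h0
      have : (1 : ℝ) ≤ nu f v x := by exact_mod_cast h
      nlinarith
    refine ⟨h1, ?_⟩
    rw [mu_small f h1] at h0
    by_contra hcon
    rw [not_lt] at hcon
    have h2 := Real.log_nonneg hcon
    have : (1 : ℝ) ≤ nu f v x := by exact_mod_cast h
    nlinarith
  · rintro ⟨h1, h2⟩
    rw [mu_small f h1] at h0
    have h3 := Real.log_neg ((fv v).pos hx) h2
    by_contra hcon
    have : nu f v x = 0 := by omega
    rw [this, Nat.cast_zero, zero_mul] at h0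
    linarith

theorem le_nu {f : (𝓞 K)[X]} {v : Pr K} (hv : f.leadingCoeff ∉ v.asIdeal) {x : K}
    (hx : aeval x f ≠ 0) {n : ℕ} (hn : 1 ≤ n) (h : n ≤ nu f v x) :
    fv v x ≤ 1 ∧ fv v (aeval x f) ≤ Real.exp (-(n * Real.log (Nv v))) := by
  have hN := log_Nv_pos v
  obtain ⟨h1, h2⟩ := (nu_pos_iff hv hx).1 (hn.trans h)
  refine ⟨h1, ?_⟩
  have h0 := mu_eq_nu hv hx
  rw [mu_small f h1] at h0
  have h3 : (n : ℝ) * Real.log (Nv v) ≤ nu f v x * Real.log (Nv v) :=
    mul_le_mul_of_nonneg_right (by exact_mod_cast h) hN.le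
  rw [← Real.log_le_iff_le_exp ((fv v).pos hx)]
  linarith

/-- **two points near the same zero** -/
theorem lam_sep {f : (𝓞 K)[X]} {v : Pr K} (hv : GoodS f v) {x y : K} (hxy : x ≠ y)
    (hx : aeval x f ≠ 0) (hy : aeval y f ≠ 0) {n : ℕ} (hn : 1 ≤ n) (h1 : n ≤ nu f v x)
    (h2 : n ≤ nu f v y) (hcls : cls v x = cls v y) :
    (n : ℝ) * Real.log (Nv v) ≤ lam (Sum.inr v) (aff x) (aff y) := by
  have hN := log_Nv_pos v
  obtain ⟨hx1, hx2⟩ := le_nu hv.2 hx hn h1
  obtain ⟨hy1, hy2⟩ := le_nu hv.2 hy hn h2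
  have hxv : v.valuation K x ≤ 1 := (fv_le_one v x).1 hx1
  have hyv : v.valuation K y ≤ 1 := (fv_le_one v y).1 hy1
  rw [cls_of_le v hxv, cls_of_le v hyv, Option.some_inj, rd_eq_rd_iff v hxv hyv, ← fv_lt_one] at hcls
  have hq : Real.exp (-(n * Real.log (Nv v))) < 1 := by
    rw [Real.exp_lt_one_iff]
    have : (1 : ℝ) ≤ n := by exact_mod_cast hn
    have : 0 < (n : ℝ) * Real.log (Nv v) := by positivity
    linarith
  have h3 : fv v (y - x) ≤ Real.exp (-(n * Real.log (Nv v))) := by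
    refine sep hv hx1 hy1 ?_ hq hx2 hy2
    rw [← (fv v).map_neg, neg_sub]
    exact hcls
  show (n : ℝ) * Real.log (Nv v) ≤ lamA (fv v) (aff x) (aff y)
  rw [le_lamA_iff (fv v) (aff_ne_zero x) (aff_ne_zero y) (aff_wedge hxy)]
  have e1 : (aff x).1 * (aff y).2 - (aff x).2 * (aff y).1 = -(y - x) := by
    simp only [aff, mul_one, one_mul]
    ring
  rw [e1, (fv v).map_neg]
  refine h3.trans ?_
  refine le_mul_of_one_le_right (Real.exp_pos _).le ?_
  have h5 : (1 : ℝ) ≤ max (fv v (aff x).1) (fv v (aff x).2) := by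
    refine le_trans ?_ (le_max_right _ _)
    show 1 ≤ fv v 1
    rw [map_one]
  have h6 : (1 : ℝ) ≤ max (fv v (aff y).1) (fv v (aff y).2) := by
    refine le_trans ?_ (le_max_right _ _)
    show 1 ≤ fv v 1
    rw [map_one]
  nlinarith

/-- the class of a point with a positive multiplicity -/
theorem cls_nu {f : (𝓞 K)[X]} {v : Pr K} (hv : Good f v) (hv' : f.leadingCoeff ∉ v.asIdeal)
    (hd : 1 ≤ f.natDegree) {x : K} (hx : aeval x f ≠ 0) (h : 1 ≤ nu f v x) :
    cls v x ∈ RC f v := by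
  classical
  obtain ⟨h1, h2⟩ := (nu_pos_iff hv' hx).1 h
  have hxv : v.valuation K x ≤ 1 := (fv_le_one v x).1 h1
  have hf0 : f.map (Ideal.Quotient.mk v.asIdeal) ≠ 0 := by
    intro h0
    have := hv.2.1
    rw [h0, natDegree_zero] at this
    omega
  unfold RC
  rw [Finset.mem_insert, cls_of_le v hxv]
  right
  rw [Finset.mem_image]
  refine ⟨rd v x, ?_, rfl⟩
  rw [Multiset.mem_toFinset, mem_roots hf0, IsRoot.def, ← (rd_eval v hxv f).2,
    rd_eq_zero_iff v (rd_eval v hxv f).1, ← fv_lt_one]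
  exact h2

end Pool.Agent.N753.SF
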