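import Mathlib
import Pool.Agent.N753.SF.Sep
import Pool.Agent.N753.LS.Total

/-!
# Sums over powerful products of primes, and the points divisible by them
-/

set_option autoImplicit false

namespace Pool.Agent.N753.SF

open NumberField IsDedekindDomain Finset Pool.Agent.H691R3 Pool.Agent.TH876.Loc
open Pool.Agent.N753.LS Polynomial

variable {K : Type} [Field K] [NumberField K]

/-- the logarithm of the norm of `∏ v ^ (n v)` -/
noncomputable def nrm (n : Pr K →₀ ℕ) : ℝ := n.sum fun v j => (j : ℝ) * Real.log (Nv v)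

theorem nrm_eq (n : Pr K →₀ ℕ) : nrm n = ∑ v ∈ n.support, (n v : ℝ) * Real.log (Nv v) := rfl

theorem nrm_nonneg (n : Pr K →₀ ℕ) : 0 ≤ nrm n :=
  Finset.sum_nonneg fun v _ => mul_nonneg (Nat.cast_nonneg _) (log_Nv_pos v).le

theorem nrm_add (m n : Pr K →₀ ℕ) : nrm (m + n) = nrm m + nrm n := by
  unfold nrm
  refine Finsupp.sum_add_index' (fun v => by simp) fun v a b => ?_
  push_cast
  ring

theorem nrm_single (v : Pr K) (c : ℕ) : nrm (Finsupp.single v c) = c * Real.log (Nv v) := by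
  unfold nrm
  rw [Finsupp.sum_single_index (by simp)]

theorem geom_le {q : ℝ} (hq0 : 0 ≤ q) (hq : q ≤ 3 / 4) (N : ℕ) :
    ∑ j ∈ Finset.range N, (if j < 2 then 0 else q ^ j) ≤ 4 * q ^ 2 := by
  have h1 : ∑ j ∈ Finset.range N, (if j < 2 then 0 else q ^ j) ≤
      ∑ j ∈ Finset.range (N + 2), (if j < 2 then 0 else q ^ j) := by
    refine Finset.sum_le_sum_of_subset_of_nonneg ?_ fun j _ _ => ?_
    · exact Finset.range_subset_range.2 (by omega)
    · split_ifs
      · exact le_rfl
      · positivity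
  refine h1.trans ?_
  rw [Finset.sum_range_succ', Finset.sum_range_succ']
  have h2 : ∑ j ∈ Finset.range N, (if j + 1 + 1 < 2 then (0 : ℝ) else q ^ (j + 1 + 1)) =
      q ^ 2 * ∑ j ∈ Finset.range N, q ^ j := by
    rw [Finset.mul_sum]
    refine Finset.sum_congr rfl fun j _ => ?_
    rw [if_neg (by omega), ← pow_add]
    congr 1
    omega
  rw [h2]
  have h3 : ∑ j ∈ Finset.range N, q ^ j ≤ 4 := by
    have h4 := geom_sum_mul q N
    have h5 : 0 ≤ q ^ N := by positivity
    nlinarith [Finset.sum_nonneg fun (j : ℕ) (_ : j ∈ Finset.range N) => pow_nonneg hq0 j]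
  have h4 : (if (0 + 1 < 2) then (0 : ℝ) else q ^ (0 + 1)) = 0 := if_pos (by omega)
  have h5 : (if (0 < 2) then (0 : ℝ) else q ^ 0) = 0 := if_pos (by omega)
  rw [h4, h5]
  have : 0 ≤ q ^ 2 := by positivity
  nlinarith

variable (K) in
/-- **Rankin's trick** -/
theorem rankin {D : ℝ} (hD : 0 ≤ D) {s : ℝ} (hs : 1 / 2 < s) : ∃ C : ℝ, 0 < C ∧
    ∀ W : Finset (Pr K →₀ ℕ), (∀ n ∈ W, ∀ v ∈ n.support, 2 ≤ n v) →
      ∑ n ∈ W, D ^ n.support.card * Real.exp (-(s * nrm n)) ≤ C := by
  classical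
  obtain ⟨C1, hC1, h1⟩ := sum_rpow_le K (s := 2 * s) (by linarith)
  refine ⟨Real.exp (4 * D * C1), Real.exp_pos _, ?_⟩
  intro W hW
  obtain ⟨q, hq⟩ : ∃ q : Pr K → ℝ, q = fun v => Nv v ^ (-s) := ⟨_, rfl⟩
  have hq0 : ∀ v, 0 ≤ q v := fun v => by
    rw [hq]
    exact Real.rpow_nonneg (Nv_pos v).le _
  have hq1 : ∀ v, q v ≤ 3 / 4 := by
    intro v
    rw [hq]
    beta_reduce
    have h2 := two_le_Nv v
    calc Nv v ^ (-s) ≤ Nv v ^ (-(1 / 2 : ℝ)) :=
          Real.rpow_le_rpow_of_exponent_le (by linarith) (by linarith)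
      _ ≤ (2 : ℝ) ^ (-(1 / 2 : ℝ)) :=
          Real.rpow_le_rpow_of_nonpos (by norm_num) h2 (by norm_num)
      _ ≤ 3 / 4 := by
          rw [Real.rpow_neg (by norm_num), ← Real.sqrt_eq_rpow]
          rw [inv_le_comm₀ (by positivity) (by norm_num)]
          rw [Real.le_sqrt (by norm_num) (by norm_num)]
          norm_num
  have hqlog : ∀ v, Real.exp (-(s * Real.log (Nv v))) = q v := by
    intro v
    rw [hq]
    beta_reduce
    rw [Real.rpow_def_of_pos (Nv_pos v)]
    congr 1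
    ring
  obtain ⟨V, hV⟩ : ∃ V : Finset (Pr K), V = W.biUnion fun n => n.support := ⟨_, rfl⟩
  obtain ⟨N, hN⟩ : ∃ N : ℕ, N = W.sup (fun n => V.sup n) + 1 := ⟨_, rfl⟩
  have hVs : ∀ n ∈ W, n.support ⊆ V := by
    intro n hn v hv
    rw [hV, Finset.mem_biUnion]
    exact ⟨n, hn, hv⟩
  have hVN : ∀ n ∈ W, ∀ v ∈ V, n v < N := by
    intro n hn v hv
    rw [hN]
    have e1 : n v ≤ V.sup n := Finset.le_sup (f := n) hv
    have e2 : V.sup n ≤ W.sup (fun n => V.sup n) :=
      Finset.le_sup (f := fun n : Pr K →₀ ℕ => V.sup n) hn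
    omega
  let g : Pr K → ℕ → ℝ := fun v j => if j = 0 then 1 else (if j < 2 then 0 else D * q v ^ j)
  have hg0 : ∀ v j, 0 ≤ g v j := by
    intro v j
    show 0 ≤ if j = 0 then (1 : ℝ) else (if j < 2 then 0 else D * q v ^ j)
    split_ifs
    · norm_num
    · exact le_rfl
    · exact mul_nonneg hD (pow_nonneg (hq0 v) _)
  have hterm : ∀ n ∈ W, D ^ n.support.card * Real.exp (-(s * nrm n)) = ∏ v ∈ V, g v (n v) := by
    intro n hn
    rw [← Finset.prod_subset (hVs n hn) (f := fun v => g v (n v)) (by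
      intro v _ hv
      rw [Finsupp.notMem_support_iff] at hv
      show g v (n v) = 1
      rw [hv]
      exact if_pos rfl)]
    have e1 : Real.exp (-(s * nrm n)) = ∏ v ∈ n.support, q v ^ n v := by
      rw [nrm_eq, Finset.mul_sum, ← Finset.sum_neg_distrib, Real.exp_sum]
      refine Finset.prod_congr rfl fun v _ => ?_
      rw [← hqlog v, ← Real.exp_nat_mul]
      congr 1
      ring
    rw [e1, ← Finset.prod_const, ← Finset.prod_mul_distrib]
    refine Finset.prod_congr rfl fun v hv => ?_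
    have h2 := hW n hn v hv
    show D * q v ^ n v = if n v = 0 then (1 : ℝ) else (if n v < 2 then 0 else D * q v ^ n v)
    rw [if_neg (by omega), if_neg (by omega)]
  rw [Finset.sum_congr rfl hterm]
  let i : (Pr K →₀ ℕ) → ((v : Pr K) → v ∈ V → ℕ) := fun n v _ => n v
  have hinj : Set.InjOn i W := by
    intro m hm n hn hmn
    ext v
    by_cases hv : v ∈ V
    · have := congrFun (congrFun hmn v) hv
      exact this
    · have e1 : m v = 0 := Finsupp.notMem_support_iff.1 fun h => hv (hVs m hm h)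
      have e2 : n v = 0 := Finsupp.notMem_support_iff.1 fun h => hv (hVs n hn h)
      rw [e1, e2]
  have hmem : W.image i ⊆ V.pi fun _ => Finset.range N := by
    intro p hp
    obtain ⟨n, hn, rfl⟩ := Finset.mem_image.1 hp
    rw [Finset.mem_pi]
    intro v hv
    exact Finset.mem_range.2 (hVN n hn v hv)
  calc ∑ n ∈ W, ∏ v ∈ V, g v (n v) = ∑ n ∈ W, ∏ v ∈ V.attach, g v.1 (i n v.1 v.2) := by
        refine Finset.sum_congr rfl fun n _ => ?_
        exact (Finset.prod_attach V fun v => g v (n v)).symm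
    _ = ∑ p ∈ W.image i, ∏ v ∈ V.attach, g v.1 (p v.1 v.2) :=
        (Finset.sum_image (f := fun p => ∏ v ∈ V.attach, g v.1 (p v.1 v.2)) hinj).symm
    _ ≤ ∑ p ∈ V.pi fun _ => Finset.range N, ∏ v ∈ V.attach, g v.1 (p v.1 v.2) :=
        Finset.sum_le_sum_of_subset_of_nonneg hmem fun p _ _ =>
          Finset.prod_nonneg fun v _ => hg0 _ _
    _ = ∏ v ∈ V, ∑ j ∈ Finset.range N, g v j := (Finset.prod_sum V _ g).symm
    _ ≤ ∏ v ∈ V, Real.exp (4 * D * Nv v ^ (-(2 * s))) := by
        refine Finset.prod_le_prod (fun v _ => Finset.sum_nonneg fun j _ => hg0 v j) fun v _ => ?_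
        have e1 : ∑ j ∈ Finset.range N, g v j ≤
            1 + D * ∑ j ∈ Finset.range N, (if j < 2 then 0 else q v ^ j) := by
          have e2 : ∀ j ∈ Finset.range N, g v j ≤ (if j = 0 then 1 else 0) +
              D * (if j < 2 then 0 else q v ^ j) := by
            intro j _
            show (if j = 0 then (1 : ℝ) else (if j < 2 then 0 else D * q v ^ j)) ≤ _
            split_ifs <;> simp_all
          refine (Finset.sum_le_sum e2).trans ?_
          rw [Finset.sum_add_distrib, ← Finset.mul_sum]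
          refine add_le_add ?_ le_rfl
          rw [Finset.sum_ite_eq' (Finset.range N) 0 (fun _ => (1 : ℝ))]
          split_ifs <;> norm_num
        have e2 := geom_le (hq0 v) (hq1 v) N
        have e3 : q v ^ 2 = Nv v ^ (-(2 * s)) := by
          rw [hq]
          beta_reduce
          rw [← Real.rpow_natCast, ← Real.rpow_mul (Nv_pos v).le]
          congr 1
          push_cast
          ring
        have e4 : D * ∑ j ∈ Finset.range N, (if j < 2 then 0 else q v ^ j) ≤
            4 * D * Nv v ^ (-(2 * s)) := by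
          rw [← e3]
          have := mul_le_mul_of_nonneg_left e2 hD
          linarith
        have e5 := Real.add_one_le_exp (4 * D * Nv v ^ (-(2 * s)))
        linarith
    _ = Real.exp (4 * D * ∑ v ∈ V, Nv v ^ (-(2 * s))) := by
        rw [← Real.exp_sum, Finset.mul_sum]
    _ ≤ _ := by
        refine Real.exp_le_exp.2 ?_
        exact mul_le_mul_of_nonneg_left (h1 V) (by positivity)

open Classical in
/-- **the points divisible by a product of primes** -/
theorem count_pre (f : (𝓞 K)[X]) (hd : 1 ≤ f.natDegree) (Bad : Finset (Pr K))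
    (hBad : ∀ v ∉ Bad, Good f v ∧ GoodS f v) {δ : ℝ} (hδ : 0 < δ) : ∃ C : ℝ, 0 < C ∧
      ∀ H : ℝ, 0 ≤ H → ∀ n : Pr K →₀ ℕ, (∀ v ∈ n.support, v ∉ Bad) → ∀ S : Finset K,
        (∀ x ∈ S, hr (aff x) ≤ H ∧ aeval x f ≠ 0 ∧ ∀ v ∈ n.support, n v ≤ nu f v x) →
          (S.card : ℝ) ≤ ((f.natDegree : ℝ) + 1) ^ n.support.card *
            (1 + C * Real.exp ((2 + δ) * H - nrm n)) := by
  obtain ⟨C, hC, h⟩ := ls_bound2 K (κ := 1) le_rfl (K' := 1) zero_le_one ∅ hδ
  refine ⟨C, hC, ?_⟩
  intro H hH n hn S hS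
  have hn1 : ∀ v ∈ n.support, 1 ≤ n v := fun v hv =>
    Nat.one_le_iff_ne_zero.2 (Finsupp.mem_support_iff.1 hv)
  let key : K → ((v : n.support) → Option (kk v.1)) := fun x v => cls v.1 x
  obtain ⟨t, ht⟩ : ∃ t : Finset ((v : n.support) → Option (kk v.1)),
    t = Fintype.piFinset fun v : n.support => RC f v.1 := ⟨_, rfl⟩
  have hmaps : ∀ x ∈ S, key x ∈ t := by
    intro x hx
    rw [ht, Fintype.mem_piFinset]
    intro v
    obtain ⟨g1, g2⟩ := hBad v.1 (hn v.1 v.2)
    refine cls_nu g1 g2.2 hd (hS x hx).2.1 ?_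
    exact (hn1 v.1 v.2).trans ((hS x hx).2.2 v.1 v.2)
  have hcard : (t.card : ℝ) ≤ ((f.natDegree : ℝ) + 1) ^ n.support.card := by
    rw [ht, Fintype.card_piFinset]
    push_cast
    calc ∏ v : n.support, ((RC f v.1).card : ℝ) ≤
          ∏ _v : n.support, ((f.natDegree : ℝ) + 1) := by
          refine Finset.prod_le_prod (fun _ _ => Nat.cast_nonneg _) fun v _ => ?_
          exact_mod_cast card_RC f v.1
      _ = _ := by
          rw [Finset.prod_const, Finset.card_univ, Fintype.card_coe]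
  have hfib : ∀ b ∈ t, ((S.filter fun x => key x = b).card : ℝ) ≤
      1 + C * Real.exp ((2 + δ) * H - nrm n) := by
    intro b _
    obtain ⟨S', hS'⟩ : ∃ S', S' = S.filter fun x => key x = b := ⟨_, rfl⟩
    rw [← hS']
    have hm : ∀ x ∈ S', x ∈ S ∧ key x = b := fun x hx => by
      rw [hS'] at hx
      exact Finset.mem_filter.1 hx
    have h1 := h H hH S' n.support (nrm n) (by
      rw [nrm_eq]
      refine Finset.sum_le_sum fun v hv => ?_
      have h2 : (1 : ℝ) ≤ n v := by exact_mod_cast hn1 v hv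
      have h3 := log_Nv_pos v
      nlinarith) (by
      intro x hx y hy hxy Q hQ hQc
      obtain ⟨hxS, hx1⟩ := hm x hx
      obtain ⟨hyS, hy1⟩ := hm y hy
      have h2 := sum_lam_le (aff_ne_zero x) (aff_ne_zero y) (aff_wedge hxy)
        ((n.support ∪ Q).map ⟨Sum.inr, Sum.inr_injective⟩ : Finset (Pl K))
      rw [Finset.sum_map, Finset.sum_union hQ.symm] at h2
      have h3 : nrm n ≤ ∑ v ∈ n.support, lam (Sum.inr v) (aff x) (aff y) := by
        rw [nrm_eq]
        refine Finset.sum_le_sum fun v hv => ?_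
        refine lam_sep (hBad v (hn v hv)).2 hxy (hS x hxS).2.1 (hS y hyS).2.1 (hn1 v hv)
          ((hS x hxS).2.2 v hv) ((hS y hyS).2.2 v hv) ?_
        exact congrFun (hx1.trans hy1.symm) ⟨v, hv⟩
      have h4 : ∑ v ∈ Q, Real.log (Nv v) ≤ ∑ v ∈ Q, lam (Sum.inr v) (aff x) (aff y) :=
        Finset.sum_le_sum fun v hv => lam_ge_of_cls v hxy (hQc v hv)
      have h5 := (hS x hxS).1
      have h6 := (hS y hyS).1
      have h7 : ∑ x_1 ∈ n.support, lam (Sum.inr x_1) (aff x) (aff y) +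
        ∑ x_1 ∈ Q, lam (Sum.inr x_1) (aff x) (aff y) ≤ hr (aff x) + hr (aff y) + lossK K := h2
      linarith) (fun v _ _ => card_cls K v S')
    rw [div_one] at h1
    refine h1.trans (le_of_eq ?_)
    congr 3
    ring
  have hsum : (S.card : ℝ) = ∑ b ∈ t, ((S.filter fun x => key x = b).card : ℝ) := by
    have := Finset.card_eq_sum_card_fiberwise hmaps
    exact_mod_cast this
  rw [hsum]
  calc ∑ b ∈ t, ((S.filter fun x => key x = b).card : ℝ) ≤
        ∑ _b ∈ t, (1 + C * Real.exp ((2 + δ) * H - nrm n)) := Finset.sum_le_sum hfib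
    _ = t.card * (1 + C * Real.exp ((2 + δ) * H - nrm n)) := by
        rw [Finset.sum_const, nsmul_eq_mul]
    _ ≤ _ := mul_le_mul_of_nonneg_right hcard (by positivity)

end Pool.Agent.N753.SF
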