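import Mathlib
import Pool.Agent.N753.SF.Rankin
import Pool.Agent.N753.LS.Exc

/-!
# Points at which the value of a polynomial is divisible by a large powerful number, and points close
to a zero of the polynomial
-/

set_option autoImplicit false

namespace Pool.Agent.N753.SF

open NumberField IsDedekindDomain Finset Pool.Agent.H691R3 Pool.Agent.TH876.Loc
open Pool.Agent.N753.LS Polynomial

variable {K : Type} [Field K] [NumberField K]

/-- a powerful divisor of controlled size -/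
theorem exists_sub (n : Pr K →₀ ℕ) (hn : ∀ v ∈ n.support, 2 ≤ n v) {a b : ℝ} (ha : 0 < a)
    (han : a ≤ nrm n) (hb : ∀ v ∈ n.support, Real.log (Nv v) ≤ b) :
    ∃ m : Pr K →₀ ℕ, m ≤ n ∧ (∀ v ∈ m.support, 2 ≤ m v) ∧ a ≤ nrm m ∧ nrm m ≤ a + 2 * b := by
  classical
  let P : ℕ → Prop := fun N => ∃ m : Pr K →₀ ℕ, m ≤ n ∧ (∀ v ∈ m.support, 2 ≤ m v) ∧ a ≤ nrm m ∧
    (m.sum fun _ j => j) = N
  have hP : ∃ N, P N := ⟨_, n, le_rfl, hn, han, rfl⟩
  obtain ⟨m, hm1, hm2, hm3, hm4⟩ := Nat.find_spec hP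
  have hmin := fun N (h : N < Nat.find hP) => Nat.find_min hP h
  refine ⟨m, hm1, hm2, hm3, ?_⟩
  -- the support is not empty
  have hne : m.support.Nonempty := by
    rw [Finset.nonempty_iff_ne_empty]
    intro h
    have : nrm m = 0 := by
      rw [nrm_eq, h, Finset.sum_empty]
    linarith
  obtain ⟨v, hv⟩ := hne
  have hvn : v ∈ n.support := by
    rw [Finsupp.mem_support_iff] at hv ⊢
    have := hm1 v
    omega
  have hbv := hb v hvn
  have hlog := log_Nv_pos v
  -- remove a part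
  have key : ∀ c : ℕ, 1 ≤ c → c ≤ m v → (m v - c = 0 ∨ 2 ≤ m v - c) →
      nrm m < a + c * Real.log (Nv v) := by
    intro c hc1 hc2 hc3
    obtain ⟨m', hm'⟩ : ∃ m' : Pr K →₀ ℕ, m' = m - Finsupp.single v c := ⟨_, rfl⟩
    have hle : Finsupp.single v c ≤ m := by
      rw [Finsupp.single_le_iff]
      exact hc2
    have hadd : m' + Finsupp.single v c = m := by
      rw [hm']
      exact tsub_add_cancel_of_le hle
    have hnr : nrm m = nrm m' + c * Real.log (Nv v) := by
      rw [← hadd, nrm_add, nrm_single]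
    have htot : (m.sum fun _ j => j) = (m'.sum fun _ j => j) + c := by
      rw [← hadd, Finsupp.sum_add_index' (fun _ => rfl) (fun _ _ _ => rfl),
        Finsupp.sum_single_index rfl]
    by_contra hcon
    rw [not_lt] at hcon
    refine hmin (m'.sum fun _ j => j) (by omega) ⟨m', ?_, ?_, by linarith, rfl⟩
    · refine le_trans ?_ hm1
      rw [← hadd]
      exact le_self_add
    · intro w hw
      rw [Finsupp.mem_support_iff] at hw
      have e : m' w = m w - (Finsupp.single v c) w := by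
        rw [hm']
        rfl
      by_cases hwv : w = v
      · subst hwv
        rw [Finsupp.single_eq_same] at e
        omega
      · rw [Finsupp.single_eq_of_ne hwv, Nat.sub_zero] at e
        rw [e] at hw ⊢
        exact hm2 w (Finsupp.mem_support_iff.2 hw)
  have h2 := hm2 v hv
  by_cases h3 : m v = 2
  · have h4 := key 2 (by omega) (by omega) (by omega)
    push_cast at h4
    linarith
  · have h4 := key 1 (by omega) (by omega) (by omega)
    push_cast at h4
    linarith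

open Classical in
/-- **the points with a powerful divisor** -/
theorem count_pow (f : (𝓞 K)[X]) (hd : 1 ≤ f.natDegree) (Bad : Finset (Pr K))
    (hBad : ∀ v ∉ Bad, Good f v ∧ GoodS f v) {δ : ℝ} (hδ : 0 < δ) (hδ1 : δ ≤ 1) :
    ∃ C : ℝ, 0 < C ∧
      ∀ H : ℝ, 0 ≤ H → ∀ a b : ℝ, 0 ≤ a → a ≤ 4 * H → b ≤ 4 * H → ∀ S : Finset K,
        (∀ x ∈ S, hr (aff x) ≤ H ∧ aeval x f ≠ 0 ∧ ∃ m : Pr K →₀ ℕ,
          (∀ v ∈ m.support, v ∉ Bad ∧ 2 ≤ m v ∧ m v ≤ nu f v x) ∧ a ≤ nrm m ∧ nrm m ≤ b) →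
            (S.card : ℝ) ≤ C * (Real.exp (b / 2 + δ * H) + Real.exp ((2 + δ) * H - a / 2)) := by
  obtain ⟨C1, hC1, h1⟩ := count_pre f hd Bad hBad (half_pos hδ)
  obtain ⟨C2, hC2, h2⟩ := rankin K (D := (f.natDegree : ℝ) + 1) (by positivity)
    (s := 1 / 2 + δ / 8) (by linarith)
  refine ⟨C2 * (1 + C1), by positivity, ?_⟩
  intro H hH a b ha haH hbH S hS
  have hS' : ∀ x, ∃ m : Pr K →₀ ℕ, x ∈ S →
      (∀ v ∈ m.support, v ∉ Bad ∧ 2 ≤ m v ∧ m v ≤ nu f v x) ∧ a ≤ nrm m ∧ nrm m ≤ b := by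
    intro x
    by_cases hx : x ∈ S
    · obtain ⟨m, hm⟩ := (hS x hx).2.2
      exact ⟨m, fun _ => hm⟩
    · exact ⟨0, fun h => absurd h hx⟩
  choose M hM using hS'
  obtain ⟨W, hW⟩ : ∃ W : Finset (Pr K →₀ ℕ), W = S.image M := ⟨_, rfl⟩
  obtain ⟨s, hs⟩ : ∃ s : ℝ, s = 1 / 2 + δ / 8 := ⟨_, rfl⟩
  rw [← hs] at h2
  have hs0 : 0 < s := by rw [hs]; positivity
  have hs1 : s < 1 := by rw [hs]; linarith
  have hWm : ∀ m ∈ W, (∀ v ∈ m.support, v ∉ Bad ∧ 2 ≤ m v) ∧ a ≤ nrm m ∧ nrm m ≤ b := by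
    intro m hm
    rw [hW] at hm
    obtain ⟨x, hx, rfl⟩ := Finset.mem_image.1 hm
    obtain ⟨e1, e2, e3⟩ := hM x hx
    exact ⟨fun v hv => ⟨(e1 v hv).1, (e1 v hv).2.1⟩, e2, e3⟩
  have hsum : (S.card : ℝ) = ∑ m ∈ W, ((S.filter fun x => M x = m).card : ℝ) := by
    have := Finset.card_eq_sum_card_fiberwise (s := S) (t := W) (f := M) (by
      intro x hx
      rw [hW]
      exact Finset.mem_coe.2 (Finset.mem_image_of_mem _ (Finset.mem_coe.1 hx)))
    exact_mod_cast this
  obtain ⟨D, hD⟩ : ∃ D : ℝ, D = (f.natDegree : ℝ) + 1 := ⟨_, rfl⟩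
  have hD0 : 0 < D := by rw [hD]; positivity
  rw [← hD] at h2
  have hterm : ∀ m ∈ W, ((S.filter fun x => M x = m).card : ℝ) ≤
      (Real.exp (s * b) + C1 * Real.exp ((2 + δ / 2) * H - (1 - s) * a)) *
        (D ^ m.support.card * Real.exp (-(s * nrm m))) := by
    intro m hm
    obtain ⟨e1, e2, e3⟩ := hWm m hm
    have h3 := h1 H hH m (fun v hv => (e1 v hv).1) (S.filter fun x => M x = m) (by
      intro x hx
      obtain ⟨hxS, hxm⟩ := Finset.mem_filter.1 hx
      refine ⟨(hS x hxS).1, (hS x hxS).2.1, fun v hv => ?_⟩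
      rw [← hxm] at hv ⊢
      exact ((hM x hxS).1 v hv).2.2)
    rw [← hD] at h3
    refine h3.trans ?_
    have e4 : (1 : ℝ) ≤ Real.exp (s * b) * Real.exp (-(s * nrm m)) := by
      rw [← Real.exp_add]
      refine Real.one_le_exp ?_
      have := mul_le_mul_of_nonneg_left e3 hs0.le
      linarith
    have e5 : Real.exp ((2 + δ / 2) * H - nrm m) ≤
        Real.exp ((2 + δ / 2) * H - (1 - s) * a) * Real.exp (-(s * nrm m)) := by
      rw [← Real.exp_add]
      refine Real.exp_le_exp.2 ?_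
      have := mul_le_mul_of_nonneg_left e2 (show 0 ≤ 1 - s by linarith)
      linarith
    have e6 : 0 < D ^ m.support.card := by positivity
    calc D ^ m.support.card * (1 + C1 * Real.exp ((2 + δ / 2) * H - nrm m)) ≤
        D ^ m.support.card * (Real.exp (s * b) * Real.exp (-(s * nrm m)) + C1 *
          (Real.exp ((2 + δ / 2) * H - (1 - s) * a) * Real.exp (-(s * nrm m)))) := by
          refine mul_le_mul_of_nonneg_left ?_ e6.le
          exact add_le_add e4 (mul_le_mul_of_nonneg_left e5 hC1.le)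
      _ = _ := by ring
  rw [hsum]
  have h4 := h2 W (fun m hm v hv => ((hWm m hm).1 v hv).2)
  have e7 : 0 ≤ Real.exp (s * b) + C1 * Real.exp ((2 + δ / 2) * H - (1 - s) * a) := by positivity
  calc ∑ m ∈ W, ((S.filter fun x => M x = m).card : ℝ) ≤
      ∑ m ∈ W, (Real.exp (s * b) + C1 * Real.exp ((2 + δ / 2) * H - (1 - s) * a)) *
        (D ^ m.support.card * Real.exp (-(s * nrm m))) := Finset.sum_le_sum hterm
    _ = (Real.exp (s * b) + C1 * Real.exp ((2 + δ / 2) * H - (1 - s) * a)) *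
        ∑ m ∈ W, (D ^ m.support.card * Real.exp (-(s * nrm m))) := by rw [Finset.mul_sum]
    _ ≤ (Real.exp (s * b) + C1 * Real.exp ((2 + δ / 2) * H - (1 - s) * a)) * C2 :=
        mul_le_mul_of_nonneg_left h4 e7
    _ ≤ (Real.exp (b / 2 + δ * H) + C1 * Real.exp ((2 + δ) * H - a / 2)) * C2 := by
        refine mul_le_mul_of_nonneg_right ?_ hC2.le
        refine add_le_add (Real.exp_le_exp.2 ?_)
          (mul_le_mul_of_nonneg_left (Real.exp_le_exp.2 ?_) hC1.le)
        · rw [hs]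
          nlinarith
        · rw [hs]
          nlinarith
    _ ≤ _ := by
        have e8 : 0 ≤ Real.exp (b / 2 + δ * H) := (Real.exp_pos _).le
        have e9 : 0 ≤ Real.exp ((2 + δ) * H - a / 2) := (Real.exp_pos _).le
        nlinarith [mul_nonneg hC2.le e8, mul_nonneg hC2.le e9, mul_nonneg hC1.le e8,
          mul_nonneg (mul_nonneg hC2.le hC1.le) e8]

end Pool.Agent.N753.SF
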