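import Mathlib
import Pool.Agent.N753.SF.Pow

/-!
# Points at which the value of a polynomial is divisible by the square of a large prime
-/

set_option autoImplicit false

namespace Pool.Agent.N753.SF

open NumberField IsDedekindDomain Finset Pool.Agent.H691R3 Pool.Agent.TH876.Loc
open Pool.Agent.N753.LS Polynomial
open H645.ABC (vl vl_mul vl_div vl_inv vl_pow)

variable {K : Type} [Field K] [NumberField K]

open Classical in
/-- the primes which divide the value of `f` at `x` -/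
noncomputable def dv (f : (𝓞 K)[X]) (x : K) : Finset (Pr K) :=
  if h : {v : Pr K | fv v x ≤ 1 ∧ fv v (aeval x f) < 1}.Finite then h.toFinset else ∅

theorem mem_dv {f : (𝓞 K)[X]} {x : K} (hx : aeval x f ≠ 0) {v : Pr K} :
    v ∈ dv f x ↔ fv v x ≤ 1 ∧ fv v (aeval x f) < 1 := by
  have h : {v : Pr K | fv v x ≤ 1 ∧ fv v (aeval x f) < 1}.Finite := by
    refine (fv_support_finite hx).subset ?_
    rintro v ⟨-, h2⟩
    exact h2.ne
  unfold dv
  rw [dif_pos h, Set.Finite.mem_toFinset]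
  rfl

theorem mem_dv_iff {f : (𝓞 K)[X]} {x : K} (hx : aeval x f ≠ 0) {v : Pr K}
    (hv : f.leadingCoeff ∉ v.asIdeal) : v ∈ dv f x ↔ 1 ≤ nu f v x := by
  rw [mem_dv hx, nu_pos_iff hv hx]

open Classical in
/-- the height in terms of the divisors of the value of the polynomial -/
theorem height_eq (f : (𝓞 K)[X]) (Bad : Finset (Pr K))
    (hBad : ∀ v ∉ Bad, f.leadingCoeff ∉ v.asIdeal) {x : K} (hx : aeval x f ≠ 0) :
    ∑ w : InfinitePlace K, mu (Sum.inl w) f x + ∑ v ∈ Bad, mu (Sum.inr v) f x +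
      ∑ v ∈ dv f x \ Bad, (nu f v x : ℝ) * Real.log (Nv v) = f.natDegree * hr (aff x) := by
  have h1 := sum_mu f hx (Bad ∪ (dv f x \ Bad)) (by
    intro v hv
    rw [Finset.mem_union, not_or, Finset.mem_sdiff, not_and_not_right] at hv
    obtain ⟨hv1, hv2⟩ := hv
    rw [mu_eq_nu (hBad v hv1) hx]
    have : nu f v x = 0 := by
      by_contra hcon
      exact hv1 (hv2 ((mem_dv_iff hx (hBad v hv1)).2 (by omega)))
    rw [this, Nat.cast_zero, zero_mul])
  rw [Finset.sum_union Finset.disjoint_sdiff] at h1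
  rw [← h1, add_assoc]
  congr 2
  refine Finset.sum_congr rfl fun v hv => ?_
  exact (mu_eq_nu (hBad v (Finset.mem_sdiff.1 hv).2) hx).symm

open Classical in
/-- an upper bound for the size of the divisors -/
theorem sum_nu_le (f : (𝓞 K)[X]) (hf : f ≠ 0) (Bad : Finset (Pr K))
    (hBad : ∀ v ∉ Bad, f.leadingCoeff ∉ v.asIdeal) : ∃ c : ℝ, 0 ≤ c ∧ ∀ x : K, aeval x f ≠ 0 →
      ∑ v ∈ dv f x \ Bad, (nu f v x : ℝ) * Real.log (Nv v) ≤ f.natDegree * hr (aff x) + c := by
  have h1 := fun w : InfinitePlace K => mu_ge (Sum.inl w) f hf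
  choose c1 hc1 h1 using h1
  have h2 := fun v : Pr K => mu_ge (Sum.inr v) f hf
  choose c2 hc2 h2 using h2
  refine ⟨∑ w, c1 w + ∑ v ∈ Bad, c2 v, add_nonneg (Finset.sum_nonneg fun w _ => hc1 w)
    (Finset.sum_nonneg fun v _ => hc2 v), fun x hx => ?_⟩
  have h3 := height_eq f Bad hBad hx
  have h4 : -∑ w, c1 w ≤ ∑ w : InfinitePlace K, mu (Sum.inl w) f x := by
    rw [← Finset.sum_neg_distrib]
    exact Finset.sum_le_sum fun w _ => h1 w x hx
  have h5 : -∑ v ∈ Bad, c2 v ≤ ∑ v ∈ Bad, mu (Sum.inr v) f x := by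
    rw [← Finset.sum_neg_distrib]
    exact Finset.sum_le_sum fun v _ => h2 v x hx
  linarith

theorem log_fv_vl (v : Pr K) (z : Kˣ) : Real.log (fv v (z : K)) = vl v z * Real.log (Nv v) := by
  have h0 : ((v.valuationOfNeZero z : Multiplicative ℤ) : WithZero (Multiplicative ℤ)) =
      v.valuation K (z : K) := HeightOneSpectrum.valuationOfNeZero_eq v z
  have hz : v.valuation K (z : K) ≠ 0 := (Valuation.ne_zero_iff _).mpr z.ne_zero
  have h1 : fv v (z : K) = _ := NumberField.FinitePlace.norm_embedding' (v := v) (x := (z : K))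
  rw [WithZeroMulInt.toNNReal_neg_apply _ hz] at h1
  have h2 : Multiplicative.toAdd (WithZero.unzero hz) = vl v z := by
    unfold vl
    congr 1
    rw [← WithZero.coe_inj, WithZero.coe_unzero, h0]
  rw [h2] at h1
  have h3 : fv v (z : K) = Nv v ^ vl v z := by
    rw [h1]
    push_cast
    rfl
  rw [h3, Real.log_zpow]

/-- the parity of the valuation -/
theorem od_nu {f : (𝓞 K)[X]} {v : Pr K} (hv : f.leadingCoeff ∉ v.asIdeal) {x : K}
    (hx : aeval x f ≠ 0) (hk : Even f.natDegree) (h : v ∈ od (aeval x f)) :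
    1 ≤ nu f v x ∧ ¬ Even (nu f v x) := by
  rw [mem_od] at h
  obtain ⟨z, hz⟩ : ∃ z : Kˣ, z = Units.mk0 _ hx := ⟨_, rfl⟩
  have hz' : (z : K) = aeval x f := by rw [hz]; rfl
  rw [← hz', sq_iff] at h
  have hN := log_Nv_pos v
  have h1 := log_fv_vl v z
  rw [hz'] at h1
  rcases le_or_gt (fv v x) 1 with h2 | h2
  · have h3 := mu_eq_nu hv hx
    rw [mu_small f h2, h1] at h3
    have h4 : ((nu f v x : ℤ) : ℝ) = ((-(vl v z) : ℤ) : ℝ) := by
      have h5 : ((nu f v x : ℤ) : ℝ) * Real.log (Nv v) = ((-(vl v z) : ℤ) : ℝ) * Real.log (Nv v) := by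
        push_cast
        linarith
      exact mul_right_cancel₀ hN.ne' h5
    have h5 : (nu f v x : ℤ) = -(vl v z) := by exact_mod_cast h4
    have h6 : ¬ Even (nu f v x) := by
      intro h7
      apply h
      have h8 : Even (nu f v x : ℤ) := by exact_mod_cast h7
      rw [h5] at h8
      exact (even_neg).1 h8
    refine ⟨?_, h6⟩
    by_contra hcon
    have : nu f v x = 0 := by omega
    rw [this] at h6
    exact h6 (by norm_num)
  · exfalso
    apply h
    have hx0 : x ≠ 0 := by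
      rintro rfl
      rw [map_zero] at h2
      linarith
    have h3 := log_fv_vl v (Units.mk0 x hx0)
    rw [Units.val_mk0] at h3
    rw [fv_large hv h2, Real.log_pow, h3] at h1
    have h4 : ((f.natDegree * vl v (Units.mk0 x hx0) : ℤ) : ℝ) = ((vl v z : ℤ) : ℝ) := by
      have h5 : ((f.natDegree * vl v (Units.mk0 x hx0) : ℤ) : ℝ) * Real.log (Nv v) =
          ((vl v z : ℤ) : ℝ) * Real.log (Nv v) := by
        push_cast
        linarith
      exact mul_right_cancel₀ hN.ne' h5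
    have h5 : (f.natDegree * vl v (Units.mk0 x hx0) : ℤ) = vl v z := by exact_mod_cast h4
    rw [← h5]
    obtain ⟨k, hk⟩ := hk
    refine ⟨k * vl v (Units.mk0 x hx0), ?_⟩
    rw [hk]
    push_cast
    ring

/-- the values of the polynomial are divisible by the squares of large primes at few points only -/
def NoLarge (κ ν : ℝ) (f : (𝓞 K)[X]) : Prop :=
  ∃ (C : ℝ) (Bad : Finset (Pr K)), 0 < C ∧ ∀ H : ℝ, 0 ≤ H →
    ∀ S : Finset K, (∀ x ∈ S, hr (aff x) ≤ H ∧ aeval x f ≠ 0 ∧ ∃ v, v ∉ Bad ∧ 2 ≤ nu f v x ∧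
      (2 - κ) * H ≤ Real.log (Nv v)) → (S.card : ℝ) ≤ C * Real.exp ((2 - ν) * H)

open Classical in
/-- **no large primes for polynomials of degree at most four** -/
theorem noLarge_four (f : (𝓞 K)[X]) (hf : Nice f) (h4 : f.natDegree ≤ 4) :
    NoLarge (1 / 8) (1 / 4) f := by
  obtain ⟨Bad, hBad⟩ := exists_badS f hf.2 hf.1
  have hf0 : f ≠ 0 := by
    rintro rfl
    have := hf.1
    simp at this
  obtain ⟨c, hc, h1⟩ := sum_nu_le f hf0 Bad (fun v hv => (hBad v hv).2.2)
  obtain ⟨C1, hC1, h2⟩ := count_all K (δ := 1) one_pos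
  obtain ⟨C2, hC2, h3⟩ := count_light f hf.1 Bad (fun v hv => (hBad v hv).1)
    (show (0 : ℝ) < 1 / 4 by norm_num)
  refine ⟨C1 * Real.exp (3 * (2 * c + 1)) + C2 * Real.exp (c / 2), Bad, by positivity, ?_⟩
  intro H hH S hS
  have hE : 1 ≤ Real.exp ((2 - 1 / 4) * H) := Real.one_le_exp (by linarith)
  by_cases hcase : H ≤ 2 * c + 1
  · have h5 := h2 H hH S fun x hx => (hS x hx).1
    have h6 : Real.exp ((2 + 1) * H) ≤ Real.exp (3 * (2 * c + 1)) := Real.exp_le_exp.2 (by linarith)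
    have h7 : 0 ≤ C2 * Real.exp (c / 2) * Real.exp ((2 - 1 / 4) * H) := by positivity
    have h8 : 0 ≤ C1 * Real.exp (3 * (2 * c + 1)) := by positivity
    calc (S.card : ℝ) ≤ C1 * Real.exp ((2 + 1) * H) := h5
      _ ≤ C1 * Real.exp (3 * (2 * c + 1)) := mul_le_mul_of_nonneg_left h6 hC1.le
      _ ≤ C1 * Real.exp (3 * (2 * c + 1)) * Real.exp ((2 - 1 / 4) * H) :=
          le_mul_of_one_le_right h8 hE
      _ ≤ _ := by nlinarith
  · rw [not_le] at hcase
    have key : ∀ x ∈ S, ∑ v ∈ od (aeval x f) \ Bad, Real.log (Nv v) ≤ H / 4 + c := by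
      intro x hx
      obtain ⟨hxH, hx0, v0, hv0, hv2, hv3⟩ := hS x hx
      have h5 := h1 x hx0
      have hl0 := log_Nv_pos v0
      have hv0d : v0 ∈ dv f x \ Bad := by
        rw [Finset.mem_sdiff]
        exact ⟨(mem_dv_iff hx0 (hBad v0 hv0).2.2).2 (by omega), hv0⟩
      have hk4 : (f.natDegree : ℝ) ≤ 4 := by exact_mod_cast h4
      have hhr : 0 ≤ hr (aff x) := hr_aff_nonneg x
      have h6 : (f.natDegree : ℝ) * hr (aff x) ≤ f.natDegree * H :=
        mul_le_mul_of_nonneg_left hxH (Nat.cast_nonneg _)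
      rw [← Finset.add_sum_erase _ _ hv0d] at h5
      have h7 : 0 ≤ ∑ v ∈ (dv f x \ Bad).erase v0, (nu f v x : ℝ) * Real.log (Nv v) :=
        Finset.sum_nonneg fun v _ => mul_nonneg (Nat.cast_nonneg _) (log_Nv_pos v).le
      have h8 : (2 : ℝ) ≤ nu f v0 x := by exact_mod_cast hv2
      have h9 : 2 * ((2 - 1 / 8) * H) ≤ nu f v0 x * Real.log (Nv v0) := by nlinarith
      have hdeg : f.natDegree = 4 := by
        by_contra hcon
        have h10 : (f.natDegree : ℝ) ≤ 3 := by
          have : f.natDegree ≤ 3 := by omega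
          exact_mod_cast this
        nlinarith
      have hnu : nu f v0 x = 2 := by
        by_contra hcon
        have h10 : (3 : ℝ) ≤ nu f v0 x := by
          have : 3 ≤ nu f v0 x := by omega
          exact_mod_cast this
        have h11 : 3 * ((2 - 1 / 8) * H) ≤ nu f v0 x * Real.log (Nv v0) := by nlinarith
        nlinarith
      have h10 : od (aeval x f) \ Bad ⊆ (dv f x \ Bad).erase v0 := by
        intro v hv
        rw [Finset.mem_sdiff] at hv
        obtain ⟨hva, hvb⟩ := hv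
        obtain ⟨h11, h12⟩ := od_nu (hBad v hvb).2.2 hx0 (by rw [hdeg]; exact ⟨2, rfl⟩) hva
        rw [Finset.mem_erase, Finset.mem_sdiff]
        refine ⟨?_, (mem_dv_iff hx0 (hBad v hvb).2.2).2 h11, hvb⟩
        rintro rfl
        rw [hnu] at h12
        exact h12 (by norm_num)
      have h11 : ∑ v ∈ od (aeval x f) \ Bad, Real.log (Nv v) ≤
          ∑ v ∈ (dv f x \ Bad).erase v0, (nu f v x : ℝ) * Real.log (Nv v) := by
        refine (Finset.sum_le_sum_of_subset_of_nonneg h10 fun v _ _ => (log_Nv_pos v).le).trans ?_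
        refine Finset.sum_le_sum fun v hv => ?_
        obtain ⟨-, hv⟩ := Finset.mem_erase.1 hv
        obtain ⟨hva, hvb⟩ := Finset.mem_sdiff.1 hv
        have h12 : (1 : ℝ) ≤ nu f v x := by
          exact_mod_cast (mem_dv_iff hx0 (hBad v hvb).2.2).1 hva
        have := log_Nv_pos v
        nlinarith
      have h12 : (f.natDegree : ℝ) * H ≤ 4 * H := mul_le_mul_of_nonneg_right hk4 hH
      linarith
    have h5 := h3 H hH (H / 4 + c) (by linarith) S fun x hx => ⟨(hS x hx).1, (hS x hx).2.1, key x hx⟩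
    have h6 : Real.exp ((1 + 1 / 4) * H + (H / 4 + c) / 2) ≤
        Real.exp (c / 2) * Real.exp ((2 - 1 / 4) * H) := by
      rw [← Real.exp_add]
      exact Real.exp_le_exp.2 (by linarith)
    have h7 : 0 ≤ C1 * Real.exp (3 * (2 * c + 1)) * Real.exp ((2 - 1 / 4) * H) := by positivity
    calc (S.card : ℝ) ≤ C2 * Real.exp ((1 + 1 / 4) * H + (H / 4 + c) / 2) := h5
      _ ≤ C2 * (Real.exp (c / 2) * Real.exp ((2 - 1 / 4) * H)) :=
          mul_le_mul_of_nonneg_left h6 hC2.le
      _ ≤ _ := by nlinarith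

end Pool.Agent.N753.SF
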