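import Mathlib
import Pool.Agent.N753.SF.Mu

/-!
# Points at which a polynomial without multiple roots is small at one place
-/

set_option autoImplicit false

namespace Pool.Agent.N753.SF

open NumberField IsDedekindDomain Finset Pool.Agent.H691R3 Pool.Agent.TH876.Loc
open Pool.Agent.N753.LS Polynomial

section Abs

variable {K : Type} [Field K]

theorem pow_diff (g : AbsoluteValue K ℝ) {R : ℝ} (hR : 1 ≤ R) {x y : K} (hx : g x ≤ R)
    (hy : g y ≤ R) (i : ℕ) :
    g (y ^ i - x ^ i - (i : K) * x ^ (i - 1) * (y - x)) ≤ (∑ j ∈ Finset.range i, g (j : K)) *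
      R ^ i * g (y - x) ^ 2 := by
  induction i with
  | zero => simp
  | succ i ih =>
    have e : y ^ (i + 1) - x ^ (i + 1) - ((i + 1 : ℕ) : K) * x ^ (i + 1 - 1) * (y - x) =
        y * (y ^ i - x ^ i - (i : K) * x ^ (i - 1) * (y - x)) +
          (i : K) * x ^ (i - 1) * (y - x) ^ 2 := by
      rcases i with _ | i
      · simp
      · rw [Nat.add_sub_cancel, Nat.add_sub_cancel]
        push_cast
        ring
    rw [e, Finset.sum_range_succ]
    refine (g.add_le _ _).trans ?_
    rw [g.map_mul, g.map_mul, g.map_mul, g.map_pow, g.map_pow]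
    have h1 : g y * g (y ^ i - x ^ i - (i : K) * x ^ (i - 1) * (y - x)) ≤
        R * ((∑ j ∈ Finset.range i, g (j : K)) * R ^ i * g (y - x) ^ 2) :=
      mul_le_mul hy ih (g.nonneg _) (by linarith)
    have h2 : g x ^ (i - 1) ≤ R ^ (i + 1) :=
      (pow_le_pow_left₀ (g.nonneg _) hx _).trans (pow_le_pow_right₀ hR (by omega))
    have h3 : g (i : K) * g x ^ (i - 1) * g (y - x) ^ 2 ≤ g (i : K) * R ^ (i + 1) * g (y - x) ^ 2 :=
      mul_le_mul_of_nonneg_right (mul_le_mul_of_nonneg_left h2 (g.nonneg _)) (by positivity)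
    calc _ ≤ R * ((∑ j ∈ Finset.range i, g (j : K)) * R ^ i * g (y - x) ^ 2) +
        g (i : K) * R ^ (i + 1) * g (y - x) ^ 2 := add_le_add h1 h3
      _ = _ := by ring

/-- Taylor's formula with a bounded remainder -/
theorem taylor_abs (g : AbsoluteValue K ℝ) (F : K[X]) {R : ℝ} (hR : 1 ≤ R) :
    ∃ M : ℝ, 0 ≤ M ∧ ∀ x y : K, g x ≤ R → g y ≤ R →
      g (F.eval y - F.eval x - (derivative F).eval x * (y - x)) ≤ M * g (y - x) ^ 2 := by
  refine ⟨∑ i ∈ Finset.range (F.natDegree + 1), g (F.coeff i) *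
    ((∑ j ∈ Finset.range i, g (j : K)) * R ^ i), ?_, ?_⟩
  · refine Finset.sum_nonneg fun i _ => mul_nonneg (g.nonneg _) (mul_nonneg ?_ (by positivity))
    exact Finset.sum_nonneg fun j _ => g.nonneg _
  · intro x y hx hy
    have e1 : F.eval y - F.eval x - (derivative F).eval x * (y - x) =
        ∑ i ∈ Finset.range (F.natDegree + 1), F.coeff i *
          (y ^ i - x ^ i - (i : K) * x ^ (i - 1) * (y - x)) := by
      have e2 : (derivative F).eval x = ∑ i ∈ Finset.range (F.natDegree + 1),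
          F.coeff i * ((i : K) * x ^ (i - 1)) := by
        rw [derivative_eval, sum_over_range]
        · refine Finset.sum_congr rfl fun i _ => ?_
          ring
        · intro i
          ring
      rw [eval_eq_sum_range, eval_eq_sum_range, e2, Finset.sum_mul, ← Finset.sum_sub_distrib,
        ← Finset.sum_sub_distrib]
      refine Finset.sum_congr rfl fun i _ => ?_
      ring
    rw [e1, Finset.sum_mul]
    refine (abs_sum_le g _ _).trans (Finset.sum_le_sum fun i _ => ?_)
    rw [g.map_mul]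
    exact (mul_le_mul_of_nonneg_left (pow_diff g hR hx hy i) (g.nonneg _)).trans
      (le_of_eq (by ring))

theorem abs_eval_le (g : AbsoluteValue K ℝ) (F : K[X]) {R : ℝ} (hR : 1 ≤ R) :
    ∃ M : ℝ, 1 ≤ M ∧ ∀ x : K, g x ≤ R → g (F.eval x) ≤ M := by
  refine ⟨1 + ∑ i ∈ Finset.range (F.natDegree + 1), g (F.coeff i) * R ^ i, ?_, ?_⟩
  · have : 0 ≤ ∑ i ∈ Finset.range (F.natDegree + 1), g (F.coeff i) * R ^ i :=
      Finset.sum_nonneg fun i _ => mul_nonneg (g.nonneg _) (by positivity)
    linarith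
  · intro x hx
    rw [eval_eq_sum_range]
    refine (abs_sum_le g _ _).trans ?_
    refine le_trans (Finset.sum_le_sum (g := fun i => g (F.coeff i) * R ^ i) fun i _ => ?_)
      (by linarith)
    rw [g.map_mul, g.map_pow]
    exact mul_le_mul_of_nonneg_left (pow_le_pow_left₀ (g.nonneg _) hx _) (g.nonneg _)

/-- **sharp clusters** -/
theorem sharp (g : AbsoluteValue K ℝ) (F a b : K[X]) {n : K} (hn : n ≠ 0)
    (hab : a * F + b * derivative F = Polynomial.C n) (hk : 1 ≤ F.natDegree) :
    ∃ C : ℝ, 0 ≤ C ∧ ∀ (t : ℝ) (S : Finset K),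
      (∀ x ∈ S, g (F.eval x) ≤ Real.exp (-t) * max (g x) 1 ^ F.natDegree) → C < t →
        ∃ (T : Finset K) (φ : K → K), T.card ≤ F.natDegree ∧ (∀ x ∈ S, φ x ∈ T) ∧
          ∀ x ∈ S, ∀ y ∈ S, φ x = φ y → g (x - y) ≤ Real.exp (C - t) := by
  obtain ⟨C0, M0, hC0, hM0, hcl⟩ := cluster g F hk
  obtain ⟨R, l, hR, hl, hll, hlarge⟩ := large g F hk
  obtain ⟨M2, hM2, hT⟩ := taylor_abs g F hR
  obtain ⟨Ma, hMa, ha⟩ := abs_eval_le g a hR
  obtain ⟨Mb, hMb, hb⟩ := abs_eval_le g b hR
  obtain ⟨k, hkk⟩ : ∃ k, k = F.natDegree := ⟨_, rfl⟩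
  rw [← hkk] at hk hcl hlarge ⊢
  have hkR : (0 : ℝ) < k := by exact_mod_cast hk
  have hgn : 0 < g n := g.pos hn
  obtain ⟨c1, hc1⟩ : ∃ c1 : ℝ, c1 = g n / (2 * Mb) := ⟨_, rfl⟩
  have hc10 : 0 < c1 := by rw [hc1]; positivity
  -- the thresholds
  obtain ⟨t1, ht1⟩ : ∃ t1 : ℝ, t1 = Real.log (2 / l) := ⟨_, rfl⟩
  obtain ⟨t2, ht2⟩ : ∃ t2 : ℝ, t2 = Real.log (2 * Ma * R ^ k / g n) := ⟨_, rfl⟩
  obtain ⟨t3, ht3⟩ : ∃ t3 : ℝ, t3 = k * Real.log (4 * M0 * (M2 + 1) / c1) := ⟨_, rfl⟩
  obtain ⟨t4, ht4⟩ : ∃ t4 : ℝ, t4 = Real.log (4 * R ^ k / c1) := ⟨_, rfl⟩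
  obtain ⟨C, hC⟩ : ∃ C : ℝ, C = C0 + |t1| + |t2| + |t3| + |t4| := ⟨_, rfl⟩
  have hCt1 : t1 ≤ C := by
    have := le_abs_self t1
    have := abs_nonneg t2
    have := abs_nonneg t3
    have := abs_nonneg t4
    linarith
  have hCt2 : t2 ≤ C := by
    have := le_abs_self t2
    have := abs_nonneg t1
    have := abs_nonneg t3
    have := abs_nonneg t4
    linarith
  have hCt3 : t3 ≤ C := by
    have := le_abs_self t3
    have := abs_nonneg t1
    have := abs_nonneg t2
    have := abs_nonneg t4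
    linarith
  have hCt4 : t4 ≤ C := by
    have := le_abs_self t4
    have := abs_nonneg t1
    have := abs_nonneg t2
    have := abs_nonneg t3
    linarith
  have hCt0 : C0 ≤ C := by
    have := abs_nonneg t1
    have := abs_nonneg t2
    have := abs_nonneg t3
    have := abs_nonneg t4
    linarith
  refine ⟨C, hC0.trans hCt0, ?_⟩
  intro t S hS ht
  have hSR : ∀ x ∈ S, g x ≤ R := by
    intro x hx
    by_contra hcon
    rw [not_le] at hcon
    have h1 := hlarge x hcon
    have h2 := hS x hx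
    rw [max_eq_left (hR.trans hcon.le)] at h2
    have h3 : 0 < g x ^ k := by
      have : 0 < g x := by linarith
      positivity
    have h4 : l / 2 ≤ Real.exp (-t) := le_of_mul_le_mul_right (h1.trans h2) h3
    have h5 : Real.exp (-t) < l / 2 := by
      have h6 : Real.exp (-t) < Real.exp (-t1) := Real.exp_lt_exp.2 (by linarith)
      rw [Real.exp_neg t1, ht1, Real.exp_log (by positivity)] at h6
      rwa [inv_div] at h6
    linarith
  have hSF : ∀ x ∈ S, g (F.eval x) ≤ Real.exp (-t) * R ^ k := by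
    intro x hx
    refine (hS x hx).trans ?_
    refine mul_le_mul_of_nonneg_left ?_ (Real.exp_pos _).le
    exact pow_le_pow_left₀ (le_trans zero_le_one (le_max_right _ _)) (max_le (hSR x hx) hR) k
  have hder : ∀ x ∈ S, c1 ≤ g ((derivative F).eval x) := by
    intro x hx
    have h1 : n = a.eval x * F.eval x + b.eval x * (derivative F).eval x := by
      have := congrArg (Polynomial.eval x) hab
      rw [eval_add, eval_mul, eval_mul, eval_C] at this
      exact this.symm
    have h2 : g n ≤ Ma * g (F.eval x) + Mb * g ((derivative F).eval x) := by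
      conv_lhs => rw [h1]
      refine (g.add_le _ _).trans ?_
      rw [g.map_mul, g.map_mul]
      exact add_le_add (mul_le_mul_of_nonneg_right (ha x (hSR x hx)) (g.nonneg _))
        (mul_le_mul_of_nonneg_right (hb x (hSR x hx)) (g.nonneg _))
    have h3 : Ma * g (F.eval x) ≤ g n / 2 := by
      have h4 : Real.exp (-t) ≤ g n / (2 * Ma * R ^ k) := by
        have h6 : Real.exp (-t) ≤ Real.exp (-t2) := Real.exp_le_exp.2 (by linarith)
        rw [Real.exp_neg t2, ht2, Real.exp_log (by positivity), inv_div] at h6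
        exact h6
      have h5 := (hSF x hx).trans (mul_le_mul_of_nonneg_right h4 (by positivity))
      calc Ma * g (F.eval x) ≤ Ma * (g n / (2 * Ma * R ^ k) * R ^ k) :=
            mul_le_mul_of_nonneg_left h5 (by linarith)
        _ = g n / 2 := by field_simp
    rw [hc1, div_le_iff₀ (by positivity)]
    linarith
  obtain ⟨T, -, hTc, hT2⟩ := hcl t (by linarith) S hS
  choose! φ hφ1 hφ2 using hT2
  refine ⟨T, φ, hTc, hφ1, ?_⟩
  intro x hx y hy hφ
  have h1 := hφ2 x hx
  have h2 := hφ2 y hy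
  rw [← hφ] at h2
  have h3 : g (y - x) ≤ 2 * (Real.exp (-(t / k)) * M0) := by
    have e : y - x = (y - φ x) + -(x - φ x) := by ring
    rw [e]
    refine (g.add_le _ _).trans ?_
    rw [g.map_neg]
    linarith
  have h4 : (M2 + 1) * g (y - x) ≤ c1 / 2 := by
    have h5 : Real.exp (-(t / k)) ≤ c1 / (4 * M0 * (M2 + 1)) := by
      have h6 : Real.exp (-(t / k)) ≤ Real.exp (-(t3 / k)) := by
        refine Real.exp_le_exp.2 (neg_le_neg ?_)
        exact div_le_div_of_nonneg_right (by linarith) hkR.le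
      have h7 : t3 / k = Real.log (4 * M0 * (M2 + 1) / c1) := by
        rw [ht3]
        field_simp
      rw [h7, Real.exp_neg (Real.log _), Real.exp_log (by positivity), inv_div] at h6
      exact h6
    calc (M2 + 1) * g (y - x) ≤ (M2 + 1) * (2 * (Real.exp (-(t / k)) * M0)) :=
          mul_le_mul_of_nonneg_left h3 (by linarith)
      _ ≤ (M2 + 1) * (2 * (c1 / (4 * M0 * (M2 + 1)) * M0)) := by
          refine mul_le_mul_of_nonneg_left ?_ (by linarith)
          refine mul_le_mul_of_nonneg_left ?_ (by norm_num)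
          exact mul_le_mul_of_nonneg_right h5 (by linarith)
      _ = c1 / 2 := by field_simp; norm_num
  have h5 := hT x y (hSR x hx) (hSR y hy)
  have h6 : c1 * g (y - x) ≤ g (F.eval x) + g (F.eval y) + M2 * g (y - x) ^ 2 := by
    have e : (derivative F).eval x * (y - x) = F.eval y + (-(F.eval x) +
        -(F.eval y - F.eval x - (derivative F).eval x * (y - x))) := by ring
    calc c1 * g (y - x) ≤ g ((derivative F).eval x) * g (y - x) :=
          mul_le_mul_of_nonneg_right (hder x hx) (g.nonneg _)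
      _ = g ((derivative F).eval x * (y - x)) := (g.map_mul _ _).symm
      _ ≤ g (F.eval y) + (g (-(F.eval x)) +
          g (-(F.eval y - F.eval x - (derivative F).eval x * (y - x)))) := by
          conv_lhs => rw [e]
          refine (g.add_le _ _).trans (add_le_add le_rfl (g.add_le _ _))
      _ ≤ _ := by
          rw [g.map_neg, g.map_neg]
          linarith
  have h7 : M2 * g (y - x) ^ 2 ≤ c1 / 2 * g (y - x) := by
    have h8 := mul_le_mul_of_nonneg_right h4 (g.nonneg (y - x))
    have h9 : 0 ≤ g (y - x) ^ 2 := by positivity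
    nlinarith
  have h8 : g (y - x) ≤ 4 * R ^ k / c1 * Real.exp (-t) := by
    have h9 := hSF x hx
    have h10 := hSF y hy
    have h11 : c1 / 2 * g (y - x) ≤ 2 * (Real.exp (-t) * R ^ k) := by linarith
    rw [div_mul_eq_mul_div, le_div_iff₀ hc10]
    linarith
  have h9 : g (x - y) = g (y - x) := by
    rw [← g.map_neg, neg_sub]
  rw [h9]
  refine h8.trans ?_
  have h10 : 4 * R ^ k / c1 = Real.exp t4 := by
    rw [ht4, Real.exp_log (by positivity)]
  rw [h10, ← Real.exp_add]
  exact Real.exp_le_exp.2 (by linarith)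

end Abs

variable {K : Type} [Field K] [NumberField K]

/-- **clusters at a place** -/
theorem sharp_place (p : Pl K) (f : (𝓞 K)[X]) (hsq : Squarefree (f.map (algebraMap (𝓞 K) K)))
    (hk : 1 ≤ f.natDegree) :
    ∃ C : ℝ, 0 ≤ C ∧ ∀ (τ : ℝ) (S : Finset K),
      (∀ x ∈ S, aeval x f ≠ 0 ∧ τ ≤ mu p f x) → S.Nonempty →
        ∃ (T : Finset K) (φ : K → K), T.card ≤ f.natDegree ∧ (∀ x ∈ S, φ x ∈ T) ∧
          ∀ x ∈ S, ∀ y ∈ S, x ≠ y → φ x = φ y → τ - C ≤ lam p (aff x) (aff y) := by
  classical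
  obtain ⟨F, hF⟩ : ∃ F : K[X], F = f.map (algebraMap (𝓞 K) K) := ⟨_, rfl⟩
  have hFd : F.natDegree = f.natDegree := by
    rw [hF]
    exact natDegree_map_eq_of_injective (FaithfulSMul.algebraMap_injective _ _) f
  have hFe : ∀ x : K, F.eval x = aeval x f := fun x => by rw [hF, eval_map_algebraMap]
  obtain ⟨a0, b0, n0, hn0, hab0⟩ := bezout_int f hsq
  have hab : a0.map (algebraMap (𝓞 K) K) * F + b0.map (algebraMap (𝓞 K) K) * derivative F =
      Polynomial.C (algebraMap (𝓞 K) K n0) := by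
    have h1 := congrArg (Polynomial.map (algebraMap (𝓞 K) K)) hab0
    rw [Polynomial.map_add, Polynomial.map_mul, Polynomial.map_mul, Polynomial.map_C,
      ← derivative_map, ← hF] at h1
    exact h1
  have hn : algebraMap (𝓞 K) K n0 ≠ 0 := by
    rwa [Ne, FaithfulSMul.algebraMap_eq_zero_iff]
  have key : ∀ g : AbsoluteValue K ℝ, ∃ C : ℝ, 0 ≤ C ∧ ∀ (t : ℝ) (S : Finset K),
      (∀ x ∈ S, aeval x f ≠ 0 ∧
        t ≤ f.natDegree * Real.log (max (g x) 1) - Real.log (g (aeval x f))) → S.Nonempty →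
        ∃ (T : Finset K) (φ : K → K), T.card ≤ f.natDegree ∧ (∀ x ∈ S, φ x ∈ T) ∧
          ∀ x ∈ S, ∀ y ∈ S, x ≠ y → φ x = φ y → t - C ≤ lamA g (aff x) (aff y) := by
    intro g
    obtain ⟨C, hC, h⟩ := sharp g F _ _ hn hab (by rw [hFd]; exact hk)
    rw [hFd] at h
    refine ⟨C + Real.log 2, by
      have := Real.log_nonneg one_le_two
      positivity, ?_⟩
    intro t S hS hne
    have hl2 := Real.log_nonneg one_le_two
    by_cases ht : C < t
    · obtain ⟨T, φ, hTc, hφ1, hφ2⟩ := h t S (by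
        intro x hx
        obtain ⟨h1, h2⟩ := hS x hx
        rw [hFe]
        have h3 : 0 < max (g x) 1 := lt_of_lt_of_le one_pos (le_max_right _ _)
        have h4 : Real.log (g (aeval x f)) ≤ -t + f.natDegree * Real.log (max (g x) 1) := by
          linarith
        rw [← Real.log_pow, ← Real.log_exp (-t), ← Real.log_mul (Real.exp_pos _).ne'
          (by positivity)] at h4
        exact (Real.log_le_log_iff (g.pos h1) (by positivity)).1 h4) ht
      refine ⟨T, φ, hTc, hφ1, ?_⟩
      intro x hx y hy hxy hφ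
      rw [le_lamA_iff g (aff_ne_zero x) (aff_ne_zero y) (aff_wedge hxy)]
      have e1 : (aff x).1 * (aff y).2 - (aff x).2 * (aff y).1 = x - y := by
        simp only [aff, mul_one, one_mul]
      rw [e1]
      have e2 : (1 : ℝ) ≤ max (g (aff x).1) (g (aff x).2) * max (g (aff y).1) (g (aff y).2) := by
        have h5 : (1 : ℝ) ≤ max (g (aff x).1) (g (aff x).2) := by
          refine le_trans ?_ (le_max_right _ _)
          show 1 ≤ g 1
          rw [map_one]
        have h6 : (1 : ℝ) ≤ max (g (aff y).1) (g (aff y).2) := by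
          refine le_trans ?_ (le_max_right _ _)
          show 1 ≤ g 1
          rw [map_one]
        nlinarith
      refine (hφ2 x hx y hy hφ).trans ?_
      refine le_trans (Real.exp_le_exp.2 (by linarith : C - t ≤ -(t - (C + Real.log 2)))) ?_
      exact le_mul_of_one_le_right (Real.exp_pos _).le e2
    · rw [not_lt] at ht
      obtain ⟨x0, hx0⟩ := hne
      refine ⟨{x0}, fun _ => x0, by rw [Finset.card_singleton]; exact hk,
        fun x _ => Finset.mem_singleton_self _, ?_⟩
      intro x hx y hy hxy _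
      have h1 := lamA_ge_neg_log_two g (aff_ne_zero x) (aff_ne_zero y) (aff_wedge hxy)
      linarith
  rcases p with w | v
  · obtain ⟨C, hC, h⟩ := key w.1
    have hw : (0 : ℝ) < w.mult := by exact_mod_cast InfinitePlace.mult_pos
    refine ⟨w.mult * C, by positivity, ?_⟩
    intro τ S hS hne
    have e : ∀ x, mu (Sum.inl w) f x = w.mult * (f.natDegree * Real.log (max (w.1 x) 1) -
        Real.log (w.1 (aeval x f))) := by
      intro x
      show (f.natDegree : ℝ) * (w.mult * Real.log (max (w x) 1)) -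
        w.mult * Real.log (w (aeval x f)) = _
      simp only [InfinitePlace.coe_apply]
      ring
    obtain ⟨T, φ, h1, h2, h3⟩ := h (τ / w.mult) S (by
      intro x hx
      obtain ⟨h4, h5⟩ := hS x hx
      refine ⟨h4, ?_⟩
      rw [e x] at h5
      rw [div_le_iff₀ hw, mul_comm]
      exact h5) hne
    refine ⟨T, φ, h1, h2, ?_⟩
    intro x hx y hy hxy hφ
    have h4 := mul_le_mul_of_nonneg_left (h3 x hx y hy hxy hφ) hw.le
    have e2 : lam (Sum.inl w) (aff x) (aff y) = w.mult * lamA w.1 (aff x) (aff y) := rfl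
    rw [e2]
    refine le_trans (le_of_eq ?_) h4
    field_simp
  · exact key (fv v)

end Pool.Agent.N753.SF
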