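import Mathlib
import Pool.Agent.N753.SF.Large
import Pool.Agent.N753.SF.Sharp

/-!
# Points close to the zeros of a polynomial at finitely many places
-/

set_option autoImplicit false

namespace Pool.Agent.N753.SF

open NumberField IsDedekindDomain Finset Pool.Agent.H691R3 Pool.Agent.TH876.Loc
open Pool.Agent.N753.LS Polynomial

variable {K : Type} [Field K] [NumberField K]

open Classical in
/-- the points close to a zero at the places of a finite set -/
theorem count_vec (F : Finset (Pl K)) (f : (𝓞 K)[X]) (hd : 1 ≤ f.natDegree)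
    (hsq : Squarefree (f.map (algebraMap (𝓞 K) K))) {δ : ℝ} (hδ : 0 < δ) :
    ∃ C : ℝ, 0 < C ∧ ∀ H : ℝ, 0 ≤ H → ∀ τ : Pl K → ℝ, ∀ S : Finset K,
      (∀ x ∈ S, hr (aff x) ≤ H ∧ aeval x f ≠ 0 ∧ ∀ p ∈ F, τ p ≤ mu p f x) →
        (S.card : ℝ) ≤ C * (1 + Real.exp ((2 + δ) * H - ∑ p ∈ F, τ p)) := by
  have h0 := fun p : Pl K => sharp_place p f hsq hd
  choose C0 hC0 h0 using h0
  obtain ⟨C1, hC1, h1⟩ := ls_bound2 K (κ := 1) le_rfl (K' := 1) zero_le_one ∅ hδ
  obtain ⟨C2, hC2, h2⟩ := count_all K hδ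
  have hkR : (1 : ℝ) ≤ f.natDegree := by exact_mod_cast hd
  obtain ⟨k, hk⟩ : ∃ k : ℝ, k = f.natDegree := ⟨_, rfl⟩
  rw [← hk] at hkR
  obtain ⟨L, hL⟩ : ∃ L : ℝ, L = ∑ p ∈ F, Lu p := ⟨_, rfl⟩
  have hL0 : 0 ≤ L := by rw [hL]; exact Finset.sum_nonneg fun p _ => (Lu_pos p).le
  obtain ⟨c0, hc0⟩ : ∃ c0 : ℝ, c0 = ∑ p ∈ F, C0 p := ⟨_, rfl⟩
  have hc00 : 0 ≤ c0 := by rw [hc0]; exact Finset.sum_nonneg fun p _ => hC0 p
  refine ⟨k ^ F.card * (1 + C1 * Real.exp c0) + C2 * Real.exp (c0 + L), by positivity, ?_⟩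
  intro H hH τ S hS
  obtain ⟨E, hE⟩ : ∃ E : ℝ, E = Real.exp ((2 + δ) * H - (∑ p ∈ F, τ p)) := ⟨_, rfl⟩
  have hE0 : 0 < E := by rw [hE]; exact Real.exp_pos _
  rw [← hE]
  by_cases hcase : (∑ p ∈ F, τ p) - c0 < L
  · have h3 := h2 H hH S fun x hx => (hS x hx).1
    have h4 : Real.exp ((2 + δ) * H) ≤ Real.exp (c0 + L) * E := by
      rw [hE, ← Real.exp_add]
      refine Real.exp_le_exp.2 ?_
      linarith
    have h5 : 0 ≤ k ^ F.card * (1 + C1 * Real.exp c0) * (1 + E) := by positivity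
    have h6 := mul_le_mul_of_nonneg_left h4 hC2.le
    have h7 : 0 ≤ C2 * Real.exp (c0 + L) := by positivity
    calc (S.card : ℝ) ≤ C2 * Real.exp ((2 + δ) * H) := h3
      _ ≤ C2 * (Real.exp (c0 + L) * E) := h6
      _ ≤ (k ^ F.card * (1 + C1 * Real.exp c0) + C2 * Real.exp (c0 + L)) * (1 + E) := by
          nlinarith
  · rw [not_lt] at hcase
    rcases S.eq_empty_or_nonempty with hS0 | hne
    · rw [hS0, Finset.card_empty, Nat.cast_zero]
      positivity
    have hcl : ∀ p, ∃ (T : Finset K) (φ : K → K), p ∈ F → T.card ≤ f.natDegree ∧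
        (∀ x ∈ S, φ x ∈ T) ∧ ∀ x ∈ S, ∀ y ∈ S, x ≠ y → φ x = φ y →
            τ p - C0 p ≤ lam p (aff x) (aff y) := by
      intro p
      by_cases hp : p ∈ F
      · obtain ⟨T, φ, hT, hφT, hφ⟩ := h0 p (τ p) S (fun x hx => ⟨(hS x hx).2.1, (hS x hx).2.2 p hp⟩)
          hne
        exact ⟨T, φ, fun _ => ⟨hT, hφT, hφ⟩⟩
      · exact ⟨∅, id, fun h => absurd h hp⟩
    choose T φ hTφ using hcl
    let key : K → ((p : F) → K) := fun x p => φ p.1 x
    obtain ⟨t, ht⟩ : ∃ t : Finset ((p : F) → K), t = Fintype.piFinset fun p : F => T p.1 := ⟨_, rfl⟩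
    have hmaps : ∀ x ∈ S, key x ∈ t := by
      intro x hx
      rw [ht, Fintype.mem_piFinset]
      intro p
      exact (hTφ p.1 p.2).2.1 x hx
    have hcard : (t.card : ℝ) ≤ k ^ F.card := by
      rw [ht, Fintype.card_piFinset]
      push_cast
      calc ∏ p : F, ((T p.1).card : ℝ) ≤ ∏ _p : F, k := by
            refine Finset.prod_le_prod (fun _ _ => Nat.cast_nonneg _) fun p _ => ?_
            rw [hk]
            exact_mod_cast (hTφ p.1 p.2).1
        _ = _ := by
            rw [Finset.prod_const, Finset.card_univ, Fintype.card_coe]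
    have hsum : (S.card : ℝ) = ∑ c ∈ t, ((S.filter fun x => key x = c).card : ℝ) := by
      have := Finset.card_eq_sum_card_fiberwise hmaps
      exact_mod_cast this
    have hfib : ∀ c ∈ t, ((S.filter fun x => key x = c).card : ℝ) ≤
        1 + C1 * (Real.exp c0 * E) := by
      intro c _
      obtain ⟨S', hS'⟩ : ∃ S', S' = S.filter fun x => key x = c := ⟨_, rfl⟩
      rw [← hS']
      have hm : ∀ x ∈ S', x ∈ S ∧ key x = c := fun x hx => by
        rw [hS'] at hx
        exact Finset.mem_filter.1 hx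
      obtain ⟨G, hG⟩ : ∃ G : Finset (Pr K), G = F.toRight := ⟨_, rfl⟩
      have hGs : ∑ v ∈ G, Real.log (Nv v) ≤ L := by
        rw [hL, hG, ← Finset.toLeft_disjSum_toRight (u := F), Finset.sum_disjSum]
        simp only [Finset.toLeft_disjSum, Finset.toRight_disjSum]
        have h4 : 0 ≤ ∑ x ∈ F.toLeft, Lu (Sum.inl x : Pl K) :=
          Finset.sum_nonneg fun p _ => (Lu_pos _).le
        have h5 : ∑ v ∈ F.toRight, Real.log (Nv v) = ∑ x ∈ F.toRight, Lu (Sum.inr x : Pl K) := rfl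
        linarith
      have h3 := h1 H hH S' G ((∑ p ∈ F, τ p) - c0) (hGs.trans hcase) (by
        intro x hx y hy hxy Q hQ hQc
        obtain ⟨hxS, hx1⟩ := hm x hx
        obtain ⟨hyS, hy1⟩ := hm y hy
        have h2 := sum_lam_le (aff_ne_zero x) (aff_ne_zero y) (aff_wedge hxy)
          (F ∪ (Q.map ⟨Sum.inr, Sum.inr_injective⟩ : Finset (Pl K)))
        have hFQ : Disjoint F (Q.map ⟨Sum.inr, Sum.inr_injective⟩ : Finset (Pl K)) := by
          rw [Finset.disjoint_left]
          intro p hp hpQ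
          obtain ⟨v, hv, rfl⟩ := Finset.mem_map.1 hpQ
          refine Finset.disjoint_left.1 hQ hv ?_
          rw [hG, Finset.mem_toRight]
          exact hp
        rw [Finset.sum_union hFQ, Finset.sum_map] at h2
        have h4 : ∑ v ∈ Q, Real.log (Nv v) ≤ ∑ v ∈ Q, lam (Sum.inr v) (aff x) (aff y) :=
          Finset.sum_le_sum fun v hv => lam_ge_of_cls v hxy (hQc v hv)
        have h5 := (hS x hxS).1
        have h6 := (hS y hyS).1
        have h7 : (∑ p ∈ F, τ p) - c0 ≤ ∑ p ∈ F, lam p (aff x) (aff y) := by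
          rw [hc0, ← Finset.sum_sub_distrib]
          refine Finset.sum_le_sum fun p hp => ?_
          exact (hTφ p hp).2.2 x hxS y hyS hxy (congrFun (hx1.trans hy1.symm) ⟨p, hp⟩)
        have h8 : ∑ p ∈ F, lam p (aff x) (aff y) + ∑ v ∈ Q, lam (Sum.inr v) (aff x) (aff y) ≤
          hr (aff x) + hr (aff y) + lossK K := h2
        linarith) (fun v _ _ => card_cls K v S')
      rw [div_one] at h3
      refine h3.trans ?_
      rw [hE, ← Real.exp_add]
      refine add_le_add le_rfl (mul_le_mul_of_nonneg_left (Real.exp_le_exp.2 ?_) hC1.le)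
      linarith
    rw [hsum]
    have hkF : 0 ≤ k ^ F.card := by positivity
    calc ∑ c ∈ t, ((S.filter fun x => key x = c).card : ℝ) ≤
        ∑ _c ∈ t, (1 + C1 * (Real.exp c0 * E)) := Finset.sum_le_sum hfib
      _ = t.card * (1 + C1 * (Real.exp c0 * E)) := by rw [Finset.sum_const, nsmul_eq_mul]
      _ ≤ k ^ F.card * (1 + C1 * (Real.exp c0 * E)) :=
          mul_le_mul_of_nonneg_right hcard (by positivity)
      _ ≤ k ^ F.card * ((1 + C1 * Real.exp c0) * (1 + E)) := by
          refine mul_le_mul_of_nonneg_left ?_ hkF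
          have h9 : 0 ≤ C1 * Real.exp c0 := by positivity
          nlinarith
      _ ≤ _ := by
          have : 0 ≤ C2 * Real.exp (c0 + L) * (1 + E) := by positivity
          nlinarith

open Classical in
/-- **the points close to the zeros** -/
theorem count_places (F : Finset (Pl K)) (f : (𝓞 K)[X]) (hd : 1 ≤ f.natDegree)
    (hsq : Squarefree (f.map (algebraMap (𝓞 K) K))) {δ : ℝ} (hδ : 0 < δ) {κ : ℝ} (hκ : 0 < κ) (hκ1 : κ ≤ 1) :
    ∃ C : ℝ, 0 < C ∧ ∀ H : ℝ, 0 ≤ H → ∀ S : Finset K,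
      (∀ x ∈ S, hr (aff x) ≤ H ∧ aeval x f ≠ 0 ∧ κ * H ≤ ∑ p ∈ F, mu p f x) →
        (S.card : ℝ) ≤ C * Real.exp ((2 + δ - κ / 2) * H) := by
  obtain ⟨C, hC, h⟩ := count_vec F f hd hsq hδ
  have h0 := fun p : Pl K => mu_ge p f (by
    rintro rfl
    simp at hd)
  choose c0 hc0 h0 using h0
  obtain ⟨θ, hθ⟩ : ∃ θ : ℝ, θ = κ / (2 * (F.card + 1)) := ⟨_, rfl⟩
  have hθ0 : 0 < θ := by rw [hθ]; positivity
  have hθF : θ * F.card ≤ κ / 2 := by
    rw [hθ, div_mul_eq_mul_div, div_le_div_iff₀ (by positivity) (by norm_num)]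
    nlinarith
  obtain ⟨N, hN⟩ : ∃ N : ℕ, N = ⌈κ / θ⌉₊ := ⟨_, rfl⟩
  have hNκ : κ ≤ N * θ := by
    have := Nat.le_ceil (κ / θ)
    rw [← hN, div_le_iff₀ hθ0] at this
    exact this
  obtain ⟨C2, hC2, h2⟩ := count_all K (δ := 1) one_pos
  obtain ⟨c, hc⟩ : ∃ c : ℝ, c = ∑ p ∈ F, c0 p := ⟨_, rfl⟩
  have hc' : 0 ≤ c := by rw [hc]; exact Finset.sum_nonneg fun p _ => hc0 p
  refine ⟨((N : ℝ) + 1) ^ F.card * (C * (1 + Real.exp c)) + C2, by positivity, ?_⟩
  intro H hH S hS
  obtain ⟨E, hE⟩ : ∃ E : ℝ, E = Real.exp ((2 + δ - κ / 2) * H) := ⟨_, rfl⟩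
  have hE1 : 1 ≤ E := by
    rw [hE]
    exact Real.one_le_exp (mul_nonneg (by linarith) hH)
  rw [← hE]
  have hM0 : 0 ≤ ((N : ℝ) + 1) ^ F.card * (C * (1 + Real.exp c)) := by positivity
  rcases hH.eq_or_lt with hH0 | hHpos
  · -- `H = 0`
    have h3 := h2 H hH S fun x hx => (hS x hx).1
    rw [← hH0, mul_zero, Real.exp_zero, mul_one] at h3
    nlinarith
  · let t : K → Pl K → ℕ := fun x p => min N ⌊max (mu p f x) 0 / (θ * H)⌋₊
    have hθH : 0 < θ * H := by positivity
    have ht1 : ∀ x p, aeval x f ≠ 0 → (t x p : ℝ) * (θ * H) - c0 p ≤ mu p f x := by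
      intro x p hx
      have e1 : (t x p : ℝ) ≤ max (mu p f x) 0 / (θ * H) := by
        have e2 : (t x p : ℝ) ≤ (⌊max (mu p f x) 0 / (θ * H)⌋₊ : ℝ) := by
          exact_mod_cast min_le_right _ _
        refine e2.trans (Nat.floor_le ?_)
        exact div_nonneg (le_max_right _ _) hθH.le
      rw [le_div_iff₀ hθH] at e1
      rcases le_total 0 (mu p f x) with h3 | h3
      · rw [max_eq_left h3] at e1
        linarith [hc0 p]
      · rw [max_eq_right h3] at e1
        linarith [h0 p x hx]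
    have ht2 : ∀ x ∈ S, κ / 2 * H ≤ ∑ p ∈ F, (t x p : ℝ) * (θ * H) := by
      intro x hx
      obtain ⟨-, hx0, hxκ⟩ := hS x hx
      by_cases hbig : ∃ p ∈ F, N ≤ ⌊max (mu p f x) 0 / (θ * H)⌋₊
      · obtain ⟨p, hp, hpN⟩ := hbig
        have e1 : t x p = N := min_eq_left hpN
        have e2 : (t x p : ℝ) * (θ * H) ≤ ∑ p ∈ F, (t x p : ℝ) * (θ * H) :=
          Finset.single_le_sum (f := fun p => (t x p : ℝ) * (θ * H))
            (fun q _ => by positivity) hp
        rw [e1] at e2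
        have e3 := mul_le_mul_of_nonneg_right hNκ hH
        have e4 : 0 ≤ κ * H := by positivity
        nlinarith
      · push Not at hbig
        have e1 : ∀ p ∈ F, mu p f x - θ * H ≤ (t x p : ℝ) * (θ * H) := by
          intro p hp
          have e2 : t x p = ⌊max (mu p f x) 0 / (θ * H)⌋₊ := min_eq_right (hbig p hp).le
          rw [e2]
          have e3 := (Nat.lt_floor_add_one (max (mu p f x) 0 / (θ * H))).le
          rw [div_le_iff₀ hθH] at e3
          have e4 := le_max_left (mu p f x) 0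
          nlinarith
        have e2 := Finset.sum_le_sum e1
        rw [Finset.sum_sub_distrib, Finset.sum_const, nsmul_eq_mul] at e2
        have e3 := mul_le_mul_of_nonneg_right hθF hH
        nlinarith
    let key : K → ((p : F) → ℕ) := fun x p => t x p.1
    obtain ⟨W, hW⟩ : ∃ W : Finset ((p : F) → ℕ), W = Fintype.piFinset fun _ => Finset.range (N + 1) :=
      ⟨_, rfl⟩
    have hmaps : ∀ x ∈ S, key x ∈ W := by
      intro x _
      rw [hW, Fintype.mem_piFinset]
      intro p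
      rw [Finset.mem_range]
      exact Nat.lt_succ_of_le (min_le_left _ _)
    have hcard : (W.card : ℝ) = ((N : ℝ) + 1) ^ F.card := by
      rw [hW, Fintype.card_piFinset, Finset.prod_const, Finset.card_range, Finset.card_univ,
        Fintype.card_coe]
      push_cast
      rfl
    have hsum : (S.card : ℝ) = ∑ s ∈ W, ((S.filter fun x => key x = s).card : ℝ) := by
      have := Finset.card_eq_sum_card_fiberwise hmaps
      exact_mod_cast this
    have hfib : ∀ s ∈ W, ((S.filter fun x => key x = s).card : ℝ) ≤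
        C * (1 + Real.exp c) * E := by
      intro s _
      rcases (S.filter fun x => key x = s).eq_empty_or_nonempty with he | ⟨y, hy⟩
      · rw [he, Finset.card_empty, Nat.cast_zero]
        positivity
      obtain ⟨hyS, hys⟩ := Finset.mem_filter.1 hy
      have h3 := h H hH (fun p => (t y p : ℝ) * (θ * H) - c0 p) (S.filter fun x => key x = s) (by
        intro x hx
        obtain ⟨hxS, hxs⟩ := Finset.mem_filter.1 hx
        refine ⟨(hS x hxS).1, (hS x hxS).2.1, fun p hp => ?_⟩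
        have e1 : t y p = t x p := congrFun (hys.trans hxs.symm) ⟨p, hp⟩
        show (t y p : ℝ) * (θ * H) - c0 p ≤ mu p f x
        rw [e1]
        exact ht1 x p (hS x hxS).2.1)
      refine h3.trans ?_
      rw [mul_assoc]
      refine mul_le_mul_of_nonneg_left ?_ hC.le
      rw [Finset.sum_sub_distrib, ← hc]
      have e1 := ht2 y hyS
      have e2 : Real.exp ((2 + δ) * H - (∑ p ∈ F, (t y p : ℝ) * (θ * H) - c)) ≤
          Real.exp c * E := by
        rw [hE, ← Real.exp_add]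
        refine Real.exp_le_exp.2 ?_
        linarith
      nlinarith [Real.exp_pos c]
    rw [hsum]
    calc ∑ s ∈ W, ((S.filter fun x => key x = s).card : ℝ) ≤
        ∑ _s ∈ W, C * (1 + Real.exp c) * E := Finset.sum_le_sum hfib
      _ = ((N : ℝ) + 1) ^ F.card * (C * (1 + Real.exp c) * E) := by
          rw [Finset.sum_const, nsmul_eq_mul, hcard]
      _ ≤ _ := by
          have : 0 ≤ C2 * E := by positivity
          nlinarith

end Pool.Agent.N753.SF
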