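import Mathlib
import Pool.Agent.N753.SF.Places

/-!
# The points at which the value of a polynomial has a small radical
-/

set_option autoImplicit false

namespace Pool.Agent.N753.SF

open NumberField IsDedekindDomain Finset Pool.Agent.H691R3 Pool.Agent.TH876.Loc
open Pool.Agent.N753.LS Polynomial Height

variable {K : Type} [Field K] [NumberField K]

/-- the exponent -/
noncomputable def expo (κ κ' ν' : ℝ) : ℝ :=
  min (min (κ / 16) (κ' / 8)) ν'

theorem expo_pos {κ κ' ν' : ℝ} (h1 : 0 < κ) (h2 : 0 < κ') (h3 : 0 < ν') :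
    0 < expo κ κ' ν' := by
  unfold expo
  exact lt_min (lt_min (by positivity) (by positivity)) h3

open Classical in
/-- **the points at which the value of a polynomial has a small radical** -/
theorem count_W {f : (𝓞 K)[X]} (hf : Nice f) {κ' ν' : ℝ} (hκ'0 : 0 < κ') (hκ'1 : κ' ≤ 1)
    (hNL : NoLarge κ' ν' f) {κ : ℝ} (hκ0 : 0 < κ) (hκ1 : κ ≤ 1) : ∃ C : ℝ, 0 < C ∧
      ∀ H : ℝ, 0 ≤ H → ∀ S : Finset K, (∀ x ∈ S, hr (aff x) ≤ H ∧ aeval x f ≠ 0 ∧
        ∑ v ∈ dv f x, Real.log (Nv v) < f.natDegree * hr (aff x) - κ * H) →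
          (S.card : ℝ) ≤ C * Real.exp ((2 - expo κ κ' ν') * H) := by
  obtain ⟨Bad1, hBad1⟩ := exists_badS f hf.2 hf.1
  obtain ⟨C3, Bad3, hC3, h3⟩ := hNL
  obtain ⟨Bad, hB⟩ : ∃ Bad : Finset (Pr K), Bad = Bad1 ∪ Bad3 := ⟨_, rfl⟩
  have hBad : ∀ v ∉ Bad, Good f v ∧ GoodS f v := fun v hv => hBad1 v fun h =>
    hv (by rw [hB]; exact Finset.mem_union_left _ h)
  have hBad' : ∀ v ∉ Bad, v ∉ Bad3 := fun v hv h =>
    hv (by rw [hB]; exact Finset.mem_union_right _ h)
  obtain ⟨k, hk⟩ : ∃ k : ℝ, k = f.natDegree := ⟨_, rfl⟩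
  have hkR : (1 : ℝ) ≤ k := by rw [hk]; exact_mod_cast hf.1
  -- the parameters
  obtain ⟨a0, ha0⟩ : ∃ a0 : ℝ, a0 = min (κ / 2) κ' := ⟨_, rfl⟩
  have ha00 : 0 < a0 := by rw [ha0]; exact lt_min (by positivity) hκ'0
  have ha01 : a0 ≤ κ / 2 := by rw [ha0]; exact min_le_left _ _
  have ha02 : a0 ≤ κ' := by rw [ha0]; exact min_le_right _ _
  obtain ⟨F, hF⟩ : ∃ F : Finset (Pl K), F = Finset.disjSum Finset.univ Bad := ⟨_, rfl⟩
  obtain ⟨C1, hC1, h1⟩ := count_places F f hf.1 hf.2 (δ := κ / 8) (by positivity)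
    (κ := κ / 2) (by positivity) (by linarith)
  obtain ⟨C2, hC2, h2⟩ := count_pow f hf.1 Bad hBad (δ := a0 / 4) (by positivity) (by linarith)
  obtain ⟨C4, hC4, h4⟩ := count_all K (δ := 1) one_pos
  rw [← hk]
  obtain ⟨e, he⟩ : ∃ e : ℝ, e = expo κ κ' ν' := ⟨_, rfl⟩
  have he1 : e ≤ κ / 16 := by
    rw [he]
    exact (min_le_left _ _).trans (min_le_left _ _)
  have he2 : e ≤ a0 / 4 := by
    rw [ha0, he]
    have e1 : expo κ κ' ν' ≤ κ / 16 := (min_le_left _ _).trans (min_le_left _ _)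
    have e2 : expo κ κ' ν' ≤ κ' / 8 := (min_le_left _ _).trans (min_le_right _ _)
    rcases min_choice (κ / 2) κ' with h | h
    · rw [h]
      linarith
    · rw [h]
      linarith
  have he3 : e ≤ ν' := by
    rw [he]
    exact min_le_right _ _
  have he4 : e ≤ 1 := by linarith
  rw [← he]
  refine ⟨C1 + C2 * 2 + C3 + C4, by positivity, ?_⟩
  intro H hH S hS
  obtain ⟨E, hE⟩ : ∃ E : ℝ, E = Real.exp ((2 - e) * H) := ⟨_, rfl⟩
  have hE1 : 1 ≤ E := by
    rw [hE]
    exact Real.one_le_exp (mul_nonneg (by linarith) hH)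
  rw [← hE]
  have hexp : ∀ t : ℝ, t ≤ 2 - e → Real.exp (t * H) ≤ E := fun t ht => by
    rw [hE]
    exact Real.exp_le_exp.2 (mul_le_mul_of_nonneg_right ht hH)
  rcases hH.eq_or_lt with hH0 | hHpos
  · have h5 := h4 H hH S fun x hx => (hS x hx).1
    rw [← hH0, mul_zero, Real.exp_zero, mul_one] at h5
    have e1 : C4 ≤ C4 * E := le_mul_of_one_le_right hC4.le hE1
    have e2 : 0 ≤ (C1 + C2 * 2 + C3) * E := by positivity
    linarith
  -- the three kinds of points
  obtain ⟨S1, hS1⟩ : ∃ S1 : Finset K, S1 = S.filter fun x => κ / 2 * H ≤ ∑ p ∈ F, mu p f x :=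
    ⟨_, rfl⟩
  obtain ⟨S3, hS3⟩ : ∃ S3 : Finset K, S3 = S.filter fun x => ∃ v, v ∉ Bad ∧ 2 ≤ nu f v x ∧
    (2 - κ') * H ≤ Real.log (Nv v) := ⟨_, rfl⟩
  obtain ⟨S2, hS2⟩ : ∃ S2 : Finset K, S2 = S.filter fun x => ∃ m : Pr K →₀ ℕ,
    (∀ v ∈ m.support, v ∉ Bad ∧ 2 ≤ m v ∧ m v ≤ nu f v x) ∧ a0 * H ≤ nrm m ∧
      nrm m ≤ (4 - κ') * H := ⟨_, rfl⟩
  have hc1 : (S1.card : ℝ) ≤ C1 * E := by
    refine (h1 H hH S1 fun x hx => ?_).trans (mul_le_mul_of_nonneg_left (hexp _ ?_) hC1.le)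
    · rw [hS1] at hx
      obtain ⟨hxS, hx1⟩ := Finset.mem_filter.1 hx
      exact ⟨(hS x hxS).1, (hS x hxS).2.1, hx1⟩
    · linarith
  have hc3 : (S3.card : ℝ) ≤ C3 * E := by
    refine (h3 H hH S3 fun x hx => ?_).trans (mul_le_mul_of_nonneg_left (hexp _ (by linarith))
      hC3.le)
    rw [hS3] at hx
    obtain ⟨hxS, v, hv1, hv2, hv3⟩ := Finset.mem_filter.1 hx
    exact ⟨(hS x hxS).1, (hS x hxS).2.1, v, hBad' v hv1, hv2, hv3⟩
  have hc2 : (S2.card : ℝ) ≤ C2 * (E + E) := by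
    have h6 := h2 H hH (a0 * H) ((4 - κ') * H) (by positivity)
      (mul_le_mul_of_nonneg_right (by linarith) hH) (mul_le_mul_of_nonneg_right (by linarith) hH) S2
      fun x hx => by
        rw [hS2] at hx
        obtain ⟨hxS, hx1⟩ := Finset.mem_filter.1 hx
        exact ⟨(hS x hxS).1, (hS x hxS).2.1, hx1⟩
    refine h6.trans (mul_le_mul_of_nonneg_left (add_le_add ?_ ?_) hC2.le)
    · have e5 : (4 - κ') * H / 2 + a0 / 4 * H = (2 - κ' / 2 + a0 / 4) * H := by ring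
      rw [e5]
      exact hexp _ (by linarith)
    · have e5 : (2 + a0 / 4) * H - a0 * H / 2 = (2 - a0 / 4) * H := by ring
      rw [e5]
      exact hexp _ (by linarith)
  have hcover : S ⊆ S1 ∪ (S2 ∪ S3) := by
    intro x hx
    obtain ⟨hxH, hx0, hxW⟩ := hS x hx
    rw [Finset.mem_union, Finset.mem_union]
    by_cases hx1 : κ / 2 * H ≤ ∑ p ∈ F, mu p f x
    · left
      rw [hS1]
      exact Finset.mem_filter.2 ⟨hx, hx1⟩
    right
    by_cases hx3 : ∃ v, v ∉ Bad ∧ 2 ≤ nu f v x ∧ (2 - κ') * H ≤ Real.log (Nv v)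
    · right
      rw [hS3]
      exact Finset.mem_filter.2 ⟨hx, hx3⟩
    left
    rw [hS2]
    refine Finset.mem_filter.2 ⟨hx, ?_⟩
    rw [not_le] at hx1
    push Not at hx3
    have hlc : ∀ v ∉ Bad, f.leadingCoeff ∉ v.asIdeal := fun v hv => (hBad v hv).2.2
    have h7 := height_eq f Bad hlc hx0
    have h8 : ∑ p ∈ F, mu p f x =
        ∑ w : InfinitePlace K, mu (Sum.inl w) f x + ∑ v ∈ Bad, mu (Sum.inr v) f x := by
      rw [hF, Finset.sum_disjSum]
    -- the powerful part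
    let n : Pr K →₀ ℕ := Finsupp.onFinset (dv f x \ Bad)
      (fun v => if v ∉ Bad ∧ v ∈ dv f x ∧ 2 ≤ nu f v x then nu f v x else 0) (by
        intro v hv
        have : v ∉ Bad ∧ v ∈ dv f x ∧ 2 ≤ nu f v x := by
          by_contra hcon
          exact hv (if_neg hcon)
        exact Finset.mem_sdiff.2 ⟨this.2.1, this.1⟩)
    have hnv : ∀ v, n v = if v ∉ Bad ∧ v ∈ dv f x ∧ 2 ≤ nu f v x then nu f v x else 0 :=
      fun v => rfl
    have hns : ∀ v, v ∈ n.support ↔ v ∉ Bad ∧ v ∈ dv f x ∧ 2 ≤ nu f v x := by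
      intro v
      rw [Finsupp.mem_support_iff, hnv]
      constructor
      · intro h
        by_contra hcon
        exact h (if_neg hcon)
      · intro h
        rw [if_pos h]
        omega
    have hn2 : ∀ v ∈ n.support, 2 ≤ n v := by
      intro v hv
      have h9 := (hns v).1 hv
      rw [hnv, if_pos h9]
      exact h9.2.2
    have hnn : ∀ v, n v ≤ nu f v x := by
      intro v
      rw [hnv]
      split_ifs
      · exact le_rfl
      · exact Nat.zero_le _
    have hnrm : nrm n = ∑ v ∈ dv f x \ Bad, (n v : ℝ) * Real.log (Nv v) := by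
      rw [nrm_eq]
      refine Finset.sum_subset ?_ ?_
      · intro v hv
        have h9 := (hns v).1 hv
        exact Finset.mem_sdiff.2 ⟨h9.2.1, h9.1⟩
      · intro v _ hv
        rw [Finsupp.notMem_support_iff.1 hv, Nat.cast_zero, zero_mul]
    have hsplit : ∑ v ∈ dv f x \ Bad, (nu f v x : ℝ) * Real.log (Nv v) ≤
        nrm n + ∑ v ∈ dv f x, Real.log (Nv v) := by
      rw [hnrm]
      have h9 : ∑ v ∈ dv f x \ Bad, Real.log (Nv v) ≤ ∑ v ∈ dv f x, Real.log (Nv v) :=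
        Finset.sum_le_sum_of_subset_of_nonneg Finset.sdiff_subset fun v _ _ => (log_Nv_pos v).le
      refine le_trans ?_ (add_le_add le_rfl h9)
      rw [← Finset.sum_add_distrib]
      refine Finset.sum_le_sum fun v hv => ?_
      obtain ⟨hva, hvb⟩ := Finset.mem_sdiff.1 hv
      have hl := log_Nv_pos v
      rw [hnv]
      split_ifs with h10
      · linarith
      · have h11 : nu f v x ≤ 1 := by
          by_contra hcon
          exact h10 ⟨hvb, hva, by omega⟩
        have h12 : (nu f v x : ℝ) ≤ 1 := by exact_mod_cast h11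
        rw [Nat.cast_zero, zero_mul, zero_add]
        nlinarith
    rw [← hk] at h7
    have hbig : a0 * H ≤ nrm n := by
      have h9 := mul_le_mul_of_nonneg_right ha01 hH
      linarith
    obtain ⟨m, hm1, hm2, hm3, hm4⟩ := exists_sub n hn2 (a := a0 * H) (b := (2 - κ') * H)
      (by positivity) hbig (fun v hv => by
        have h9 := (hns v).1 hv
        exact (hx3 v h9.1 h9.2.2).le)
    refine ⟨m, ?_, hm3, ?_⟩
    · intro v hv
      have h9 : v ∈ n.support := by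
        rw [Finsupp.mem_support_iff] at hv ⊢
        have := hm1 v
        omega
      exact ⟨((hns v).1 h9).1, hm2 v hv, (hm1 v).trans (hnn v)⟩
    · have h9 := mul_le_mul_of_nonneg_right ha02 hH
      linarith
  have h9 : (S.card : ℝ) ≤ S1.card + (S2.card + S3.card) := by
    exact_mod_cast (Finset.card_le_card hcover).trans ((Finset.card_union_le _ _).trans
      (Nat.add_le_add_left (Finset.card_union_le _ _) _))
  have e2 : 0 ≤ C4 * E := by positivity
  linarith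

/-- the points at which the radical of the value of `f` is small -/
def Wt (κ : ℝ) (f : (𝓞 K)[X]) : Set K :=
  {y | aeval y f = 0 ∨ ∑ v ∈ dv f y, Real.log (Nv v) < (f.natDegree - κ) * logHeight₁ y}

open Classical in
/-- **the number of the points at which the radical of the value of `f` is small** -/
theorem count_Wt {f : (𝓞 K)[X]} (hf : Nice f) {κ' ν' : ℝ} (hκ'0 : 0 < κ') (hκ'1 : κ' ≤ 1)
    (hν' : ν' ≤ 1 / 2) (hNL : NoLarge κ' ν' f) {κ : ℝ} (hκ0 : 0 < κ) (hκ1 : κ ≤ 1) :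
    ∃ C : ℝ, ∀ H : ℝ, 0 ≤ H → ((Wt κ f ∩ {y | logHeight₁ y ≤ H}).ncard : ℝ) ≤
      C * Real.exp ((2 - expo (κ / 2) κ' ν') * H) := by
  obtain ⟨C1, hC1, h1⟩ := count_W hf hκ'0 hκ'1 hNL (κ := κ / 2) (by positivity) (by linarith)
  obtain ⟨C0, hC0, h0⟩ := count_all K (δ := 1) one_pos
  obtain ⟨e, he⟩ : ∃ e : ℝ, e = expo (κ / 2) κ' ν' := ⟨_, rfl⟩
  have he1 : e ≤ 1 / 2 := by
    rw [he]
    exact (min_le_right _ _).trans hν'
  rw [← he] at h1 ⊢
  refine ⟨f.natDegree + C1 + C0, fun H hH => ?_⟩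
  obtain ⟨E, hE⟩ : ∃ E : ℝ, E = Real.exp ((2 - e) * H) := ⟨_, rfl⟩
  have hE1 : 1 ≤ E := by
    rw [hE]
    exact Real.one_le_exp (mul_nonneg (by linarith) hH)
  rw [← hE]
  obtain ⟨S, hS⟩ : ∃ S : Finset K, S = (bx K H).filter fun y => aeval y f ≠ 0 ∧
    ∑ v ∈ dv f y, Real.log (Nv v) < f.natDegree * logHeight₁ y - κ / 2 * H := ⟨_, rfl⟩
  have hSc := h1 H hH S (by
    intro y hy
    rw [hS, Finset.mem_filter, mem_bx] at hy
    rw [hr_aff]
    exact hy)
  rw [← hE] at hSc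
  obtain ⟨b, hb⟩ : ∃ b : Finset K, b = bx K (H / 2) := ⟨_, rfl⟩
  have hbc : (b.card : ℝ) ≤ C0 * E := by
    refine (h0 (H / 2) (by positivity) b fun x hx => ?_).trans ?_
    · rw [hr_aff]
      rw [hb] at hx
      exact mem_bx.1 hx
    · refine mul_le_mul_of_nonneg_left ?_ hC0.le
      rw [hE]
      refine Real.exp_le_exp.2 ?_
      nlinarith
  have hF0 : f ≠ 0 := by
    intro h
    have := hf.1
    rw [h, natDegree_zero] at this
    omega
  have hmap0 : f.map (algebraMap (𝓞 K) K) ≠ 0 := by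
    rwa [Ne, Polynomial.map_eq_zero_iff (FaithfulSMul.algebraMap_injective (𝓞 K) K)]
  obtain ⟨R, hR⟩ : ∃ R : Finset K, R = (f.map (algebraMap (𝓞 K) K)).roots.toFinset := ⟨_, rfl⟩
  have hRc : R.card ≤ f.natDegree := by
    rw [hR]
    exact (Multiset.toFinset_card_le _).trans ((card_roots' _).trans natDegree_map_le)
  have hsub : Wt κ f ∩ {y | logHeight₁ y ≤ H} ⊆ ((R ∪ (S ∪ b) : Finset K) : Set K) := by
    rintro y ⟨hy, hyH⟩
    have hyH' : logHeight₁ y ≤ H := hyH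
    rw [Finset.mem_coe, Finset.mem_union, Finset.mem_union]
    by_cases h2 : aeval y f = 0
    · left
      rw [hR, Multiset.mem_toFinset, mem_roots hmap0, IsRoot.def, eval_map_algebraMap]
      exact h2
    right
    by_cases h3 : logHeight₁ y ≤ H / 2
    · right
      rw [hb]
      exact mem_bx.2 h3
    left
    rw [not_le] at h3
    rw [hS, Finset.mem_filter, mem_bx]
    refine ⟨hyH', h2, (hy.resolve_left h2).trans_le ?_⟩
    nlinarith
  have h3 : ((Wt κ f ∩ {y | logHeight₁ y ≤ H}).ncard : ℝ) ≤ R.card + (S.card + b.card) := by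
    have h4 := Set.ncard_le_ncard hsub (Finset.finite_toSet _)
    rw [Set.ncard_coe_finset] at h4
    exact_mod_cast h4.trans ((Finset.card_union_le _ _).trans
      (Nat.add_le_add_left (Finset.card_union_le _ _) _))
  have h6 : (R.card : ℝ) ≤ f.natDegree * E := by
    have h7 : (R.card : ℝ) ≤ f.natDegree := by exact_mod_cast hRc
    have h8 : (0 : ℝ) ≤ f.natDegree := Nat.cast_nonneg _
    nlinarith
  linarith

end Pool.Agent.N753.SF
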