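import Mathlib
import Pool.Agent.N753.SF.CountW

/-!
# Points of small height in a residue class
-/

set_option autoImplicit false

namespace Pool.Agent.N753.SF

open NumberField IsDedekindDomain Finset Pool.Agent.H691R3 Pool.Agent.TH876.Loc
open Pool.Agent.N753.LS Polynomial

variable (K : Type) [Field K] [NumberField K]

/-- **the pigeonhole principle** -/
theorem exists_small : ∃ C : ℝ, 1 ≤ C ∧ ∀ (y : Finset (Pr K)) (x : K), (∀ v ∈ y, fv v x ≤ 1) →
    ∃ c d : 𝓞 K, (c ≠ 0 ∨ d ≠ 0) ∧
      (∀ v ∈ y, fv v (algebraMap (𝓞 K) K c * x + algebraMap (𝓞 K) K d) < 1) ∧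
      ∀ w : InfinitePlace K,
        w (algebraMap (𝓞 K) K c) ≤
          C * Real.exp ((∑ v ∈ y, Real.log (Nv v)) / (2 * Module.finrank ℚ K)) ∧
        w (algebraMap (𝓞 K) K d) ≤
          C * Real.exp ((∑ v ∈ y, Real.log (Nv v)) / (2 * Module.finrank ℚ K)) := by
  classical
  let ω := RingOfIntegers.basis K
  obtain ⟨C, hC⟩ : ∃ C : ℝ, C = 1 + ∑ w : InfinitePlace K,
    ∑ i, w (algebraMap (𝓞 K) K (ω i)) := ⟨_, rfl⟩
  have hnn : ∀ w : InfinitePlace K, 0 ≤ ∑ i, w (algebraMap (𝓞 K) K (ω i)) := fun w =>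
    Finset.sum_nonneg fun i _ => apply_nonneg w _
  have hC1 : 1 ≤ C := by
    rw [hC]
    have := Finset.sum_nonneg fun (w : InfinitePlace K) (_ : w ∈ Finset.univ) => hnn w
    linarith
  have hCw : ∀ w : InfinitePlace K, ∑ i, w (algebraMap (𝓞 K) K (ω i)) ≤ C := by
    intro w
    rw [hC]
    have := Finset.single_le_sum (f := fun w : InfinitePlace K =>
      ∑ i, w (algebraMap (𝓞 K) K (ω i))) (fun w _ => hnn w) (Finset.mem_univ w)
    linarith
  refine ⟨C, hC1, ?_⟩
  intro y x hx
  obtain ⟨n, hn⟩ : ∃ n : ℕ, n = Module.finrank ℚ K := ⟨_, rfl⟩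
  have hn0 : 0 < n := by rw [hn]; exact Module.finrank_pos
  have hnR : (0 : ℝ) < n := by exact_mod_cast hn0
  rw [← hn]
  obtain ⟨R, hR⟩ : ∃ R : ℝ, R = Real.exp ((∑ v ∈ y, Real.log (Nv v)) / (2 * n)) := ⟨_, rfl⟩
  rw [← hR]
  have hR0 : 0 < R := by rw [hR]; exact Real.exp_pos _
  obtain ⟨M, hM⟩ : ∃ M : ℕ, M = ⌊R⌋₊ := ⟨_, rfl⟩
  have hM1 : (M : ℝ) ≤ R := by rw [hM]; exact Nat.floor_le hR0.le
  have hM2 : R < M + 1 := by rw [hM]; exact Nat.lt_floor_add_one R
  let I := Module.Free.ChooseBasisIndex ℤ (𝓞 K)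
  have hI : Fintype.card I = n := by
    rw [hn, ← RingOfIntegers.rank K, Module.finrank_eq_card_basis ω]
  let e : (I → Fin (M + 1)) → 𝓞 K := fun u => ∑ i, ((u i : ℕ) : ℤ) • ω i
  have he : Function.Injective e := by
    intro u t hut
    funext i
    have h1 := congrArg (fun z => ω.repr z i) hut
    have h2 : ∀ u : I → Fin (M + 1), ω.repr (e u) i = ((u i : ℕ) : ℤ) := fun u =>
      congrFun (ω.repr_sum_self fun i => ((u i : ℕ) : ℤ)) i
    have h3 : ω.repr (e u) i = ω.repr (e t) i := h1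
    rw [h2, h2] at h3
    exact Fin.ext (by exact_mod_cast h3)
  let Ψ : (I → Fin (M + 1)) × (I → Fin (M + 1)) → ((v : y) → kk v.1) := fun p v =>
    Ideal.Quotient.mk v.1.asIdeal (e p.1) * rd v.1 x + Ideal.Quotient.mk v.1.asIdeal (e p.2)
  have hcard : Fintype.card ((v : y) → kk v.1) <
      Fintype.card ((I → Fin (M + 1)) × (I → Fin (M + 1))) := by
    have h1 : ((Fintype.card ((v : y) → kk v.1) : ℕ) : ℝ) = Real.exp (∑ v ∈ y, Real.log (Nv v)) := by
      rw [exp_sum_log, Fintype.card_pi]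
      push_cast
      rw [← Finset.prod_coe_sort y fun v => Nv v]
      exact Finset.prod_congr rfl fun v _ => card_kk v.1
    have h2 : ((Fintype.card ((I → Fin (M + 1)) × (I → Fin (M + 1))) : ℕ) : ℝ) =
        ((M : ℝ) + 1) ^ (2 * n) := by
      rw [Fintype.card_prod, Fintype.card_fun, Fintype.card_fin, hI]
      push_cast
      ring
    have h3 : Real.exp (∑ v ∈ y, Real.log (Nv v)) = R ^ (2 * n) := by
      rw [hR, ← Real.exp_nat_mul]
      congr 1
      push_cast
      field_simp
    have h4 : R ^ (2 * n) < ((M : ℝ) + 1) ^ (2 * n) :=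
      pow_lt_pow_left₀ hM2 hR0.le (by omega)
    have h5 : ((Fintype.card ((v : y) → kk v.1) : ℕ) : ℝ) <
        ((Fintype.card ((I → Fin (M + 1)) × (I → Fin (M + 1))) : ℕ) : ℝ) := by
      rw [h1, h2, h3]
      exact h4
    exact_mod_cast h5
  obtain ⟨p, q, hpq, hΨ⟩ := Fintype.exists_ne_map_eq_of_card_lt Ψ hcard
  have hsize : ∀ (u t : I → Fin (M + 1)) (w : InfinitePlace K),
      w (algebraMap (𝓞 K) K (e u - e t)) ≤ C * R := by
    intro u t w
    have h1 : e u - e t = ∑ i, (((u i : ℕ) : ℤ) - ((t i : ℕ) : ℤ)) • ω i := by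
      simp only [e]
      rw [← Finset.sum_sub_distrib]
      exact Finset.sum_congr rfl fun i _ => by rw [sub_smul]
    rw [h1, map_sum]
    refine (abs_sum_le w.1 _ _).trans ?_
    calc ∑ i, w.1 (algebraMap (𝓞 K) K ((((u i : ℕ) : ℤ) - ((t i : ℕ) : ℤ)) • ω i)) ≤
        ∑ i, R * w (algebraMap (𝓞 K) K (ω i)) := by
          refine Finset.sum_le_sum fun i _ => ?_
          rw [zsmul_eq_mul, map_mul, map_mul]
          have h2 : w.1 (algebraMap (𝓞 K) K ((((u i : ℕ) : ℤ) - ((t i : ℕ) : ℤ) : ℤ) : 𝓞 K)) ≤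
              R := by
            have h3 : w.1 (algebraMap (𝓞 K) K ((((u i : ℕ) : ℤ) - ((t i : ℕ) : ℤ) : ℤ) : 𝓞 K)) =
                |((((u i : ℕ) : ℤ) - ((t i : ℕ) : ℤ) : ℤ) : ℝ)| := by
              rw [map_intCast]
              show w _ = _
              rw [← InfinitePlace.norm_embedding_eq w, map_intCast, Complex.norm_intCast]
            rw [h3]
            refine le_trans ?_ hM1
            rw [abs_le]
            have h4 : ((u i : ℕ) : ℝ) ≤ M := by exact_mod_cast Nat.lt_succ_iff.1 (u i).2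
            have h5 : ((t i : ℕ) : ℝ) ≤ M := by exact_mod_cast Nat.lt_succ_iff.1 (t i).2
            have h6 : (0 : ℝ) ≤ ((u i : ℕ) : ℝ) := Nat.cast_nonneg _
            have h7 : (0 : ℝ) ≤ ((t i : ℕ) : ℝ) := Nat.cast_nonneg _
            push_cast
            constructor <;> linarith
          exact mul_le_mul_of_nonneg_right h2 (apply_nonneg w _)
      _ = R * ∑ i, w (algebraMap (𝓞 K) K (ω i)) := by rw [Finset.mul_sum]
      _ ≤ R * C := mul_le_mul_of_nonneg_left (hCw w) hR0.le
      _ = C * R := mul_comm _ _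
  refine ⟨e p.1 - e q.1, e p.2 - e q.2, ?_, ?_, fun w => ⟨hsize _ _ w, hsize _ _ w⟩⟩
  · by_contra hcon
    push Not at hcon
    obtain ⟨h1, h2⟩ := hcon
    exact hpq (Prod.ext (he (sub_eq_zero.1 h1)) (he (sub_eq_zero.1 h2)))
  · intro v hv
    have h1 := congrFun hΨ ⟨v, hv⟩
    simp only [Ψ] at h1
    have hxv := (fv_le_one v x).1 (hx v hv)
    have h2 := rd_eval v hxv (Polynomial.C (e p.1 - e q.1) * X + Polynomial.C (e p.2 - e q.2))
    have h3 : aeval x (Polynomial.C (e p.1 - e q.1) * X + Polynomial.C (e p.2 - e q.2)) =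
        algebraMap (𝓞 K) K (e p.1 - e q.1) * x + algebraMap (𝓞 K) K (e p.2 - e q.2) := by
      simp
    rw [h3] at h2
    rw [fv_lt_one, ← rd_eq_zero_iff v h2.1, h2.2]
    have h4 : ∀ a b : 𝓞 K, ((Polynomial.C a * X + Polynomial.C b).map
        (Ideal.Quotient.mk v.asIdeal)).eval (rd v x) = Ideal.Quotient.mk v.asIdeal a * rd v x +
          Ideal.Quotient.mk v.asIdeal b := by
      intro a b
      simp
    rw [h4, map_sub, map_sub]
    linear_combination h1

open Classical in
/-- **points of small height in a residue class** -/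
theorem exists_z : ∃ C : ℝ, 0 ≤ C ∧ ∀ (y : Finset (Pr K)) (x : K), (∀ v ∈ y, fv v x ≤ 1) →
    ∃ z : K, 2 * hr (aff z) + ∑ v ∈ y.filter (fun v => ¬ cls v x = cls v z), Real.log (Nv v) ≤
      ∑ v ∈ y.filter (fun v => cls v x = cls v z), Real.log (Nv v) + C := by
  obtain ⟨C0, hC0, h⟩ := exists_small K
  obtain ⟨n, hn⟩ : ∃ n : ℕ, n = Module.finrank ℚ K := ⟨_, rfl⟩
  have hn0 : 0 < n := by rw [hn]; exact Module.finrank_pos
  have hnR : (0 : ℝ) < n := by exact_mod_cast hn0
  rw [← hn] at h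
  have hl0 : 0 ≤ Real.log C0 := Real.log_nonneg hC0
  refine ⟨2 * n * Real.log C0, by positivity, ?_⟩
  intro y x hx
  obtain ⟨c, d, hcd, h1, h2⟩ := h y x hx
  obtain ⟨Y, hY⟩ : ∃ Y : ℝ, Y = ∑ v ∈ y, Real.log (Nv v) := ⟨_, rfl⟩
  rw [← hY] at h2
  have hmult : ∑ w : InfinitePlace K, (w.mult : ℝ) = n := by
    rw [hn, ← InfinitePlace.sum_mult_eq]
    push_cast
    rfl
  have hsum : ∀ g : InfinitePlace K → ℝ, (∀ w, g w ≤ C0 * Real.exp (Y / (2 * n))) →
      (∀ w, 0 < g w) → ∑ w : InfinitePlace K, (w.mult : ℝ) * Real.log (g w) ≤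
        n * Real.log C0 + Y / 2 := by
    intro g hg hg0
    calc ∑ w : InfinitePlace K, (w.mult : ℝ) * Real.log (g w) ≤
        ∑ w : InfinitePlace K, (w.mult : ℝ) * (Real.log C0 + Y / (2 * n)) := by
          refine Finset.sum_le_sum fun w _ => ?_
          refine mul_le_mul_of_nonneg_left ?_ (Nat.cast_nonneg _)
          have h3 := Real.log_le_log (hg0 w) (hg w)
          rwa [Real.log_mul (by linarith) (Real.exp_pos _).ne', Real.log_exp] at h3
      _ = n * (Real.log C0 + Y / (2 * n)) := by rw [← Finset.sum_mul, hmult]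
      _ = _ := by field_simp
  have hlogle : ∀ v : Pr K, ∀ z : K, z ≠ 0 → fv v z < 1 → Real.log (fv v z) ≤ - Real.log (Nv v) := by
    intro v z hz hz1
    obtain ⟨m, hm⟩ := log_fv v hz
    have h3 := Real.log_neg ((fv v).pos hz) hz1
    have h4 := log_Nv_pos v
    rw [hm] at h3 ⊢
    have h5 : (m : ℝ) < 0 := by
      by_contra hcon
      rw [not_lt] at hcon
      nlinarith
    have h6 : m ≤ -1 := by
      have : m < 0 := by exact_mod_cast h5
      omega
    have h7 : (m : ℝ) ≤ -1 := by exact_mod_cast h6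
    nlinarith
  have hlog : ∀ v : Pr K, 0 ≤ Real.log (Nv v) := fun v => (log_Nv_pos v).le
  by_cases hc : c = 0
  · -- the divisor is bounded
    have hd : d ≠ 0 := hcd.resolve_left fun h => h hc
    have hd' : algebraMap (𝓞 K) K d ≠ 0 := by
      rwa [Ne, FaithfulSMul.algebraMap_eq_zero_iff]
    have h3 := log_product_formula hd'
    have h4 := hsum (fun w => w (algebraMap (𝓞 K) K d)) (fun w => (h2 w).2)
      (fun w => InfinitePlace.pos_iff.2 hd')
    obtain ⟨T, hT⟩ : ∃ T : Finset (Pr K), T = (log_fv_support_finite hd').toFinset ∪ y := ⟨_, rfl⟩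
    have h5 : ∑ᶠ v : Pr K, Real.log (fv v (algebraMap (𝓞 K) K d)) =
        ∑ v ∈ T, Real.log (fv v (algebraMap (𝓞 K) K d)) := by
      refine finsum_eq_sum_of_support_subset _ ?_
      intro v hv
      rw [hT, Finset.coe_union, Set.Finite.coe_toFinset]
      exact Or.inl hv
    have h6 : ∑ v ∈ T, Real.log (fv v (algebraMap (𝓞 K) K d)) ≤ - Y := by
      have h7 : ∑ v ∈ T, Real.log (fv v (algebraMap (𝓞 K) K d)) ≤
          ∑ v ∈ T, (if v ∈ y then - Real.log (Nv v) else 0) := by
        refine Finset.sum_le_sum fun v _ => ?_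
        split_ifs with hvy
        · refine hlogle v _ hd' ?_
          have := h1 v hvy
          rw [hc, map_zero, zero_mul, zero_add] at this
          exact this
        · refine Real.log_nonpos ((fv v).nonneg _) ?_
          rw [fv_le_one]
          exact v.valuation_le_one d
      refine h7.trans (le_of_eq ?_)
      rw [← Finset.sum_filter, hY, ← Finset.sum_neg_distrib]
      refine Finset.sum_congr ?_ fun _ _ => rfl
      ext v
      rw [Finset.mem_filter, hT, Finset.mem_union]
      tauto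
    rw [h5] at h3
    have hYle : Y ≤ 2 * n * Real.log C0 := by linarith
    refine ⟨0, ?_⟩
    have h7 : hr (aff (0 : K)) = 0 := by
      have e1 : ∀ w : InfinitePlace K, mx (Sum.inl w) (0 : K) = 0 := by
        intro w
        show (w.mult : ℝ) * Real.log (max (w 0) 1) = 0
        rw [map_zero, max_eq_right zero_le_one, Real.log_one, mul_zero]
      have e2 : ∀ v : Pr K, mx (Sum.inr v) (0 : K) = 0 := by
        intro v
        show Real.log (max (fv v 0) 1) = 0
        rw [map_zero, max_eq_right zero_le_one, Real.log_one]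
      rw [hr_eq, Finset.sum_congr rfl fun w _ => e1 w, Finset.sum_const_zero, zero_add,
        finsum_congr e2, finsum_zero]
    rw [h7]
    have h8 : ∑ v ∈ y.filter (fun v => ¬ cls v x = cls v (0 : K)), Real.log (Nv v) ≤ Y := by
      rw [hY]
      exact Finset.sum_le_sum_of_subset_of_nonneg (Finset.filter_subset _ _) fun v _ _ => hlog v
    have h9 : 0 ≤ ∑ v ∈ y.filter (fun v => cls v x = cls v (0 : K)), Real.log (Nv v) :=
      Finset.sum_nonneg fun v _ => hlog v
    linarith
  · have hc' : algebraMap (𝓞 K) K c ≠ 0 := by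
      rwa [Ne, FaithfulSMul.algebraMap_eq_zero_iff]
    obtain ⟨γ, hγ⟩ : ∃ γ : K, γ = algebraMap (𝓞 K) K c := ⟨_, rfl⟩
    obtain ⟨β, hβ⟩ : ∃ β : K, β = algebraMap (𝓞 K) K d := ⟨_, rfl⟩
    rw [← hγ] at hc'
    rw [← hγ, ← hβ] at h1 h2
    have hγi : ∀ v : Pr K, fv v γ ≤ 1 := fun v => by
      rw [hγ, fv_le_one]
      exact v.valuation_le_one c
    have hβi : ∀ v : Pr K, fv v β ≤ 1 := fun v => by
      rw [hβ, fv_le_one]
      exact v.valuation_le_one d
    obtain ⟨z, hz⟩ : ∃ z : K, z = -β / γ := ⟨_, rfl⟩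
    have hβz : β = -(z * γ) := by
      rw [hz, div_mul_cancel₀ _ hc', neg_neg]
    refine ⟨z, ?_⟩
    -- the places
    have hloc : ∀ g : AbsoluteValue K ℝ, Real.log (max (g z) 1) =
        Real.log (max (g β) (g γ)) - Real.log (g γ) := by
      intro g
      have hg : 0 < g γ := g.pos hc'
      have e1 : max (g β) (g γ) = max (g z) 1 * g γ := by
        rw [hβz, g.map_neg, g.map_mul, max_mul_of_nonneg _ _ hg.le, one_mul]
      have e2 : 0 < max (g z) 1 := lt_of_lt_of_le one_pos (le_max_right _ _)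
      rw [e1, Real.log_mul e2.ne' hg.ne']
      ring
    obtain ⟨y1, hy1⟩ : ∃ y1 : Finset (Pr K), y1 = y.filter fun v => fv v γ < 1 ∧ fv v β < 1 :=
      ⟨_, rfl⟩
    have h3 := log_product_formula hc'
    have h4 := hsum (fun w => max (w β) (w γ)) (fun w => max_le (h2 w).2 (h2 w).1)
      (fun w => lt_of_lt_of_le (InfinitePlace.pos_iff.2 hc') (le_max_right _ _))
    obtain ⟨T, hT⟩ : ∃ T : Finset (Pr K), T = (log_fv_support_finite hc').toFinset ∪
      ((mx_fin z).toFinset ∪ y1) := ⟨_, rfl⟩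
    have h5 : ∑ᶠ v : Pr K, Real.log (fv v γ) = ∑ v ∈ T, Real.log (fv v γ) := by
      refine finsum_eq_sum_of_support_subset _ ?_
      intro v hv
      rw [hT, Finset.coe_union, Set.Finite.coe_toFinset]
      exact Or.inl hv
    have h6 : ∑ᶠ v : Pr K, mx (Sum.inr v) z = ∑ v ∈ T, mx (Sum.inr v) z := by
      refine finsum_eq_sum_of_support_subset _ ?_
      intro v hv
      rw [hT, Finset.coe_union, Finset.coe_union, Set.Finite.coe_toFinset]
      exact Or.inr (Or.inl (by rw [Set.Finite.coe_toFinset]; exact hv))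
    have h7 : ∑ v ∈ T, mx (Sum.inr v) z ≤ -∑ v ∈ T, Real.log (fv v γ) -
        ∑ v ∈ y1, Real.log (Nv v) := by
      have e1 : ∑ v ∈ y1, Real.log (Nv v) = ∑ v ∈ T, (if v ∈ y1 then Real.log (Nv v) else 0) := by
        rw [← Finset.sum_filter]
        refine Finset.sum_congr ?_ fun _ _ => rfl
        ext v
        rw [Finset.mem_filter, hT, Finset.mem_union, Finset.mem_union]
        tauto
      rw [e1, ← Finset.sum_neg_distrib, ← Finset.sum_sub_distrib]
      refine Finset.sum_le_sum fun v _ => ?_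
      have e2 : mx (Sum.inr v) z = Real.log (max (fv v z) 1) := rfl
      rw [e2, hloc (fv v)]
      have e3 : 0 < max (fv v β) (fv v γ) :=
        lt_of_lt_of_le ((fv v).pos hc') (le_max_right _ _)
      split_ifs with hvy
      · rw [hy1, Finset.mem_filter] at hvy
        have e4 : Real.log (max (fv v β) (fv v γ)) ≤ - Real.log (Nv v) := by
          rcases max_choice (fv v β) (fv v γ) with h | h
          · rw [h]
            refine hlogle v β ?_ hvy.2.2
            intro h0
            rw [h0, map_zero] at h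
            rw [h0, map_zero, h] at e3
            exact lt_irrefl _ e3
          · rw [h]
            exact hlogle v γ hc' hvy.2.1
        linarith
      · have e4 : Real.log (max (fv v β) (fv v γ)) ≤ 0 :=
          Real.log_nonpos e3.le (max_le (hβi v) (hγi v))
        linarith
    have h8 : ∑ w : InfinitePlace K, mx (Sum.inl w) z =
        ∑ w : InfinitePlace K, (w.mult : ℝ) * Real.log (max (w β) (w γ)) -
          ∑ w : InfinitePlace K, (w.mult : ℝ) * Real.log (w γ) := by
      rw [← Finset.sum_sub_distrib]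
      refine Finset.sum_congr rfl fun w _ => ?_
      have e2 : mx (Sum.inl w) z = (w.mult : ℝ) * Real.log (max (w.1 z) 1) := rfl
      rw [e2, hloc w.1]
      simp only [InfinitePlace.coe_apply]
      ring
    have h9 : hr (aff z) ≤ n * Real.log C0 + Y / 2 - ∑ v ∈ y1, Real.log (Nv v) := by
      rw [hr_eq, h6, h8]
      rw [h5] at h3
      linarith
    have h10 : y.filter (fun v => ¬ cls v x = cls v z) ⊆ y1 := by
      intro v hv
      obtain ⟨hvy, hvc⟩ := Finset.mem_filter.1 hv
      rw [hy1, Finset.mem_filter]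
      refine ⟨hvy, ?_⟩
      by_contra hcon
      apply hvc
      have hxv := hx v hvy
      have e1 := h1 v hvy
      -- `γ` is a unit at `v`
      have e2 : fv v γ = 1 := by
        refine le_antisymm (hγi v) ?_
        by_contra hγ1
        rw [not_le] at hγ1
        apply hcon
        refine ⟨hγ1, ?_⟩
        have e3 : β = (γ * x + β) + -(x * γ) := by ring
        rw [e3]
        refine (fv_na v _ _).trans_lt (max_lt e1 ?_)
        rw [(fv v).map_neg]
        exact fv_mul_lt hxv hγ1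
      have e3 : fv v (x - z) < 1 := by
        have e4 : x - z = (γ * x + β) * γ⁻¹ := by
          rw [hβz]
          field_simp
          ring
        rw [e4, map_mul, map_inv₀, e2, inv_one, mul_one]
        exact e1
      have e5 : fv v z ≤ 1 := by
        have e6 : z = x + -(x - z) := by ring
        rw [e6]
        refine (fv_na v _ _).trans (max_le hxv ?_)
        rw [(fv v).map_neg]
        exact e3.le
      rw [cls_of_le v ((fv_le_one v x).1 hxv), cls_of_le v ((fv_le_one v z).1 e5), Option.some_inj,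
        rd_eq_rd_iff v ((fv_le_one v x).1 hxv) ((fv_le_one v z).1 e5), ← fv_lt_one]
      exact e3
    have h11 : ∑ v ∈ y.filter (fun v => ¬ cls v x = cls v z), Real.log (Nv v) ≤
        ∑ v ∈ y1, Real.log (Nv v) :=
      Finset.sum_le_sum_of_subset_of_nonneg h10 fun v _ _ => hlog v
    have h12 : Y = ∑ v ∈ y.filter (fun v => cls v x = cls v z), Real.log (Nv v) +
        ∑ v ∈ y.filter (fun v => ¬ cls v x = cls v z), Real.log (Nv v) := by
      rw [hY, Finset.sum_filter_add_sum_filter_not]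
    linarith

end Pool.Agent.N753.SF
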