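import Mathlib
import Pool.Agent.N753.SF.Pig

/-!
# The residue classes of the points at which `f (X) (X - z)` has values in one square class
-/

set_option autoImplicit false

namespace Pool.Agent.N753.SF

open NumberField IsDedekindDomain Finset Pool.Agent.H691R3 Pool.Agent.TH876.Loc
open Pool.Agent.N753.LS Polynomial

/-- a separable polynomial times a linear one is not a square -/
theorem not_sq {F : Type} [Field F] (h2 : (2 : F) ≠ 0) (f a b : F[X]) {n : F} (hn : n ≠ 0)
    (hab : a * f + b * derivative f = C n) (hd : 2 ≤ f.natDegree) (ζ : F) (c : F) (h : F[X]) :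
    f * (X - C ζ) ≠ C c * h ^ 2 := by
  classical
  intro he
  let L := AlgebraicClosure F
  let i := algebraMap F L
  have hf0 : f ≠ 0 := by
    rintro rfl
    simp at hd
  have hsep : (f.map i).Separable := by
    refine ⟨C (i n)⁻¹ * a.map i, C (i n)⁻¹ * b.map i, ?_⟩
    have h1 := congrArg (Polynomial.map i) hab
    rw [Polynomial.map_add, Polynomial.map_mul, Polynomial.map_mul, Polynomial.map_C,
      ← derivative_map] at h1
    have h3 : i n ≠ 0 := by
      intro h0
      exact hn (i.injective (by rw [h0, map_zero]))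
    rw [mul_assoc, mul_assoc, ← mul_add, h1, ← C_mul, inv_mul_cancel₀ h3, C_1]
  have hcard : (f.map i).roots.card = f.natDegree := by
    rw [← natDegree_map i, ← (IsAlgClosed.splits (f.map i)).natDegree_eq_card_roots]
  have hnd := nodup_roots hsep
  obtain ⟨ρ, hρ, hρζ⟩ : ∃ ρ ∈ (f.map i).roots, ρ ≠ i ζ := by
    by_contra hcon
    push Not at hcon
    have h3 := Multiset.eq_replicate_card.2 hcon
    rw [hcard] at h3
    rw [h3, Multiset.nodup_iff_count_le_one] at hnd
    have h4 := hnd (i ζ)
    rw [Multiset.count_replicate_self] at h4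
    omega
  have hfρ : (f.map i).eval ρ = 0 := (mem_roots'.1 hρ).2
  have hc0 : c ≠ 0 := by
    rintro rfl
    rw [C_0, zero_mul, mul_eq_zero] at he
    rcases he with h3 | h3
    · exact hf0 h3
    · exact X_sub_C_ne_zero ζ h3
  have he' := congrArg (Polynomial.map i) he
  simp only [Polynomial.map_mul, Polynomial.map_sub, Polynomial.map_X, Polynomial.map_C,
    Polynomial.map_pow] at he'
  have h3 : (h.map i).eval ρ = 0 := by
    have h4 := congrArg (Polynomial.eval ρ) he'
    rw [eval_mul, hfρ, zero_mul, eval_mul, eval_C, eval_pow] at h4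
    have h5 : i c ≠ 0 := fun h0 => hc0 (i.injective (by rw [h0, map_zero]))
    exact pow_eq_zero_iff two_ne_zero |>.1 ((mul_eq_zero.1 h4.symm).resolve_left h5)
  have h4 := congrArg (fun p => Polynomial.eval ρ (derivative p)) he'
  simp only [derivative_mul, derivative_C, derivative_sub, derivative_X, derivative_pow, eval_add,
    eval_mul, eval_sub, eval_X, eval_C, hfρ, h3, eval_pow, eval_zero, eval_one] at h4
  have h5 : eval ρ (derivative (f.map i)) * (ρ - i ζ) = 0 := by
    simpa using h4
  have h6 : eval ρ (derivative (f.map i)) = 0 :=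
    (mul_eq_zero.1 h5).resolve_right (sub_ne_zero.2 hρζ)
  obtain ⟨a', b', hab'⟩ := hsep
  have h7 := congrArg (Polynomial.eval ρ) hab'
  rw [eval_add, eval_mul, eval_mul, hfρ, h6, mul_zero, mul_zero, add_zero, eval_one] at h7
  exact zero_ne_one h7

variable {K : Type} [Field K] [NumberField K]

theorem rd_sub (v : Pr K) {x y : K} (hx : v.valuation K x ≤ 1) (hy : v.valuation K y ≤ 1) :
    rd v (x - y) = rd v x - rd v y := by
  obtain ⟨a, ha, ha'⟩ := exists_rd v hx
  obtain ⟨b, hb, hb'⟩ := exists_rd v hy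
  rw [ha', hb', ← map_sub]
  refine rd_eq v _ ?_
  have : x - y - algebraMap (𝓞 K) K (a - b) = (x - algebraMap (𝓞 K) K a) -
      (y - algebraMap (𝓞 K) K b) := by
    rw [map_sub]
    ring
  rw [this]
  exact (Valuation.map_sub _ _ _).trans_lt (max_lt ha hb)

open Classical in
/-- **the number of classes** -/
theorem cell_gen (d : ℕ) : ∃ M : ℝ, 0 ≤ M ∧ ∀ v : Pr K, (Fintype.card (kk v)) % 2 = 1 →
    ∀ g : (kk v)[X], 1 ≤ g.natDegree → g.natDegree ≤ d →
      (∀ (c : kk v) (h : (kk v)[X]), g ≠ C c * h ^ 2) → ∀ S : Finset K,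
        (∀ x ∈ S, ∀ y ∈ S, v.valuation K x ≤ 1 → v.valuation K y ≤ 1 → g.eval (rd v y) ≠ 0 →
          ∃ w : kk v, g.eval (rd v x) = g.eval (rd v y) * w ^ 2) →
            ((S.image (cls v)).card : ℝ) ≤ Nv v / 2 + M * Real.sqrt (Nv v) := by
  obtain ⟨M, hM, hW⟩ := weil_two d
  refine ⟨M + (d + 1), by positivity, fun v hodd g hg1 hgd hgs S hS => ?_⟩
  have hs1 : 1 ≤ Real.sqrt (Nv v) := by
    rw [Real.one_le_sqrt]
    linarith [two_le_Nv v]
  have hN0 : 0 ≤ Nv v := by linarith [two_le_Nv v]
  have hd0 : (0 : ℝ) ≤ d := Nat.cast_nonneg _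
  have hg0 : g ≠ 0 := by
    rintro rfl
    simp at hg1
  have hlast : ∀ B : Finset (kk v), S.image (cls v) ⊆ insert none (B.image some) →
      ((S.image (cls v)).card : ℝ) ≤ B.card + 1 := by
    intro B hB
    have h2 := ((Finset.card_le_card hB).trans (Finset.card_insert_le _ _)).trans
      (Nat.add_le_add_right Finset.card_image_le 1)
    exact_mod_cast h2
  have h6 : (1 : ℝ) ≤ (d + 1) * Real.sqrt (Nv v) := by nlinarith
  by_cases hcase : ∃ y ∈ S, v.valuation K y ≤ 1 ∧ g.eval (rd v y) ≠ 0
  · obtain ⟨y, hyS, hy, hy0⟩ := hcase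
    have h5 := hlast (univ.filter fun ξ : kk v => g.eval ξ = 0 ∨ ∃ w : kk v, g.eval ξ =
          g.eval (rd v y) * w ^ 2) (by
      intro c hc
      obtain ⟨x, hx, rfl⟩ := Finset.mem_image.1 hc
      rw [Finset.mem_insert]
      by_cases hx1 : v.valuation K x ≤ 1
      · right
        rw [cls_of_le v hx1, Finset.mem_image]
        exact ⟨rd v x, Finset.mem_filter.2 ⟨Finset.mem_univ _,
          Or.inr (hS x hx y hyS hx1 hy hy0)⟩, rfl⟩
      · left
        exact cls_of_not v hx1)
    have h4 := hW (kk v) g hodd hg1 hgd hgs _ hy0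
    rw [card_kk] at h4
    linarith
  · push Not at hcase
    have h5 := hlast g.roots.toFinset (by
      intro c hc
      obtain ⟨x, hx, rfl⟩ := Finset.mem_image.1 hc
      rw [Finset.mem_insert]
      by_cases hx1 : v.valuation K x ≤ 1
      · right
        rw [cls_of_le v hx1, Finset.mem_image]
        refine ⟨rd v x, ?_, rfl⟩
        rw [Multiset.mem_toFinset, mem_roots hg0]
        exact hcase x hx hx1
      · left
        exact cls_of_not v hx1)
    have h3 : (g.roots.toFinset.card : ℝ) ≤ d := by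
      exact_mod_cast (Multiset.toFinset_card_le _).trans ((card_roots' _).trans hgd)
    have h4 : ((d : ℝ) + 1) ≤ (d + 1) * Real.sqrt (Nv v) := by nlinarith
    have h7 : 0 ≤ M * Real.sqrt (Nv v) := by positivity
    linarith

open Classical in
/-- **the number of classes, uniformly in `z`** -/
theorem cell_z (f : (𝓞 K)[X]) (hd : 2 ≤ f.natDegree) : ∃ M : ℝ, 0 ≤ M ∧
    ∀ v : Pr K, Good f v → GoodS f v → ∀ (z : K) (S : Finset K), (∀ x ∈ S, x ≠ z) →
      (∀ x ∈ S, ∀ y ∈ S, ∃ w : K, aeval x f * (x - z) = aeval y f * (y - z) * w ^ 2) →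
        ((S.image (cls v)).card : ℝ) ≤ Nv v / 2 + M * Real.sqrt (Nv v) := by
  obtain ⟨M, hM, hgen⟩ := cell_gen (K := K) (f.natDegree + 1)
  refine ⟨M, hM, fun v hv hv' z S hSz hS => ?_⟩
  obtain ⟨F, hF⟩ : ∃ F : (kk v)[X], F = f.map (Ideal.Quotient.mk v.asIdeal) := ⟨_, rfl⟩
  have hFd : F.natDegree = f.natDegree := by rw [hF]; exact hv.2.1
  have hF0 : F ≠ 0 := by
    rintro h0
    rw [h0, natDegree_zero] at hFd
    omega
  have h2 : (2 : kk v) ≠ 0 := by
    intro h
    have h3 : ringChar (kk v) = 2 := by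
      have h4 : ((2 : ℕ) : kk v) = 0 := by exact_mod_cast h
      have h5 := (ringChar.spec (kk v) 2).1 h4
      rcases (Nat.dvd_prime Nat.prime_two).1 h5 with h6 | h6
      · exfalso
        have := CharP.ringChar_ne_one (R := kk v)
        exact this h6
      · exact h6
    have h4 := FiniteField.even_card_of_char_two h3
    have h5 := hv.1
    omega
  by_cases hz : fv v z ≤ 1
  · -- `z` is integral
    have hzv := (fv_le_one v z).1 hz
    have heval : ∀ x : K, v.valuation K x ≤ 1 → v.valuation K (aeval x f * (x - z)) ≤ 1 ∧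
        (F * (X - C (rd v z))).eval (rd v x) = rd v (aeval x f * (x - z)) := by
      intro x hx
      have hxz : v.valuation K (x - z) ≤ 1 := (Valuation.map_sub _ _ _).trans (max_le hx hzv)
      obtain ⟨h3, h4⟩ := rd_eval v hx f
      refine ⟨?_, ?_⟩
      · rw [map_mul]
        exact mul_le_one' h3 hxz
      · rw [rd_mul v h3 hxz, rd_sub v hx hzv, h4, eval_mul, eval_sub, eval_X, eval_C, hF]
    refine hgen v hv.1 (F * (X - C (rd v z))) ?_ ?_ ?_ S ?_
    · rw [natDegree_mul hF0 (X_sub_C_ne_zero _), natDegree_X_sub_C]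
      omega
    · rw [natDegree_mul hF0 (X_sub_C_ne_zero _), natDegree_X_sub_C, hFd]
    · obtain ⟨⟨a, b, n, hab, hn⟩, -⟩ := hv'
      intro c h
      refine not_sq h2 F (a.map (Ideal.Quotient.mk v.asIdeal)) (b.map (Ideal.Quotient.mk v.asIdeal))
        (n := Ideal.Quotient.mk v.asIdeal n) ?_ ?_ (by rw [hFd]; exact hd) (rd v z) c h
      · rwa [Ne, Ideal.Quotient.eq_zero_iff_mem]
      · have h3 := congrArg (Polynomial.map (Ideal.Quotient.mk v.asIdeal)) hab
        rw [Polynomial.map_add, Polynomial.map_mul, Polynomial.map_mul, Polynomial.map_C,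
          ← derivative_map, ← hF] at h3
        exact h3
    · intro x hx y hy hxv hyv hy0
      obtain ⟨w, hw⟩ := hS x hx y hy
      obtain ⟨h3, h4⟩ := heval x hxv
      obtain ⟨h5, h6⟩ := heval y hyv
      rw [h6, Ne, rd_eq_zero_iff v h5, not_lt] at hy0
      have hy1 : v.valuation K (aeval y f * (y - z)) = 1 := le_antisymm h5 hy0
      have hw1 : v.valuation K w ≤ 1 := by
        rw [hw, map_mul, hy1, one_mul, map_pow] at h3
        exact (pow_le_one_iff_of_nonneg zero_le two_ne_zero).1 h3
      refine ⟨rd v w, ?_⟩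
      rw [h4, h6, hw, sq w, rd_mul v h5 (by rw [map_mul]; exact mul_le_one' hw1 hw1),
        rd_mul v hw1 hw1, sq]
  · -- `z` reduces to the point at infinity
    rw [not_le] at hz
    refine hgen v hv.1 F (by omega) (by omega) (by rw [hF]; exact hv.2.2) S ?_
    intro x hx y hy hxv hyv hy0
    obtain ⟨w, hw⟩ := hS x hx y hy
    obtain ⟨h3, h4⟩ := rd_eval v hxv f
    obtain ⟨h5, h6⟩ := rd_eval v hyv f
    rw [← hF] at h4 h6
    rw [← h6, Ne, rd_eq_zero_iff v h5, not_lt] at hy0
    have hy1 : v.valuation K (aeval y f) = 1 := le_antisymm h5 hy0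
    have hyz : y - z ≠ 0 := sub_ne_zero.2 (hSz y hy)
    obtain ⟨u, hu⟩ : ∃ u : K, u = (x - z) / (y - z) := ⟨_, rfl⟩
    have hxz : x - z = u * (y - z) := by rw [hu, div_mul_cancel₀ _ hyz]
    have hfyz : 1 < fv v (y - z) := by
      by_contra hcon
      rw [not_lt] at hcon
      have h7 : z = y + -(y - z) := by ring
      have h8 : fv v z ≤ 1 := by
        rw [h7]
        refine (fv_na v _ _).trans (max_le ((fv_le_one v y).2 hyv) ?_)
        rw [(fv v).map_neg]
        exact hcon
      linarith
    have hu1 : v.valuation K (u - 1) < 1 := by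
      rw [← fv_lt_one]
      have h7 : u - 1 = (x - y) / (y - z) := by
        rw [hu]
        field_simp
        ring
      rw [h7, map_div₀, div_lt_one (by linarith)]
      refine lt_of_le_of_lt ?_ hfyz
      rw [sub_eq_add_neg]
      refine (fv_na v _ _).trans (max_le ((fv_le_one v x).2 hxv) ?_)
      rw [(fv v).map_neg]
      exact (fv_le_one v y).2 hyv
    have hu2 : v.valuation K u ≤ 1 := by
      have h7 : u = (u - 1) + 1 := by ring
      rw [h7]
      refine (Valuation.map_add _ _ _).trans (max_le hu1.le ?_)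
      rw [map_one]
    have hu3 : rd v u = 1 := by
      have h7 := rd_eq v (x := u) 1 (by rw [map_one]; exact hu1)
      rw [h7, map_one]
    have hw' : aeval x f * u = aeval y f * w ^ 2 := by
      have h7 : (aeval x f * u) * (y - z) = (aeval y f * w ^ 2) * (y - z) := by
        rw [hxz] at hw
        linear_combination hw
      exact mul_right_cancel₀ hyz h7
    have h8 : v.valuation K (aeval x f * u) ≤ 1 := by
      rw [map_mul]
      exact mul_le_one' h3 hu2
    have hw1 : v.valuation K w ≤ 1 := by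
      rw [hw', map_mul, hy1, one_mul, map_pow] at h8
      exact (pow_le_one_iff_of_nonneg zero_le two_ne_zero).1 h8
    refine ⟨rd v w, ?_⟩
    have h9 : rd v (aeval x f * u) = rd v (aeval x f) := by
      rw [rd_mul v h3 hu2, hu3, mul_one]
    rw [← h4, ← h6, ← h9, hw', sq w, rd_mul v h5 (by rw [map_mul]; exact mul_le_one' hw1 hw1),
      rd_mul v hw1 hw1, sq]

end Pool.Agent.N753.SF
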