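import Mathlib
import Pool.Agent.N753.SF.CellZ

/-!
# The points with given divisors and given distance to a point
-/

set_option autoImplicit false

namespace Pool.Agent.N753.SF

open NumberField IsDedekindDomain Finset Pool.Agent.H691R3 Pool.Agent.TH876.Loc
open Pool.Agent.N753.LS Polynomial
open H645.ABC (vl vl_mul vl_div vl_inv vl_pow)

variable {K : Type} [Field K] [NumberField K]

/-- the local intersection multiplicity of two points -/
noncomputable def ml (v : Pr K) (x z : K) : ℕ :=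
  ⌊lam (Sum.inr v) (aff x) (aff z) / Real.log (Nv v)⌋₊

theorem lam_eq_ml (v : Pr K) {x z : K} (hxz : x ≠ z) :
    lam (Sum.inr v) (aff x) (aff z) = ml v x z * Real.log (Nv v) := by
  have hN := log_Nv_pos v
  obtain ⟨m, hm⟩ := lamF_discrete v (aff_ne_zero x) (aff_ne_zero z) (aff_wedge hxz)
  have h1 : lam (Sum.inr v) (aff x) (aff z) = m * Real.log (Nv v) := hm
  have h2 : ml v x z = m := by
    unfold ml
    rw [h1, mul_div_cancel_right₀ _ hN.ne']
    exact Nat.floor_natCast m
  rw [h1, h2]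

/-- the local height, as a natural number -/
noncomputable def mxn (v : Pr K) (x : K) : ℕ := ⌊mx (Sum.inr v) x / Real.log (Nv v)⌋₊

theorem mx_eq_mxn (v : Pr K) (x : K) : mx (Sum.inr v) x = mxn v x * Real.log (Nv v) := by
  have hN := log_Nv_pos v
  obtain ⟨m, hm⟩ := log_max_fv v (aff_ne_zero x)
  have h0 : max (fv v (aff x).1) (fv v (aff x).2) = max (fv v x) 1 := by
    show max (fv v x) (fv v 1) = _
    rw [map_one]
  rw [h0] at hm
  have h1 : mx (Sum.inr v) x = m * Real.log (Nv v) := hm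
  have h2 := mx_nonneg (Sum.inr v) x
  rw [h1] at h2
  have h3 : (0 : ℝ) ≤ (m : ℝ) := nonneg_of_mul_nonneg_left h2 hN
  have h4 : 0 ≤ m := by exact_mod_cast h3
  obtain ⟨j, hj⟩ := Int.eq_ofNat_of_zero_le h4
  have h5 : mxn v x = j := by
    unfold mxn
    rw [h1, mul_div_cancel_right₀ _ hN.ne', hj]
    exact Nat.floor_natCast j
  rw [h1, h5, hj]
  rfl

/-- the valuation of `f (x) (x - z)` -/
theorem vl_gz {f : (𝓞 K)[X]} {v : Pr K} (hv : f.leadingCoeff ∉ v.asIdeal) {x z : K}
    (hx : aeval x f ≠ 0) (hxz : x ≠ z) (u : Kˣ) (hu : (u : K) = aeval x f * (x - z)) :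
    vl v u = (f.natDegree + 1) * (mxn v x : ℤ) + mxn v z - ml v x z - nu f v x := by
  have hN := log_Nv_pos v
  have h1 := log_fv_vl v u
  rw [hu, map_mul, Real.log_mul ((fv v).pos hx).ne' ((fv v).pos (sub_ne_zero.2 hxz)).ne'] at h1
  have h2 := mu_eq_nu hv hx
  have h3 : mu (Sum.inr v) f x = f.natDegree * mx (Sum.inr v) x - Real.log (fv v (aeval x f)) := rfl
  have h4 := lam_eq_ml v hxz
  have h5 := lamA_eq (fv v) (aff_ne_zero x) (aff_ne_zero z) (aff_wedge hxz)
  have h6 : lam (Sum.inr v) (aff x) (aff z) = lamA (fv v) (aff x) (aff z) := rfl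
  have e1 : (aff x).1 * (aff z).2 - (aff x).2 * (aff z).1 = x - z := by
    simp only [aff, mul_one, one_mul]
  have e2 : ∀ t : K, Real.log (max (fv v (aff t).1) (fv v (aff t).2)) = mx (Sum.inr v) t := by
    intro t
    show Real.log (max (fv v t) (fv v 1)) = Real.log (max (fv v t) 1)
    rw [map_one]
  rw [e1, e2, e2] at h5
  rw [h6, h5] at h4
  rw [h3] at h2
  have h7 := mx_eq_mxn v x
  have h8 := mx_eq_mxn v z
  rw [h7] at h2
  rw [h7, h8] at h4
  have h9 : ((vl v u : ℤ) : ℝ) * Real.log (Nv v) = (((f.natDegree + 1) * (mxn v x : ℤ) + mxn v z -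
      ml v x z - nu f v x : ℤ) : ℝ) * Real.log (Nv v) := by
    push_cast
    linear_combination (-1 : ℝ) * h1 + (-1 : ℝ) * h2 - h4
  exact_mod_cast mul_right_cancel₀ hN.ne' h9

open Classical in
/-- **points with given divisors** -/
theorem count_key (f : (𝓞 K)[X]) (hd : 2 ≤ f.natDegree) (hodd : ¬ Even f.natDegree)
    (Bad : Finset (Pr K)) (hBad : ∀ v ∉ Bad, Good f v ∧ GoodS f v) {δ : ℝ} (hδ : 0 < δ) :
    ∃ C : ℝ, 0 < C ∧ ∀ H : ℝ, 0 ≤ H → ∀ (z : K) (n : Pr K →₀ ℕ) (Y : Finset (Pr K)),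
      ∀ S : Finset K, (∀ x ∈ S, hr (aff x) ≤ H ∧ aeval x f ≠ 0 ∧ x ≠ z ∧
        (∀ v ∈ n.support, v ∉ Bad) ∧ (∀ v ∉ Bad, ml v x z = n v) ∧
          ∀ v ∉ Bad, v ∈ Y ↔ ¬ Even (nu f v x)) →
            (S.card : ℝ) ≤ C * (1 + Real.exp ((1 + δ) * H - nrm n / 2)) := by
  obtain ⟨M, hM, hcell⟩ := cell_z f hd
  obtain ⟨C1, hC1, hls⟩ := ls_bound2 K (κ := 2) one_le_two hM Bad hδ
  obtain ⟨ι, hι, c, hc⟩ := H645.ABC.selmer (K := K) 2 two_pos
  have : Fintype ι := Fintype.ofFinite ι
  refine ⟨2 ^ Bad.card * (Fintype.card ι + 1) * (1 + C1), by positivity, ?_⟩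
  intro H hH z n Y S hS
  obtain ⟨E, hE⟩ : ∃ E : ℝ, E = Real.exp ((1 + δ) * H - nrm n / 2) := ⟨_, rfl⟩
  have hE0 : 0 < E := by rw [hE]; exact Real.exp_pos _
  rw [← hE]
  let g : K → K := fun x => aeval x f * (x - z)
  have hg0 : ∀ x ∈ S, g x ≠ 0 := fun x hx =>
    mul_ne_zero (hS x hx).2.1 (sub_ne_zero.2 (hS x hx).2.2.1)
  -- the odd primes outside `Bad` are given
  have hod : ∀ x ∈ S, ∀ y ∈ S, ∀ v ∉ Bad, v ∈ od (g x) → v ∈ od (g y) := by
    intro x hx y hy v hv h
    rw [mem_od] at h ⊢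
    have e1 : ((Units.mk0 _ (hg0 x hx) : Kˣ) : K) = g x := rfl
    have e2 : ((Units.mk0 _ (hg0 y hy) : Kˣ) : K) = g y := rfl
    rw [← e1, sq_iff] at h
    rw [← e2, sq_iff]
    have h1 := vl_gz (hBad v hv).2.2 (hS x hx).2.1 (hS x hx).2.2.1 (Units.mk0 _ (hg0 x hx)) rfl
    have h2 := vl_gz (hBad v hv).2.2 (hS y hy).2.1 (hS y hy).2.2.1 (Units.mk0 _ (hg0 y hy)) rfl
    have h3 : ml v x z = ml v y z := by
      rw [(hS x hx).2.2.2.2.1 v hv, (hS y hy).2.2.2.2.1 v hv]
    have h4 : Even (nu f v x) ↔ Even (nu f v y) := by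
      have e3 := (hS x hx).2.2.2.2.2 v hv
      have e4 := (hS y hy).2.2.2.2.2 v hv
      rw [e3] at e4
      exact not_iff_not.1 e4
    intro h5
    apply h
    rw [h1]
    rw [h2, ← h3] at h5
    have h6 : Even ((f.natDegree + 1 : ℤ)) := by
      have : ¬ Even (f.natDegree : ℤ) := by exact_mod_cast hodd
      rw [Int.even_add_one]
      exact this
    have h7 : Even ((f.natDegree + 1) * (mxn v x : ℤ)) := h6.mul_right _
    have h8 : Even ((f.natDegree + 1) * (mxn v y : ℤ)) := h6.mul_right _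
    have h9 : Even (nu f v x : ℤ) ↔ Even (nu f v y : ℤ) := by exact_mod_cast h4
    rw [Int.even_sub, Int.even_sub, Int.even_add] at h5 ⊢
    tauto
  let key : K → Finset (Pr K) := fun x => od (g x) ∩ Bad
  have hmaps : ∀ x ∈ S, key x ∈ Bad.powerset := fun x _ =>
    Finset.mem_powerset.2 Finset.inter_subset_right
  have hsum : (S.card : ℝ) = ∑ b ∈ Bad.powerset, ((S.filter fun x => key x = b).card : ℝ) := by
    have := Finset.card_eq_sum_card_fiberwise hmaps
    exact_mod_cast this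
  have hfib : ∀ b ∈ Bad.powerset, ((S.filter fun x => key x = b).card : ℝ) ≤
      (Fintype.card ι + 1) * ((1 + C1) * (1 + E)) := by
    intro b _
    obtain ⟨R, hR⟩ : ∃ R, R = S.filter fun x => key x = b := ⟨_, rfl⟩
    rw [← hR]
    have hRm : ∀ x ∈ R, x ∈ S ∧ key x = b := fun x hx => by
      rw [hR] at hx
      exact Finset.mem_filter.1 hx
    rcases R.eq_empty_or_nonempty with hR0 | ⟨x0, hx0⟩
    · rw [hR0, Finset.card_empty, Nat.cast_zero]
      positivity
    obtain ⟨hx0S, hx0b⟩ := hRm x0 hx0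
    have hodR : ∀ x ∈ R, od (g x) = od (g x0) := by
      intro x hx
      obtain ⟨hxS, hxb⟩ := hRm x hx
      ext v
      by_cases hv : v ∈ Bad
      · have h1 : v ∈ od (g x) ∩ Bad ↔ v ∈ od (g x0) ∩ Bad := by
          have : key x = key x0 := hxb.trans hx0b.symm
          exact Finset.ext_iff.1 this v
        rw [Finset.mem_inter, Finset.mem_inter] at h1
        tauto
      · exact ⟨hod x hxS x0 hx0S v hv, hod x0 hx0S x hxS v hv⟩
    let col : K → ι := fun x => if h : g x / g x0 ≠ 0 then c (Units.mk0 _ h) else c 1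
    have hsum2 : (R.card : ℝ) = ∑ a : ι, ((R.filter fun x => col x = a).card : ℝ) := by
      have := Finset.card_eq_sum_card_fiberwise (s := R) (t := Finset.univ) (f := col)
        (fun x _ => Finset.mem_coe.2 (Finset.mem_univ _))
      exact_mod_cast this
    have hfib2 : ∀ a : ι, ((R.filter fun x => col x = a).card : ℝ) ≤ 1 + C1 * E := by
      intro a
      obtain ⟨S', hS'⟩ : ∃ S', S' = R.filter fun x => col x = a := ⟨_, rfl⟩
      rw [← hS']
      have hm : ∀ x ∈ S', x ∈ R ∧ col x = a := fun x hx => by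
        rw [hS'] at hx
        exact Finset.mem_filter.1 hx
      have hpair : ∀ x ∈ S', ∀ y ∈ S', ∃ w : K, aeval x f * (x - z) = aeval y f * (y - z) * w ^ 2 := by
        intro x hx y hy
        obtain ⟨hxR, hx1⟩ := hm x hx
        obtain ⟨hyR, hy1⟩ := hm y hy
        have h1 : col x = col y := hx1.trans hy1.symm
        have hfx := hg0 x (hRm x hxR).1
        have hfy := hg0 y (hRm y hyR).1
        have hf0 := hg0 x0 hx0S
        have dx : g x / g x0 ≠ 0 := div_ne_zero hfx hf0
        have dy : g y / g x0 ≠ 0 := div_ne_zero hfy hf0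
        have h2 : c (Units.mk0 _ dx) = c (Units.mk0 _ dy) := by
          have e1 : col x = c (Units.mk0 _ dx) := dif_pos dx
          have e2 : col y = c (Units.mk0 _ dy) := dif_pos dy
          rw [← e1, ← e2, h1]
        have h3 : ∀ t (htR : t ∈ R) (dt : g t / g x0 ≠ 0), ∀ v : Pr K,
            ((2 : ℕ) : ℤ) ∣ vl v (Units.mk0 _ dt) := by
          intro t htR dt v
          have e1 : Units.mk0 _ dt = Units.mk0 (g t) (hg0 t (hRm t htR).1) /
              Units.mk0 (g x0) hf0 := by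
            ext
            simp
          rw [e1]
          refine even_of_od ?_ v
          rw [Units.val_mk0, Units.val_mk0, hodR t htR]
        obtain ⟨w, hw⟩ := hc _ _ (h3 x hxR dx) (h3 y hyR dy) h2
        refine ⟨w, ?_⟩
        have h4 := congrArg (fun t : Kˣ => (t : K)) hw
        simp only [Units.val_mk0, Units.val_mul, Units.val_pow_eq_pow_val] at h4
        rw [div_eq_iff hf0] at h4
        have h5 : g x = g y * (w : K) ^ 2 := by
          rw [h4]
          field_simp
        exact h5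
      have h1 := hls H hH S' n.support (nrm n) (by
        rw [nrm_eq]
        refine Finset.sum_le_sum fun v hv => ?_
        have h2 : (1 : ℝ) ≤ n v := by
          have : n v ≠ 0 := Finsupp.mem_support_iff.1 hv
          exact_mod_cast Nat.one_le_iff_ne_zero.2 this
        have h3 := log_Nv_pos v
        nlinarith) (by
        intro x hx y hy hxy Q hQ hQc
        have hxS := (hRm x (hm x hx).1).1
        have hyS := (hRm y (hm y hy).1).1
        obtain ⟨hx1, hx2, hx3, hx4, hx5, -⟩ := hS x hxS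
        obtain ⟨hy1, hy2, hy3, hy4, hy5, -⟩ := hS y hyS
        have h2 := sum_lam_le (aff_ne_zero x) (aff_ne_zero y) (aff_wedge hxy)
          ((n.support ∪ Q).map ⟨Sum.inr, Sum.inr_injective⟩ : Finset (Pl K))
        rw [Finset.sum_map, Finset.sum_union hQ.symm] at h2
        have h3 : nrm n ≤ ∑ v ∈ n.support, lam (Sum.inr v) (aff x) (aff y) := by
          rw [nrm_eq]
          refine Finset.sum_le_sum fun v hv => ?_
          have hvB := hx4 v hv
          have e1 : (n v : ℝ) * Real.log (Nv v) ≤ lam (Sum.inr v) (aff x) (aff z) := by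
            rw [lam_eq_ml v hx3, hx5 v hvB]
          have e2 : (n v : ℝ) * Real.log (Nv v) ≤ lam (Sum.inr v) (aff z) (aff y) := by
            rw [lam_comm, lam_eq_ml v hy3, hy5 v hvB]
          have e3 := lam_triangle (Sum.inr v) (aff_ne_zero x) (aff_ne_zero z) (aff_ne_zero y)
            (aff_wedge hxy) (aff_wedge hx3) (aff_wedge (Ne.symm hy3)) _ e1 e2
          have e4 : loss (Sum.inr v : Pl K) = 0 := rfl
          rw [e4, sub_zero] at e3
          exact e3
        have h4 : ∑ v ∈ Q, Real.log (Nv v) ≤ ∑ v ∈ Q, lam (Sum.inr v) (aff x) (aff y) :=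
          Finset.sum_le_sum fun v hv => lam_ge_of_cls v hxy (hQc v hv)
        have h7 : ∑ x_1 ∈ n.support, lam (Sum.inr x_1) (aff x) (aff y) +
          ∑ x_1 ∈ Q, lam (Sum.inr x_1) (aff x) (aff y) ≤ hr (aff x) + hr (aff y) + lossK K := h2
        linarith) (fun v _ hvB => hcell v (hBad v hvB).1 (hBad v hvB).2 z S'
          (fun x hx => (hS x (hRm x (hm x hx).1).1).2.2.1) hpair)
      refine h1.trans (add_le_add le_rfl (mul_le_mul_of_nonneg_left ?_ hC1.le))
      rw [hE]
      refine Real.exp_le_exp.2 ?_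
      linarith
    rw [hsum2]
    calc ∑ a : ι, ((R.filter fun x => col x = a).card : ℝ) ≤ ∑ _a : ι, (1 + C1 * E) :=
          Finset.sum_le_sum fun a _ => hfib2 a
      _ = Fintype.card ι * (1 + C1 * E) := by
          rw [Finset.sum_const, Finset.card_univ, nsmul_eq_mul]
      _ ≤ (Fintype.card ι + 1) * ((1 + C1) * (1 + E)) := by
          refine mul_le_mul (by linarith) ?_ (by positivity) (by positivity)
          nlinarith
  rw [hsum]
  calc ∑ b ∈ Bad.powerset, ((S.filter fun x => key x = b).card : ℝ) ≤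
      ∑ _b ∈ Bad.powerset, (Fintype.card ι + 1) * ((1 + C1) * (1 + E)) := Finset.sum_le_sum hfib
    _ = _ := by
        rw [Finset.sum_const, Finset.card_powerset, nsmul_eq_mul]
        push_cast
        ring

end Pool.Agent.N753.SF
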