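import Mathlib
import Pool.Agent.N753.SF.Key

/-!
# Sums over points and over products of primes
-/

set_option autoImplicit false

namespace Pool.Agent.N753.SF

open NumberField IsDedekindDomain Finset Pool.Agent.H691R3 Pool.Agent.TH876.Loc
open Pool.Agent.N753.LS Polynomial

variable (K : Type) [Field K] [NumberField K]

/-- the height zeta function converges -/
theorem sum_height {δ : ℝ} (hδ : 0 < δ) : ∃ C : ℝ, 0 < C ∧ ∀ Z : Finset K,
    ∑ z ∈ Z, Real.exp (-((2 + δ) * hr (aff z))) ≤ C := by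
  classical
  obtain ⟨C0, hC0, h0⟩ := count_all K (half_pos hδ)
  obtain ⟨q, hq⟩ : ∃ q : ℝ, q = Real.exp (-(δ / 2)) := ⟨_, rfl⟩
  have hq0 : 0 < q := by rw [hq]; exact Real.exp_pos _
  have hq1 : q < 1 := by
    rw [hq, Real.exp_lt_one_iff]
    linarith
  refine ⟨C0 * Real.exp (2 + δ / 2) * (1 - q)⁻¹, by
    have : 0 < 1 - q := by linarith
    positivity, ?_⟩
  intro Z
  let j : K → ℕ := fun z => ⌊hr (aff z)⌋₊
  obtain ⟨N, hN⟩ : ∃ N : ℕ, N = Z.sup j + 1 := ⟨_, rfl⟩
  have hmaps : ∀ z ∈ Z, j z ∈ Finset.range N := by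
    intro z hz
    have := Finset.le_sup (f := j) hz
    rw [Finset.mem_range]
    omega
  rw [← Finset.sum_fiberwise_of_maps_to hmaps]
  have hterm : ∀ i ∈ Finset.range N, ∑ z ∈ Z.filter (fun z => j z = i),
      Real.exp (-((2 + δ) * hr (aff z))) ≤ C0 * Real.exp (2 + δ / 2) * q ^ i := by
    intro i _
    have h1 : ∀ z ∈ Z.filter (fun z => j z = i), Real.exp (-((2 + δ) * hr (aff z))) ≤
        Real.exp (-((2 + δ) * i)) := by
      intro z hz
      obtain ⟨-, hz⟩ := Finset.mem_filter.1 hz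
      refine Real.exp_le_exp.2 ?_
      have h2 := Nat.floor_le (hr_aff_nonneg z)
      have h3 : (i : ℝ) ≤ hr (aff z) := by
        rw [← hz]
        exact h2
      have := mul_le_mul_of_nonneg_left h3 (show (0 : ℝ) ≤ 2 + δ by linarith)
      linarith
    have h2 := h0 (i + 1) (by positivity) (Z.filter (fun z => j z = i)) (by
      intro z hz
      obtain ⟨-, hz⟩ := Finset.mem_filter.1 hz
      have h3 := (Nat.lt_floor_add_one (hr (aff z))).le
      have h4 : (⌊hr (aff z)⌋₊ : ℝ) = i := by exact_mod_cast hz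
      rw [h4] at h3
      exact h3)
    calc ∑ z ∈ Z.filter (fun z => j z = i), Real.exp (-((2 + δ) * hr (aff z))) ≤
        ∑ _z ∈ Z.filter (fun z => j z = i), Real.exp (-((2 + δ) * i)) := Finset.sum_le_sum h1
      _ = ((Z.filter (fun z => j z = i)).card : ℝ) * Real.exp (-((2 + δ) * i)) := by
          rw [Finset.sum_const, nsmul_eq_mul]
      _ ≤ (C0 * Real.exp ((2 + δ / 2) * (i + 1))) * Real.exp (-((2 + δ) * i)) :=
          mul_le_mul_of_nonneg_right h2 (Real.exp_pos _).le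
      _ = C0 * Real.exp (2 + δ / 2) * q ^ i := by
          rw [hq, ← Real.exp_nat_mul, mul_assoc, ← Real.exp_add, mul_assoc, ← Real.exp_add]
          congr 2
          ring
  refine (Finset.sum_le_sum hterm).trans ?_
  rw [← Finset.mul_sum]
  refine mul_le_mul_of_nonneg_left ?_ (by positivity)
  have h1 := (summable_geometric_of_lt_one hq0.le hq1).sum_le_tsum (Finset.range N)
    (fun i _ => pow_nonneg hq0.le i)
  rw [tsum_geometric_of_lt_one hq0.le hq1] at h1
  exact h1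

/-- a sum over the products of primes -/
theorem sum_nrm {δ : ℝ} (hδ : 0 < δ) : ∃ C : ℝ, 0 < C ∧ ∀ W : Finset (Pr K →₀ ℕ),
    ∑ n ∈ W, Real.exp (-((1 + δ) * nrm n)) ≤ C := by
  classical
  obtain ⟨C, hC, h⟩ := rankin K (D := 1) zero_le_one (s := (1 + δ) / 2) (by linarith)
  refine ⟨C, hC, fun W => ?_⟩
  have hinj : Set.InjOn (fun n : Pr K →₀ ℕ => n + n) W := by
    intro m _ n _ hmn
    ext v
    have h1 := DFunLike.congr_fun hmn v
    have h2 : m v + m v = n v + n v := h1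
    omega
  have h1 := h (W.image fun n => n + n) (by
    intro n hn v hv
    obtain ⟨m, -, rfl⟩ := Finset.mem_image.1 hn
    rw [Finsupp.mem_support_iff] at hv
    have e : (m + m) v = m v + m v := rfl
    rw [e] at hv ⊢
    omega)
  rw [Finset.sum_image hinj] at h1
  refine le_trans (le_of_eq ?_) h1
  refine Finset.sum_congr rfl fun n _ => ?_
  rw [one_pow, one_mul, nrm_add]
  congr 1
  ring

open Classical in
/-- the indicator of a finite set of primes -/
noncomputable def ind {K : Type} [Field K] [NumberField K] (B : Finset (Pr K)) : Pr K →₀ ℕ :=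
  Finsupp.onFinset B (fun v => if v ∈ B then 1 else 0) (by
    intro v hv
    by_contra hcon
    exact hv (if_neg hcon))

theorem ind_apply {K : Type} [Field K] [NumberField K] (B : Finset (Pr K)) (v : Pr K)
    [Decidable (v ∈ B)] : ind B v = if v ∈ B then 1 else 0 := by
  unfold ind
  rw [Finsupp.onFinset_apply]
  congr

theorem nrm_ind {K : Type} [Field K] [NumberField K] (B : Finset (Pr K)) :
    nrm (ind B) = ∑ v ∈ B, Real.log (Nv v) := by
  classical
  have hs : (ind B).support = B := by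
    ext v
    rw [Finsupp.mem_support_iff, ind_apply]
    by_cases h : v ∈ B
    · simp [h]
    · simp [h]
  rw [nrm_eq, hs]
  refine Finset.sum_congr rfl fun v hv => ?_
  rw [ind_apply, if_pos hv, Nat.cast_one, one_mul]

/-- a sum over the finite sets of primes -/
theorem sum_sets {δ : ℝ} (hδ : 0 < δ) : ∃ C : ℝ, 0 < C ∧ ∀ W : Finset (Finset (Pr K)),
    ∑ A ∈ W, Real.exp (-((1 + δ) * ∑ v ∈ A, Real.log (Nv v))) ≤ C := by
  classical
  obtain ⟨C, hC, h⟩ := sum_nrm K hδ
  refine ⟨C, hC, fun W => ?_⟩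
  have hinj : Set.InjOn (fun A : Finset (Pr K) => ind A) W := by
    intro A _ B _ hAB
    ext v
    have h1 := DFunLike.congr_fun hAB v
    have h2 : ind A v = ind B v := h1
    rw [ind_apply, ind_apply] at h2
    split_ifs at h2 with h3 h4 h4 <;> tauto
  have h1 := h (W.image fun A => ind A)
  rw [Finset.sum_image hinj] at h1
  refine le_trans (le_of_eq ?_) h1
  exact Finset.sum_congr rfl fun A _ => by rw [nrm_ind]

/-- the number of the primes of a finite set -/
theorem card_primes {δ : ℝ} (hδ : 0 < δ) : ∃ C : ℝ, 0 < C ∧ ∀ D : Finset (Pr K),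
    (2 : ℝ) ^ D.card ≤ C * Real.exp (δ * ∑ v ∈ D, Real.log (Nv v)) := by
  classical
  have hl2 : 0 < Real.log 2 := Real.log_pos (by norm_num)
  obtain ⟨T, hT⟩ : ∃ T : ℝ, T = Real.exp (Real.log 2 / δ) := ⟨_, rfl⟩
  refine ⟨2 ^ (PP K T).card, by positivity, fun D => ?_⟩
  have h1 : D.card ≤ (PP K T).card + (D \ PP K T).card := by
    have := Finset.card_le_card (show D ⊆ PP K T ∪ (D \ PP K T) by
      intro v hv
      rw [Finset.mem_union, Finset.mem_sdiff]
      tauto)
    exact this.trans (Finset.card_union_le _ _)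
  have h2 : (2 : ℝ) ^ (D \ PP K T).card ≤ Real.exp (δ * ∑ v ∈ D, Real.log (Nv v)) := by
    have h3 : (2 : ℝ) ^ (D \ PP K T).card = Real.exp (∑ _v ∈ D \ PP K T, Real.log 2) := by
      rw [Finset.sum_const, nsmul_eq_mul, Real.exp_nat_mul, Real.exp_log (by norm_num)]
    rw [h3, Finset.mul_sum]
    refine Real.exp_le_exp.2 ?_
    refine (Finset.sum_le_sum (g := fun v => δ * Real.log (Nv v)) fun v hv => ?_).trans
      (Finset.sum_le_sum_of_subset_of_nonneg Finset.sdiff_subset fun v _ _ =>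
        mul_nonneg hδ.le (log_Nv_pos v).le)
    obtain ⟨-, hv2⟩ := Finset.mem_sdiff.1 hv
    rw [mem_PP, not_le] at hv2
    have h4 := Real.log_le_log (by rw [hT]; exact Real.exp_pos _) hv2.le
    rw [hT, Real.log_exp, div_le_iff₀ hδ] at h4
    linarith
  calc (2 : ℝ) ^ D.card ≤ 2 ^ ((PP K T).card + (D \ PP K T).card) :=
        pow_le_pow_right₀ one_le_two h1
    _ = 2 ^ (PP K T).card * 2 ^ (D \ PP K T).card := pow_add _ _ _
    _ ≤ _ := mul_le_mul_of_nonneg_left h2 (by positivity)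

variable {K}

open Classical in
/-- **points with small odd divisors, for polynomials of odd degree** -/
theorem count_odd (f : (𝓞 K)[X]) (hd : 2 ≤ f.natDegree) (hodd : ¬ Even f.natDegree)
    (hroot : ∀ z : K, aeval z f ≠ 0) (Bad : Finset (Pr K))
    (hBad : ∀ v ∉ Bad, Good f v ∧ GoodS f v) {δ : ℝ} (hδ : 0 < δ) (hδ1 : δ ≤ 1) :
    ∃ C : ℝ, 0 < C ∧ ∀ H : ℝ, 0 ≤ H → ∀ τ : ℝ, 0 ≤ τ → τ ≤ 2 * H → ∀ S : Finset K,
      (∀ x ∈ S, hr (aff x) ≤ H ∧
        ∑ v ∈ (dv f x \ Bad).filter (fun v => ¬ Even (nu f v x)), Real.log (Nv v) ≤ τ) →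
          (S.card : ℝ) ≤ C * (Real.exp ((1 + δ) * H + τ / 2) +
            Real.exp ((3 / 2 + δ) * H + τ / 4)) := by
  obtain ⟨C0, hC0, hz0⟩ := exists_z K
  obtain ⟨k, hk⟩ : ∃ k : ℝ, k = f.natDegree := ⟨_, rfl⟩
  have hk2 : (2 : ℝ) ≤ k := by rw [hk]; exact_mod_cast hd
  obtain ⟨δ1, hδ1'⟩ : ∃ δ1 : ℝ, δ1 = δ / 4 := ⟨_, rfl⟩
  have hδ10 : 0 < δ1 := by rw [hδ1']; positivity
  obtain ⟨δ2, hδ2⟩ : ∃ δ2 : ℝ, δ2 = δ / (8 * k) := ⟨_, rfl⟩
  have hδ20 : 0 < δ2 := by rw [hδ2]; positivity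
  obtain ⟨C1, hC1, h1⟩ := count_key f hd hodd Bad hBad hδ10
  obtain ⟨C2, hC2, h2⟩ := sum_height K hδ10
  obtain ⟨C3, hC3, h3⟩ := sum_nrm K hδ10
  obtain ⟨C4, hC4, h4⟩ := sum_sets K hδ10
  obtain ⟨C5, hC5, h5⟩ := card_primes K hδ20
  obtain ⟨c, hc, hnu⟩ := sum_nu_le f (by rintro rfl; simp at hd) Bad (fun v hv => (hBad v hv).2.2)
  obtain ⟨C6, hC6, h6⟩ := count_all K hδ
  obtain ⟨ℓ, hℓ⟩ : ∃ ℓ : ℝ, ℓ = lossK K := ⟨_, rfl⟩
  have hℓ0 : 0 ≤ ℓ := by rw [hℓ]; exact lossK_nonneg K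
  obtain ⟨MB, hMB⟩ : ∃ MB : ℝ, MB = C5 * Real.exp (δ2 * (k * C0 + c)) := ⟨_, rfl⟩
  have hMB0 : 0 < MB := by rw [hMB]; positivity
  obtain ⟨CX, hCX⟩ : ∃ CX : ℝ, CX = Real.exp (4 * (ℓ + C0)) := ⟨_, rfl⟩
  have hCX0 : 0 < CX := by rw [hCX]; exact Real.exp_pos _
  refine ⟨MB * (C1 * CX) * (C2 * (C4 * C3)) + C6 * Real.exp (3 * (C0 + 1)), by positivity, ?_⟩
  intro H hH τ hτ0 hτ S hS
  have hlog : ∀ v : Pr K, 0 ≤ Real.log (Nv v) := fun v => (log_Nv_pos v).le
  obtain ⟨E, hE⟩ : ∃ E : ℝ, E = Real.exp ((1 + δ) * H + τ / 2) +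
    Real.exp ((3 / 2 + δ) * H + τ / 4) := ⟨_, rfl⟩
  have hE0 : 0 < E := by rw [hE]; positivity
  rw [← hE]
  -- the points of small height
  let Y : K → Finset (Pr K) := fun x => (dv f x \ Bad).filter fun v => ¬ Even (nu f v x)
  have hYx : ∀ x v, v ∈ Y x → v ∉ Bad ∧ fv v x ≤ 1 ∧ fv v (aeval x f) < 1 ∧ ¬ Even (nu f v x) := by
    intro x v hv
    obtain ⟨hv1, hv2⟩ := Finset.mem_filter.1 hv
    obtain ⟨hv3, hv4⟩ := Finset.mem_sdiff.1 hv1
    obtain ⟨hv5, hv6⟩ := (mem_dv (hroot x)).1 hv3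
    exact ⟨hv4, hv5, hv6, hv2⟩
  have hYiff : ∀ x v, v ∉ Bad → (v ∈ Y x ↔ ¬ Even (nu f v x)) := by
    intro x v hv
    constructor
    · intro h
      exact (hYx x v h).2.2.2
    · intro h
      rw [Finset.mem_filter, Finset.mem_sdiff]
      refine ⟨⟨(mem_dv_iff (hroot x) (hBad v hv).2.2).2 ?_, hv⟩, h⟩
      by_contra hcon
      have : nu f v x = 0 := by omega
      rw [this] at h
      exact h (by norm_num)
  have hzx : ∀ x : K, ∃ z : K, 2 * hr (aff z) + ∑ v ∈ (Y x).filter (fun v => ¬ cls v x = cls v z),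
      Real.log (Nv v) ≤ ∑ v ∈ (Y x).filter (fun v => cls v x = cls v z), Real.log (Nv v) + C0 :=
    fun x => hz0 (Y x) x fun v hv => (hYx x v hv).2.1
  choose z hz using hzx
  obtain ⟨Sa, hSa⟩ : ∃ Sa : Finset K, Sa = S.filter fun x => x = z x := ⟨_, rfl⟩
  obtain ⟨Sb, hSb⟩ : ∃ Sb : Finset K, Sb = S.filter fun x => ¬ x = z x := ⟨_, rfl⟩
  have hsplit : (S.card : ℝ) = Sa.card + Sb.card := by
    rw [hSa, hSb]
    exact_mod_cast (Finset.card_filter_add_card_filter_not (s := S) (fun x => x = z x)).symm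
  have hzH : ∀ x ∈ S, 2 * hr (aff (z x)) ≤ τ + C0 := by
    intro x hx
    have e1 := hz x
    have e2 := (hS x hx).2
    have e3 : ∑ v ∈ (Y x).filter (fun v => cls v x = cls v (z x)), Real.log (Nv v) ≤
        ∑ v ∈ Y x, Real.log (Nv v) :=
      Finset.sum_le_sum_of_subset_of_nonneg (Finset.filter_subset _ _) fun v _ _ => hlog v
    have e4 : 0 ≤ ∑ v ∈ (Y x).filter (fun v => ¬ cls v x = cls v (z x)), Real.log (Nv v) :=
      Finset.sum_nonneg fun v _ => hlog v
    linarith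
  have hSac : (Sa.card : ℝ) ≤ C6 * Real.exp (3 * (C0 + 1)) * E := by
    have e1 := h6 (τ / 2 + C0) (by positivity) Sa (by
      intro x hx
      rw [hSa] at hx
      obtain ⟨hxS, hxz⟩ := Finset.mem_filter.1 hx
      have e2 := hzH x hxS
      rw [← hxz] at e2
      linarith)
    refine e1.trans ?_
    rw [mul_assoc]
    refine mul_le_mul_of_nonneg_left ?_ hC6.le
    have e3 : Real.exp ((2 + δ) * (τ / 2 + C0)) ≤
        Real.exp (3 * (C0 + 1)) * Real.exp ((3 / 2 + δ) * H + τ / 4) := by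
      rw [← Real.exp_add]
      refine Real.exp_le_exp.2 ?_
      have e5 : δ * τ ≤ δ * (2 * H) := mul_le_mul_of_nonneg_left hτ hδ.le
      have e6 : δ * C0 ≤ 1 * C0 := mul_le_mul_of_nonneg_right hδ1 hC0
      nlinarith
    refine e3.trans (mul_le_mul_of_nonneg_left ?_ (Real.exp_pos _).le)
    rw [hE]
    linarith [Real.exp_pos ((1 + δ) * H + τ / 2)]
  -- the other points
  have hn : ∀ x, ∃ n : Pr K →₀ ℕ, x ≠ z x → ∀ v, n v = if v ∈ Bad then 0 else ml v x (z x) := by
    intro x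
    by_cases hx : x = z x
    · exact ⟨0, fun h => absurd hx h⟩
    · have hfin : {v : Pr K | ml v x (z x) ≠ 0}.Finite := by
        refine (lamF_support_finite (aff_ne_zero x) (aff_ne_zero (z x)) (aff_wedge hx)).subset ?_
        intro v hv
        have hv' : ml v x (z x) ≠ 0 := hv
        intro h0
        have e1 := lam_eq_ml v hx
        have e2 : lam (Sum.inr v) (aff x) (aff (z x)) = 0 := h0
        rw [e2] at e1
        rcases mul_eq_zero.1 e1.symm with h | h
        · exact hv' (by exact_mod_cast h)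
        · exact (log_Nv_pos v).ne' h
      refine ⟨Finsupp.onFinset hfin.toFinset (fun v => if v ∈ Bad then 0 else ml v x (z x)) ?_,
        fun _ v => rfl⟩
      intro v hv
      rw [Set.Finite.mem_toFinset]
      intro h0
      apply hv
      rw [h0]
      split_ifs <;> rfl
  choose n hn using hn
  let A : K → Finset (Pr K) := fun x => (Y x).filter fun v => ¬ cls v x = cls v (z x)
  let B : K → Finset (Pr K) := fun x => (Y x).filter fun v => cls v x = cls v (z x)
  let p : K → K × (Finset (Pr K) × (Pr K →₀ ℕ)) := fun x => (z x, (A x, n x - ind (B x)))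
  have hSbm : ∀ x ∈ Sb, x ∈ S ∧ x ≠ z x := by
    intro x hx
    rw [hSb] at hx
    exact Finset.mem_filter.1 hx
  have hBn : ∀ x, x ≠ z x → (n x - ind (B x)) + ind (B x) = n x := by
    intro x hx
    refine tsub_add_cancel_of_le ?_
    intro v
    rw [ind_apply]
    split_ifs with hv
    · obtain ⟨hv1, hv2⟩ := Finset.mem_filter.1 hv
      rw [hn x hx v, if_neg (hYx x v hv1).1]
      have e1 := lam_ge_of_cls v hx hv2
      rw [lam_eq_ml v hx] at e1
      have e2 := log_Nv_pos v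
      by_contra hcon
      have : ml v x (z x) = 0 := by omega
      rw [this, Nat.cast_zero, zero_mul] at e1
      linarith
    · exact Nat.zero_le _
  have hAB : ∀ x, ∑ v ∈ A x, Real.log (Nv v) + ∑ v ∈ B x, Real.log (Nv v) =
      ∑ v ∈ Y x, Real.log (Nv v) := by
    intro x
    rw [add_comm]
    exact Finset.sum_filter_add_sum_filter_not _ _ _
  have hnH : ∀ x ∈ Sb, nrm (n x) ≤ H + hr (aff (z x)) + ℓ := by
    intro x hx
    obtain ⟨hxS, hxz⟩ := hSbm x hx
    have e1 := sum_lam_le (aff_ne_zero x) (aff_ne_zero (z x)) (aff_wedge hxz)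
      ((n x).support.map ⟨Sum.inr, Sum.inr_injective⟩ : Finset (Pl K))
    rw [Finset.sum_map] at e1
    have e2 : nrm (n x) ≤ ∑ v ∈ (n x).support, lam (Sum.inr v) (aff x) (aff (z x)) := by
      rw [nrm_eq]
      refine Finset.sum_le_sum fun v _ => ?_
      rw [hn x hxz v, lam_eq_ml v hxz]
      split_ifs
      · rw [Nat.cast_zero, zero_mul]
        exact mul_nonneg (Nat.cast_nonneg _) (hlog v)
      · exact le_rfl
    have e3 := (hS x hxS).1
    have e4 : ∑ v ∈ (n x).support, lam (Sum.inr v) (aff x) (aff (z x)) ≤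
      hr (aff x) + hr (aff (z x)) + lossK K := e1
    rw [hℓ]
    linarith
  obtain ⟨E1, hE1⟩ : ∃ E1 : ℝ, E1 = Real.exp ((1 + δ / 4) * H + τ / 2) +
    Real.exp ((3 / 2 + δ / 2) * H + τ / 4) := ⟨_, rfl⟩
  have hE10 : 0 < E1 := by rw [hE1]; positivity
  have hE1E : Real.exp (δ / 8 * H) * E1 ≤ E := by
    rw [hE1, hE, mul_add, ← Real.exp_add, ← Real.exp_add]
    have hδH : 0 ≤ δ * H := by positivity
    refine add_le_add (Real.exp_le_exp.2 ?_) (Real.exp_le_exp.2 ?_) <;> nlinarith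
  let G : K × (Finset (Pr K) × (Pr K →₀ ℕ)) → ℝ := fun q =>
    Real.exp (-((2 + δ1) * hr (aff q.1))) *
      (Real.exp (-((1 + δ1) * ∑ v ∈ q.2.1, Real.log (Nv v))) * Real.exp (-((1 + δ1) * nrm q.2.2)))
  have hG0 : ∀ q, 0 < G q := fun q => by
    show 0 < Real.exp _ * (Real.exp _ * Real.exp _)
    positivity
  obtain ⟨P, hP⟩ : ∃ P, P = Sb.image p := ⟨_, rfl⟩
  have hfib : ∀ q ∈ P, ((Sb.filter fun x => p x = q).card : ℝ) ≤ MB * (C1 * CX) * E * G q := by
    intro q hq
    rw [hP] at hq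
    obtain ⟨x0, hx0, rfl⟩ := Finset.mem_image.1 hq
    obtain ⟨hx0S, hx0z⟩ := hSbm x0 hx0
    obtain ⟨D, hD⟩ : ∃ D : Finset (Pr K), D = dv f (z x0) \ Bad := ⟨_, rfl⟩
    obtain ⟨R, hR⟩ : ∃ R : Finset K, R = Sb.filter fun x => p x = p x0 := ⟨_, rfl⟩
    rw [← hR]
    have hRm : ∀ x ∈ R, x ∈ Sb ∧ z x = z x0 ∧ A x = A x0 ∧
        n x - ind (B x) = n x0 - ind (B x0) := by
      intro x hx
      rw [hR] at hx
      obtain ⟨hx1, hx2⟩ := Finset.mem_filter.1 hx
      have hx3 : (z x, (A x, n x - ind (B x))) = (z x0, (A x0, n x0 - ind (B x0))) := hx2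
      rw [Prod.mk.injEq, Prod.mk.injEq] at hx3
      exact ⟨hx1, hx3.1, hx3.2.1, hx3.2.2⟩
    have hmaps : ∀ x ∈ R, B x ∈ D.powerset := by
      intro x hx
      obtain ⟨hx1, hx2, -, -⟩ := hRm x hx
      rw [Finset.mem_powerset]
      intro v hv
      obtain ⟨hv1, hv2⟩ := Finset.mem_filter.1 hv
      obtain ⟨hv3, hv4, hv5, -⟩ := hYx x v hv1
      rw [hD, Finset.mem_sdiff]
      refine ⟨?_, hv3⟩
      rw [mem_dv (hroot _), ← hx2]
      have hxv := (fv_le_one v x).1 hv4
      have hzv : v.valuation K (z x) ≤ 1 := by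
        by_contra hcon
        rw [cls_of_le v hxv, cls_of_not v hcon] at hv2
        exact absurd hv2 (by simp)
      refine ⟨(fv_le_one v _).2 hzv, ?_⟩
      rw [cls_of_le v hxv, cls_of_le v hzv, Option.some_inj] at hv2
      rw [fv_lt_one, ← rd_eq_zero_iff v (rd_eval v hzv f).1, (rd_eval v hzv f).2, ← hv2,
        ← (rd_eval v hxv f).2, rd_eq_zero_iff v (rd_eval v hxv f).1, ← fv_lt_one]
      exact hv5
    have hsum : (R.card : ℝ) = ∑ b ∈ D.powerset, ((R.filter fun x => B x = b).card : ℝ) := by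
      have := Finset.card_eq_sum_card_fiberwise hmaps
      exact_mod_cast this
    have hcell : ∀ b ∈ D.powerset, ((R.filter fun x => B x = b).card : ℝ) ≤
        C1 * CX * E1 * G (p x0) := by
      intro b _
      rcases (R.filter fun x => B x = b).eq_empty_or_nonempty with he | ⟨x1, hx1⟩
      · rw [he, Finset.card_empty, Nat.cast_zero]
        have := hG0 (p x0)
        positivity
      obtain ⟨hx1R, hx1b⟩ := Finset.mem_filter.1 hx1
      obtain ⟨hx1S, hx1z, hx1A, hx1n⟩ := hRm x1 hx1R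
      obtain ⟨hx1S', hx1z'⟩ := hSbm x1 hx1S
      have g1 := h1 H hH (z x0) (n x1) (A x1 ∪ B x1) (R.filter fun x => B x = b) (by
        intro x hx
        obtain ⟨hxR, hxb⟩ := Finset.mem_filter.1 hx
        obtain ⟨hxS, hxz, hxA, hxn⟩ := hRm x hxR
        obtain ⟨hxS', hxz'⟩ := hSbm x hxS
        have hnx : n x = n x1 := by
          rw [← hBn x hxz', ← hBn x1 hx1z', hxn, hx1n, hxb, hx1b]
        refine ⟨(hS x hxS').1, hroot x, ?_, ?_, ?_, ?_⟩
        · rw [← hxz]
          exact hxz'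
        · intro v hv hvB
          rw [Finsupp.mem_support_iff, hn x1 hx1z' v, if_pos hvB] at hv
          exact hv rfl
        · intro v hv
          rw [← hnx, hn x hxz' v, if_neg hv, hxz]
        · intro v hv
          have e1 : A x1 ∪ B x1 = Y x := by
            rw [hx1A, ← hxA, hx1b, ← hxb, Finset.union_comm]
            exact Finset.filter_union_filter_not_eq _ _
          rw [e1]
          exact hYiff x v hv)
      refine g1.trans ?_
      rw [mul_assoc C1, mul_assoc C1]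
      refine mul_le_mul_of_nonneg_left ?_ hC1.le
      obtain ⟨s, hs⟩ : ∃ s : ℝ, s = hr (aff (z x0)) := ⟨_, rfl⟩
      obtain ⟨a, ha⟩ : ∃ a : ℝ, a = ∑ v ∈ A x0, Real.log (Nv v) := ⟨_, rfl⟩
      obtain ⟨β, hβ⟩ : ∃ β : ℝ, β = ∑ v ∈ B x1, Real.log (Nv v) := ⟨_, rfl⟩
      obtain ⟨ν, hν⟩ : ∃ ν : ℝ, ν = nrm (n x0 - ind (B x0)) := ⟨_, rfl⟩
      have q1 : 2 * s + a ≤ β + C0 := by
        have := hz x1
        rw [hx1z] at this
        have e1 : ∑ v ∈ (Y x1).filter (fun v => ¬ cls v x1 = cls v (z x0)), Real.log (Nv v) = a := by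
          rw [ha, ← hx1A, ← hx1z]
        have e2 : ∑ v ∈ (Y x1).filter (fun v => cls v x1 = cls v (z x0)), Real.log (Nv v) = β := by
          rw [hβ, ← hx1z]
        rw [e1, e2] at this
        rw [hs]
        exact this
      have q2 : nrm (n x1) = ν + β := by
        rw [← hBn x1 hx1z', nrm_add, hx1n, nrm_ind, hν, hβ]
      have q3 : ν + β ≤ H + s + ℓ := by
        rw [← q2, hs, ← hx1z]
        exact hnH x1 hx1S
      have q4 : a + β ≤ τ := by
        have e1 := hAB x1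
        rw [hx1A, ← ha, ← hβ] at e1
        rw [e1]
        exact (hS x1 hx1S').2
      have hs0 : 0 ≤ s := by rw [hs]; exact hr_aff_nonneg _
      have ha0 : 0 ≤ a := by rw [ha]; exact Finset.sum_nonneg fun v _ => hlog v
      have hβ0 : 0 ≤ β := by rw [hβ]; exact Finset.sum_nonneg fun v _ => hlog v
      have hν0 : 0 ≤ ν := by rw [hν]; exact nrm_nonneg _
      have hGp : G (p x0) = Real.exp (-((2 + δ1) * s) + (-((1 + δ1) * a) + -((1 + δ1) * ν))) := by
        rw [Real.exp_add, Real.exp_add, hs, ha, hν]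
      obtain ⟨W, hW⟩ : ∃ W : ℝ, W = -((2 + δ1) * s) + (-((1 + δ1) * a) + -((1 + δ1) * ν)) :=
        ⟨_, rfl⟩
      have e9 : CX * E1 * Real.exp W =
          Real.exp (4 * (ℓ + C0) + ((1 + δ / 4) * H + τ / 2) + W) +
            Real.exp (4 * (ℓ + C0) + ((3 / 2 + δ / 2) * H + τ / 4) + W) := by
        rw [hCX, hE1, Real.exp_add (4 * (ℓ + C0) + ((1 + δ / 4) * H + τ / 2)) W,
          Real.exp_add (4 * (ℓ + C0)) ((1 + δ / 4) * H + τ / 2),
          Real.exp_add (4 * (ℓ + C0) + ((3 / 2 + δ / 2) * H + τ / 4)) W,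
          Real.exp_add (4 * (ℓ + C0)) ((3 / 2 + δ / 2) * H + τ / 4)]
        ring
      rw [q2, hGp, ← hW, e9, hW]
      have hδ11 : δ1 ≤ 1 := by rw [hδ1']; linarith
      refine add_le_add (Real.one_le_exp ?_) (Real.exp_le_exp.2 ?_)
      · -- the first term
        have r1 : (1 + δ1) * (a + ν) ≤ (1 + δ1) * (H - s + C0 + ℓ) :=
          mul_le_mul_of_nonneg_left (by linarith) (by linarith)
        have r2 : δ1 * (C0 + ℓ) ≤ 1 * (C0 + ℓ) := mul_le_mul_of_nonneg_right hδ11 (by linarith)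
        have r3 : δ1 * H = δ / 4 * H := by rw [hδ1']
        nlinarith
      · have r1 : (1 / 2 + δ1) * ν ≤ (1 / 2 + δ1) * (H + s + ℓ - β) :=
          mul_le_mul_of_nonneg_left (by linarith) (by linarith)
        have r2 : (1 + δ1) * a ≤ (1 + δ1) * (β + C0 - 2 * s) :=
          mul_le_mul_of_nonneg_left (by linarith) (by linarith)
        have r3 : δ1 * (C0 + ℓ) ≤ 1 * (C0 + ℓ) := mul_le_mul_of_nonneg_right hδ11 (by linarith)
        have r4 : δ1 * H = δ / 4 * H := by rw [hδ1']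
        nlinarith
    have hDc : (2 : ℝ) ^ D.card ≤ MB * Real.exp (δ / 8 * H) := by
      refine (h5 D).trans ?_
      rw [hMB, mul_assoc, ← Real.exp_add]
      refine mul_le_mul_of_nonneg_left (Real.exp_le_exp.2 ?_) hC5.le
      have e1 : ∑ v ∈ D, Real.log (Nv v) ≤ k * hr (aff (z x0)) + c := by
        refine le_trans ?_ (hk ▸ hnu (z x0) (hroot _))
        rw [hD]
        refine Finset.sum_le_sum fun v hv => ?_
        obtain ⟨hva, hvb⟩ := Finset.mem_sdiff.1 hv
        have h12 : (1 : ℝ) ≤ nu f v (z x0) := by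
          exact_mod_cast (mem_dv_iff (hroot _) (hBad v hvb).2.2).1 hva
        have := log_Nv_pos v
        nlinarith
      have e2 := hzH x0 hx0S
      have e3 : δ2 * k = δ / 8 := by
        rw [hδ2]
        field_simp
      have e4 := mul_le_mul_of_nonneg_left e1 hδ20.le
      have e5 : δ2 * (k * hr (aff (z x0))) ≤ δ / 8 * (H + C0) := by
        rw [← mul_assoc, e3]
        refine mul_le_mul_of_nonneg_left ?_ (by positivity)
        linarith
      have e6 : δ2 * (k * C0 + c) = δ / 8 * C0 + δ2 * c := by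
        rw [mul_add, ← mul_assoc, e3]
      linarith
    have hGp := hG0 (p x0)
    rw [hsum]
    calc ∑ b ∈ D.powerset, ((R.filter fun x => B x = b).card : ℝ) ≤
        ∑ _b ∈ D.powerset, C1 * CX * E1 * G (p x0) := Finset.sum_le_sum hcell
      _ = 2 ^ D.card * (C1 * CX * E1 * G (p x0)) := by
          rw [Finset.sum_const, Finset.card_powerset, nsmul_eq_mul]
          push_cast
          rfl
      _ ≤ (MB * Real.exp (δ / 8 * H)) * (C1 * CX * E1 * G (p x0)) :=
          mul_le_mul_of_nonneg_right hDc (by positivity)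
      _ = MB * (C1 * CX) * (Real.exp (δ / 8 * H) * E1) * G (p x0) := by ring
      _ ≤ MB * (C1 * CX) * E * G (p x0) := by
          refine mul_le_mul_of_nonneg_right ?_ hGp.le
          exact mul_le_mul_of_nonneg_left hE1E (by positivity)
  have hPG : ∑ q ∈ P, G q ≤ C2 * (C4 * C3) := by
    have hsub : P ⊆ (P.image fun q => q.1) ×ˢ ((P.image fun q => q.2.1) ×ˢ
        (P.image fun q => q.2.2)) := by
      intro q hq
      rw [Finset.mem_product, Finset.mem_product]
      exact ⟨Finset.mem_image_of_mem _ hq, Finset.mem_image_of_mem _ hq,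
        Finset.mem_image_of_mem _ hq⟩
    refine (Finset.sum_le_sum_of_subset_of_nonneg hsub fun q _ _ => (hG0 q).le).trans ?_
    have e1 : ∑ q ∈ (P.image fun q => q.1) ×ˢ ((P.image fun q => q.2.1) ×ˢ
        (P.image fun q => q.2.2)), G q =
        (∑ z ∈ P.image fun q => q.1, Real.exp (-((2 + δ1) * hr (aff z)))) *
          ((∑ A ∈ P.image fun q => q.2.1, Real.exp (-((1 + δ1) * ∑ v ∈ A, Real.log (Nv v)))) *
            ∑ m ∈ P.image fun q => q.2.2, Real.exp (-((1 + δ1) * nrm m))) := by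
      rw [Finset.sum_mul_sum, Finset.sum_mul_sum, Finset.sum_product]
      refine Finset.sum_congr rfl fun z _ => ?_
      rw [Finset.sum_product]
      refine Finset.sum_congr rfl fun A _ => ?_
      rw [Finset.mul_sum]
    rw [e1]
    refine mul_le_mul (h2 _) (mul_le_mul (h4 _) (h3 _) ?_ hC4.le) ?_ hC2.le
    · exact Finset.sum_nonneg fun _ _ => (Real.exp_pos _).le
    · exact mul_nonneg (Finset.sum_nonneg fun _ _ => (Real.exp_pos _).le)
        (Finset.sum_nonneg fun _ _ => (Real.exp_pos _).le)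
  have hSbc : (Sb.card : ℝ) ≤ MB * (C1 * CX) * (C2 * (C4 * C3)) * E := by
    have e1 : (Sb.card : ℝ) = ∑ q ∈ P, ((Sb.filter fun x => p x = q).card : ℝ) := by
      have := Finset.card_eq_sum_card_fiberwise (s := Sb) (t := P) (f := p) (by
        intro x hx
        rw [hP]
        exact Finset.mem_coe.2 (Finset.mem_image_of_mem _ (Finset.mem_coe.1 hx)))
      exact_mod_cast this
    rw [e1]
    calc ∑ q ∈ P, ((Sb.filter fun x => p x = q).card : ℝ) ≤ ∑ q ∈ P, MB * (C1 * CX) * E * G q :=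
          Finset.sum_le_sum hfib
      _ = MB * (C1 * CX) * E * ∑ q ∈ P, G q := by rw [Finset.mul_sum]
      _ ≤ MB * (C1 * CX) * E * (C2 * (C4 * C3)) :=
          mul_le_mul_of_nonneg_left hPG (by positivity)
      _ = _ := by ring
  rw [hsplit]
  linarith

end Pool.Agent.N753.SF
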