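import Mathlib
import Pool.Agent.N753.SF.SumZ

/-!
# The squares of large primes, for products of polynomials of degree at most five
-/

set_option autoImplicit false

namespace Pool.Agent.N753.SF

open NumberField IsDedekindDomain Finset Pool.Agent.H691R3 Pool.Agent.TH876.Loc
open Pool.Agent.N753.LS Polynomial Height

variable {K : Type} [Field K] [NumberField K]

theorem NoLarge.mono {κ κ' ν ν' : ℝ} {f : (𝓞 K)[X]} (h : NoLarge κ ν f) (hκ : κ' ≤ κ)
    (hν : ν' ≤ ν) : NoLarge κ' ν' f := by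
  obtain ⟨C, Bad, hC, h⟩ := h
  refine ⟨C, Bad, hC, fun H hH S hS => ?_⟩
  refine (h H hH S fun x hx => ?_).trans ?_
  · obtain ⟨h1, h2, v, hv1, hv2, hv3⟩ := hS x hx
    refine ⟨h1, h2, v, hv1, hv2, le_trans ?_ hv3⟩
    exact mul_le_mul_of_nonneg_right (by linarith) hH
  · refine mul_le_mul_of_nonneg_left (Real.exp_le_exp.2 ?_) hC.le
    exact mul_le_mul_of_nonneg_right (by linarith) hH

open Classical in
/-- **no large primes for quintic polynomials without roots** -/
theorem noLarge_five (f : (𝓞 K)[X]) (hf : Nice f) (h5 : f.natDegree = 5)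
    (hroot : ∀ z : K, aeval z f ≠ 0) : NoLarge (1 / 8) (1 / 8) f := by
  obtain ⟨Bad, hBad⟩ := exists_badS f hf.2 hf.1
  have hf0 : f ≠ 0 := by
    rintro rfl
    have := hf.1
    simp at this
  obtain ⟨c, hc, h1⟩ := sum_nu_le f hf0 Bad (fun v hv => (hBad v hv).2.2)
  obtain ⟨C1, hC1, h2⟩ := count_all K (δ := 1) one_pos
  obtain ⟨C2, hC2, h3⟩ := count_odd f (by omega) (by rw [h5]; decide) hroot Bad hBad
    (show (0 : ℝ) < 1 / 16 by norm_num) (by norm_num)
  rw [h5] at h1
  push_cast at h1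
  refine ⟨C1 * Real.exp (3 * (2 * c + 1)) + C2 * (2 * Real.exp c), Bad, by positivity, ?_⟩
  intro H hH S hS
  have hE : 1 ≤ Real.exp ((2 - 1 / 8) * H) := Real.one_le_exp (by linarith)
  by_cases hcase : H ≤ 2 * c + 1
  · have h5 := h2 H hH S fun x hx => (hS x hx).1
    have h6 : Real.exp ((2 + 1) * H) ≤ Real.exp (3 * (2 * c + 1)) := Real.exp_le_exp.2 (by linarith)
    have h7 : 0 ≤ C2 * (2 * Real.exp c) * Real.exp ((2 - 1 / 8) * H) := by positivity
    have h8 : 0 ≤ C1 * Real.exp (3 * (2 * c + 1)) := by positivity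
    calc (S.card : ℝ) ≤ C1 * Real.exp ((2 + 1) * H) := h5
      _ ≤ C1 * Real.exp (3 * (2 * c + 1)) := mul_le_mul_of_nonneg_left h6 hC1.le
      _ ≤ C1 * Real.exp (3 * (2 * c + 1)) * Real.exp ((2 - 1 / 8) * H) :=
          le_mul_of_one_le_right h8 hE
      _ ≤ _ := by nlinarith
  · rw [not_le] at hcase
    have key : ∀ x ∈ S, ∑ v ∈ (dv f x \ Bad).filter (fun v => ¬ Even (nu f v x)),
        Real.log (Nv v) ≤ 5 / 4 * H + c := by
      intro x hx
      obtain ⟨hxH, hx0, v0, hv0, hv2, hv3⟩ := hS x hx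
      have h5 := h1 x hx0
      have hl0 := log_Nv_pos v0
      have hv0d : v0 ∈ dv f x \ Bad := by
        rw [Finset.mem_sdiff]
        exact ⟨(mem_dv_iff hx0 (hBad v0 hv0).2.2).2 (by omega), hv0⟩
      have hhr : 0 ≤ hr (aff x) := hr_aff_nonneg x
      rw [← Finset.add_sum_erase _ _ hv0d] at h5
      have h7 : 0 ≤ ∑ v ∈ (dv f x \ Bad).erase v0, (nu f v x : ℝ) * Real.log (Nv v) :=
        Finset.sum_nonneg fun v _ => mul_nonneg (Nat.cast_nonneg _) (log_Nv_pos v).le
      have h8 : (2 : ℝ) ≤ nu f v0 x := by exact_mod_cast hv2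
      have h9 : 2 * ((2 - 1 / 8) * H) ≤ nu f v0 x * Real.log (Nv v0) := by nlinarith
      have hnu : nu f v0 x = 2 := by
        by_contra hcon
        have h10 : (3 : ℝ) ≤ nu f v0 x := by
          have : 3 ≤ nu f v0 x := by omega
          exact_mod_cast this
        have h11 : 3 * ((2 - 1 / 8) * H) ≤ nu f v0 x * Real.log (Nv v0) := by nlinarith
        nlinarith
      have h10 : (dv f x \ Bad).filter (fun v => ¬ Even (nu f v x)) ⊆ (dv f x \ Bad).erase v0 := by
        intro v hv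
        rw [Finset.mem_filter] at hv
        rw [Finset.mem_erase]
        refine ⟨?_, hv.1⟩
        rintro rfl
        exact hv.2 (by rw [hnu]; exact even_two)
      have h11 : ∑ v ∈ (dv f x \ Bad).filter (fun v => ¬ Even (nu f v x)), Real.log (Nv v) ≤
          ∑ v ∈ (dv f x \ Bad).erase v0, (nu f v x : ℝ) * Real.log (Nv v) := by
        refine (Finset.sum_le_sum_of_subset_of_nonneg h10 fun v _ _ => (log_Nv_pos v).le).trans ?_
        refine Finset.sum_le_sum fun v hv => ?_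
        obtain ⟨-, hv⟩ := Finset.mem_erase.1 hv
        obtain ⟨hva, hvb⟩ := Finset.mem_sdiff.1 hv
        have h12 : (1 : ℝ) ≤ nu f v x := by
          exact_mod_cast (mem_dv_iff hx0 (hBad v hvb).2.2).1 hva
        have := log_Nv_pos v
        nlinarith
      linarith
    have h5 := h3 H hH (5 / 4 * H + c) (by linarith) (by linarith) S
      fun x hx => ⟨(hS x hx).1, key x hx⟩
    have h6 : Real.exp ((1 + 1 / 16) * H + (5 / 4 * H + c) / 2) ≤
        Real.exp c * Real.exp ((2 - 1 / 8) * H) := by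
      rw [← Real.exp_add]
      exact Real.exp_le_exp.2 (by linarith)
    have h6' : Real.exp ((3 / 2 + 1 / 16) * H + (5 / 4 * H + c) / 4) ≤
        Real.exp c * Real.exp ((2 - 1 / 8) * H) := by
      rw [← Real.exp_add]
      exact Real.exp_le_exp.2 (by linarith)
    have h7 : 0 ≤ C1 * Real.exp (3 * (2 * c + 1)) * Real.exp ((2 - 1 / 8) * H) := by positivity
    calc (S.card : ℝ) ≤ C2 * (Real.exp ((1 + 1 / 16) * H + (5 / 4 * H + c) / 2) +
          Real.exp ((3 / 2 + 1 / 16) * H + (5 / 4 * H + c) / 4)) := h5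
      _ ≤ C2 * (Real.exp c * Real.exp ((2 - 1 / 8) * H) +
          Real.exp c * Real.exp ((2 - 1 / 8) * H)) :=
          mul_le_mul_of_nonneg_left (add_le_add h6 h6') hC2.le
      _ ≤ _ := by nlinarith

/-! ### Products -/

theorem mu_mul (p : Pl K) {f g : (𝓞 K)[X]} (hf : f ≠ 0) (hg : g ≠ 0) {x : K}
    (hx : aeval x f ≠ 0) (hy : aeval x g ≠ 0) : mu p (f * g) x = mu p f x + mu p g x := by
  unfold mu
  rw [natDegree_mul hf hg, map_mul]
  have h : nm p (aeval x f * aeval x g) = nm p (aeval x f) + nm p (aeval x g) := by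
    rcases p with w | v
    · show (w.mult : ℝ) * Real.log (w _) = (w.mult : ℝ) * Real.log (w _) +
        (w.mult : ℝ) * Real.log (w _)
      rw [map_mul, Real.log_mul ((map_ne_zero w).2 hx) ((map_ne_zero w).2 hy)]
      ring
    · show Real.log (fv v _) = Real.log (fv v _) + Real.log (fv v _)
      rw [map_mul, Real.log_mul ((fv v).ne_zero hx) ((fv v).ne_zero hy)]
  rw [h]
  push_cast
  ring

theorem nu_mul {f g : (𝓞 K)[X]} {v : Pr K} (hf : f.leadingCoeff ∉ v.asIdeal)
    (hg : g.leadingCoeff ∉ v.asIdeal) {x : K}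
    (hx : aeval x f ≠ 0) (hy : aeval x g ≠ 0) : nu (f * g) v x = nu f v x + nu g v x := by
  have hf0 : f ≠ 0 := by
    rintro rfl
    exact hf (by rw [leadingCoeff_zero]; exact Ideal.zero_mem _)
  have hg0 : g ≠ 0 := by
    rintro rfl
    exact hg (by rw [leadingCoeff_zero]; exact Ideal.zero_mem _)
  have hfg : (f * g).leadingCoeff ∉ v.asIdeal := by
    rw [leadingCoeff_mul]
    intro h
    rcases v.isPrime.mem_or_mem h with h | h
    · exact hf h
    · exact hg h
  have hxy : aeval x (f * g) ≠ 0 := by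
    rw [map_mul]
    exact mul_ne_zero hx hy
  have h1 := mu_eq_nu hfg hxy
  rw [mu_mul _ hf0 hg0 hx hy, mu_eq_nu hf hx, mu_eq_nu hg hy, ← add_mul] at h1
  have h2 := mul_right_cancel₀ (log_Nv_pos v).ne' h1
  exact_mod_cast h2.symm

/-- clearing denominators in Bézout's identity -/
theorem bezout_two (f g : (𝓞 K)[X])
    (hfg : IsCoprime (f.map (algebraMap (𝓞 K) K)) (g.map (algebraMap (𝓞 K) K))) :
    ∃ (a b : (𝓞 K)[X]) (n : 𝓞 K), n ≠ 0 ∧ a * f + b * g = C n := by
  obtain ⟨a, b, hab⟩ := hfg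
  obtain ⟨m, hm0, hm⟩ := IsLocalization.integerNormalization_spec (nonZeroDivisors (𝓞 K)) a
  obtain ⟨n, hn0, hn⟩ := IsLocalization.integerNormalization_spec (nonZeroDivisors (𝓞 K)) b
  obtain ⟨A, hA⟩ : ∃ A, A = IsLocalization.integerNormalization (nonZeroDivisors (𝓞 K)) a := ⟨_, rfl⟩
  obtain ⟨B, hB⟩ : ∃ B, B = IsLocalization.integerNormalization (nonZeroDivisors (𝓞 K)) b := ⟨_, rfl⟩
  rw [← hA] at hm
  rw [← hB] at hn
  have hm' : A.map (algebraMap (𝓞 K) K) = C (algebraMap (𝓞 K) K m) * a := by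
    ext i
    rw [hm, coeff_smul, coeff_C_mul, Algebra.smul_def]
  have hn' : B.map (algebraMap (𝓞 K) K) = C (algebraMap (𝓞 K) K n) * b := by
    ext i
    rw [hn, coeff_smul, coeff_C_mul, Algebra.smul_def]
  refine ⟨C n * A, C m * B, m * n, mul_ne_zero (nonZeroDivisors.ne_zero hm0)
    (nonZeroDivisors.ne_zero hn0), ?_⟩
  apply Polynomial.map_injective (algebraMap (𝓞 K) K) (FaithfulSMul.algebraMap_injective _ _)
  rw [Polynomial.map_add, Polynomial.map_mul, Polynomial.map_mul, Polynomial.map_mul,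
    Polynomial.map_mul, Polynomial.map_C, Polynomial.map_C, Polynomial.map_C, hm', hn', map_mul, C_mul]
  linear_combination (C (algebraMap (𝓞 K) K m) * C (algebraMap (𝓞 K) K n)) * hab

theorem nice_left {f g : (𝓞 K)[X]} (h : Nice (f * g)) (hf : 1 ≤ f.natDegree) : Nice f := by
  refine ⟨hf, ?_⟩
  have h1 := h.2
  rw [Polynomial.map_mul] at h1
  exact h1.of_mul_left

theorem nice_right {f g : (𝓞 K)[X]} (h : Nice (f * g)) (hg : 1 ≤ g.natDegree) : Nice g := by
  refine ⟨hg, ?_⟩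
  have h1 := h.2
  rw [Polynomial.map_mul] at h1
  exact h1.of_mul_right

theorem coprime_of_nice {f g : (𝓞 K)[X]} (h : Nice (f * g)) :
    IsCoprime (f.map (algebraMap (𝓞 K) K)) (g.map (algebraMap (𝓞 K) K)) := by
  have h1 := h.2
  rw [Polynomial.map_mul] at h1
  exact (squarefree_mul_iff.1 h1).1.isCoprime

open Classical in
/-- **products** -/
theorem noLarge_mul {κ ν : ℝ} {f g : (𝓞 K)[X]} (hfg : Nice (f * g)) (hf1 : 1 ≤ f.natDegree)
    (hg1 : 1 ≤ g.natDegree) (hf : NoLarge κ ν f) (hg : NoLarge κ ν g) : NoLarge κ ν (f * g) := by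
  obtain ⟨B1, hB1⟩ := exists_badS f (nice_left hfg hf1).2 hf1
  obtain ⟨B2, hB2⟩ := exists_badS g (nice_right hfg hg1).2 hg1
  obtain ⟨C1, B3, hC1, h1⟩ := hf
  obtain ⟨C2, B4, hC2, h2⟩ := hg
  obtain ⟨a, b, n, hn, hab⟩ := bezout_two f g (coprime_of_nice hfg)
  obtain ⟨B5, hB5⟩ : ∃ B5, B5 = (fin_dvd hn).toFinset := ⟨_, rfl⟩
  refine ⟨C1 + C2, B1 ∪ B2 ∪ B3 ∪ B4 ∪ B5, by positivity, ?_⟩
  intro H hH S hS
  obtain ⟨S1, hS1⟩ : ∃ S1 : Finset K, S1 = S.filter fun x => ∃ v, v ∉ B3 ∧ 2 ≤ nu f v x ∧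
    (2 - κ) * H ≤ Real.log (Nv v) := ⟨_, rfl⟩
  obtain ⟨S2, hS2⟩ : ∃ S2 : Finset K, S2 = S.filter fun x => ∃ v, v ∉ B4 ∧ 2 ≤ nu g v x ∧
    (2 - κ) * H ≤ Real.log (Nv v) := ⟨_, rfl⟩
  have hne : ∀ x ∈ S, aeval x f ≠ 0 ∧ aeval x g ≠ 0 := by
    intro x hx
    have h3 := (hS x hx).2.1
    rw [map_mul] at h3
    exact ⟨left_ne_zero_of_mul h3, right_ne_zero_of_mul h3⟩
  have hsub : S ⊆ S1 ∪ S2 := by
    intro x hx
    obtain ⟨hxH, hx0, v, hv, hv2, hv3⟩ := hS x hx
    obtain ⟨hxf, hxg⟩ := hne x hx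
    simp only [Finset.mem_union, not_or] at hv
    obtain ⟨⟨⟨⟨hv1', hv2'⟩, hv3'⟩, hv4'⟩, hv5'⟩ := hv
    have hlf := (hB1 v hv1').2.2
    have hlg := (hB2 v hv2').2.2
    rw [nu_mul hlf hlg hxf hxg] at hv2
    have hor : nu f v x = 0 ∨ nu g v x = 0 := by
      by_contra hcon
      rw [not_or] at hcon
      obtain ⟨h4, h5⟩ := (nu_pos_iff hlf hxf).1 (by omega)
      obtain ⟨-, h6⟩ := (nu_pos_iff hlg hxg).1 (by omega)
      have h7 : aeval x a * aeval x f + aeval x b * aeval x g = algebraMap (𝓞 K) K n := by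
        have := congrArg (fun g => aeval x g) hab
        simpa using this
      have hn' : n ∉ v.asIdeal := by
        rw [hB5, Set.Finite.mem_toFinset] at hv5'
        exact hv5'
      have h8 := fv_one_of_notMem hn'
      rw [← h7] at h8
      have h9 := fv_eq_one_add (fv_mul_lt (fv_int v a h4) h5) h8
      have h10 := fv_mul_lt (fv_int v b h4) h6
      linarith
    rw [Finset.mem_union, hS1, hS2, Finset.mem_filter, Finset.mem_filter]
    rcases hor with h | h
    · right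
      exact ⟨hx, v, hv4', by omega, hv3⟩
    · left
      exact ⟨hx, v, hv3', by omega, hv3⟩
  have h3 := h1 H hH S1 (fun x hx => by
    rw [hS1, Finset.mem_filter] at hx
    exact ⟨(hS x hx.1).1, (hne x hx.1).1, hx.2⟩)
  have h4 := h2 H hH S2 (fun x hx => by
    rw [hS2, Finset.mem_filter] at hx
    exact ⟨(hS x hx.1).1, (hne x hx.1).2, hx.2⟩)
  have h5 : (S.card : ℝ) ≤ S1.card + S2.card := by
    exact_mod_cast (Finset.card_le_card hsub).trans (Finset.card_union_le _ _)
  linarith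

/-- the polynomials to which the method applies -/
def Sf (f : (𝓞 K)[X]) : Prop :=
  Nice f ∧ NoLarge (1 / 8) (1 / 8) f

theorem sf_small {f : (𝓞 K)[X]} (hf : Nice f) (h5 : f.natDegree ≤ 5)
    (hirr : Irreducible (f.map (algebraMap (𝓞 K) K))) : Sf f := by
  refine ⟨hf, ?_⟩
  by_cases h4 : f.natDegree ≤ 4
  · exact (noLarge_four f hf h4).mono le_rfl (by norm_num)
  · have h5' : f.natDegree = 5 := by omega
    refine noLarge_five f hf h5' fun z hz => ?_
    have h6 : (f.map (algebraMap (𝓞 K) K)).IsRoot z := by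
      rw [IsRoot.def, eval_map_algebraMap]
      exact hz
    have h7 := Polynomial.degree_eq_one_of_irreducible_of_root hirr h6
    have h8 : (f.map (algebraMap (𝓞 K) K)).natDegree = 1 := natDegree_eq_of_degree_eq_some h7
    rw [natDegree_map_eq_of_injective (FaithfulSMul.algebraMap_injective _ _)] at h8
    omega

/-- **products of irreducible polynomials of degree at most five** -/
theorem sf_prod {ι : Type} [DecidableEq ι] (s : Finset ι) (hs : s.Nonempty) (f : ι → (𝓞 K)[X])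
    (hd : ∀ i ∈ s, 1 ≤ (f i).natDegree ∧ (f i).natDegree ≤ 5)
    (hirr : ∀ i ∈ s, Irreducible ((f i).map (algebraMap (𝓞 K) K)))
    (hsq : Squarefree ((∏ i ∈ s, f i).map (algebraMap (𝓞 K) K))) : Sf (∏ i ∈ s, f i) := by
  induction hs using Finset.Nonempty.cons_induction with
  | singleton i =>
    rw [Finset.prod_singleton] at hsq ⊢
    have h := hd i (Finset.mem_singleton_self i)
    exact sf_small ⟨h.1, hsq⟩ h.2 (hirr i (Finset.mem_singleton_self i))
  | cons i s hi hs ih =>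
    rw [Finset.prod_cons] at hsq ⊢
    have hdi := hd i (Finset.mem_cons_self i s)
    have hne : ∀ j ∈ s, f j ≠ 0 := fun j hj h0 => by
      have := (hd j (Finset.mem_cons_of_mem hj)).1
      rw [h0, natDegree_zero] at this
      omega
    have hP : ∏ j ∈ s, f j ≠ 0 := Finset.prod_ne_zero_iff.2 hne
    have hi0 : f i ≠ 0 := fun h0 => by
      have := hdi.1
      rw [h0, natDegree_zero] at this
      omega
    have hPd : 1 ≤ (∏ j ∈ s, f j).natDegree := by
      obtain ⟨j, hj⟩ := hs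
      rw [natDegree_prod _ _ hne]
      exact (hd j (Finset.mem_cons_of_mem hj)).1.trans
        (Finset.single_le_sum (f := fun j => (f j).natDegree) (fun _ _ => Nat.zero_le _) hj)
    have hN : Nice (f i * ∏ j ∈ s, f j) := by
      refine ⟨?_, hsq⟩
      rw [natDegree_mul hi0 hP]
      omega
    have h1 := ih (fun j hj => hd j (Finset.mem_cons_of_mem hj))
      (fun j hj => hirr j (Finset.mem_cons_of_mem hj)) (nice_right hN hPd).2
    have h2 := sf_small (nice_left hN hdi.1) hdi.2 (hirr i (Finset.mem_cons_self i s))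
    exact ⟨hN, noLarge_mul hN hdi.1 hPd h2.2 h1.2⟩

end Pool.Agent.N753.SF
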