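import Mathlib
import Pool.Agent.N753.SF.Five
import Pool.Agent.N753.LS.SetE

/-!
# One exceptional set for all polynomials and all coordinates
-/

set_option autoImplicit false
set_option linter.unusedSectionVars false

namespace Pool.Agent.N753.SF

open NumberField IsDedekindDomain Finset Pool.Agent.H691R3 Pool.Agent.TH876.Loc
open Pool.Agent.N753.LS Polynomial Height

/-- the transformation `(a x + b) / (c x + d)` -/
noncomputable def mob {K : Type} [Field K] (g : Fin 4 → K) (x : K) : K :=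
  (g 0 * x + g 1) / (g 2 * x + g 3)

/-- the determinant -/
def dt {K : Type} [Field K] (g : Fin 4 → K) : K := g 0 * g 3 - g 1 * g 2

theorem mob_inj {K : Type} [Field K] {g : Fin 4 → K} (hg : dt g ≠ 0) {x y : K}
    (hx : g 2 * x + g 3 ≠ 0) (hy : g 2 * y + g 3 ≠ 0) (h : mob g x = mob g y) : x = y := by
  unfold mob at h
  rw [div_eq_div_iff hx hy] at h
  have h1 : dt g * (x - y) = 0 := by
    unfold dt
    linear_combination h
  rcases mul_eq_zero.1 h1 with h2 | h2
  · exact absurd h2 hg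
  · exact sub_eq_zero.1 h2

variable (K : Type) [Field K] [NumberField K]

theorem countable_K : Countable K :=
  (Module.finBasis ℚ K).equivFun.toEquiv.countable_iff.2 inferInstance

variable {K}

theorem mob_height (g : Fin 4 → K) (hg : dt g ≠ 0) : ∃ C : ℝ, 0 ≤ C ∧ ∀ x : K,
    g 2 * x + g 3 ≠ 0 → logHeight₁ (mob g x) ≤ logHeight₁ x + C := by
  obtain ⟨t, ht⟩ : ∃ t : ℝ, t = totalWeight K * Real.log 2 := ⟨_, rfl⟩
  have ht0 : 0 ≤ t := by
    rw [ht]
    exact mul_nonneg (Nat.cast_nonneg _) (Real.log_nonneg one_le_two)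
  have hadd : ∀ x y : K, logHeight₁ (x + y) ≤ t + logHeight₁ x + logHeight₁ y := fun x y => by
    rw [ht]
    exact logHeight₁_add_le x y
  have hnn : ∀ x : K, 0 ≤ logHeight₁ x := fun x => zero_le_logHeight₁ x
  by_cases hc : g 2 = 0
  · have hd : g 3 ≠ 0 := by
      intro h
      apply hg
      unfold dt
      rw [hc, h]
      ring
    refine ⟨t + logHeight₁ (g 0 / g 3) + logHeight₁ (g 1 / g 3), by
      linarith [hnn (g 0 / g 3), hnn (g 1 / g 3)], fun x _ => ?_⟩
    have e : mob g x = g 0 / g 3 * x + g 1 / g 3 := by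
      unfold mob
      rw [hc, zero_mul, zero_add, add_div, mul_div_right_comm]
    rw [e]
    have h1 := hadd (g 0 / g 3 * x) (g 1 / g 3)
    have h2 := logHeight₁_mul_le (g 0 / g 3) x
    linarith
  · refine ⟨t + logHeight₁ (g 0 / g 2) + logHeight₁ (-dt g / g 2) + t + logHeight₁ (g 2) +
      logHeight₁ (g 3), by
      linarith [hnn (g 0 / g 2), hnn (-dt g / g 2), hnn (g 2), hnn (g 3)], fun x hx => ?_⟩
    have e : mob g x = g 0 / g 2 + -dt g / g 2 * (g 2 * x + g 3)⁻¹ := by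
      unfold mob dt
      rw [div_eq_iff hx, add_mul, mul_assoc, inv_mul_cancel₀ hx, mul_one]
      field_simp
      ring
    rw [e]
    have h1 := hadd (g 0 / g 2) (-dt g / g 2 * (g 2 * x + g 3)⁻¹)
    have h2 := logHeight₁_mul_le (-dt g / g 2) (g 2 * x + g 3)⁻¹
    rw [logHeight₁_inv] at h2
    have h3 := hadd (g 2 * x) (g 3)
    have h4 := logHeight₁_mul_le (g 2) x
    linarith

/-- the exponent of the exceptional set in `K` -/
noncomputable def ex (κ : ℝ) : ℝ := expo (κ / 2) (1 / 8) (1 / 8)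

theorem ex_pos {κ : ℝ} (hκ : 0 < κ) : 0 < ex κ :=
  expo_pos (by positivity) (by norm_num) (by norm_num)

variable (K) in
open Classical in
/-- the exceptional set in `K` -/
theorem exists_F1 {κ : ℝ} (hκ0 : 0 < κ) (hκ1 : κ ≤ 1) :
    ∃ E : Set K, (∀ H : ℝ, 0 ≤ H → ((E ∩ {y | logHeight₁ y ≤ H}).ncard : ℝ) ≤
      2 * Real.exp ((2 - ex κ / 2) * H)) ∧ ∀ f : (𝓞 K)[X], Sf f → ∀ g : Fin 4 → K, dt g ≠ 0 →
        ∃ h0 : ℝ, ∀ y : K, y ∉ E → h0 ≤ logHeight₁ y → g 2 * y + g 3 ≠ 0 →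
          aeval (mob g y) f ≠ 0 ∧ (f.natDegree - κ) * logHeight₁ (mob g y) ≤
            ∑ v ∈ dv f (mob g y), Real.log (Nv v) := by
  have hK := countable_K K
  have hP := countable_poly K
  obtain ⟨e, he⟩ : ∃ e : ℕ → (𝓞 K)[X] × (Fin 4 → K), Function.Surjective e :=
    exists_surjective_nat _
  have hex := ex_pos hκ0
  obtain ⟨T, h, hT1, hT2⟩ := diag (X := K) (fun y => logHeight₁ y)
    (fun H => NumberField.finite_setOfPred_logHeight₁_le K H)
    (fun n => if Sf (e n).1 ∧ dt (e n).2 ≠ 0 then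
      {y | (e n).2 2 * y + (e n).2 3 ≠ 0 ∧ mob (e n).2 y ∈ Wt κ (e n).1} else ∅)
    (α := 2 - ex κ) (by
      intro n
      by_cases hn : Sf (e n).1 ∧ dt (e n).2 ≠ 0
      · obtain ⟨C, hC⟩ := count_Wt hn.1.1 (κ' := 1 / 8) (ν' := 1 / 8) (by norm_num) (by norm_num)
          (by norm_num) hn.1.2 hκ0 hκ1
        obtain ⟨c, hc0, hc⟩ := mob_height (e n).2 hn.2
        refine ⟨C * Real.exp ((2 - ex κ) * c), fun H hH => ?_⟩
        rw [if_pos hn]
        have h1 := hC (H + c) (by positivity)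
        have h2 : (({y | (e n).2 2 * y + (e n).2 3 ≠ 0 ∧ mob (e n).2 y ∈ Wt κ (e n).1} ∩
            {y | logHeight₁ y ≤ H}).ncard : ℝ) ≤
              ((Wt κ (e n).1 ∩ {y | logHeight₁ y ≤ H + c}).ncard : ℝ) := by
          have h3 : ({y | (e n).2 2 * y + (e n).2 3 ≠ 0 ∧ mob (e n).2 y ∈ Wt κ (e n).1} ∩
            {y | logHeight₁ y ≤ H}).ncard ≤
              (Wt κ (e n).1 ∩ {y | logHeight₁ y ≤ H + c}).ncard := by
            refine Set.ncard_le_ncard_of_injOn (mob (e n).2) ?_ ?_ ?_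
            · rintro y ⟨⟨hy1, hy2⟩, hy3⟩
              refine ⟨hy2, ?_⟩
              have hy3' : logHeight₁ y ≤ H := hy3
              have := hc y hy1
              show logHeight₁ (mob (e n).2 y) ≤ H + c
              linarith
            · rintro y ⟨⟨hy1, -⟩, -⟩ z ⟨⟨hz1, -⟩, -⟩ hyz
              exact mob_inj hn.2 hy1 hz1 hyz
            · exact (NumberField.finite_setOfPred_logHeight₁_le K (H + c)).subset
                Set.inter_subset_right
          exact_mod_cast h3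
        refine h2.trans (h1.trans (le_of_eq ?_))
        show C * Real.exp ((2 - ex κ) * (H + c)) = _
        rw [mul_assoc, ← Real.exp_add]
        congr 2
        ring
      · refine ⟨0, fun H hH => ?_⟩
        rw [if_neg hn, Set.empty_inter, Set.ncard_empty, Nat.cast_zero, zero_mul]) (ν := ex κ / 2)
    (by positivity)
  refine ⟨T, fun H hH => ?_, fun f hf g hg => ?_⟩
  · refine (hT2 H hH).trans (le_of_eq ?_)
    congr 2
    ring
  · obtain ⟨n, hn⟩ := he (f, g)
    refine ⟨h n, fun y hy hyh hy0 => ?_⟩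
    have h1 : mob g y ∉ Wt κ f := by
      intro hy2
      have h2 := hT1 n y (by
        rw [if_pos (by rw [hn]; exact ⟨hf, hg⟩), hn]
        exact ⟨hy0, hy2⟩) hy
      linarith
    unfold Wt at h1
    rw [Set.mem_ofPred_eq, not_or, not_lt] at h1
    exact h1

variable (K) in
open Classical in
/-- the exceptional set in `K × K` -/
theorem exists_F2 {η : ℝ} (hη0 : 0 < η) (hη1 : η ≤ 1) :
    ∃ E : Set (K × K), (∀ H : ℝ, 0 ≤ H →
      ((E ∩ {p | max (logHeight₁ p.1) (logHeight₁ p.2) ≤ H}).ncard : ℝ) ≤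
        2 * Real.exp ((4 - η / 8) * H)) ∧ ∀ f : (𝓞 K)[X], Nice f → ∀ g : Fin 4 → K, dt g ≠ 0 →
          ∃ (Bad : Finset (Pr K)) (h0 : ℝ), ∀ p : K × K, p ∉ E →
            h0 ≤ max (logHeight₁ p.1) (logHeight₁ p.2) → g 2 * p.1 + g 3 ≠ 0 →
              g 2 * p.2 + g 3 ≠ 0 → aeval (mob g p.1) f ≠ 0 →
              ∑ v ∈ (od (aeval (mob g p.1) f) ∩ od (aeval (mob g p.2) f)) \ Bad,
                Real.log (Nv v) ≤ η * max (logHeight₁ (mob g p.1)) (logHeight₁ (mob g p.2)) := by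
  have hK := countable_K K
  have hP := countable_poly K
  obtain ⟨e, he⟩ : ∃ e : ℕ → (𝓞 K)[X] × (Fin 4 → K), Function.Surjective e :=
    exists_surjective_nat _
  have hBad : ∀ f : (𝓞 K)[X], ∃ Bad : Finset (Pr K), Nice f →
      ∃ C : ℝ, ∀ H : ℝ, 0 ≤ H →
      ((Ov η f f Bad ∩ {p | max (logHeight₁ p.1) (logHeight₁ p.2) ≤ H}).ncard : ℝ) ≤
        C * Real.exp ((4 - η / 4 + η / 16) * H) := by
    intro f
    by_cases h : Nice f
    · obtain ⟨Bad, C, hC⟩ := count_Ov h h hη0 hη1 (show 0 < η / 16 by positivity)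
        (by linarith)
      exact ⟨Bad, fun _ => ⟨C, hC⟩⟩
    · exact ⟨∅, fun h1 => absurd h1 h⟩
  choose Bad hBad using hBad
  have hfin : ∀ H : ℝ, {p : K × K | max (logHeight₁ p.1) (logHeight₁ p.2) ≤ H}.Finite := by
    intro H
    refine ((NumberField.finite_setOfPred_logHeight₁_le K H).prod
      (NumberField.finite_setOfPred_logHeight₁_le K H)).subset ?_
    intro p hp
    have hp' : max (logHeight₁ p.1) (logHeight₁ p.2) ≤ H := hp
    exact ⟨(le_max_left _ _).trans hp', (le_max_right _ _).trans hp'⟩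
  obtain ⟨T, h, hT1, hT2⟩ := diag (X := K × K) (fun p => max (logHeight₁ p.1) (logHeight₁ p.2))
    hfin (fun n => if Nice (e n).1 ∧ dt (e n).2 ≠ 0 then
      {p : K × K | ((e n).2 2 * p.1 + (e n).2 3 ≠ 0 ∧ (e n).2 2 * p.2 + (e n).2 3 ≠ 0) ∧
        (mob (e n).2 p.1, mob (e n).2 p.2) ∈ Ov η (e n).1 (e n).1 (Bad (e n).1)} else ∅)
    (α := 4 - η / 4 + η / 16) (by
      intro n
      by_cases hn : Nice (e n).1 ∧ dt (e n).2 ≠ 0
      · obtain ⟨C, hC⟩ := hBad _ hn.1
        obtain ⟨c, hc0, hc⟩ := mob_height (e n).2 hn.2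
        refine ⟨C * Real.exp ((4 - η / 4 + η / 16) * c), fun H hH => ?_⟩
        rw [if_pos hn]
        have h1 := hC (H + c) (by positivity)
        have h3 : ({p : K × K | ((e n).2 2 * p.1 + (e n).2 3 ≠ 0 ∧ (e n).2 2 * p.2 + (e n).2 3 ≠ 0) ∧
            (mob (e n).2 p.1, mob (e n).2 p.2) ∈ Ov η (e n).1 (e n).1 (Bad (e n).1)} ∩
            {p | max (logHeight₁ p.1) (logHeight₁ p.2) ≤ H}).ncard ≤
              (Ov η (e n).1 (e n).1 (Bad (e n).1) ∩
                {p | max (logHeight₁ p.1) (logHeight₁ p.2) ≤ H + c}).ncard := by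
          refine Set.ncard_le_ncard_of_injOn (fun p => (mob (e n).2 p.1, mob (e n).2 p.2)) ?_ ?_ ?_
          · rintro p ⟨⟨⟨hp1, hp2⟩, hp3⟩, hp4⟩
            refine ⟨hp3, ?_⟩
            have hp4' : max (logHeight₁ p.1) (logHeight₁ p.2) ≤ H := hp4
            have h5 := hc p.1 hp1
            have h6 := hc p.2 hp2
            show max (logHeight₁ (mob (e n).2 p.1)) (logHeight₁ (mob (e n).2 p.2)) ≤ H + c
            have h7 := (le_max_left (logHeight₁ p.1) (logHeight₁ p.2)).trans hp4'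
            have h8 := (le_max_right (logHeight₁ p.1) (logHeight₁ p.2)).trans hp4'
            exact max_le (by linarith) (by linarith)
          · rintro p ⟨⟨⟨hp1, hp2⟩, -⟩, -⟩ r ⟨⟨⟨hr1, hr2⟩, -⟩, -⟩ hpr
            have h5 := congrArg Prod.fst hpr
            have h6 := congrArg Prod.snd hpr
            exact Prod.ext (mob_inj hn.2 hp1 hr1 h5) (mob_inj hn.2 hp2 hr2 h6)
          · exact (hfin (H + c)).subset Set.inter_subset_right
        have h2 : (({p : K × K | ((e n).2 2 * p.1 + (e n).2 3 ≠ 0 ∧ (e n).2 2 * p.2 + (e n).2 3 ≠ 0) ∧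
            (mob (e n).2 p.1, mob (e n).2 p.2) ∈ Ov η (e n).1 (e n).1 (Bad (e n).1)} ∩
            {p | max (logHeight₁ p.1) (logHeight₁ p.2) ≤ H}).ncard : ℝ) ≤
              ((Ov η (e n).1 (e n).1 (Bad (e n).1) ∩
                {p | max (logHeight₁ p.1) (logHeight₁ p.2) ≤ H + c}).ncard : ℝ) := by
          exact_mod_cast h3
        refine h2.trans (h1.trans (le_of_eq ?_))
        rw [mul_assoc, ← Real.exp_add]
        congr 2
        ring
      · refine ⟨0, fun H hH => ?_⟩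
        rw [if_neg hn, Set.empty_inter, Set.ncard_empty, Nat.cast_zero, zero_mul]) (ν := η / 16)
    (by positivity)
  refine ⟨T, fun H hH => ?_, fun f hf g hg => ?_⟩
  · refine (hT2 H hH).trans (le_of_eq ?_)
    congr 2
    ring
  · obtain ⟨n, hn⟩ := he (f, g)
    refine ⟨Bad f, h n, fun p hp hph hp1 hp2 hp0 => ?_⟩
    by_contra hcon
    rw [not_le] at hcon
    have h2 := hT1 n p (by
      rw [if_pos (by rw [hn]; exact ⟨hf, hg⟩), hn]
      exact ⟨⟨hp1, hp2⟩, hp0, hcon⟩) hp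
    linarith

open Classical in
/-- **the number of the tuples, some entry or some pair of entries of which is exceptional** -/
theorem count_tuples {m : ℕ} (hm : 0 < m) {E1 : Set K} {E2 : Set (K × K)} {e1 e2 C1 C2 : ℝ}
    (he1 : 0 < e1) (he2 : 0 < e2) (hC1 : 0 < C1) (hC2 : 0 < C2)
    (hE1 : ∀ H : ℝ, 0 ≤ H → ((E1 ∩ {y | logHeight₁ y ≤ H}).ncard : ℝ) ≤
      C1 * Real.exp ((2 - e1) * H))
    (hE2 : ∀ H : ℝ, 0 ≤ H → ((E2 ∩ {p | max (logHeight₁ p.1) (logHeight₁ p.2) ≤ H}).ncard : ℝ) ≤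
      C2 * Real.exp ((4 - e2) * H)) :
    ∃ ν C : ℝ, 0 < ν ∧ ∀ H : ℝ, 0 ≤ H →
      (({x : Fin m → K | (∃ i, x i ∈ E1) ∨ ∃ i j, i ≠ j ∧ (x i, x j) ∈ E2} ∩
        {x | htm x ≤ H}).ncard : ℝ) ≤ C * Real.exp ((2 * m - ν) * H) := by
  obtain ⟨κ, hκ⟩ : ∃ κ : ℝ, κ = min e1 e2 := ⟨_, rfl⟩
  have hκ0 : 0 < κ := by rw [hκ]; exact lt_min (by positivity) (by positivity)
  have hκ1 : κ ≤ e1 := by rw [hκ]; exact min_le_left _ _
  have hκ2 : κ ≤ e2 := by rw [hκ]; exact min_le_right _ _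
  have hmR : (1 : ℝ) ≤ m := by exact_mod_cast hm
  obtain ⟨δ, hδ⟩ : ∃ δ : ℝ, δ = κ / (2 * m) := ⟨_, rfl⟩
  have hδ0 : 0 < δ := by rw [hδ]; positivity
  have hδm : δ * m = κ / 2 := by
    rw [hδ]
    field_simp
  obtain ⟨C0, hC0, h0⟩ := count_all K hδ0
  obtain ⟨A, hA⟩ : ∃ A : ℝ, A = max C0 1 := ⟨_, rfl⟩
  have hA1 : 1 ≤ A := by rw [hA]; exact le_max_right _ _
  have hA0 : C0 ≤ A := by rw [hA]; exact le_max_left _ _
  refine ⟨κ / 2, (m : ℝ) * (C1 * A ^ m) + (m : ℝ) * ((m : ℝ) * (C2 * A ^ m)), by positivity,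
    fun H hH => ?_⟩
  obtain ⟨E, hE⟩ : ∃ E : ℝ, E = Real.exp ((2 * m - κ / 2) * H) := ⟨_, rfl⟩
  have hE0 : 0 < E := by rw [hE]; exact Real.exp_pos _
  rw [← hE]
  have hbx : ((bx K H).card : ℝ) ≤ A * Real.exp ((2 + δ) * H) := by
    have h3 := h0 H hH (bx K H) fun x hx => by
      rw [hr_aff]
      exact mem_bx.1 hx
    exact h3.trans (mul_le_mul_of_nonneg_right hA0 (Real.exp_pos _).le)
  have hbxk : ∀ k : ℕ, k ≤ m → (((bx K H).card : ℝ)) ^ k ≤
      A ^ m * Real.exp (k * ((2 + δ) * H)) := by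
    intro k hk
    calc (((bx K H).card : ℝ)) ^ k ≤ (A * Real.exp ((2 + δ) * H)) ^ k :=
          pow_le_pow_left₀ (Nat.cast_nonneg _) hbx k
      _ = A ^ k * Real.exp (k * ((2 + δ) * H)) := by rw [mul_pow, ← Real.exp_nat_mul]
      _ ≤ _ := mul_le_mul_of_nonneg_right (pow_le_pow_right₀ hA1 hk) (Real.exp_pos _).le
  have hAm : 0 < A ^ m := by positivity
  obtain ⟨BX, hBX⟩ : ∃ BX : Finset (Fin m → K), BX = (box_fin (K := K) (m := m) H).toFinset :=
    ⟨_, rfl⟩
  have hBXm : ∀ x, x ∈ BX ↔ htm x ≤ H := fun x => by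
    rw [hBX, Set.Finite.mem_toFinset]
    rfl
  have hBXk : ∀ x ∈ BX, ∀ k, x k ∈ bx K H := fun x hx k =>
    mem_bx.2 ((le_htm x k).trans ((hBXm x).1 hx))
  have hexp : ∀ t : ℝ, t ≤ 2 * m - κ / 2 → Real.exp (t * H) ≤ E := fun t ht => by
    rw [hE]
    exact Real.exp_le_exp.2 (mul_le_mul_of_nonneg_right ht hH)
  have hm1 : ((m - 1 : ℕ) : ℝ) = m - 1 := by
    rw [Nat.cast_sub hm, Nat.cast_one]
  obtain ⟨S, hS⟩ : ∃ S : Finset K, S = (bx K H).filter fun y => y ∈ E1 := ⟨_, rfl⟩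
  have hSc : (S.card : ℝ) ≤ C1 * Real.exp ((2 - e1) * H) := by
    refine le_trans ?_ (hE1 H hH)
    have h3 : (S : Set K) = E1 ∩ {y | logHeight₁ y ≤ H} := by
      ext y
      rw [hS, Finset.mem_coe, Finset.mem_filter, mem_bx, and_comm]
      rfl
    rw [← h3, Set.ncard_coe_finset]
  obtain ⟨P, hP⟩ : ∃ P : Finset (K × K), P = ((bx K H) ×ˢ (bx K H)).filter fun p =>
    p ∈ E2 := ⟨_, rfl⟩
  have hPc : (P.card : ℝ) ≤ C2 * Real.exp ((4 - e2) * H) := by
    refine le_trans ?_ (hE2 H hH)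
    have h3 : (P : Set (K × K)) = E2 ∩ {p | max (logHeight₁ p.1) (logHeight₁ p.2) ≤ H} := by
      ext y
      rw [hP, Finset.mem_coe, Finset.mem_filter, Finset.mem_product, mem_bx, mem_bx, and_comm,
        ← max_le_iff]
      rfl
    rw [← h3, Set.ncard_coe_finset]
  let Z1 : Fin m → Finset (Fin m → K) := fun i => BX.filter fun x => x i ∈ E1
  let Z2 : Fin m → Fin m → Finset (Fin m → K) := fun i j => BX.filter fun x =>
    i ≠ j ∧ (x i, x j) ∈ E2
  have hsub : {x : Fin m → K | (∃ i, x i ∈ E1) ∨ ∃ i j, i ≠ j ∧ (x i, x j) ∈ E2} ∩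
      {x | htm x ≤ H} ⊆ (((Finset.univ.biUnion Z1) ∪
        (Finset.univ.biUnion fun i => Finset.univ.biUnion (Z2 i)) : Finset (Fin m → K)) :
          Set (Fin m → K)) := by
    rintro x ⟨hx, hxH⟩
    have hxB : x ∈ BX := (hBXm x).2 hxH
    rw [Finset.mem_coe, Finset.mem_union]
    rcases hx with ⟨i, hi⟩ | ⟨i, j, hij, hi⟩
    · exact Or.inl (Finset.mem_biUnion.2 ⟨i, Finset.mem_univ i,
        Finset.mem_filter.2 ⟨hxB, hi⟩⟩)
    · exact Or.inr (Finset.mem_biUnion.2 ⟨i, Finset.mem_univ i, Finset.mem_biUnion.2 ⟨j,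
        Finset.mem_univ j, Finset.mem_filter.2 ⟨hxB, hij, hi⟩⟩⟩)
  have hc1 : ∀ i, ((Z1 i).card : ℝ) ≤ C1 * A ^ m * E := by
    intro i
    have h3 := proj_one i (bx K H) S (Z1 i) (by
      intro x hx
      obtain ⟨hxB, hx0⟩ := Finset.mem_filter.1 hx
      refine ⟨hBXk x hxB, ?_⟩
      rw [hS, Finset.mem_filter]
      exact ⟨hBXk x hxB i, hx0⟩)
    calc ((Z1 i).card : ℝ) ≤ ((S.card * (bx K H).card ^ (m - 1) : ℕ) : ℝ) := by
          exact_mod_cast h3
      _ ≤ (C1 * Real.exp ((2 - e1) * H)) *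
          (A ^ m * Real.exp ((m - 1 : ℕ) * ((2 + δ) * H))) := by
          push_cast
          exact mul_le_mul hSc (hbxk (m - 1) (by omega)) (by positivity) (by positivity)
      _ = C1 * A ^ m * (Real.exp ((2 - e1) * H) *
          Real.exp ((m - 1 : ℕ) * ((2 + δ) * H))) := by ring
      _ = C1 * A ^ m * Real.exp ((2 * m - e1 + δ * m - δ) * H) := by
          rw [← Real.exp_add, hm1]
          congr 2
          ring
      _ ≤ _ := by
          refine mul_le_mul_of_nonneg_left (hexp _ ?_) (by positivity)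
          rw [hδm]
          linarith
  have hc2 : ∀ i j, ((Z2 i j).card : ℝ) ≤ C2 * A ^ m * E := by
    intro i j
    by_cases hij : i = j
    · have : Z2 i j = ∅ := by
        rw [Finset.eq_empty_iff_forall_notMem]
        intro x hx
        exact (Finset.mem_filter.1 hx).2.1 hij
      rw [this, Finset.card_empty, Nat.cast_zero]
      positivity
    have hm2 : 2 ≤ m := by
      by_contra hcon
      have : m = 1 := by omega
      subst this
      exact hij (Subsingleton.elim i j)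
    have hm2' : ((m - 2 : ℕ) : ℝ) = m - 2 := by
      rw [Nat.cast_sub hm2]
      norm_num
    have h3 := proj_two hij (bx K H) P (Z2 i j) (by
      intro x hx
      obtain ⟨hxB, -, hx1⟩ := Finset.mem_filter.1 hx
      refine ⟨hBXk x hxB, ?_⟩
      rw [hP, Finset.mem_filter, Finset.mem_product]
      exact ⟨⟨hBXk x hxB i, hBXk x hxB j⟩, hx1⟩)
    calc ((Z2 i j).card : ℝ) ≤ ((P.card * (bx K H).card ^ (m - 2) : ℕ) : ℝ) := by
          exact_mod_cast h3
      _ ≤ (C2 * Real.exp ((4 - e2) * H)) *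
          (A ^ m * Real.exp ((m - 2 : ℕ) * ((2 + δ) * H))) := by
          push_cast
          exact mul_le_mul hPc (hbxk (m - 2) (by omega)) (by positivity) (by positivity)
      _ = C2 * A ^ m * (Real.exp ((4 - e2) * H) *
          Real.exp ((m - 2 : ℕ) * ((2 + δ) * H))) := by ring
      _ = C2 * A ^ m * Real.exp ((2 * m - e2 + δ * m - 2 * δ) * H) := by
          rw [← Real.exp_add, hm2']
          congr 2
          ring
      _ ≤ _ := by
          refine mul_le_mul_of_nonneg_left (hexp _ ?_) (by positivity)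
          rw [hδm]
          linarith
  calc ((({x : Fin m → K | (∃ i, x i ∈ E1) ∨ ∃ i j, i ≠ j ∧ (x i, x j) ∈ E2} ∩
        {x | htm x ≤ H}).ncard : ℕ) : ℝ) ≤
        ((((Finset.univ.biUnion Z1) ∪
          (Finset.univ.biUnion fun i => Finset.univ.biUnion (Z2 i)) : Finset (Fin m → K)) :
            Set (Fin m → K)).ncard : ℝ) := by
        exact_mod_cast Set.ncard_le_ncard hsub (Finset.finite_toSet _)
    _ = (((Finset.univ.biUnion Z1) ∪
          (Finset.univ.biUnion fun i => Finset.univ.biUnion (Z2 i)) :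
            Finset (Fin m → K)).card : ℝ) := by rw [Set.ncard_coe_finset]
    _ ≤ ∑ i, ((Z1 i).card : ℝ) + ∑ i, ∑ j, ((Z2 i j).card : ℝ) := by
        have e1 : (Finset.univ.biUnion Z1).card ≤ ∑ i, (Z1 i).card := Finset.card_biUnion_le
        have e3 : (Finset.univ.biUnion fun i => Finset.univ.biUnion (Z2 i)).card ≤
            ∑ i, ∑ j, (Z2 i j).card :=
          Finset.card_biUnion_le.trans (Finset.sum_le_sum fun i _ => Finset.card_biUnion_le)
        have e4 := (Finset.card_union_le (Finset.univ.biUnion Z1)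
          (Finset.univ.biUnion fun i => Finset.univ.biUnion (Z2 i))).trans
          (Nat.add_le_add e1 e3)
        exact_mod_cast e4
    _ ≤ ∑ _i : Fin m, C1 * A ^ m * E + ∑ _i : Fin m, ∑ _j : Fin m, C2 * A ^ m * E := by
        refine add_le_add (Finset.sum_le_sum fun i _ => hc1 i) ?_
        exact Finset.sum_le_sum fun i _ => Finset.sum_le_sum fun j _ => hc2 i j
    _ = _ := by
        simp only [Finset.sum_const, Finset.card_univ, Fintype.card_fin, nsmul_eq_mul]
        ring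

variable (K) in
open Classical in
/-- **the exceptional set** -/
theorem exists_F {m : ℕ} (hm : 0 < m) {κ : ℝ} (hκ0 : 0 < κ) (hκ1 : κ ≤ 1) {η : ℝ} (hη0 : 0 < η)
    (hη1 : η ≤ 1) : ∃ E : Set (Fin m → K), (∃ ν C : ℝ, 0 < ν ∧ ∀ H : ℝ, 0 ≤ H →
      ((E ∩ {x | htm x ≤ H}).ncard : ℝ) ≤ C * Real.exp ((2 * m - ν) * H)) ∧
      (∀ x : Fin m → K, x ∉ E → Function.Injective x) ∧
      (∀ f : (𝓞 K)[X], Sf f → ∀ g : Fin 4 → K, dt g ≠ 0 →
        ∃ h0 : ℝ, ∀ x : Fin m → K, x ∉ E → ∀ i, h0 ≤ logHeight₁ (x i) → g 2 * x i + g 3 ≠ 0 →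
          aeval (mob g (x i)) f ≠ 0 ∧ (f.natDegree - κ) * logHeight₁ (mob g (x i)) ≤
            ∑ v ∈ dv f (mob g (x i)), Real.log (Nv v)) ∧
      (∀ f : (𝓞 K)[X], Nice f → ∀ g : Fin 4 → K, dt g ≠ 0 →
          ∃ (Bad : Finset (Pr K)) (h0 : ℝ), ∀ x : Fin m → K, x ∉ E → ∀ i j, i ≠ j →
            h0 ≤ max (logHeight₁ (x i)) (logHeight₁ (x j)) → g 2 * x i + g 3 ≠ 0 →
              g 2 * x j + g 3 ≠ 0 → aeval (mob g (x i)) f ≠ 0 →
              ∑ v ∈ (od (aeval (mob g (x i)) f) ∩ od (aeval (mob g (x j)) f)) \ Bad,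
                Real.log (Nv v) ≤
                  η * max (logHeight₁ (mob g (x i))) (logHeight₁ (mob g (x j)))) := by
  obtain ⟨E1, hE1, hE1'⟩ := exists_F1 K hκ0 hκ1
  obtain ⟨E2, hE2, hE2'⟩ := exists_F2 K hη0 hη1
  obtain ⟨C0, hC0, h0⟩ := count_all K (δ := 1) one_pos
  obtain ⟨E3, hE3⟩ : ∃ E3 : Set (K × K), E3 = E2 ∪ {p | p.1 = p.2} := ⟨_, rfl⟩
  have hex := ex_pos hκ0
  obtain ⟨ν, C, hν, hcount⟩ := count_tuples (K := K) hm (E1 := E1) (E2 := E3) (e1 := ex κ / 2)
    (e2 := η / 8) (C1 := 2) (C2 := 2 + C0) (by positivity) (by positivity) (by norm_num)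
    (by positivity) hE1 (by
      intro H hH
      have hfin : {p : K × K | max (logHeight₁ p.1) (logHeight₁ p.2) ≤ H}.Finite := by
        refine ((NumberField.finite_setOfPred_logHeight₁_le K H).prod
          (NumberField.finite_setOfPred_logHeight₁_le K H)).subset ?_
        intro p hp
        have hp' : max (logHeight₁ p.1) (logHeight₁ p.2) ≤ H := hp
        exact ⟨(le_max_left _ _).trans hp', (le_max_right _ _).trans hp'⟩
      have h1 : (({p : K × K | p.1 = p.2} ∩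
          {p | max (logHeight₁ p.1) (logHeight₁ p.2) ≤ H}).ncard : ℝ) ≤
            C0 * Real.exp ((4 - η / 8) * H) := by
        have h2 : ({p : K × K | p.1 = p.2} ∩
          {p | max (logHeight₁ p.1) (logHeight₁ p.2) ≤ H}).ncard ≤ (bx K H).card := by
          rw [← Set.ncard_coe_finset]
          refine Set.ncard_le_ncard_of_injOn Prod.fst ?_ ?_ (Finset.finite_toSet _)
          · rintro p ⟨-, hp⟩
            have hp' : max (logHeight₁ p.1) (logHeight₁ p.2) ≤ H := hp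
            rw [Finset.mem_coe, mem_bx]
            exact (le_max_left _ _).trans hp'
          · rintro p ⟨hp, -⟩ r ⟨hr, -⟩ hpr
            have hp' : p.1 = p.2 := hp
            have hr' : r.1 = r.2 := hr
            exact Prod.ext hpr (by rw [← hp', ← hr']; exact hpr)
        have h3 := h0 H hH (bx K H) fun x hx => by
          rw [hr_aff]
          exact mem_bx.1 hx
        refine (le_trans (by exact_mod_cast h2) h3).trans ?_
        refine mul_le_mul_of_nonneg_left (Real.exp_le_exp.2 ?_) hC0.le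
        exact mul_le_mul_of_nonneg_right (by linarith) hH
      have h2 : ((E3 ∩ {p | max (logHeight₁ p.1) (logHeight₁ p.2) ≤ H}).ncard : ℝ) ≤
          ((E2 ∩ {p | max (logHeight₁ p.1) (logHeight₁ p.2) ≤ H}).ncard : ℝ) +
            (({p : K × K | p.1 = p.2} ∩
              {p | max (logHeight₁ p.1) (logHeight₁ p.2) ≤ H}).ncard : ℝ) := by
        rw [hE3, Set.union_inter_distrib_right]
        exact_mod_cast Set.ncard_union_le _ _
      have h3 := hE2 H hH
      linarith)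
  refine ⟨_, ⟨ν, C, hν, hcount⟩, ?_, ?_, ?_⟩
  · intro x hx i j hij
    by_contra hne
    apply hx
    right
    refine ⟨i, j, hne, ?_⟩
    rw [hE3]
    exact Or.inr hij
  · intro f hf g hg
    obtain ⟨h1, h2⟩ := hE1' f hf g hg
    exact ⟨h1, fun x hx i hi hi0 => h2 (x i) (fun h => hx (Or.inl ⟨i, h⟩)) hi hi0⟩
  · intro f hf g hg
    obtain ⟨Bad, h1, h2⟩ := hE2' f hf g hg
    refine ⟨Bad, h1, fun x hx i j hij hi hi0 hj0 hfx => h2 (x i, x j) (fun h => hx (Or.inr
      ⟨i, j, hij, ?_⟩)) hi hi0 hj0 hfx⟩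
    rw [hE3]
    exact Or.inl h

end Pool.Agent.N753.SF
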