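import Mathlib
import Pool.Agent.N753.SF.Mob
import Pool.Agent.N753.LS.Parts
import Pool.Agent.Y557.OE.LvU

/-!
# The primes of an extension at which a point is close to one of the given points
-/

set_option autoImplicit false
set_option linter.unusedSectionVars false

namespace Pool.Agent.N753.SF

open NumberField IsDedekindDomain Finset Pool.Agent.H691R3 Pool.Agent.TH876.Loc
open Pool.Agent.N753.LS Polynomial Height

variable {K k : Type} [Field K] [NumberField K] [Field k] [NumberField k] [Algebra K k]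

theorem val_lt_over (v : Pr K) (w : Pr k) [w.asIdeal.LiesOver v.asIdeal] (z : K) :
    w.valuation k (algebraMap K k z) < 1 ↔ v.valuation K z < 1 := by
  have he : v.asIdeal.ramificationIdx' w.asIdeal ≠ 0 :=
    Ideal.IsDedekindDomain.ramificationIdx'_ne_zero_of_liesOver w.asIdeal v.ne_bot
  rw [← HeightOneSpectrum.valuation_liesOver k v w]
  exact pow_lt_one_iff_of_nonneg zero_le he

theorem val_le_over (v : Pr K) (w : Pr k) [w.asIdeal.LiesOver v.asIdeal] (z : K) :
    w.valuation k (algebraMap K k z) ≤ 1 ↔ v.valuation K z ≤ 1 := by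
  have he : v.asIdeal.ramificationIdx' w.asIdeal ≠ 0 :=
    Ideal.IsDedekindDomain.ramificationIdx'_ne_zero_of_liesOver w.asIdeal v.ne_bot
  rw [← HeightOneSpectrum.valuation_liesOver k v w]
  exact pow_le_one_iff_of_nonneg zero_le he

open Classical in
/-- **a lower bound for the primes of the extension at which a point is close to a given point** -/
theorem near_lower {q m : ℕ} (f : (𝓞 K)[X]) (a : Fin q → k) (g1 : k[X]) (hg1 : g1 ≠ 0)
    (hfac : (f.map (algebraMap (𝓞 K) K)).map (algebraMap K k) = (∏ j, (X - C (a j))) * g1) :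
    ∃ c : ℝ, 0 ≤ c ∧ ∀ (x : Fin m → K) (V : Finset (Pr K)) (W : Finset (Pr k)),
      (∀ i, aeval (x i) f ≠ 0) → (∀ v ∈ V, ∃ i, v ∈ dv f (x i)) →
      (∀ w i, w.valuation k (algebraMap K k (x i)) ≤ 1 →
        (∃ j, w.valuation k (algebraMap K k (x i) - a j) < 1) → w ∈ W) →
      (Module.finrank K k : ℝ) * ∑ v ∈ V, Real.log (Nv v) ≤ ∑ w ∈ W, Real.log (Nv w) +
        (Module.finrank K k : ℝ) * (g1.natDegree * ∑ i, logHeight₁ (x i)) + c := by
  obtain ⟨G, b, hb, hG⟩ := clear_sq g1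
  have hG0 : G ≠ 0 := by
    rintro rfl
    rw [Polynomial.map_zero] at hG
    exact (mul_ne_zero (C_ne_zero.2 (pow_ne_zero 2 hb)) hg1) hG.symm
  have hGd : G.natDegree = g1.natDegree := by
    rw [← natDegree_map_eq_of_injective (FaithfulSMul.algebraMap_injective (𝓞 k) k) G, hG,
      natDegree_C_mul (pow_ne_zero 2 hb)]
  have hlc : G.leadingCoeff ≠ 0 := leadingCoeff_ne_zero.2 hG0
  obtain ⟨Bad, hBad⟩ : ∃ Bad, Bad = (fin_dvd hlc).toFinset ∪ (fv_support_finite hb).toFinset :=
    ⟨_, rfl⟩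
  have hB1 : ∀ w ∉ Bad, G.leadingCoeff ∉ w.asIdeal := by
    intro w hw h
    apply hw
    rw [hBad, Finset.mem_union, Set.Finite.mem_toFinset]
    exact Or.inl h
  have hB2 : ∀ w ∉ Bad, fv w b = 1 := by
    intro w hw
    by_contra h
    apply hw
    rw [hBad, Finset.mem_union, Set.Finite.mem_toFinset, Set.Finite.mem_toFinset]
    exact Or.inr h
  obtain ⟨c0, hc0, hs⟩ := sum_nu_le G hG0 Bad hB1
  obtain ⟨c1, hc1⟩ : ∃ c1 : ℝ, c1 = ∑ w ∈ Bad, Real.log (Nv w) := ⟨_, rfl⟩
  have hc10 : 0 ≤ c1 := by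
    rw [hc1]
    exact Finset.sum_nonneg fun w _ => (log_Nv_pos w).le
  obtain ⟨d, hd⟩ : ∃ d : ℝ, d = Module.finrank K k := ⟨_, rfl⟩
  have hd0 : 0 ≤ d := by rw [hd]; exact Nat.cast_nonneg _
  obtain ⟨l1, hl1⟩ : ∃ l1 : ℝ, l1 = Real.log |(discr k : ℝ)| := ⟨_, rfl⟩
  obtain ⟨l2, hl2⟩ : ∃ l2 : ℝ, l2 = Real.log |(discr K : ℝ)| := ⟨_, rfl⟩
  refine ⟨|l1| + d * |l2| + c1 + m * c0, by positivity, ?_⟩
  intro x V W hfx hV hW
  have heval : ∀ i, algebraMap K k (aeval (x i) f) =
      (∏ j, (algebraMap K k (x i) - a j)) * g1.eval (algebraMap K k (x i)) := by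
    intro i
    have h1 := congrArg (Polynomial.eval (algebraMap K k (x i))) hfac
    rw [eval_mul, eval_prod, eval_map_algebraMap, aeval_algebraMap_apply] at h1
    simp only [eval_sub, eval_X, eval_C] at h1
    rw [← h1, aeval_map_algebraMap]
  have hGe : ∀ i, aeval (algebraMap K k (x i)) G = b ^ 2 * g1.eval (algebraMap K k (x i)) := by
    intro i
    rw [← aeval_map_algebraMap k, hG, map_mul, aeval_C, Algebra.algebraMap_self_apply,
      coe_aeval_eq_eval]
  have hGx : ∀ i, aeval (algebraMap K k (x i)) G ≠ 0 := by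
    intro i
    rw [hGe]
    refine mul_ne_zero (pow_ne_zero 2 hb) ?_
    intro h
    have h2 := heval i
    rw [h, mul_zero, FaithfulSMul.algebraMap_eq_zero_iff] at h2
    exact hfx i h2
  obtain ⟨D, hD⟩ : ∃ D : Fin m → Finset (Pr k), D = fun i => dv G (algebraMap K k (x i)) \ Bad :=
    ⟨_, rfl⟩
  have hDs : ∀ i, ∑ w ∈ D i, Real.log (Nv w) ≤ g1.natDegree * (d * logHeight₁ (x i)) + c0 := by
    intro i
    have h1 := hs (algebraMap K k (x i)) (hGx i)
    rw [hGd, hr_aff, Pool.Agent.Y557.OE.ht_ext, ← hd] at h1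
    refine le_trans ?_ h1
    rw [hD]
    refine Finset.sum_le_sum fun w hw => ?_
    obtain ⟨hw1, hw2⟩ := Finset.mem_sdiff.1 hw
    have h2 : (1 : ℝ) ≤ nu G w (algebraMap K k (x i)) := by
      exact_mod_cast (mem_dv_iff (hGx i) (hB1 w hw2)).1 hw1
    have := log_Nv_pos w
    nlinarith
  have hbase := Pool.Agent.Y729.RV.base_change (k := K) (L := k) V
    (W ∪ (Bad ∪ Finset.univ.biUnion D)) (by
    intro v hv w hw
    obtain ⟨i, hi⟩ := hV v hv
    rw [mem_dv (hfx i)] at hi
    obtain ⟨h1, h2⟩ := hi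
    rw [fv_le_one] at h1
    rw [fv_lt_one] at h2
    have h3 := (val_le_over v w (x i)).2 h1
    have h4 := (val_lt_over v w (aeval (x i) f)).2 h2
    rw [Finset.mem_union, Finset.mem_union, Finset.mem_biUnion]
    by_cases hwB : w ∈ Bad
    · exact Or.inr (Or.inl hwB)
    by_cases hnear : ∃ j, w.valuation k (algebraMap K k (x i) - a j) < 1
    · exact Or.inl (hW w i h3 hnear)
    · right; right
      refine ⟨i, Finset.mem_univ _, ?_⟩
      rw [hD]
      refine Finset.mem_sdiff.2 ⟨?_, hwB⟩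
      rw [mem_dv (hGx i)]
      refine ⟨(fv_le_one w _).2 h3, ?_⟩
      rw [hGe, map_mul, map_pow, hB2 w hwB, one_pow, one_mul, fv_lt_one]
      push Not at hnear
      by_contra hcon
      rw [not_lt] at hcon
      rw [heval, map_mul, map_prod] at h4
      have h5 : (1 : WithZero (Multiplicative ℤ)) ≤
          ∏ j, w.valuation k (algebraMap K k (x i) - a j) :=
        Finset.one_le_prod' fun j _ => hnear j
      exact absurd (one_le_mul h5 hcon) (not_le.2 h4))
  have h1 : ∑ w ∈ W ∪ (Bad ∪ Finset.univ.biUnion D), Real.log (Ideal.absNorm w.asIdeal : ℝ) ≤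
      ∑ w ∈ W, Real.log (Nv w) + (c1 + ∑ i, ∑ w ∈ D i, Real.log (Nv w)) := by
    have hnn : ∀ w : Pr k, 0 ≤ Real.log (Nv w) := fun w => (log_Nv_pos w).le
    have h2 : ∀ A B : Finset (Pr k), ∑ w ∈ A ∪ B, Real.log (Nv w) ≤
        ∑ w ∈ A, Real.log (Nv w) + ∑ w ∈ B, Real.log (Nv w) := by
      intro A B
      have h3 := Finset.sum_union_inter (s₁ := A) (s₂ := B) (f := fun w : Pr k => Real.log (Nv w))
      have h4 : 0 ≤ ∑ w ∈ A ∩ B, Real.log (Nv w) := Finset.sum_nonneg fun w _ => hnn w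
      linarith
    have h3 : ∀ s : Finset (Fin m), ∑ w ∈ s.biUnion D, Real.log (Nv w) ≤
        ∑ i ∈ s, ∑ w ∈ D i, Real.log (Nv w) := by
      intro s
      induction s using Finset.induction_on with
      | empty => simp
      | insert i s hi ih =>
        rw [Finset.biUnion_insert, Finset.sum_insert hi]
        exact (h2 _ _).trans (add_le_add le_rfl ih)
    have h4 := h2 W (Bad ∪ Finset.univ.biUnion D)
    have h5 := h2 Bad (Finset.univ.biUnion D)
    have h6 := h3 Finset.univ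
    rw [← hc1] at h5
    refine le_trans h4 ?_
    linarith
  have h2 : ∑ i, ∑ w ∈ D i, Real.log (Nv w) ≤
      d * (g1.natDegree * ∑ i, logHeight₁ (x i)) + m * c0 := by
    refine (Finset.sum_le_sum fun i _ => hDs i).trans (le_of_eq ?_)
    rw [Finset.sum_add_distrib, Finset.sum_const, Finset.card_univ, Fintype.card_fin, nsmul_eq_mul,
      Finset.mul_sum, Finset.mul_sum]
    congr 1
    refine Finset.sum_congr rfl fun i _ => ?_
    ring
  have hbase' : d * (l2 + ∑ v ∈ V, Real.log (Nv v)) ≤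
      l1 + ∑ w ∈ W ∪ (Bad ∪ Finset.univ.biUnion D), Real.log (Ideal.absNorm w.asIdeal : ℝ) := by
    rw [hd, hl1, hl2]
    exact hbase
  rw [← hd]
  have h7 := le_abs_self l1
  have h8 : -(d * |l2|) ≤ d * l2 := by
    rw [← mul_neg]
    exact mul_le_mul_of_nonneg_left (neg_abs_le l2) hd0
  linarith

end Pool.Agent.N753.SF
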