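import Mathlib
import Pool.Agent.N753.SF.Near
import Pool.Agent.N753.LS.Comb

/-!
# The polynomial attached to algebraic points of degree at most five
-/

set_option autoImplicit false
set_option linter.unusedSectionVars false

namespace Pool.Agent.N753.SF

open NumberField IsDedekindDomain Finset Pool.Agent.H691R3 Pool.Agent.TH876.Loc
open Pool.Agent.N753.LS Polynomial Height

variable {K k : Type} [Field K] [NumberField K] [Field k] [NumberField k] [Algebra K k]

theorem root_minpoly {z : K} {a : k} (ha : IsIntegral K a) (h : (minpoly K a).eval z = 0) :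
    algebraMap K k z = a := by
  have h1 := degree_eq_one_of_irreducible_of_root (minpoly.irreducible ha) (x := z) h
  obtain ⟨w, hw⟩ := minpoly.degree_eq_one_iff.1 h1
  subst hw
  rw [minpoly.eq_X_sub_C, eval_sub, eval_X, eval_C, sub_eq_zero] at h
  rw [h]

open Classical in
/-- **the polynomial of the given points** -/
theorem exists_poly {q : ℕ} (hq : 0 < q) (a : Fin q → k) (ha : Function.Injective a)
    (hdeg : ∀ j, (minpoly K (a j)).natDegree ≤ 5) :
    ∃ (f : (𝓞 K)[X]) (g1 : k[X]), Sf f ∧ g1 ≠ 0 ∧ f.natDegree = q + g1.natDegree ∧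
      (f.map (algebraMap (𝓞 K) K)).map (algebraMap K k) = (∏ j, (X - C (a j))) * g1 ∧
      ∀ z : K, (∀ j, algebraMap K k z ≠ a j) → aeval z f ≠ 0 := by
  have hfd : FiniteDimensional K k := Module.Finite.of_restrictScalars_finite ℚ K k
  have hint : ∀ j, IsIntegral K (a j) := fun j => Algebra.IsIntegral.isIntegral (a j)
  obtain ⟨S, hS⟩ : ∃ S : Finset K[X], S = Finset.univ.image fun j => minpoly K (a j) := ⟨_, rfl⟩
  have hSm : ∀ P ∈ S, ∃ j, P = minpoly K (a j) := by
    intro P hP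
    rw [hS, Finset.mem_image] at hP
    obtain ⟨j, -, hj⟩ := hP
    exact ⟨j, hj.symm⟩
  have hSj : ∀ j, minpoly K (a j) ∈ S := by
    intro j
    rw [hS]
    exact Finset.mem_image_of_mem _ (Finset.mem_univ j)
  have hirr : ∀ P ∈ S, Irreducible P := by
    intro P hP
    obtain ⟨j, rfl⟩ := hSm P hP
    exact minpoly.irreducible (hint j)
  have hmon : ∀ P ∈ S, P.Monic := by
    intro P hP
    obtain ⟨j, rfl⟩ := hSm P hP
    exact minpoly.monic (hint j)
  have hne : S.Nonempty := ⟨_, hSj ⟨0, hq⟩⟩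
  have hcl := fun P : K[X] => clear_sq P
  choose F b hb hF using hcl
  obtain ⟨B, hB⟩ : ∃ B : K, B = (∏ P ∈ S, b P) ^ 2 := ⟨_, rfl⟩
  have hB0 : B ≠ 0 := by
    rw [hB]
    exact pow_ne_zero 2 (Finset.prod_ne_zero_iff.2 fun P _ => hb P)
  have hmap : (∏ P ∈ S, F P).map (algebraMap (𝓞 K) K) = C B * ∏ P ∈ S, P := by
    rw [Polynomial.map_prod, hB, ← Finset.prod_pow, map_prod, ← Finset.prod_mul_distrib]
    exact Finset.prod_congr rfl fun P _ => hF P
  have hcop : (S : Set K[X]).Pairwise (Function.onFun IsCoprime (fun P => P)) := by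
    intro P hP Q hQ hPQ
    rw [Function.onFun]
    rw [(hirr P hP).coprime_iff_not_dvd]
    intro h
    apply hPQ
    have h1 : Associated P Q := (hirr P hP).associated_of_dvd (hirr Q hQ) h
    exact eq_of_monic_of_associated (hmon P hP) (hmon Q hQ) h1
  have hsq0 : Squarefree (∏ P ∈ S, P) := by
    refine Finset.squarefree_prod_of_pairwise_isCoprime ?_ fun P hP => (hirr P hP).squarefree
    intro P hP Q hQ hPQ
    exact IsCoprime.isRelPrime (hcop hP hQ hPQ)
  have hCB : IsUnit (C B : K[X]) := isUnit_C.2 hB0.isUnit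
  have hsq : Squarefree ((∏ P ∈ S, F P).map (algebraMap (𝓞 K) K)) := by
    rw [hmap]
    have h1 : Associated (∏ P ∈ S, P) (C B * ∏ P ∈ S, P) :=
      ⟨hCB.unit, by rw [IsUnit.unit_spec, mul_comm]⟩
    exact h1.squarefree_iff.1 hsq0
  have hnd : ∀ P, (F P).natDegree = P.natDegree := by
    intro P
    rw [← natDegree_map_eq_of_injective (FaithfulSMul.algebraMap_injective (𝓞 K) K) (F P), hF,
      natDegree_C_mul (pow_ne_zero 2 (hb P))]
  have hSf : Sf (∏ P ∈ S, F P) := by
    refine sf_prod S hne F ?_ ?_ hsq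
    · intro P hP
      rw [hnd]
      refine ⟨(hirr P hP).natDegree_pos, ?_⟩
      obtain ⟨j, rfl⟩ := hSm P hP
      exact hdeg j
    · intro P hP
      rw [hF]
      exact (irreducible_isUnit_mul (isUnit_C.2 (pow_ne_zero 2 (hb P)).isUnit)).2 (hirr P hP)
  have hdvd : ∏ j, (X - C (a j)) ∣
      ((∏ P ∈ S, F P).map (algebraMap (𝓞 K) K)).map (algebraMap K k) := by
    refine Finset.prod_dvd_of_coprime ?_ ?_
    · intro i _ j _ hij
      exact pairwise_coprime_X_sub_C ha hij
    · intro j _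
      rw [hmap, Polynomial.map_mul, Polynomial.map_prod]
      refine Dvd.dvd.mul_left ?_ _
      refine dvd_trans ?_ (Finset.dvd_prod_of_mem (fun P : K[X] => P.map (algebraMap K k)) (hSj j))
      rw [dvd_iff_isRoot, IsRoot.def, eval_map_algebraMap]
      exact minpoly.aeval K (a j)
  obtain ⟨g1, hg1⟩ := hdvd
  have hne0 : ((∏ P ∈ S, F P).map (algebraMap (𝓞 K) K)).map (algebraMap K k) ≠ 0 := by
    rw [Ne, Polynomial.map_eq_zero, Polynomial.map_eq_zero_iff
      (FaithfulSMul.algebraMap_injective (𝓞 K) K)]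
    intro h
    have := hSf.1.1
    rw [h, natDegree_zero] at this
    omega
  have hg10 : g1 ≠ 0 := by
    rintro rfl
    rw [mul_zero] at hg1
    exact hne0 hg1
  refine ⟨∏ P ∈ S, F P, g1, hSf, hg10, ?_, hg1, ?_⟩
  · have h1 : (((∏ P ∈ S, F P).map (algebraMap (𝓞 K) K)).map (algebraMap K k)).natDegree =
        (∏ P ∈ S, F P).natDegree := by
      rw [natDegree_map, natDegree_map_eq_of_injective (FaithfulSMul.algebraMap_injective _ _)]
    rw [← h1, hg1, natDegree_mul (Finset.prod_ne_zero_iff.2 fun j _ => X_sub_C_ne_zero _) hg10,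
      natDegree_prod _ _ fun j _ => X_sub_C_ne_zero _]
    simp
  · intro z hz h
    rw [← aeval_map_algebraMap K, hmap, map_mul, aeval_C, Algebra.algebraMap_self_apply,
      map_prod] at h
    rcases mul_eq_zero.1 h with h1 | h1
    · exact hB0 h1
    · obtain ⟨P, hP, hP0⟩ := Finset.prod_eq_zero_iff.1 h1
      obtain ⟨j, rfl⟩ := hSm P hP
      rw [coe_aeval_eq_eval] at hP0
      exact hz j (root_minpoly (hint j) hP0)

open Classical in
/-- sums over sets with small overlaps -/
theorem comb1 {V0 : Type} {m : ℕ} (h : Fin m → ℝ) (hh : ∀ i, 0 ≤ h i) (T : Fin m → Finset V0)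
    (l : V0 → ℝ) (hl : ∀ v, 0 ≤ l v) {η c : ℝ} (hη : 0 ≤ η) (hc : 0 ≤ c)
    (hov : ∀ i j, i ≠ j → ∑ v ∈ T i ∩ T j, l v ≤ η * max (h i) (h j) + c) :
    ∑ i, ∑ v ∈ T i, l v ≤ ∑ v ∈ Finset.univ.biUnion T, l v +
      (2 * m * η * ∑ i, h i + m ^ 2 * c) := by
  obtain ⟨ι, h1, h2, -, h4⟩ := comb (V0 := V0) (fun _ => 1) (fun _ => le_rfl) h hh T l hl hη hc hov
  simp only [div_one, one_mul] at h4
  refine h4.trans (add_le_add ?_ le_rfl)
  rw [← Finset.sum_biUnion]
  · refine Finset.sum_le_sum_of_subset_of_nonneg ?_ fun v _ _ => hl v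
    intro v hv
    obtain ⟨i, -, hi⟩ := Finset.mem_biUnion.1 hv
    exact Finset.mem_biUnion.2 ⟨i, Finset.mem_univ i, (Finset.mem_filter.1 hi).1⟩
  · intro i _ j _ hij
    show Disjoint _ _
    rw [Finset.disjoint_left]
    intro v hv hv'
    exact hij (h2 v i j (Finset.mem_filter.1 hv).2 (Finset.mem_filter.1 hv').2)

end Pool.Agent.N753.SF
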