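import Mathlib
import Pool.Agent.N753.SF.BrPoly

/-!
# The main inequality for tuples
-/

set_option autoImplicit false
set_option linter.unusedSectionVars false

namespace Pool.Agent.N753.SF

open NumberField IsDedekindDomain Finset Pool.Agent.H691R3 Pool.Agent.TH876.Loc
open Pool.Agent.N753.LS Polynomial Height
open H645.ABC (vl vl_mul vl_div vl_inv vl_pow)

variable {K : Type} [Field K] [NumberField K]

/-- the odd divisors -/
theorem od_of_odd {f : (𝓞 K)[X]} {v : Pr K} (hv : f.leadingCoeff ∉ v.asIdeal) {x : K}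
    (hx : aeval x f ≠ 0) (h1 : fv v x ≤ 1) (h : ¬ Even (nu f v x)) : v ∈ od (aeval x f) := by
  rw [mem_od]
  obtain ⟨z, hz⟩ : ∃ z : Kˣ, z = Units.mk0 _ hx := ⟨_, rfl⟩
  have hz' : (z : K) = aeval x f := by rw [hz]; rfl
  rw [← hz', sq_iff]
  have hN := log_Nv_pos v
  have h2 := log_fv_vl v z
  rw [hz'] at h2
  have h3 := mu_eq_nu hv hx
  rw [mu_small f h1, h2] at h3
  have h4 : ((nu f v x : ℤ) : ℝ) = ((-(vl v z) : ℤ) : ℝ) := by
    have h5 : ((nu f v x : ℤ) : ℝ) * Real.log (Nv v) = ((-(vl v z) : ℤ) : ℝ) * Real.log (Nv v) := by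
      push_cast
      linarith
    exact mul_right_cancel₀ hN.ne' h5
  have h5 : (nu f v x : ℤ) = -(vl v z) := by exact_mod_cast h4
  intro h6
  apply h
  have h7 : Even (nu f v x : ℤ) := by
    rw [h5]
    exact h6.neg
  exact_mod_cast h7

open Classical in
/-- **the divisors of the values at the entries of a tuple** -/
theorem tup_f {m : ℕ} {κ η : ℝ} (hκ0 : 0 < κ) (hη0 : 0 < η) {E : Set (Fin m → K)}
    (f : (𝓞 K)[X]) (g : Fin 4 → K) (hf : Sf f) (hg : dt g ≠ 0)
    (hE1 : ∃ h0 : ℝ, ∀ x : Fin m → K, x ∉ E → ∀ i, h0 ≤ logHeight₁ (x i) → g 2 * x i + g 3 ≠ 0 →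
          aeval (mob g (x i)) f ≠ 0 ∧ (f.natDegree - κ) * logHeight₁ (mob g (x i)) ≤
            ∑ v ∈ dv f (mob g (x i)), Real.log (Nv v))
    (hE2 : ∃ (Bad : Finset (Pr K)) (h0 : ℝ), ∀ x : Fin m → K, x ∉ E → ∀ i j, i ≠ j →
            h0 ≤ max (logHeight₁ (x i)) (logHeight₁ (x j)) → g 2 * x i + g 3 ≠ 0 →
              g 2 * x j + g 3 ≠ 0 → aeval (mob g (x i)) f ≠ 0 →
              ∑ v ∈ (od (aeval (mob g (x i)) f) ∩ od (aeval (mob g (x j)) f)) \ Bad,
                Real.log (Nv v) ≤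
                  η * max (logHeight₁ (mob g (x i))) (logHeight₁ (mob g (x j)))) :
    ∃ c : ℝ, 0 ≤ c ∧ ∀ x : Fin m → K, x ∉ E → (∀ i, g 2 * x i + g 3 ≠ 0) →
      (∀ i, aeval (mob g (x i)) f ≠ 0) → ∃ V : Finset (Pr K),
        (∀ v ∈ V, ∃ i, v ∈ dv f (mob g (x i))) ∧
        ∑ i, (f.natDegree - κ - 2 * m * (η + 2 * κ)) * logHeight₁ (mob g (x i)) ≤
          ∑ v ∈ V, Real.log (Nv v) + c := by
  obtain ⟨h0, hE1⟩ := hE1
  obtain ⟨B2, h1, hE2⟩ := hE2
  obtain ⟨B1, hB1⟩ := exists_badS f hf.1.2 hf.1.1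
  have hf0 : f ≠ 0 := by
    rintro rfl
    have := hf.1.1
    simp at this
  obtain ⟨Bad, hBad⟩ : ∃ Bad : Finset (Pr K), Bad = B1 ∪ B2 := ⟨_, rfl⟩
  have hlc : ∀ v ∉ Bad, f.leadingCoeff ∉ v.asIdeal := by
    intro v hv
    exact (hB1 v fun h => hv (by rw [hBad]; exact Finset.mem_union_left _ h)).2.2
  have hB2 : ∀ v ∉ Bad, v ∉ B2 := fun v hv h => hv (by rw [hBad]; exact Finset.mem_union_right _ h)
  obtain ⟨c0, hc0, hs⟩ := sum_nu_le f hf0 Bad hlc
  obtain ⟨c1, hc1, hmob⟩ := mob_height g hg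
  obtain ⟨b, hb⟩ : ∃ b : ℝ, b = ∑ v ∈ Bad, Real.log (Nv v) := ⟨_, rfl⟩
  have hb0 : 0 ≤ b := by
    rw [hb]
    exact Finset.sum_nonneg fun w _ => (log_Nv_pos w).le
  obtain ⟨n, hn⟩ : ∃ n : ℝ, n = f.natDegree := ⟨_, rfl⟩
  have hn0 : 0 ≤ n := by rw [hn]; exact Nat.cast_nonneg _
  obtain ⟨R, hR⟩ : ∃ R : ℝ, R = |h0| + |h1| + c1 := ⟨_, rfl⟩
  have hR0 : 0 ≤ R := by rw [hR]; positivity
  have hsmall : ∀ y : K, g 2 * y + g 3 ≠ 0 → (logHeight₁ y < h0 ∨ logHeight₁ y < h1) →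
      logHeight₁ (mob g y) ≤ R := by
    intro y hy h
    have h2 := hmob y hy
    have h3 := le_abs_self h0
    have h4 := le_abs_self h1
    have h5 := abs_nonneg h0
    have h6 := abs_nonneg h1
    rw [hR]
    rcases h with h | h <;> linarith
  -- the constant for the lower bound
  obtain ⟨c2, hc2⟩ : ∃ c2 : ℝ, c2 = n * R + b := ⟨_, rfl⟩
  have hc20 : 0 ≤ c2 := by rw [hc2]; positivity
  obtain ⟨c3, hc3⟩ : ∃ c3 : ℝ, c3 = n * R + c0 + 2 * (c0 + c2) := ⟨_, rfl⟩
  have hc30 : 0 ≤ c3 := by rw [hc3]; positivity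
  refine ⟨m * c2 + m ^ 2 * c3, by positivity, ?_⟩
  intro x hx hgx hfx
  obtain ⟨y, hy⟩ : ∃ y : Fin m → K, y = fun i => mob g (x i) := ⟨_, rfl⟩
  have hyi : ∀ i, mob g (x i) = y i := fun i => by rw [hy]
  simp only [hyi] at hfx ⊢
  obtain ⟨T, hT⟩ : ∃ T : Fin m → Finset (Pr K), T = fun i => dv f (y i) \ Bad := ⟨_, rfl⟩
  have hTm : ∀ i v, v ∈ T i ↔ v ∈ dv f (y i) ∧ v ∉ Bad := by
    intro i v
    rw [hT, Finset.mem_sdiff]
  have hhn : ∀ i, 0 ≤ logHeight₁ (y i) := fun i => zero_le_logHeight₁ _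
  -- the lower bound
  have hlow : ∀ i, (n - κ) * logHeight₁ (y i) ≤ ∑ v ∈ T i, Real.log (Nv v) + c2 := by
    intro i
    by_cases hi : h0 ≤ logHeight₁ (x i)
    · have h2 := (hE1 x hx i hi (hgx i)).2
      rw [hyi, ← hn] at h2
      have h3 : ∑ v ∈ dv f (y i), Real.log (Nv v) ≤ ∑ v ∈ T i, Real.log (Nv v) + b := by
        rw [hT, hb]
        have h4 := Finset.sum_inter_add_sum_sdiff (dv f (y i)) Bad
          (fun v : Pr K => Real.log (Nv v))
        have h5 : ∑ v ∈ dv f (y i) ∩ Bad, Real.log (Nv v) ≤ ∑ v ∈ Bad, Real.log (Nv v) :=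
          Finset.sum_le_sum_of_subset_of_nonneg Finset.inter_subset_right
            fun v _ _ => (log_Nv_pos v).le
        beta_reduce
        linarith
      have h4 : b ≤ c2 := by
        rw [hc2]
        have : 0 ≤ n * R := by positivity
        linarith
      linarith
    · rw [not_le] at hi
      have h2 := hsmall (x i) (hgx i) (Or.inl hi)
      rw [hyi] at h2
      have h3 : 0 ≤ ∑ v ∈ T i, Real.log (Nv v) := Finset.sum_nonneg fun v _ => (log_Nv_pos v).le
      have h4 : n * logHeight₁ (y i) ≤ n * R := mul_le_mul_of_nonneg_left h2 hn0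
      have h5 := hhn i
      rw [hc2]
      nlinarith
  -- the upper bound
  have hupp : ∀ i, ∑ v ∈ T i, (nu f v (y i) : ℝ) * Real.log (Nv v) ≤
      n * logHeight₁ (y i) + c0 := by
    intro i
    have h2 := hs (y i) (hfx i)
    rw [hr_aff, ← hn] at h2
    rw [hT]
    exact h2
  have hnu1 : ∀ i, ∀ v ∈ T i, 1 ≤ nu f v (y i) := by
    intro i v hv
    obtain ⟨hv1, hv2⟩ := (hTm i v).1 hv
    exact (mem_dv_iff (hfx i) (hlc v hv2)).1 hv1
  -- the powerful part
  obtain ⟨P, hP⟩ : ∃ P : Fin m → Finset (Pr K), P = fun i => (T i).filter fun v =>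
    Even (nu f v (y i)) := ⟨_, rfl⟩
  have hpow : ∀ i, ∑ v ∈ P i, Real.log (Nv v) ≤ κ * logHeight₁ (y i) + (c0 + c2) := by
    intro i
    have h2 : ∑ v ∈ P i, Real.log (Nv v) ≤
        ∑ v ∈ T i, ((nu f v (y i) : ℝ) - 1) * Real.log (Nv v) := by
      rw [hP]
      refine (Finset.sum_le_sum (g := fun v => ((nu f v (y i) : ℝ) - 1) * Real.log (Nv v)) ?_).trans
        (Finset.sum_le_sum_of_subset_of_nonneg (Finset.filter_subset _ _) ?_)
      · intro v hv
        obtain ⟨hv1, hv2⟩ := Finset.mem_filter.1 hv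
        have h3 := hnu1 i v hv1
        have h4 : 2 ≤ nu f v (y i) := by
          obtain ⟨r, hr⟩ := hv2
          omega
        have h5 : (2 : ℝ) ≤ nu f v (y i) := by exact_mod_cast h4
        have := log_Nv_pos v
        nlinarith
      · intro v hv _
        have h3 : (1 : ℝ) ≤ nu f v (y i) := by exact_mod_cast hnu1 i v hv
        have := log_Nv_pos v
        exact mul_nonneg (by linarith) this.le
    have h3 : ∑ v ∈ T i, ((nu f v (y i) : ℝ) - 1) * Real.log (Nv v) =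
        ∑ v ∈ T i, (nu f v (y i) : ℝ) * Real.log (Nv v) - ∑ v ∈ T i, Real.log (Nv v) := by
      rw [← Finset.sum_sub_distrib]
      refine Finset.sum_congr rfl fun v _ => ?_
      ring
    have h4 := hupp i
    have h5 := hlow i
    nlinarith
  -- the overlaps
  have hov : ∀ i j, i ≠ j → ∑ v ∈ T i ∩ T j, Real.log (Nv v) ≤
      (η + 2 * κ) * max (logHeight₁ (y i)) (logHeight₁ (y j)) + c3 := by
    intro i j hij
    obtain ⟨M, hM⟩ : ∃ M : ℝ, M = max (logHeight₁ (y i)) (logHeight₁ (y j)) := ⟨_, rfl⟩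
    have hMi : logHeight₁ (y i) ≤ M := by rw [hM]; exact le_max_left _ _
    have hMj : logHeight₁ (y j) ≤ M := by rw [hM]; exact le_max_right _ _
    have hM0 : 0 ≤ M := (hhn i).trans hMi
    rw [← hM]
    have hsub : T i ∩ T j ⊆ ((T i ∩ T j).filter fun v => v ∈ od (aeval (y i) f) ∩
        od (aeval (y j) f)) ∪ (P i ∪ P j) := by
      intro v hv
      obtain ⟨hvi, hvj⟩ := Finset.mem_inter.1 hv
      obtain ⟨h2, h3⟩ := (hTm i v).1 hvi
      obtain ⟨h4, -⟩ := (hTm j v).1 hvj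
      have h5 := hlc v h3
      rw [Finset.mem_union, Finset.mem_union, Finset.mem_filter]
      by_cases h6 : Even (nu f v (y i))
      · right; left
        rw [hP]
        exact Finset.mem_filter.2 ⟨hvi, h6⟩
      by_cases h7 : Even (nu f v (y j))
      · right; right
        rw [hP]
        exact Finset.mem_filter.2 ⟨hvj, h7⟩
      left
      refine ⟨hv, Finset.mem_inter.2 ⟨?_, ?_⟩⟩
      · exact od_of_odd h5 (hfx i) ((mem_dv (hfx i)).1 h2).1 h6
      · exact od_of_odd h5 (hfx j) ((mem_dv (hfx j)).1 h4).1 h7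
    have hnn : ∀ v : Pr K, 0 ≤ Real.log (Nv v) := fun v => (log_Nv_pos v).le
    have hun : ∀ A B : Finset (Pr K), ∑ v ∈ A ∪ B, Real.log (Nv v) ≤
        ∑ v ∈ A, Real.log (Nv v) + ∑ v ∈ B, Real.log (Nv v) := by
      intro A B
      have h3 := Finset.sum_union_inter (s₁ := A) (s₂ := B) (f := fun w : Pr K => Real.log (Nv w))
      have h4 : 0 ≤ ∑ w ∈ A ∩ B, Real.log (Nv w) := Finset.sum_nonneg fun w _ => hnn w
      linarith
    have h2 := (Finset.sum_le_sum_of_subset_of_nonneg hsub fun v _ _ => hnn v).trans (hun _ _)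
    have h3 := hun (P i) (P j)
    have h4 := hpow i
    have h5 := hpow j
    have h6 : ∑ v ∈ (T i ∩ T j).filter (fun v => v ∈ od (aeval (y i) f) ∩ od (aeval (y j) f)),
        Real.log (Nv v) ≤ η * M + (n * R + c0) := by
      by_cases hbig : h1 ≤ max (logHeight₁ (x i)) (logHeight₁ (x j))
      · have h7 := hE2 x hx i j hij hbig (hgx i) (hgx j) (by rw [hyi]; exact hfx i)
        rw [hyi, hyi, ← hM] at h7
        have h8 : (T i ∩ T j).filter (fun v => v ∈ od (aeval (y i) f) ∩ od (aeval (y j) f)) ⊆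
            (od (aeval (y i) f) ∩ od (aeval (y j) f)) \ B2 := by
          intro v hv
          obtain ⟨hv1, hv2⟩ := Finset.mem_filter.1 hv
          obtain ⟨hvi, -⟩ := Finset.mem_inter.1 hv1
          exact Finset.mem_sdiff.2 ⟨hv2, hB2 v ((hTm i v).1 hvi).2⟩
        have h9 := Finset.sum_le_sum_of_subset_of_nonneg (f := fun v : Pr K => Real.log (Nv v)) h8
          fun v _ _ => hnn v
        have h10 : 0 ≤ n * R + c0 := by positivity
        linarith
      · rw [not_le, max_lt_iff] at hbig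
        have h7 := hsmall (x i) (hgx i) (Or.inr hbig.1)
        rw [hyi] at h7
        have h8 : (T i ∩ T j).filter (fun v => v ∈ od (aeval (y i) f) ∩ od (aeval (y j) f)) ⊆
            T i := (Finset.filter_subset _ _).trans Finset.inter_subset_left
        have h9 := Finset.sum_le_sum_of_subset_of_nonneg (f := fun v : Pr K => Real.log (Nv v)) h8
          fun v _ _ => hnn v
        have h10 : ∑ v ∈ T i, Real.log (Nv v) ≤
            ∑ v ∈ T i, (nu f v (y i) : ℝ) * Real.log (Nv v) := by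
          refine Finset.sum_le_sum fun v hv => ?_
          have h11 : (1 : ℝ) ≤ nu f v (y i) := by exact_mod_cast hnu1 i v hv
          have := hnn v
          nlinarith
        have h11 := hupp i
        have h12 : n * logHeight₁ (y i) ≤ n * R := mul_le_mul_of_nonneg_left h7 hn0
        have h13 : 0 ≤ η * M := by positivity
        linarith
    have h7 : κ * logHeight₁ (y i) ≤ κ * M := mul_le_mul_of_nonneg_left hMi hκ0.le
    have h8 : κ * logHeight₁ (y j) ≤ κ * M := mul_le_mul_of_nonneg_left hMj hκ0.le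
    rw [hc3]
    linarith
  have hcomb := comb1 (fun i => logHeight₁ (y i)) hhn T (fun v => Real.log (Nv v))
    (fun v => (log_Nv_pos v).le) (η := η + 2 * κ) (c := c3) (by positivity) hc30 hov
  refine ⟨Finset.univ.biUnion T, ?_, ?_⟩
  · intro v hv
    obtain ⟨i, -, hi⟩ := Finset.mem_biUnion.1 hv
    exact ⟨i, ((hTm i v).1 hi).1⟩
  · have h2 : ∑ i, (n - κ) * logHeight₁ (y i) ≤ ∑ i, ∑ v ∈ T i, Real.log (Nv v) + m * c2 := by
      refine (Finset.sum_le_sum fun i _ => hlow i).trans (le_of_eq ?_)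
      rw [Finset.sum_add_distrib, Finset.sum_const, Finset.card_univ, Fintype.card_fin,
        nsmul_eq_mul]
    have h3 : ∑ i, (n - κ - 2 * m * (η + 2 * κ)) * logHeight₁ (y i) =
        ∑ i, (n - κ) * logHeight₁ (y i) - 2 * m * (η + 2 * κ) * ∑ i, logHeight₁ (y i) := by
      rw [Finset.mul_sum, ← Finset.sum_sub_distrib]
      refine Finset.sum_congr rfl fun i _ => ?_
      ring
    rw [← hn, h3]
    linarith

end Pool.Agent.N753.SF
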