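import Mathlib
import Pool.Agent.N753.SF.Tup

/-!
# Covers of the line with branch points of degree at most five
-/

set_option autoImplicit false
set_option linter.unusedSectionVars false

namespace Pool.Agent.N753.SF

open NumberField IsDedekindDomain Finset Pool.Agent.H691R3 Pool.Agent.TH876.Loc
open Pool.Agent.N753.LS Polynomial Height
open Pool.Agent.Y728.AK (pK)
open Pool.Agent.Y728.MN (crd bdT bdT_fin pt meet_iff meet_pt)

variable (K : Type) [Field K] [NumberField K]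

/-- **one exceptional set for all fields, points and coordinates** -/
theorem tuple_main {m : ℕ} (hm : 0 < m) {κ : ℝ} (hκ : 0 < κ) :
    ∃ E : Set (Fin m → K), (∃ ν C : ℝ, 0 < ν ∧ ∀ H : ℝ, 0 ≤ H →
      ((E ∩ {x | htm x ≤ H}).ncard : ℝ) ≤ C * Real.exp ((2 * m - ν) * H)) ∧
      (∀ x : Fin m → K, x ∉ E → Function.Injective x) ∧
      ∀ (k : Type) [Field k] [NumberField k] [Algebra K k] (q : ℕ) (a : Fin q → k), 0 < q →
        Function.Injective a → (∀ j, (minpoly K (a j)).natDegree ≤ 5) →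
        ∀ g : Fin 4 → K, dt g ≠ 0 → ∃ c : ℝ, ∀ x : Fin m → K, x ∉ E →
          (∀ i, g 2 * x i + g 3 ≠ 0) → (∀ i j, algebraMap K k (mob g (x i)) ≠ a j) →
          ∀ W : Finset (Pr k), (∀ w i, w.valuation k (algebraMap K k (mob g (x i))) ≤ 1 →
            (∃ j, w.valuation k (algebraMap K k (mob g (x i)) - a j) < 1) → w ∈ W) →
            (Module.finrank K k : ℝ) * ∑ i, (q - κ) * logHeight₁ (mob g (x i)) ≤
              ∑ w ∈ W, Real.log (Nv w) + c := by
  classical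
  have hmR : (1 : ℝ) ≤ m := by exact_mod_cast hm
  obtain ⟨κ0, hκ0⟩ : ∃ κ0 : ℝ, κ0 = min κ 1 := ⟨_, rfl⟩
  have hκ00 : 0 < κ0 := by rw [hκ0]; exact lt_min hκ one_pos
  have hκ01 : κ0 ≤ 1 := by rw [hκ0]; exact min_le_right _ _
  have hκ02 : κ0 ≤ κ := by rw [hκ0]; exact min_le_left _ _
  obtain ⟨κ1, hκ1⟩ : ∃ κ1 : ℝ, κ1 = κ0 / (8 * m) := ⟨_, rfl⟩
  have hκ10 : 0 < κ1 := by rw [hκ1]; positivity
  have hκm : κ1 * (8 * m) = κ0 := by
    rw [hκ1]
    field_simp
  have hκ11 : κ1 ≤ 1 := by nlinarith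
  obtain ⟨E, hE0, hinj, hE1, hE2⟩ := exists_F K hm hκ10 hκ11 hκ10 hκ11
  refine ⟨E, hE0, hinj, ?_⟩
  intro k _ _ _ q a hq ha hdeg g hg
  obtain ⟨f, g1, hf, hg1, hdf, hfac, hroot⟩ := exists_poly hq a ha hdeg
  obtain ⟨c1, hc1, h1⟩ := tup_f hκ10 hκ10 f g hf hg (hE1 f hf g hg) (hE2 f hf.1 g hg)
  obtain ⟨c2, hc2, h2⟩ := near_lower (m := m) f a g1 hg1 hfac
  obtain ⟨d, hd⟩ : ∃ d : ℝ, d = Module.finrank K k := ⟨_, rfl⟩
  have hd0 : 0 ≤ d := by rw [hd]; exact Nat.cast_nonneg _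
  refine ⟨d * c1 + c2, ?_⟩
  intro x hx hgx hxa W hW
  have hfx : ∀ i, aeval (mob g (x i)) f ≠ 0 := fun i => hroot _ (hxa i)
  obtain ⟨V, hV1, hV2⟩ := h1 x hx hgx hfx
  have h3 := h2 (fun i => mob g (x i)) V W hfx hV1 hW
  rw [← hd] at h3 ⊢
  have h4 : ∑ i, (q - κ) * logHeight₁ (mob g (x i)) + g1.natDegree * ∑ i,
      logHeight₁ (mob g (x i)) ≤ ∑ i, (f.natDegree - κ1 - 2 * m * (κ1 + 2 * κ1)) *
        logHeight₁ (mob g (x i)) := by
    rw [Finset.mul_sum, ← Finset.sum_add_distrib]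
    refine Finset.sum_le_sum fun i _ => ?_
    have h5 : 0 ≤ logHeight₁ (mob g (x i)) := zero_le_logHeight₁ _
    have h6 : (f.natDegree : ℝ) = q + g1.natDegree := by
      rw [hdf]
      push_cast
      ring
    rw [← add_mul, h6]
    refine mul_le_mul_of_nonneg_right ?_ h5
    nlinarith
  have h5 : ∑ i, (q - κ) * logHeight₁ (mob g (x i)) ≤
      ∑ v ∈ V, Real.log (Nv v) + c1 - g1.natDegree * ∑ i, logHeight₁ (mob g (x i)) := by
    linarith
  have h6 := mul_le_mul_of_nonneg_left h5 hd0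
  linarith

/-- no prime is counted if the equations of the divisor are `1 = 0` -/
theorem trn_zero {k : Type} [Field k] [NumberField k] {m q : ℕ}
    {A : Fin m → Type} [∀ i, CommRing (A i)] [∀ i, Algebra k (A i)] [∀ i, Algebra k[X] (A i)]
    (a : Fin q → k) {L : Type} [Field L] [NumberField L] [Algebra k L]
    (φ : ∀ i, A i →ₐ[k] L) :
    Pool.Agent.Y557.OE.trnU (∅ : Finset (HeightOneSpectrum (𝓞 k))) a (fun _ _ => 1)
      (fun _ _ _ => (1 : A _)) ∅ φ = 0 := by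
  classical
  unfold Pool.Agent.Y557.OE.trnU
  rw [finsum_eq_zero_of_forall_eq_zero]
  intro w
  refine if_neg ?_
  rintro ⟨-, ⟨i, -, j, -, h⟩ | ⟨p, hp, -⟩⟩
  · have h1 := h 0
    rw [map_one, map_one] at h1
    exact lt_irrefl _ h1
  · exact absurd hp (Finset.notMem_empty p)

/-- **the main theorem** -/
theorem main {m : ℕ} (hm : 0 < m) {κ : ℝ} (hκ : 0 < κ) :
    ∃ E : Set (Fin m → K), (∃ ν C : ℝ, 0 < ν ∧ ∀ H : ℝ, 0 ≤ H →
      ((E ∩ {x | htm x ≤ H}).ncard : ℝ) ≤ C * Real.exp ((2 * m - ν) * H)) ∧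
      ∀ (k : Type) [Field k] [NumberField k] [Algebra K k] (q : ℕ) (a : Fin q → k), 0 < q →
        Function.Injective a → (∀ j, (minpoly K (a j)).natDegree ≤ 5) →
        ∀ g : Fin 4 → K, dt g ≠ 0 → ∀ (A : Fin m → Type)
        [∀ i, CommRing (A i)] [∀ i, IsDedekindDomain (A i)] [∀ i, Algebra k (A i)]
        [∀ i, Algebra k[X] (A i)] [∀ i, IsScalarTower k k[X] (A i)]
        [∀ i, Module.Finite k[X] (A i)] [∀ i, FaithfulSMul k[X] (A i)]
        (I : ∀ i, Fin q → Ideal (A i)), (∀ i j, I i j = (Ideal.span {crd k (A i) -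
          algebraMap k (A i) (a j)}).radical) → ∃ c : ℝ, ∀ x : Fin m → K, x ∉ E →
          (∀ i, g 2 * x i + g 3 ≠ 0) → (∀ i j, algebraMap K k (mob g (x i)) ≠ a j) →
          ∀ (L : Type) [Field L] [NumberField L] [Algebra K L] [Algebra k L]
            [IsScalarTower K k L] (φ : ∀ i, A i →ₐ[k] L),
            (∀ i, φ i (crd k (A i)) = algebraMap K L (mob g (x i))) →
            ∑ i, (∑ j, (1 - (Module.finrank k (A i ⧸ I i j) : ℝ) / Module.finrank k[X] (A i)) -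
              κ) * logHeight₁ (mob g (x i)) ≤
                Real.log |(discr L : ℝ)| / Module.finrank K L - Real.log |(discr K : ℝ)| + c := by
  classical
  obtain ⟨E, hE0, hinj, hE⟩ := tuple_main K hm (κ := κ / 2) (by positivity)
  refine ⟨E, hE0, ?_⟩
  intro k _ _ _ q a hq ha hdeg g hg A _ _ _ _ _ _ _ I hI
  obtain ⟨c1, h1⟩ := hE k q a hq ha hdeg g hg
  have hIne : ∀ i j, I i j ≠ ⊥ := by
    intro i j h
    have h1 : crd k (A i) - algebraMap k (A i) (a j) ∈ I i j := by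
      rw [hI]
      exact Ideal.le_radical (Ideal.mem_span_singleton_self _)
    rw [h, Ideal.mem_bot, crd, IsScalarTower.algebraMap_apply k k[X] (A i), ← map_sub,
      map_eq_zero_iff _ (FaithfulSMul.algebraMap_injective k[X] (A i))] at h1
    exact X_sub_C_ne_zero (a j) h1
  obtain ⟨c2, h2⟩ := Pool.Agent.Y557.OE.levU (K := k) (k := k) hq a (fun _ _ => 1)
    (fun i _ _ => (1 : A i)) I hIne (fun i j l e he => by
      rw [one_mul]
      rw [hI] at he
      exact he) (G := ∅) (fun p hp => absurd hp (Finset.notMem_empty p))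
    (∅ : Finset (HeightOneSpectrum (𝓞 k))) (ε := κ / 2) (by positivity)
  obtain ⟨dk, hdk⟩ : ∃ dk : ℝ, dk = Module.finrank K k := ⟨_, rfl⟩
  have hfdk : FiniteDimensional K k := Module.Finite.of_restrictScalars_finite ℚ K k
  have hdk0 : 0 < dk := by rw [hdk]; exact_mod_cast Module.finrank_pos
  obtain ⟨l1, hl1⟩ : ∃ l1 : ℝ, l1 = Real.log |(discr k : ℝ)| := ⟨_, rfl⟩
  refine ⟨Real.log |(discr K : ℝ)| + (c1 + c2 - l1) / dk, ?_⟩
  intro x hx hgx hxa L _ _ _ _ _ φ hφ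
  obtain ⟨y, hy⟩ : ∃ y : Fin m → K, y = fun i => mob g (x i) := ⟨_, rfl⟩
  have hyi : ∀ i, mob g (x i) = y i := fun i => by rw [hy]
  simp only [hyi] at hφ hxa ⊢
  obtain ⟨z, hz⟩ : ∃ z : Fin m → k, z = fun i => algebraMap K k (y i) := ⟨_, rfl⟩
  have hzi : ∀ i, algebraMap K k (y i) = z i := fun i => by rw [hz]
  have hform : ∀ i j, Pool.Agent.TH876.KR.form (pK (a j)) (pt (z i)) ≠ 0 := by
    intro i j h
    have h3 : Pool.Agent.TH876.KR.form (pK (a j)) (pt (z i)) = a j - z i :=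
      Pool.Agent.Y728.AK.formK (a j) (z i)
    rw [h3, sub_eq_zero, ← hzi] at h
    exact hxa i j h.symm
  have hzinj : Function.Injective z := by
    intro i j hij
    rw [← hzi, ← hzi] at hij
    have h3 : y i = y j := (algebraMap K k).injective hij
    rw [← hyi, ← hyi] at h3
    exact hinj x hx (mob_inj hg (hgx i) (hgx j) h3)
  have h3 := h2 z hform hzinj L φ (by
    intro i
    rw [hφ i, IsScalarTower.algebraMap_apply K k L, hzi])
  rw [trn_zero, add_zero] at h3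
  obtain ⟨W, hW⟩ : ∃ W : Finset (Pr k), W =
    (bdT_fin (S := ((∅ : Finset (HeightOneSpectrum (𝓞 k))) : Set (HeightOneSpectrum (𝓞 k))))
      (a := fun j => pK (a j)) hform hzinj univ (G := ∅)
        (fun p hp => absurd hp (Finset.notMem_empty p))).toFinset := ⟨_, rfl⟩
  have hwt : Pool.Agent.Y728.MN.wt W = ∑ w ∈ W, Real.log (Nv w) := rfl
  rw [← hW, hwt, ← hl1] at h3
  have h4 := h1 x hx hgx (by
    intro i j
    rw [hyi]
    exact hxa i j) W (by
    intro w i hw1 hw2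
    obtain ⟨j, hw2⟩ := hw2
    rw [hyi, hzi] at hw1 hw2
    rw [hW, Set.Finite.mem_toFinset]
    refine ⟨fun h => absurd h (by simp), Or.inl ⟨(i, j), Finset.mem_univ _, ?_⟩⟩
    rw [← meet_iff]
    show Pool.Agent.Y728.MN.Meet w (pt (a j)) (pt (z i))
    rw [meet_pt, ← neg_sub, Valuation.map_neg]
    exact hw2.trans_le (one_le_mul (le_max_right _ _) (le_max_right _ _)))
  simp only [hyi] at h4
  rw [← hdk] at h4
  obtain ⟨dL, hdL⟩ : ∃ dL : ℝ, dL = Module.finrank k L := ⟨_, rfl⟩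
  have hfdL : FiniteDimensional k L := Module.Finite.of_restrictScalars_finite ℚ k L
  have hdL0 : 0 < dL := by rw [hdL]; exact_mod_cast Module.finrank_pos
  have htow : (Module.finrank K L : ℝ) = dk * dL := by
    rw [hdk, hdL]
    exact_mod_cast (Module.finrank_mul_finrank K k L).symm
  rw [← hdL] at h3
  have hht : ∀ i, logHeight₁ (z i) = dk * logHeight₁ (y i) := by
    intro i
    rw [← hzi, Pool.Agent.Y557.OE.ht_ext, hdk]
  obtain ⟨l2, hl2⟩ : ∃ l2 : ℝ, l2 = Real.log |(discr L : ℝ)| := ⟨_, rfl⟩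
  obtain ⟨R, hR⟩ : ∃ R : ℝ, R = ∑ i, (∑ j, (1 - (Module.finrank k (A i ⧸ I i j) : ℝ) /
    Module.finrank k[X] (A i)) - κ) * logHeight₁ (y i) := ⟨_, rfl⟩
  have e1 : R = ∑ i, (q - κ / 2) * logHeight₁ (y i) - ∑ i, ((∑ j, (Module.finrank k (A i ⧸ I i j) :
      ℝ)) / Module.finrank k[X] (A i) + κ / 2) * logHeight₁ (y i) := by
    rw [hR, ← Finset.sum_sub_distrib]
    refine Finset.sum_congr rfl fun i _ => ?_
    rw [Finset.sum_sub_distrib, Finset.sum_const, Finset.card_univ, Fintype.card_fin,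
      nsmul_eq_mul, mul_one, Finset.sum_div]
    ring
  have e2 : ∑ i, ((∑ j, (Module.finrank k (A i ⧸ I i j) : ℝ)) / Module.finrank k[X] (A i) +
      κ / 2) * logHeight₁ (z i) = dk * ∑ i, ((∑ j, (Module.finrank k (A i ⧸ I i j) : ℝ)) /
        Module.finrank k[X] (A i) + κ / 2) * logHeight₁ (y i) := by
    rw [Finset.mul_sum]
    refine Finset.sum_congr rfl fun i _ => ?_
    rw [hht]
    ring
  rw [e2, ← hl2] at h3
  rw [← hR, ← hl2, htow]
  have h5 := mul_le_mul_of_nonneg_left h4 hdL0.le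
  have h6 : dk * dL * R ≤ l2 + dL * (c1 + c2 - l1) := by
    rw [e1]
    nlinarith
  have h7 : R ≤ (l2 + dL * (c1 + c2 - l1)) / (dk * dL) := by
    rw [le_div_iff₀ (by positivity)]
    linarith
  have h8 : (l2 + dL * (c1 + c2 - l1)) / (dk * dL) = l2 / (dk * dL) + (c1 + c2 - l1) / dk := by
    field_simp
  linarith

end Pool.Agent.N753.SF
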