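import Mathlib
import Pool.Agent.N753.SF.Main
import Pool.Agent.Y557.NF.SimA

/-!
# One exceptional set for all finite subsets of the projective line of points of degree at most five
-/

set_option autoImplicit false
set_option linter.unusedSectionVars false

namespace Pool.Agent.N753.SF

open NumberField IsDedekindDomain Finset Pool.Agent.H691R3 Pool.Agent.TH876.Loc
open Pool.Agent.N753.LS Polynomial Height
open Pool.Agent.TH876.KR (form localHeight localHeight_nonneg localHeight_eq localHeight_pos_iff m2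
  form_le)
open Pool.Agent.Y730.QP (cnt log_Nv_le_localHeight term_nonneg)
open Pool.Agent.Y557.NF (cnt_eq_V exists_V ne_of_form)

variable {K k : Type} [Field K] [NumberField K] [Field k] [NumberField k] [Algebra K k]

/-- a field element outside a finite set of bad values -/
theorem exists_c {q : ℕ} (a : Fin q → Fin 2 → k) (ha : ∀ i, a i ≠ 0) :
    ∃ c : K, ∀ j, a j 0 - algebraMap K k c * a j 1 ≠ 0 := by
  have hfin : {c : K | ∃ j, a j 0 - algebraMap K k c * a j 1 = 0}.Finite := by
    have h1 : {c : K | ∃ j, a j 0 - algebraMap K k c * a j 1 = 0} =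
        ⋃ j, {c : K | a j 0 - algebraMap K k c * a j 1 = 0} := by
      ext c
      simp
    rw [h1]
    refine Set.finite_iUnion fun j => Set.Subsingleton.finite ?_
    intro c hc d hd
    have hc' : a j 0 - algebraMap K k c * a j 1 = 0 := hc
    have hd' : a j 0 - algebraMap K k d * a j 1 = 0 := hd
    have h2 : (algebraMap K k c - algebraMap K k d) * a j 1 = 0 := by
      linear_combination hd' - hc'
    rcases mul_eq_zero.1 h2 with h3 | h3
    · exact (algebraMap K k).injective (sub_eq_zero.1 h3)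
    · exfalso
      apply ha j
      have h4 : a j 0 = 0 := by
        rw [h3, mul_zero, sub_zero] at hc'
        exact hc'
      funext i
      fin_cases i
      · exact h4
      · exact h3
  obtain ⟨c, hc⟩ := hfin.exists_notMem
  refine ⟨c, fun j hj => hc ⟨j, hj⟩⟩

/-- the degree of the image under the transformation -/
theorem deg_le {a0 a1 : k} (c : K) (h : a0 - algebraMap K k c * a1 ≠ 0) {n : ℕ} (hn : 1 ≤ n)
    (hd : (minpoly K (a0 / a1)).natDegree ≤ n) :
    (minpoly K (a1 / (a0 - algebraMap K k c * a1))).natDegree ≤ n := by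
  have hfd : FiniteDimensional K k := Module.Finite.of_restrictScalars_finite ℚ K k
  by_cases h1 : a1 = 0
  · rw [h1, zero_div, minpoly.zero, natDegree_X]
    exact hn
  have hint : ∀ z : k, IsIntegral K z := fun z => Algebra.IsIntegral.isIntegral z
  have e : a1 / (a0 - algebraMap K k c * a1) = (a0 / a1 - algebraMap K k c)⁻¹ := by
    have h2 : a0 / a1 - algebraMap K k c = (a0 - algebraMap K k c * a1) / a1 := by
      field_simp
    rw [h2, inv_div]
  rw [e]
  rw [← IntermediateField.adjoin.finrank (hint _)] at hd ⊢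
  refine le_trans ?_ hd
  have hle : IntermediateField.adjoin K {(a0 / a1 - algebraMap K k c)⁻¹} ≤
      IntermediateField.adjoin K {a0 / a1} := by
    rw [IntermediateField.adjoin_simple_le_iff]
    refine inv_mem (sub_mem (IntermediateField.mem_adjoin_simple_self K _) ?_)
    exact IntermediateField.algebraMap_mem _ c
  exact Submodule.finrank_mono (s := (IntermediateField.adjoin K
    {(a0 / a1 - algebraMap K k c)⁻¹}).toSubalgebra.toSubmodule)
    (t := (IntermediateField.adjoin K {a0 / a1}).toSubalgebra.toSubmodule) hle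

theorem height_pair {x : Fin 2 → K} (h1 : x 1 ≠ 0) : logHeight x = logHeight₁ (x 0 / x 1) := by
  have e : x = x 1 • ![x 0 / x 1, 1] := by
    funext i
    fin_cases i
    · show x 0 = x 1 * (x 0 / x 1)
      field_simp
    · show x 1 = x 1 * 1
      ring
  conv_lhs => rw [e]
  rw [logHeight_smul_eq_logHeight _ h1, logHeight₁_eq_logHeight]

variable (K) in
open Classical in
/-- **one exceptional set for all finite subsets of the projective line** -/
theorem proj_main {ε : ℝ} (hε : 0 < ε) :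
    ∃ E : Set (Projectivization K (Fin 2 → K)),
      (∃ ν C : ℝ, 0 < ν ∧ ∀ B : ℝ, 1 ≤ B → ({P | P ∈ E ∧ P.mulHeight ≤ B}).Finite ∧
        (({P | P ∈ E ∧ P.mulHeight ≤ B}).ncard : ℝ) ≤ C * B ^ (2 - ν)) ∧
      ∀ (k : Type) [Field k] [NumberField k] [Algebra K k] (T : Set (Pr k)), T.Finite →
        ∀ (q : ℕ) (a : Fin q → Fin 2 → k), 0 < q → (∀ i, a i ≠ 0) →
          (∀ i j, i ≠ j → form (a i) (a j) ≠ 0) →
          (∀ i, (minpoly K (a i 0 / a i 1)).natDegree ≤ 5) →
          ∃ C : ℝ, ∀ (x : Fin 2 → K) (hx : x ≠ 0), Projectivization.mk K x hx ∉ E →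
            (∀ i, form (a i) (fun j => algebraMap K k (x j)) ≠ 0) →
            (Module.finrank K k : ℝ) * ((q - ε) * logHeight x) ≤
              cnt T a (fun j => algebraMap K k (x j)) + C := by
  obtain ⟨E0, ⟨ν, C0, hν, hE0⟩, -, hmain⟩ := tuple_main K (m := 1) one_pos hε
  have hne : ∀ y : K, (![y, 1] : Fin 2 → K) ≠ 0 := by
    intro y h
    have := congrFun h 1
    exact one_ne_zero (α := K) this
  refine ⟨{P | ∃ y : K, (fun _ => y) ∈ E0 ∧ P = Projectivization.mk K ![y, 1] (hne y)},
    ⟨ν, C0, hν, fun B hB => ?_⟩, ?_⟩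
  · have hfin0 : (E0 ∩ {x | htm x ≤ Real.log B}).Finite := (box_fin _).inter_of_right E0
    have hsub : {P | P ∈ {P | ∃ y : K, (fun _ => y) ∈ E0 ∧
        P = Projectivization.mk K ![y, 1] (hne y)} ∧ P.mulHeight ≤ B} ⊆
        (fun x : Fin 1 → K => Projectivization.mk K ![x 0, 1] (hne (x 0))) ''
          (E0 ∩ {x | htm x ≤ Real.log B}) := by
      rintro P ⟨⟨y, hy, rfl⟩, hP⟩
      refine ⟨fun _ => y, ⟨hy, ?_⟩, rfl⟩
      refine htm_le one_pos fun _ => ?_
      rw [Projectivization.mulHeight_mk] at hP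
      rw [logHeight₁_eq_logHeight, logHeight]
      exact Real.log_le_log (Height.mulHeight_pos _) hP
    refine ⟨(hfin0.image _).subset hsub, ?_⟩
    have h1 : ({P | P ∈ {P | ∃ y : K, (fun _ => y) ∈ E0 ∧
        P = Projectivization.mk K ![y, 1] (hne y)} ∧ P.mulHeight ≤ B}).ncard ≤
        (E0 ∩ {x | htm x ≤ Real.log B}).ncard :=
      (Set.ncard_le_ncard hsub (hfin0.image _)).trans (Set.ncard_image_le hfin0)
    have h2 := hE0 (Real.log B) (Real.log_nonneg hB)
    rw [Nat.cast_one, mul_one, mul_comm (2 - ν), ← Real.rpow_def_of_pos (by linarith)] at h2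
    exact le_trans (by exact_mod_cast h1) h2
  intro k _ _ _ T hT q a hq ha0 ha hdeg
  obtain ⟨c, hc⟩ := exists_c (K := K) a ha0
  -- the transformation and its inverse
  obtain ⟨g, hg⟩ : ∃ g : Fin 4 → K, g = ![0, 1, 1, -c] := ⟨_, rfl⟩
  have hdg : dt g ≠ 0 := by
    rw [hg]
    show (0 : K) * -c - 1 * 1 ≠ 0
    simp
  obtain ⟨g', hg'⟩ : ∃ g' : Fin 4 → K, g' = ![c, 1, 1, 0] := ⟨_, rfl⟩
  have hdg' : dt g' ≠ 0 := by
    rw [hg']
    show c * (0 : K) - 1 * 1 ≠ 0
    simp
  obtain ⟨C1, hC1, h1⟩ := mob_height g' hdg'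
  obtain ⟨b, hb⟩ : ∃ b : Fin q → k, b = fun j => a j 1 / (a j 0 - algebraMap K k c * a j 1) :=
    ⟨_, rfl⟩
  have hbj : ∀ j, b j = a j 1 / (a j 0 - algebraMap K k c * a j 1) := fun j => by rw [hb]
  have hbinj : Function.Injective b := by
    intro i j hij
    by_contra hne
    apply ha i j hne
    rw [hbj, hbj, div_eq_div_iff (hc i) (hc j)] at hij
    show a i 0 * a j 1 - a i 1 * a j 0 = 0
    linear_combination -hij
  have hbdeg : ∀ j, (minpoly K (b j)).natDegree ≤ 5 := by
    intro j
    rw [hbj]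
    exact deg_le c (hc j) (by norm_num) (hdeg j)
  obtain ⟨C2, h2⟩ := hmain k q b hq hbinj hbdeg g hdg
  -- the primes which are not counted
  obtain ⟨T', hT'⟩ : ∃ T' : Set (Pr k), T' = {w | 1 < fv w (algebraMap K k c)} := ⟨_, rfl⟩
  have hT'f : T'.Finite := by
    by_cases h0 : algebraMap K k c = 0
    · have : T' = ∅ := by
        rw [hT', h0]
        ext w
        simp only [Set.mem_ofPred_eq, map_zero, Set.mem_empty_iff_false, iff_false, not_lt]
        exact zero_le_one
      rw [this]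
      exact Set.finite_empty
    · refine (fv_support_finite h0).subset ?_
      intro w hw
      rw [hT'] at hw
      have hw' : 1 < fv w (algebraMap K k c) := hw
      exact hw'.ne'
  obtain ⟨TT, hTT⟩ : ∃ TT : Finset (Pr k), TT = (hT.union hT'f).toFinset := ⟨_, rfl⟩
  have hTTm : ∀ w, w ∈ TT ↔ w ∈ T ∨ w ∈ T' := fun w => by
    rw [hTT, Set.Finite.mem_toFinset]
    rfl
  obtain ⟨t, ht⟩ : ∃ t : ℝ, t = ∑ w ∈ TT, Real.log (Nv w) := ⟨_, rfl⟩
  have ht0 : 0 ≤ t := by
    rw [ht]
    exact Finset.sum_nonneg fun w _ => (log_Nv_pos w).le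
  obtain ⟨d, hd⟩ : ∃ d : ℝ, d = Module.finrank K k := ⟨_, rfl⟩
  have hd0 : 0 ≤ d := by rw [hd]; exact Nat.cast_nonneg _
  obtain ⟨s, hs⟩ : ∃ s : ℝ, s = |(q : ℝ) - ε| := ⟨_, rfl⟩
  have hs0 : 0 ≤ s := by rw [hs]; exact abs_nonneg _
  have hsq : (q : ℝ) - ε ≤ s := by rw [hs]; exact le_abs_self _
  obtain ⟨h0, hh0⟩ : ∃ h0 : ℝ, h0 = logHeight (![1, 0] : Fin 2 → K) + logHeight₁ c := ⟨_, rfl⟩
  have hh01 : logHeight (![1, 0] : Fin 2 → K) ≤ h0 := by
    rw [hh0]
    linarith [zero_le_logHeight₁ (K := K) c]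
  have hh02 : logHeight₁ c ≤ h0 := by
    rw [hh0]
    linarith [Height.logHeight_nonneg (![1, 0] : Fin 2 → K)]
  refine ⟨d * (s * h0) + d * (s * C1) + |C2| + t, ?_⟩
  intro x hx hxE hxa
  obtain ⟨xk, hxk⟩ : ∃ xk : Fin 2 → k, xk = fun j => algebraMap K k (x j) := ⟨_, rfl⟩
  rw [← hxk] at hxa ⊢
  rw [← hd]
  have hxk0 : xk 0 = algebraMap K k (x 0) := by rw [hxk]
  have hxk1 : xk 1 = algebraMap K k (x 1) := by rw [hxk]
  have hxne : xk ≠ 0 := (ne_of_form (hxa ⟨0, hq⟩)).2
  have hhn : 0 ≤ logHeight x := Height.logHeight_nonneg x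
  -- the counting function
  obtain ⟨V, hV⟩ := exists_V hxa hxne
  have hcnt := cnt_eq_V T V hV
  have hcnt0 : 0 ≤ cnt T a xk := by
    rw [hcnt]
    refine Finset.sum_nonneg fun w _ => ?_
    split_ifs
    · exact le_rfl
    · exact Finset.sum_nonneg fun i _ => term_nonneg w (hxa i)
  have hdC1 : 0 ≤ d * (s * C1) := by positivity
  have hC2 : 0 ≤ |C2| := abs_nonneg _
  have hh00 : 0 ≤ h0 := (Height.logHeight_nonneg _).trans hh01
  have hdh0 : 0 ≤ d * (s * h0) := by positivity
  -- the two special points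
  have hspec : logHeight x ≤ h0 → d * ((q - ε) * logHeight x) ≤
      cnt T a xk + (d * (s * h0) + d * (s * C1) + |C2| + t) := by
    intro hle
    have h3 : (q - ε) * logHeight x ≤ s * h0 :=
      (mul_le_mul_of_nonneg_right hsq hhn).trans (mul_le_mul_of_nonneg_left hle hs0)
    have h4 := mul_le_mul_of_nonneg_left h3 hd0
    linarith
  by_cases hx1 : x 1 = 0
  · apply hspec
    have hx0 : x 0 ≠ 0 := by
      intro h
      apply hx
      funext i
      fin_cases i
      · exact h
      · exact hx1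
    have e : x = x 0 • (![1, 0] : Fin 2 → K) := by
      funext i
      fin_cases i
      · show x 0 = x 0 * 1
        ring
      · show x 1 = x 0 * 0
        rw [hx1, mul_zero]
    rw [e, logHeight_smul_eq_logHeight _ hx0]
    exact hh01
  obtain ⟨y, hy⟩ : ∃ y : K, y = x 0 / x 1 := ⟨_, rfl⟩
  have hhy : logHeight x = logHeight₁ y := by rw [height_pair hx1, hy]
  by_cases hyc : y = c
  · apply hspec
    rw [hhy, hyc]
    exact hh02
  have hyc' : y - c ≠ 0 := sub_ne_zero.2 hyc
  have hx01 : x 0 - c * x 1 ≠ 0 := by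
    intro h
    apply hyc
    rw [hy, div_eq_iff hx1]
    exact sub_eq_zero.1 h
  have hyE : (fun _ => y : Fin 1 → K) ∉ E0 := by
    intro h
    apply hxE
    refine ⟨y, h, ?_⟩
    rw [Projectivization.mk_eq_mk_iff']
    refine ⟨x 1, ?_⟩
    funext i
    fin_cases i
    · show x 1 * y = x 0
      rw [hy]
      field_simp
    · show x 1 * 1 = x 1
      ring
  have hden : g 2 * y + g 3 = y - c := by
    rw [hg]
    show 1 * y + -c = y - c
    ring
  have hmy : mob g y = x 1 / (x 0 - c * x 1) := by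
    unfold mob
    rw [hden, hg]
    show (0 * y + 1) / (y - c) = _
    rw [hy]
    field_simp
    ring
  have hmyk : algebraMap K k (mob g y) = xk 1 / (xk 0 - algebraMap K k c * xk 1) := by
    rw [hmy, map_div₀, map_sub, map_mul, hxk0, hxk1]
  have hxk01 : xk 0 - algebraMap K k c * xk 1 ≠ 0 := by
    rw [hxk0, hxk1, ← map_mul, ← map_sub]
    rw [Ne, FaithfulSMul.algebraMap_eq_zero_iff]
    exact hx01
  have hdiff : ∀ j, algebraMap K k (mob g y) - b j = form (a j) xk /
      ((a j 0 - algebraMap K k c * a j 1) * (xk 0 - algebraMap K k c * xk 1)) := by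
    intro j
    rw [hmyk, hbj, div_sub_div _ _ hxk01 (hc j)]
    rw [div_eq_div_iff (mul_ne_zero hxk01 (hc j)) (mul_ne_zero (hc j) hxk01)]
    show _ = (a j 0 * xk 1 - a j 1 * xk 0) * _
    ring
  -- the primes at which the point is close to one of the given points
  obtain ⟨V', hV'⟩ : ∃ V' : Finset (Pr k), V' = V.filter fun w => ∃ i, localHeight w (a i) xk ≠ 0 :=
    ⟨_, rfl⟩
  have h3 := h2 (fun _ => y) hyE (fun _ => by rw [hden]; exact hyc') (fun _ j h => by
    have h4 := hdiff j
    rw [h, sub_self] at h4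
    rcases div_eq_zero_iff.1 h4.symm with h5 | h5
    · exact hxa j h5
    · exact mul_ne_zero (hc j) hxk01 h5) (V' ∪ TT) (by
    rintro w - hw1 ⟨j, hw2⟩
    rw [Finset.mem_union]
    by_cases hwT : w ∈ TT
    · exact Or.inr hwT
    left
    rw [hTTm, not_or] at hwT
    have hcw : fv w (algebraMap K k c) ≤ 1 := by
      have := hwT.2
      rw [hT'] at this
      exact not_lt.1 this
    have hpos : 0 < localHeight w (a j) xk := by
      rw [localHeight_pos_iff w (hxa j)]
      rw [← fv_lt_one, hdiff j, map_div₀, div_lt_one ((fv w).pos (mul_ne_zero (hc j) hxk01)),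
        map_mul] at hw2
      refine hw2.trans_le ?_
      have hle : ∀ z : Fin 2 → k, fv w (z 0 - algebraMap K k c * z 1) ≤ m2 w z := by
        intro z
        have h5 : fv w (z 0 - algebraMap K k c * z 1) ≤
            max (fv w (z 0)) (fv w (-(algebraMap K k c * z 1))) := by
          rw [sub_eq_add_neg]
          exact fv_na w _ _
        rw [(fv w).map_neg, map_mul] at h5
        refine h5.trans (max_le_max le_rfl ?_)
        have := (fv w).nonneg (z 1)
        nlinarith
      exact mul_le_mul (hle _) (hle _) ((fv w).nonneg _) (((fv w).nonneg _).trans (hle _))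
    rw [hV', Finset.mem_filter]
    refine ⟨?_, j, hpos.ne'⟩
    by_contra hcon
    exact hpos.ne' (hV w hcon j))
  rw [← hd] at h3
  have hsum1 : ∑ i : Fin 1, ((q : ℝ) - ε) * logHeight₁ (mob g ((fun _ => y : Fin 1 → K) i)) =
      (q - ε) * logHeight₁ (mob g y) := by
    rw [Fin.sum_univ_one]
  rw [hsum1] at h3
  have hV'le : ∑ w ∈ V' ∪ TT, Real.log (Nv w) ≤ cnt T a xk + t := by
    have h4 : ∑ w ∈ V' ∪ TT, Real.log (Nv w) ≤ ∑ w ∈ V' \ TT, Real.log (Nv w) + t := by
      rw [ht, ← Finset.sum_union (Finset.sdiff_disjoint)]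
      rw [Finset.sdiff_union_self_eq_union]
    refine h4.trans (add_le_add ?_ le_rfl)
    rw [hcnt]
    refine le_trans (Finset.sum_le_sum (g := fun w => if w ∉ T then
      ∑ i : Fin q, min (localHeight w (a i) xk) (Real.log (Nv w)) else 0) ?_)
      (Finset.sum_le_sum_of_subset_of_nonneg ?_ ?_)
    · intro w hw
      obtain ⟨hw1, hw2⟩ := Finset.mem_sdiff.1 hw
      rw [hV', Finset.mem_filter] at hw1
      obtain ⟨-, i, hi⟩ := hw1
      rw [hTTm, not_or] at hw2
      rw [if_pos hw2.1]
      have hpos : 0 < localHeight w (a i) xk :=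
        lt_of_le_of_ne (localHeight_nonneg w (hxa i)) hi.symm
      refine le_trans ?_ (Finset.single_le_sum (f := fun i => min (localHeight w (a i) xk)
        (Real.log (Nv w))) (fun j _ => term_nonneg w (hxa j)) (Finset.mem_univ i))
      exact le_min (log_Nv_le_localHeight w (hxa i) hpos) le_rfl
    · intro w hw
      obtain ⟨hw1, -⟩ := Finset.mem_sdiff.1 hw
      rw [hV', Finset.mem_filter] at hw1
      exact hw1.1
    · intro w _ _
      split_ifs
      · exact le_rfl
      · exact Finset.sum_nonneg fun i _ => term_nonneg w (hxa i)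
  have hC2' := le_abs_self C2
  have hfinal : d * ((q - ε) * logHeight₁ (mob g y)) ≤ cnt T a xk + t + |C2| := by linarith
  by_cases hqe : (0 : ℝ) ≤ q - ε
  · have hm0 : mob g y ≠ 0 := by
      rw [hmy]
      exact div_ne_zero hx1 hx01
    have h5 := h1 (mob g y) (by
      rw [hg']
      show 1 * mob g y + 0 ≠ 0
      rw [one_mul, add_zero]
      exact hm0)
    have h6 : mob g' (mob g y) = y := by
      have e : mob g' (mob g y) = (c * mob g y + 1) / (1 * mob g y + 0) := by rw [hg']; rfl
      rw [e, one_mul, add_zero, div_eq_iff hm0, hmy]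
      have e2 : c * (x 1 / (x 0 - c * x 1)) + 1 = x 0 / (x 0 - c * x 1) := by
        rw [eq_div_iff hx01, add_mul, mul_assoc, div_mul_cancel₀ _ hx01]
        ring
      rw [e2, hy]
      field_simp
    rw [h6] at h5
    rw [hhy]
    have h7 : (q - ε) * logHeight₁ y ≤ (q - ε) * logHeight₁ (mob g y) + s * C1 := by
      have h8 := mul_le_mul_of_nonneg_left h5 hqe
      have h9 : (q - ε) * C1 ≤ s * C1 := mul_le_mul_of_nonneg_right hsq hC1
      linarith
    have h8 := mul_le_mul_of_nonneg_left h7 hd0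
    linarith
  · rw [not_le] at hqe
    have h5 : (q - ε) * logHeight x ≤ 0 := mul_nonpos_of_nonpos_of_nonneg hqe.le hhn
    have h6 : d * ((q - ε) * logHeight x) ≤ 0 := mul_nonpos_of_nonneg_of_nonpos hd0 h5
    linarith

end Pool.Agent.N753.SF
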